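import Pool.Agent.TH806.Sh

set_option autoImplicit false

/-! The imaginary part of the twisted second moment of one monomial, and of an element of the algebra. -/

namespace Pool.Agent.K6.H29.A

open Finset Filter MeasureTheory MonoidAlgebra
open Pool.Agent.W184.NZ
open Pool.Agent.H306R2.SM (om cl Yf)
open Pool.Agent.H262R4.TM (Rng Ck)

theorem mono_im : ∃ η : ℝ, 0 < η ∧ ∀ᶠ Y : ℝ in atTop, ∀ k : ℕ, Rng Y k → ∀ x : ℕ × ℕ,
    x.1 ≠ 0 → x.2 ≠ 0 → (x.1 : ℝ) ≤ Y ^ ((1:ℝ) / 4) → (x.2 : ℝ) ≤ Y ^ ((1:ℝ) / 4) →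
    |∫ t in Set.Ioi (0:ℝ), wz k Y t * (mh t x).im| ≤ 2 * Y ^ (-η) := by
  obtain ⟨η, hη, h⟩ := Pool.Agent.H262R4.TM.f_TSM2 (1 / 4) (by norm_num)
  refine ⟨η, hη, ?_⟩
  filter_upwards [h, eventually_gt_atTop (3:ℝ), Real.tendsto_log_atTop.eventually_gt_atTop 1]
    with Y hY hY3 hL k hk x hx1 hx2 hx3 hx4
  obtain ⟨m, n⟩ := x
  simp only at hx1 hx2 hx3 hx4
  have hk0 : (0:ℝ) < k := by
    have := hk.1
    nlinarith
  have hY0 : 0 < Y := by linarith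
  have hδ : 0 < (k:ℝ) / Y := by positivity
  have hYf : 0 < Yf k Y := by unfold Yf; positivity
  set N := max m n with hN
  have hN1 : (N:ℝ) ≤ Y ^ ((1:ℝ) / 4) := by
    rw [hN]; push_cast; exact max_le hx3 hx4
  have hm : m ∈ Icc 1 N := by
    rw [mem_Icc]; exact ⟨Nat.pos_of_ne_zero hx1, le_max_left _ _⟩
  have hn : n ∈ Icc 1 N := by
    rw [mem_Icc]; exact ⟨Nat.pos_of_ne_zero hx2, le_max_right _ _⟩
  have key : ∀ (ε : ℂ) (F : ℕ → ℂ), ∑ j ∈ Icc 1 N,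
      ((if j = m then (1:ℂ) / 2 else 0) + (if j = n then ε / 2 else 0)) * F j = (F m + ε * F n) / 2 := by
    intro ε F
    have e1 : ∀ j ∈ Icc 1 N, ((if j = m then (1:ℂ) / 2 else 0) + (if j = n then ε / 2 else 0)) * F j =
        (if j = m then (1:ℂ) / 2 * F j else 0) + (if j = n then ε / 2 * F j else 0) := by
      intro j _
      rw [add_mul, ite_mul, ite_mul, zero_mul]
    rw [sum_congr rfl e1, sum_add_distrib, sum_ite_eq', sum_ite_eq', if_pos hm, if_pos hn]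
    ring
  have hcoef : ∀ (ε : ℂ), ‖ε‖ = 1 → ∀ j : ℕ,
      ‖(if j = m then (1:ℂ) / 2 else 0) + (if j = n then ε / 2 else 0)‖ ≤ 1 := by
    intro ε hε j
    refine (norm_add_le _ _).trans ?_
    have a1 : ‖(if j = m then (1:ℂ) / 2 else 0)‖ ≤ 1 / 2 := by
      split_ifs <;> norm_num
    have a2 : ‖(if j = n then ε / 2 else 0)‖ ≤ 1 / 2 := by
      split_ifs
      · rw [norm_div, hε]; norm_num
      · norm_num
    linarith
  have hmain : ∀ (ε : ℂ), ‖ε‖ = 1 → (starRingEnd ℂ) ε = -ε →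
      ‖((∫ t in Set.Ioi (0 : ℝ), wz k Y t *
        ‖((m : ℂ) ^ (-(cl t)) + ε * (n : ℂ) ^ (-(cl t))) / 2‖ ^ 2 : ℝ) : ℂ) -
        (((Mn k Y (m, m) : ℂ) + (-ε) * Mn k Y (m, n)) / 2 +
          ε * (((Mn k Y (n, m) : ℂ) + (-ε) * Mn k Y (n, n)) / 2)) / 2‖ ≤ Y ^ (-η) := by
    intro ε hε hε2
    have h1 := hY k hk N hN1 (fun j => (if j = m then (1:ℂ) / 2 else 0) + (if j = n then ε / 2 else 0))
      (hcoef ε hε)
    have e1 : ∀ t : ℝ, om k (k / Y) t * ‖riemannZeta (cl t)‖ ^ 2 * ‖∑ j ∈ Icc 1 N,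
        ((if j = m then (1:ℂ) / 2 else 0) + (if j = n then ε / 2 else 0)) * (j : ℂ) ^ (-(cl t))‖ ^ 2 =
        wz k Y t * ‖((m : ℂ) ^ (-(cl t)) + ε * (n : ℂ) ^ (-(cl t))) / 2‖ ^ 2 := by
      intro t
      rw [key ε (fun j => (j:ℂ) ^ (-(cl t)))]
      rfl
    simp_rw [e1] at h1
    have e2 : ∀ l : ℕ, (starRingEnd ℂ) ((if l = m then (1:ℂ) / 2 else 0) + (if l = n then ε / 2 else 0)) =
        (if l = m then (1:ℂ) / 2 else 0) + (if l = n then (-ε) / 2 else 0) := by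
      intro l
      rw [map_add, apply_ite (starRingEnd ℂ), apply_ite (starRingEnd ℂ), map_zero, map_div₀, map_div₀,
        map_one, map_ofNat, hε2]
    have e3 : ∀ h ∈ Icc 1 N, ∀ l ∈ Icc 1 N, ((1 / (Nat.lcm h l : ℝ) *
        (Real.log (Yf k Y * (Nat.gcd h l : ℝ) ^ 2 / ((h : ℝ) * l)) + Ck k) : ℝ) : ℂ) =
        (Mn k Y (h, l) : ℂ) := by
      intro h hh l hl
      rw [mem_Icc] at hh hl
      rw [Mn_eq hYf (by omega) (by omega)]
    have e4 : ∑ h ∈ Icc 1 N, ∑ l ∈ Icc 1 N,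
        ((if h = m then (1:ℂ) / 2 else 0) + (if h = n then ε / 2 else 0)) *
        (starRingEnd ℂ) ((if l = m then (1:ℂ) / 2 else 0) + (if l = n then ε / 2 else 0)) *
        ((1 / (Nat.lcm h l : ℝ) *
          (Real.log (Yf k Y * (Nat.gcd h l : ℝ) ^ 2 / ((h : ℝ) * l)) + Ck k) : ℝ) : ℂ) =
        (((Mn k Y (m, m) : ℂ) + (-ε) * Mn k Y (m, n)) / 2 +
          ε * (((Mn k Y (n, m) : ℂ) + (-ε) * Mn k Y (n, n)) / 2)) / 2 := by
      have e5 : ∀ h ∈ Icc 1 N, ∑ l ∈ Icc 1 N,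
        ((if h = m then (1:ℂ) / 2 else 0) + (if h = n then ε / 2 else 0)) *
        (starRingEnd ℂ) ((if l = m then (1:ℂ) / 2 else 0) + (if l = n then ε / 2 else 0)) *
        ((1 / (Nat.lcm h l : ℝ) *
          (Real.log (Yf k Y * (Nat.gcd h l : ℝ) ^ 2 / ((h : ℝ) * l)) + Ck k) : ℝ) : ℂ) =
        ((if h = m then (1:ℂ) / 2 else 0) + (if h = n then ε / 2 else 0)) *
          (((Mn k Y (h, m) : ℂ) + (-ε) * Mn k Y (h, n)) / 2) := by
        intro h hh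
        rw [← key (-ε) (fun l => (Mn k Y (h, l) : ℂ)), mul_sum]
        refine sum_congr rfl fun l hl => ?_
        rw [e2, e3 h hh l hl]; ring
      rw [sum_congr rfl e5, key ε (fun h => (((Mn k Y (h, m) : ℂ) + (-ε) * Mn k Y (h, n)) / 2))]
    rw [e4] at h1
    exact h1
  have hp := hmain Complex.I (by simp) (by simp)
  have hq := hmain (-Complex.I) (by simp) (by simp)
  have hcl : Continuous cl := by unfold cl; fun_prop
  have hcm : Continuous fun t : ℝ => (m : ℂ) ^ (-(cl t)) :=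
    Continuous.const_cpow (by fun_prop) (Or.inl (by exact_mod_cast hx1))
  have hcn : Continuous fun t : ℝ => (n : ℂ) ^ (-(cl t)) :=
    Continuous.const_cpow (by fun_prop) (Or.inl (by exact_mod_cast hx2))
  have hnm : ∀ (j : ℕ), j ≠ 0 → ∀ t : ℝ, ‖(j : ℂ) ^ (-(cl t))‖ ≤ 1 := by
    intro j hj t
    rw [Complex.norm_natCast_cpow_of_pos (Nat.pos_of_ne_zero hj)]
    refine Real.rpow_le_one_of_one_le_of_nonpos (by exact_mod_cast Nat.pos_of_ne_zero hj) ?_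
    unfold cl; simp
  have hi : ∀ ε : ℂ, ‖ε‖ = 1 → IntegrableOn (fun t => wz k Y t *
      ‖((m : ℂ) ^ (-(cl t)) + ε * (n : ℂ) ^ (-(cl t))) / 2‖ ^ 2) (Set.Ioi 0) := by
    intro ε hε
    refine wz_int k hδ (C := 1) (by fun_prop) fun t => ?_
    rw [abs_of_nonneg (by positivity)]
    refine pow_le_one₀ (norm_nonneg _) ?_
    rw [norm_div]
    have a1 := norm_add_le ((m : ℂ) ^ (-(cl t))) (ε * (n : ℂ) ^ (-(cl t)))
    rw [norm_mul, hε, one_mul] at a1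
    have a2 := hnm m hx1 t
    have a3 := hnm n hx2 t
    rw [div_le_one (by simp)]
    norm_num
    linarith
  have hZ : ∫ t in Set.Ioi (0:ℝ), wz k Y t * (mh t (m, n)).im = (∫ t in Set.Ioi (0 : ℝ), wz k Y t *
        ‖((m : ℂ) ^ (-(cl t)) + Complex.I * (n : ℂ) ^ (-(cl t))) / 2‖ ^ 2) - ∫ t in Set.Ioi (0 : ℝ), wz k Y t *
        ‖((m : ℂ) ^ (-(cl t)) + (-Complex.I) * (n : ℂ) ^ (-(cl t))) / 2‖ ^ 2 := by
    rw [← integral_sub (hi Complex.I (by simp)) (hi (-Complex.I) (by simp))]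
    refine setIntegral_congr_fun measurableSet_Ioi fun t _ => ?_
    rw [← mul_sub, mh_eq t m hx2]
    congr 1
    rw [Complex.sq_norm, Complex.sq_norm, Complex.normSq_apply, Complex.normSq_apply]
    simp
    ring
  have e6 : ((∫ t in Set.Ioi (0:ℝ), wz k Y t * (mh t (m, n)).im : ℝ) : ℂ) =
      (((∫ t in Set.Ioi (0 : ℝ), wz k Y t *
        ‖((m : ℂ) ^ (-(cl t)) + Complex.I * (n : ℂ) ^ (-(cl t))) / 2‖ ^ 2 : ℝ) : ℂ) -
        (((Mn k Y (m, m) : ℂ) + (-Complex.I) * Mn k Y (m, n)) / 2 +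
          Complex.I * (((Mn k Y (n, m) : ℂ) + (-Complex.I) * Mn k Y (n, n)) / 2)) / 2) -
      (((∫ t in Set.Ioi (0 : ℝ), wz k Y t *
        ‖((m : ℂ) ^ (-(cl t)) + (-Complex.I) * (n : ℂ) ^ (-(cl t))) / 2‖ ^ 2 : ℝ) : ℂ) -
        (((Mn k Y (m, m) : ℂ) + (-(-Complex.I)) * Mn k Y (m, n)) / 2 +
          (-Complex.I) * (((Mn k Y (n, m) : ℂ) + (-(-Complex.I)) * Mn k Y (n, n)) / 2)) / 2) := by
    rw [hZ, Mn_symm k Y n m]
    push_cast
    ring
  rw [← Real.norm_eq_abs, ← Complex.norm_real, e6]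
  refine (norm_sub_le _ _).trans ?_
  linarith

lemma ev_im (t : ℝ) (f : DA) : (ev t f).im = ∑ x ∈ f.coeff.support, f.coeff x * (mh t x).im := by
  rw [ev_apply, Complex.im_sum]
  exact sum_congr rfl fun x _ => Complex.im_ofReal_mul _ _

theorem avg_im {k : ℕ} {Y : ℝ} {e N : ℝ} (hY : 0 < Y) (hk : 1 ≤ k)
    (hm : ∀ x : ℕ × ℕ, x.1 ≠ 0 → x.2 ≠ 0 → (x.1 : ℝ) ≤ N → (x.2 : ℝ) ≤ N →
      |∫ t in Set.Ioi (0:ℝ), wz k Y t * (mh t x).im| ≤ e)
    {f : DA} (hf : Bd N f) :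
    |∫ t in Set.Ioi (0:ℝ), wz k Y t * (ev t f).im| ≤ e * l1 f := by
  have hk0 : (0:ℝ) < (k:ℝ) / Y := by
    have : (0:ℝ) < k := by exact_mod_cast hk
    positivity
  have h1 : ∫ t in Set.Ioi (0:ℝ), wz k Y t * (ev t f).im =
      ∑ x ∈ f.coeff.support, f.coeff x * ∫ t in Set.Ioi (0:ℝ), wz k Y t * (mh t x).im := by
    simp_rw [ev_im, mul_sum]
    rw [integral_finsetSum]
    · refine sum_congr rfl fun x _ => ?_
      rw [← integral_const_mul]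
      refine integral_congr_ae (Eventually.of_forall fun t => ?_)
      simp only
      ring
    · intro x hx
      have := wz_int k hk0 (f := fun t => f.coeff x * (mh t x).im) (C := |f.coeff x|)
        (continuous_const.mul (Complex.continuous_im.comp (mh_cont (hf x hx).1.1 (hf x hx).1.2)))
        (fun t => by
          rw [abs_mul]
          exact mul_le_of_le_one_right (abs_nonneg _)
            ((Complex.abs_im_le_norm _).trans (mh_norm_le (hf x hx).1.1 (hf x hx).1.2)))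
      exact this
  rw [h1, l1, mul_sum]
  refine (abs_sum_le_sum_abs _ _).trans (sum_le_sum fun x hx => ?_)
  rw [abs_mul, mul_comm]
  exact mul_le_mul_of_nonneg_right (hm x (hf x hx).1.1 (hf x hx).1.2 (hf x hx).2.1 (hf x hx).2.2) (abs_nonneg _)

theorem two_avg_im : ∃ η : ℝ, 0 < η ∧ ∀ᶠ T : ℝ in atTop, ∀ k : ℕ, Rng T k → ∀ f : DA, Bd (T ^ ((1:ℝ) / 4)) f →
    |∫ t in Set.Ioi (0:ℝ), wz k T t * (ev t f).im| ≤ 2 * T ^ (-η) * l1 f := by
  obtain ⟨η, hη, h⟩ := mono_im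
  refine ⟨η, hη, ?_⟩
  filter_upwards [h, eventually_gt_atTop (0:ℝ), Real.tendsto_log_atTop.eventually_ge_atTop 1] with T hT hT0 hL k hk f hf
  have hk1 : 1 ≤ k := by
    have := hk.1
    have h2 : (0:ℝ) < k := lt_of_lt_of_le (by positivity) this
    exact_mod_cast h2
  exact avg_im hT0 hk1 (hT k hk) hf

/-- the sharp form -/
theorem sharp_im : ∃ η : ℝ, 0 < η ∧ η ≤ 1 / 8 ∧ ∀ (κ c : ℝ), 0 < κ → ∀ᶠ T : ℝ in atTop, ∀ k : ℕ, Rng T k → ∀ f : DA,
    Bd (T ^ ((1:ℝ) / 4)) f → l1 f ≤ T ^ η →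
    |∫ t in Set.Ioi (0:ℝ), wz k T t * (ev t f).im| ≤ κ * Real.exp (-c) := by
  obtain ⟨η, hη, h⟩ := two_avg_im
  refine ⟨min (η / 2) (1 / 8), by positivity, min_le_right _ _, fun κ c hκ => ?_⟩
  have hsm : ∀ᶠ T : ℝ in atTop, 2 * T ^ (-(η / 2)) ≤ κ * Real.exp (-c) := by
    have h1 := (tendsto_rpow_neg_atTop (y := η / 2) (by positivity)).const_mul 2
    rw [mul_zero] at h1
    exact h1.eventually_le_const (by positivity)
  filter_upwards [h, eventually_ge_atTop (1:ℝ), hsm] with T hT hT1 hsm k hk f hf hl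
  have hT0 : 0 < T := by linarith
  refine (hT k hk f hf).trans (le_trans ?_ hsm)
  have h4 : l1 f ≤ T ^ (η / 2) := hl.trans (Real.rpow_le_rpow_of_exponent_le hT1 (min_le_left _ _))
  calc 2 * T ^ (-η) * l1 f ≤ 2 * T ^ (-η) * T ^ (η / 2) := by gcongr
    _ = 2 * T ^ (-(η / 2)) := by rw [mul_assoc, ← Real.rpow_add hT0]; congr 2; ring

end Pool.Agent.K6.H29.A
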