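import Pool.Agent.K6.H29.A1

set_option autoImplicit false

/-! The twisted multipliers of small exponent. -/

namespace Pool.Agent.K6.H29.A

open Finset Filter MeasureTheory MonoidAlgebra
open Pool.Agent.W184.NZ
open Pool.Agent.TH806
open Pool.Agent.H306R2.SM (om cl Yf)
open Pool.Agent.H262R4.TM (Rng Ck)

noncomputable section

/-- the trigonometric weight, between `1` and `3` -/
def Wt (D r s t : ℝ) : ℝ := 2 + (r * Real.cos (t * D) + s * Real.sin (t * D))

lemma Wt_bd {r s : ℝ} (h : |r| + |s| ≤ 1) (D t : ℝ) : 1 ≤ Wt D r s t ∧ Wt D r s t ≤ 3 := by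
  have h1 : |r * Real.cos (t * D)| ≤ |r| := by
    rw [abs_mul]; exact mul_le_of_le_one_right (abs_nonneg _) (Real.abs_cos_le_one _)
  have h2 : |s * Real.sin (t * D)| ≤ |s| := by
    rw [abs_mul]; exact mul_le_of_le_one_right (abs_nonneg _) (Real.abs_sin_le_one _)
  have h3 := abs_le.mp h1
  have h4 := abs_le.mp h2
  unfold Wt
  constructor <;> linarith [h3.1, h3.2, h4.1, h4.2]

lemma Wt_cont (D r s : ℝ) : Continuous (Wt D r s) := by unfold Wt; fun_prop

lemma Wt_add (D r s t : ℝ) : Wt D r s t + Wt D (-r) (-s) t = 4 := by unfold Wt; ring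

lemma mh_im (t : ℝ) {m n : ℕ} (hm : m ≠ 0) (hn : n ≠ 0) :
    (mh t (m, n)).im = ((m:ℝ) * n) ^ (-(1 / 2 : ℝ)) * Real.sin (t * (Real.log n - Real.log m)) := by
  have m0 : (0:ℝ) < m := by exact_mod_cast Nat.pos_of_ne_zero hm
  have n0 : (0:ℝ) < n := by exact_mod_cast Nat.pos_of_ne_zero hn
  have e0 : mh t (m, n) = (m : ℂ) ^ (-(1 / 2 + t * Complex.I)) * (n : ℂ) ^ (-(1 / 2 - t * Complex.I)) := rfl
  have mc : (m:ℂ) ≠ 0 := by exact_mod_cast hm
  have nc : (n:ℂ) ≠ 0 := by exact_mod_cast hn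
  have e1 : ((m:ℝ) * n) ^ (-(1 / 2 : ℝ)) = Real.exp (-(Real.log m + Real.log n) / 2) := by
    rw [Real.rpow_def_of_pos (by positivity), Real.log_mul m0.ne' n0.ne']
    congr 1; ring
  have e2 : mh t (m, n) = ((Real.exp (-(Real.log m + Real.log n) / 2) : ℝ) : ℂ) *
      Complex.exp (((t * (Real.log n - Real.log m) : ℝ) : ℂ) * Complex.I) := by
    rw [e0, Complex.cpow_def_of_ne_zero mc, Complex.cpow_def_of_ne_zero nc, ← Complex.exp_add,
      Complex.ofReal_exp, ← Complex.exp_add, ← Complex.natCast_log, ← Complex.natCast_log]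
    congr 1
    push_cast
    ring
  rw [e2, Complex.im_ofReal_mul, e1, Complex.exp_ofReal_mul_I_im]

section
variable {c y : ℝ} {J Rs : ℕ}

lemma gq_eq' (h : Rg c J (II y) (bb y)) (lm : ℕ → ℝ) (a : ℝ) (Rs : ℕ) (t : ℝ) :
    ev t (GQ lm J a (RR Rs) (II y)) = ((gq lm J a (RR Rs) (II y) t : ℝ) : ℂ) :=
  ev_GQ t lm J a (RR Rs) (fun i p hp => (h.pr i p hp).1)

lemma GQ_mem (h : Rg c J (II y) (bb y)) (lm : ℕ → ℝ) (a : ℝ) (Rs : ℕ) :
    GQ lm J a (RR Rs) (II y) ∈ SA (MI ((range J).biUnion (II y))) := by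
  unfold GQ
  refine Subalgebra.prod_mem _ fun i hi => ?_
  exact SA_mono (subset_biUnion_of_mem (II y) hi) (gl_mem (fun p hp => (h.pr i p hp).1) _ _ _)

lemma E_ge' (hc : |∑ i ∈ range J, vI (II y i) - Real.log (Real.log y)| ≤ c) (hy : 144 ≤ y) {α L : ℝ}
    (hα : |α| ≤ 1 / 8) (hL : 1 ≤ L) (hyL : Real.log y ≤ L) :
    Real.exp (-c) / L ≤ Real.exp ((α ^ 2 + 2 * α) * ∑ i ∈ range J, vI (II y i)) := by
  obtain ⟨hα1, hα2⟩ := abs_le.mp hα
  have hly : 1 < Real.log y := by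
    have := Real.exp_one_lt_d9
    rw [Real.lt_log_iff_exp_lt (by linarith)]; linarith
  have hV0 : 0 ≤ ∑ i ∈ range J, vI (II y i) := sum_nonneg fun _ _ => vI_nonneg _
  have hV1 : ∑ i ∈ range J, vI (II y i) ≤ Real.log L + c := by
    have h1 := (abs_le.mp hc).2
    have h2 : Real.log (Real.log y) ≤ Real.log L := Real.log_le_log (by linarith) hyL
    linarith
  have h3 : -1 ≤ α ^ 2 + 2 * α := by nlinarith
  have e : Real.exp (-c) / L = Real.exp (-(Real.log L + c)) := by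
    rw [neg_add, Real.exp_add, Real.exp_neg (Real.log L), Real.exp_log (by linarith)]
    field_simp
  rw [e]
  apply Real.exp_le_exp.mpr
  nlinarith

end

lemma arithW {κ L E P u I0 Ir Ii e : ℝ} (hκ : 0 < κ) (hκ1 : κ ≤ 1 / 8) (hL : 0 ≤ L) (hE : 0 ≤ E) (hP : 0 ≤ P)
    (h1 : P ≤ E * Real.exp (2 * κ)) (h2 : E * Real.exp (-(2 * κ)) ≤ P) {r s : ℝ} (hrs : |r| + |s| ≤ 1)
    (hu0 : 0 ≤ u) (hu1 : u ≤ 1) (he : e ≤ κ * (L * E))
    (h0 : |I0 - L * P| ≤ 2 * κ * (L * P) + e) (hr : |Ir - L * P * u| ≤ 2 * κ * (L * P) + e) (hi : |Ii| ≤ e) :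
    |2 * I0 + (r * Ir + s * Ii) - L * E * (2 + r * u)| ≤ 25 * κ * (L * E) := by
  have hLE : 0 ≤ L * E := mul_nonneg hL hE
  have h4 : Real.exp (2 * κ) ≤ 1 + 3 * κ := by
    have h5 := Real.exp_bound' (x := 2 * κ) (by positivity) (by linarith) (n := 2) (by norm_num)
    norm_num [Finset.sum_range_succ, Nat.factorial] at h5
    nlinarith
  have h6 : L * P ≤ L * E * (1 + 3 * κ) := by
    calc L * P ≤ L * (E * Real.exp (2 * κ)) := mul_le_mul_of_nonneg_left h1 hL
      _ = L * E * Real.exp (2 * κ) := by ring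
      _ ≤ _ := mul_le_mul_of_nonneg_left h4 hLE
  have h4' : 1 - 2 * κ ≤ Real.exp (-(2 * κ)) := by
    have := Real.add_one_le_exp (-(2 * κ)); linarith
  have h7 : L * E * (1 - 2 * κ) ≤ L * P := by
    calc L * E * (1 - 2 * κ) ≤ L * E * Real.exp (-(2 * κ)) := mul_le_mul_of_nonneg_left h4' hLE
      _ = L * (E * Real.exp (-(2 * κ))) := by ring
      _ ≤ _ := mul_le_mul_of_nonneg_left h2 hL
  have h8 : |L * P - L * E| ≤ 3 * κ * (L * E) := by
    rw [abs_le]; constructor <;> nlinarith [mul_nonneg hLE hκ.le]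
  have hLP : 0 ≤ L * P := mul_nonneg hL hP
  have h9 : L * P ≤ 11 / 8 * (L * E) := by nlinarith
  have hr1 : |r| ≤ 1 := by linarith [abs_nonneg s]
  have hs1 : |s| ≤ 1 := by linarith [abs_nonneg r]
  have e1 : 2 * I0 + (r * Ir + s * Ii) - L * E * (2 + r * u) =
      2 * (I0 - L * P) + r * (Ir - L * P * u) + s * Ii + (L * P - L * E) * (2 + r * u) := by ring
  rw [e1]
  have h10 : |r * u| ≤ 1 := by
    rw [abs_mul, abs_of_nonneg hu0]; exact mul_le_one₀ hr1 hu0 hu1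
  have h11 : |2 + r * u| ≤ 3 := by
    have := abs_add_le 2 (r * u)
    rw [abs_of_nonneg (by norm_num : (0:ℝ) ≤ 2)] at this
    linarith
  have a1 : |2 * (I0 - L * P)| ≤ 2 * (2 * κ * (L * P) + e) := by
    rw [abs_mul, abs_of_nonneg (by norm_num : (0:ℝ) ≤ 2)]; linarith
  have a2 : |r * (Ir - L * P * u)| ≤ 2 * κ * (L * P) + e := by
    rw [abs_mul]; exact (mul_le_of_le_one_left (abs_nonneg _) hr1).trans hr
  have a3 : |s * Ii| ≤ e := by
    rw [abs_mul]; exact (mul_le_of_le_one_left (abs_nonneg _) hs1).trans hi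
  have a4 : |(L * P - L * E) * (2 + r * u)| ≤ 3 * κ * (L * E) * 3 := by
    rw [abs_mul]; exact mul_le_mul h8 h11 (abs_nonneg _) (by positivity)
  have a5 := abs_add_le (2 * (I0 - L * P) + r * (Ir - L * P * u) + s * Ii) ((L * P - L * E) * (2 + r * u))
  have a6 := abs_add_le (2 * (I0 - L * P) + r * (Ir - L * P * u)) (s * Ii)
  have a7 := abs_add_le (2 * (I0 - L * P)) (r * (Ir - L * P * u))
  have a8 : 2 * κ * (L * P) ≤ 2 * κ * (11 / 8 * (L * E)) := mul_le_mul_of_nonneg_left h9 (by positivity)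
  nlinarith [mul_nonneg hκ.le hLE]

/-- two-sided windows for the twisted multipliers -/
theorem gqW_win {h l : ℕ} (hh : h ≠ 0) (hl : l ≠ 0) (hco : Nat.Coprime h l) : ∃ η : ℝ, 0 < η ∧ η ≤ 1 / 8 ∧
    ∀ (κ c c' : ℝ) (Rs : ℕ), 0 < κ → κ ≤ 1 / 8 → 0 ≤ c → Rok c Rs →
    4 * Bc c * Real.exp (-(Rs:ℝ)) ≤ κ → ∀ᶠ T : ℝ in atTop, ∀ k : ℕ, Rng T k → ∀ (y a : ℝ) (J : ℕ) (lm : ℕ → ℝ),
    144 ≤ y → Rg c J (II y) (bb y) → |∑ i ∈ range J, vI (II y i) - Real.log (Real.log y)| ≤ c' →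
    (∀ i < J, ∀ p ∈ II y i, ¬ (p ∣ h ∨ p ∣ l)) →
    320 * ((Rs:ℝ) + 1) * Real.log y ≤ η * Real.log T →
    320 * ((Rs:ℝ) + 1) * (Cl2 c + Cl3 c) * Real.log y ≤ κ * Real.log T → |a| ≤ 1 / 16 → 12 * a ^ 2 * c ≤ κ →
    (∀ i, 0 ≤ lm i) → (∀ i, lm i ≤ Real.exp (RR Rs i)) → ∀ r s : ℝ, |r| + |s| ≤ 1 →
    |(∫ t in Set.Ioi (0:ℝ), wz k T t * (gq lm J a (RR Rs) (II y) t * Wt (Real.log l - Real.log h) r s t)) -
      Real.log T * Real.exp ((a ^ 2 + 2 * a) * ∑ i ∈ range J, vI (II y i)) *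
        (2 + r * ((h:ℝ) * l) ^ (-(1 / 2 : ℝ)))| ≤
      25 * κ * (Real.log T * Real.exp ((a ^ 2 + 2 * a) * ∑ i ∈ range J, vI (II y i))) := by
  obtain ⟨η1, hη1, hη18, hS⟩ := sharp_gen
  obtain ⟨η2, hη2, hη28, hI⟩ := sharp_im
  refine ⟨min η1 η2, lt_min hη1 hη2, (min_le_left _ _).trans hη18, fun κ c c' Rs hκ hκ1 hc0 hRs hB => ?_⟩
  have h0 : (0:ℝ) < h := by exact_mod_cast Nat.pos_of_ne_zero hh
  have l0 : (0:ℝ) < l := by exact_mod_cast Nat.pos_of_ne_zero hl
  have h1' : (1:ℝ) ≤ h := by exact_mod_cast Nat.pos_of_ne_zero hh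
  have l1' : (1:ℝ) ≤ l := by exact_mod_cast Nat.pos_of_ne_zero hl
  set q : ℝ := (h:ℝ) * l with hq
  have hq0 : 0 < q := by positivity
  have hq1 : 1 ≤ q := by nlinarith
  have hqh : (h:ℝ) ≤ q := by nlinarith
  have hql : (l:ℝ) ≤ q := by nlinarith
  set u : ℝ := q ^ (-(1 / 2 : ℝ)) with hu
  have hu0 : 0 < u := Real.rpow_pos_of_pos hq0 _
  have hu1 : u ≤ 1 := Real.rpow_le_one_of_one_le_of_nonpos hq1 (by norm_num)
  have huu : u * u = 1 / q := by
    rw [hu, ← Real.rpow_add hq0]; norm_num; rw [Real.rpow_neg_one]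
  have huq : 1 / u ≤ q := by
    rw [div_le_iff₀ hu0]
    have h1 : q * u * u = 1 := by rw [mul_assoc, huu]; field_simp
    nlinarith [mul_nonneg (mul_nonneg hq0.le hu0.le) (sub_nonneg.mpr hu1)]
  have hqe : q * Real.exp (-(c' + q)) ≤ Real.exp (-c') := by
    rw [neg_add, Real.exp_add, Real.exp_neg q]
    have h2 := Real.add_one_le_exp q
    have h3 : q * (Real.exp q)⁻¹ ≤ 1 := by
      rw [mul_inv_le_iff₀ (Real.exp_pos _)]; linarith
    calc q * (Real.exp (-c') * (Real.exp q)⁻¹) = Real.exp (-c') * (q * (Real.exp q)⁻¹) := by ring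
      _ ≤ Real.exp (-c') * 1 := mul_le_mul_of_nonneg_left h3 (Real.exp_pos _).le
      _ = _ := mul_one _
  have hTq : ∀ᶠ T : ℝ in atTop, q ≤ T ^ ((1:ℝ) / 8) :=
    (tendsto_rpow_atTop (y := 1 / 8) (by norm_num)).eventually_ge_atTop q
  filter_upwards [hS κ (c' + q) hκ, hI κ (c' + q) hκ, eventually_ge_atTop (1:ℝ),
    Real.tendsto_log_atTop.eventually_ge_atTop 1, Real.tendsto_log_atTop.eventually_ge_atTop (2 * Real.log q / κ),
    hTq] with T hT hTi hT1 hL hLq hTq k hk y a J lm hy144 hRg hVV hdv hy1 hy2 ha hac hl0 hl1 r s hrs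
  have hT0 : 0 < T := by linarith
  have hy : 1 ≤ y := by linarith
  have hly : 0 ≤ Real.log y := Real.log_nonneg hy
  set L := Real.log T with hLd
  have hL0 : 0 ≤ L := by linarith
  set V := ∑ i ∈ range J, vI (II y i) with hV
  set E := Real.exp ((a ^ 2 + 2 * a) * V) with hE
  have hRs1 : (1:ℝ) ≤ Rs := by exact_mod_cast hRs.1
  have hηL : min η1 η2 * L ≤ η1 * L := mul_le_mul_of_nonneg_right (min_le_left _ _) hL0
  have hηL2 : min η1 η2 * L ≤ η2 * L := mul_le_mul_of_nonneg_right (min_le_right _ _) hL0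
  have hη8L : min η1 η2 * L ≤ 1 / 8 * L := mul_le_mul_of_nonneg_right ((min_le_left _ _).trans hη18) hL0
  set X := ((Rs:ℝ) + 1) * Real.log y with hX
  have hX0 : 0 ≤ X := by positivity
  have hX1 : 320 * X ≤ min η1 η2 * L := le_trans (le_of_eq (by rw [hX]; ring)) hy1
  have hX2 : 320 * (X * (Cl2 c + Cl3 c)) ≤ κ * L := le_trans (le_of_eq (by rw [hX]; ring)) hy2
  have hyX : Real.log y ≤ X := by
    rw [hX]; exact le_mul_of_one_le_left hly (by linarith)
  have e8 : Real.log y * (8 * ((Rs:ℝ) + 1)) = 8 * X := by rw [hX]; ring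
  have e16 : Real.log y * (16 * ((Rs:ℝ) + 1)) = 16 * X := by rw [hX]; ring
  have hyL : Real.log y ≤ L := by linarith only [hyX, hX1, hη8L, hX0, hL0]
  have hEge : Real.exp (-c') / L ≤ E := E_ge' hVV hy144 (by linarith) hL hyL
  have hEc : Real.exp (-c') ≤ L * E := by
    rw [div_le_iff₀ (by linarith)] at hEge; linarith
  set G := GQ lm J a (RR Rs) (II y) with hG
  have hk1 : 1 ≤ k := by
    have := hk.1
    have h2 : (0:ℝ) < k := lt_of_lt_of_le (by positivity) this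
    exact_mod_cast h2
  have hδ : 0 < (k:ℝ) / T := by
    have : (0:ℝ) < k := by exact_mod_cast hk1
    positivity
  -- sizes of `G`
  have gB : Bd (T ^ ((1:ℝ) / 8)) G := by
    refine (GQ_Bd (Rs := Rs) hy hRg a).mono ?_
    rw [Real.rpow_def_of_pos hT0, ← hLd, e8]
    apply Real.exp_le_exp.mpr
    linarith only [hX1, hη8L, hX0, hL0]
  have gB4 : Bd (T ^ ((1:ℝ) / 4)) G := gB.mono (Real.rpow_le_rpow_of_exponent_le hT1 (by norm_num))
  have gl0 : l1 G ≤ Real.exp (Real.log y * (16 * ((Rs:ℝ) + 1))) := GQ_l1 hy hRg hRs.1 (by linarith) hl0 hl1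
  have gl1 : l1 G ≤ T ^ η1 := by
    refine gl0.trans ?_
    rw [Real.rpow_def_of_pos hT0, ← hLd, e16]
    apply Real.exp_le_exp.mpr
    linarith only [hX1, hηL, hX0]
  have gl2 : l1 G ≤ T ^ η2 := by
    refine gl0.trans ?_
    rw [Real.rpow_def_of_pos hT0, ← hLd, e16]
    apply Real.exp_le_exp.mpr
    linarith only [hX1, hηL2, hX0]
  have g3 := GQ_low goodW1 hc0 hRg hRs (RR_ge Rs) ha hl0
  have g4 := GQ_up goodW1 hc0 hRg hRs (RR_ge Rs) ha hl0 hl1
  have g5 := GQ_log' hc0 hy hRg hRs ha hl0 hl1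
  rw [← hG] at g3 g4 g5
  set P := lam w1 G with hP
  have hP0 : 0 ≤ P := le_trans (Real.exp_pos _).le g3
  have a1 := Cl2_pos c
  have a2 := Cl3_pos c
  have hy3 : 16 * ((Rs:ℝ) + 1) * Cl3 c * Real.log y ≤ κ / 2 * L := by
    have b1 : 16 * ((Rs:ℝ) + 1) * Cl3 c * Real.log y = 16 * (X * Cl3 c) := by rw [hX]; ring
    have b2 : X * Cl3 c ≤ X * (Cl2 c + Cl3 c) := mul_le_mul_of_nonneg_left (by linarith only [a1]) hX0
    have b3 : 0 ≤ X * Cl3 c := mul_nonneg hX0 a2.le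
    rw [b1]
    linarith only [b2, b3, hX2]
  have g6 : |lam wl G| ≤ κ / 2 * L * P := g5.trans (mul_le_mul_of_nonneg_right hy3 hP0)
  have hκLP : 0 ≤ κ * L * P := mul_nonneg (mul_nonneg hκ.le hL0) hP0
  have g6' : |lam wl G| ≤ κ * L * P := g6.trans (by linarith only [hκLP])
  -- the twisted element
  set f : DA := G * single (h, l) 1 with hf
  have sB : Bd (T ^ ((1:ℝ) / 8)) (single (h, l) 1 : DA) :=
    Bd.single ⟨⟨hh, hl⟩, hqh.trans hTq, hql.trans hTq⟩ 1
  have fB : Bd (T ^ ((1:ℝ) / 4)) f := by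
    have := gB.mul sB
    refine this.mono (le_of_eq ?_)
    rw [← Real.rpow_add hT0]; norm_num
  have fl : l1 f ≤ l1 G := by
    refine (l1_mul _ _).trans ?_
    rw [l1_single, abs_one, mul_one]
  set I1 := (range J).biUnion (II y) with hI1
  set I2 := (h * l).primeFactors with hI2
  have hdj : Disjoint I1 I2 := by
    rw [disjoint_left]
    intro p hp hp2
    rw [hI1, mem_biUnion] at hp
    obtain ⟨i, hi, hpi⟩ := hp
    rw [hI2, Nat.mem_primeFactors] at hp2
    exact hdv i (mem_range.mp hi) p hpi ((Nat.Prime.dvd_mul hp2.1).mp hp2.2.1)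
  have gM : G ∈ SA (MI I1) := GQ_mem hRg lm a Rs
  have sM : (single (h, l) 1 : DA) ∈ SA (MI I2) := by
    refine single_mem_SA ?_ 1
    rw [mem_MI]
    refine ⟨hh, hl, fun p hp hd => ?_⟩
    rw [hI2, Nat.mem_primeFactors]
    refine ⟨hp, ?_, mul_ne_zero hh hl⟩
    rcases hd with hd | hd
    · exact hd.mul_right l
    · exact hd.mul_left h
  have hw1 : lam w1 (single (h, l) 1 : DA) = 1 / q := by
    rw [lam_single, one_mul]; unfold w1; simp only [hco.gcd_eq_one, Nat.cast_one]; rfl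
  have hwl : lam wl (single (h, l) 1 : DA) = 1 / q * Real.log q := by
    rw [lam_single, one_mul]; unfold wl w1; simp only [hco.gcd_eq_one, Nat.cast_one, one_pow, div_one]; rfl
  have f1 : lam w1 f = P * (1 / q) := by rw [hf, lam1_mul hdj gM sM, hw1]
  have f2 : lam wl f = lam wl G * (1 / q) + P * (1 / q * Real.log q) := by
    rw [hf, laml_mul hdj gM sM, hw1, hwl]
  have hlq : 0 ≤ Real.log q := Real.log_nonneg hq1
  have hLq' : Real.log q ≤ κ / 2 * L := by
    rw [div_le_iff₀ hκ] at hLq; linarith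
  have f3 : |lam wl f| ≤ κ * L * lam w1 f := by
    rw [f1, f2]
    have i0 : 0 < 1 / q := by positivity
    refine (abs_add_le _ _).trans ?_
    rw [abs_mul, abs_of_pos i0, abs_of_nonneg (mul_nonneg hP0 (mul_nonneg i0.le hlq))]
    have b1 := mul_le_mul_of_nonneg_right g6 i0.le
    have b2 : P * (1 / q * Real.log q) ≤ P * (1 / q * (κ / 2 * L)) := by gcongr
    calc _ ≤ κ / 2 * L * P * (1 / q) + P * (1 / q * (κ / 2 * L)) := add_le_add b1 b2
      _ = _ := by ring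
  have f0 : 0 ≤ lam w1 f := by rw [f1]; positivity
  have r0 := hT k hk G gB4 gl1 hP0 g6'
  have r1 := hT k hk f fB (fl.trans gl1) f0 f3
  have r2 := hTi k hk f fB (fl.trans gl2)
  have hgqev : ∀ t, ev t G = ((gq lm J a (RR Rs) (II y) t : ℝ) : ℂ) := fun t => gq_eq' hRg lm a Rs t
  have e0 : ∀ t, (ev t G).re = gq lm J a (RR Rs) (II y) t := fun t => by rw [hgqev, Complex.ofReal_re]
  have ef : ∀ t, ev t f = ((gq lm J a (RR Rs) (II y) t : ℝ) : ℂ) * mh t (h, l) := by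
    intro t
    rw [hf, map_mul, hgqev, ev_single, Complex.ofReal_one, one_mul]
  have e1 : ∀ t, (ev t f).re = u * (gq lm J a (RR Rs) (II y) t * Real.cos (t * (Real.log l - Real.log h))) := by
    intro t
    rw [ef, Complex.re_ofReal_mul, mh_re t hh hl]; ring
  have e2 : ∀ t, (ev t f).im = u * (gq lm J a (RR Rs) (II y) t * Real.sin (t * (Real.log l - Real.log h))) := by
    intro t
    rw [ef, Complex.im_ofReal_mul, mh_im t hh hl]; ring
  have hgb : ∀ t, |gq lm J a (RR Rs) (II y) t| ≤ l1 G := fun t => by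
    rw [← e0]; exact ev_re_le gB4 t
  have hgc : Continuous (gq lm J a (RR Rs) (II y)) := (ev_re_cont gB4).congr e0
  have i0 : IntegrableOn (fun t => wz k T t * gq lm J a (RR Rs) (II y) t) (Set.Ioi 0) := wz_int k hδ hgc hgb
  have i1 : IntegrableOn (fun t => wz k T t * (gq lm J a (RR Rs) (II y) t * Real.cos (t * (Real.log l - Real.log h))))
      (Set.Ioi 0) := by
    refine wz_int k hδ (C := l1 G) (by fun_prop) fun t => ?_
    rw [abs_mul]
    exact (mul_le_of_le_one_right (abs_nonneg _) (Real.abs_cos_le_one _)).trans (hgb t)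
  have i2 : IntegrableOn (fun t => wz k T t * (gq lm J a (RR Rs) (II y) t * Real.sin (t * (Real.log l - Real.log h))))
      (Set.Ioi 0) := by
    refine wz_int k hδ (C := l1 G) (by fun_prop) fun t => ?_
    rw [abs_mul]
    exact (mul_le_of_le_one_right (abs_nonneg _) (Real.abs_sin_le_one _)).trans (hgb t)
  set I0 := ∫ t in Set.Ioi (0:ℝ), wz k T t * gq lm J a (RR Rs) (II y) t with hI0
  set Ir := ∫ t in Set.Ioi (0:ℝ), wz k T t *
    (gq lm J a (RR Rs) (II y) t * Real.cos (t * (Real.log l - Real.log h))) with hIr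
  set Ii := ∫ t in Set.Ioi (0:ℝ), wz k T t *
    (gq lm J a (RR Rs) (II y) t * Real.sin (t * (Real.log l - Real.log h))) with hIi
  have x0 : ∫ t in Set.Ioi (0:ℝ), wz k T t * (ev t G).re = I0 := by simp_rw [e0]; rfl
  have x1 : ∫ t in Set.Ioi (0:ℝ), wz k T t * (ev t f).re = u * Ir := by
    rw [hIr, ← integral_const_mul]
    refine integral_congr_ae (Eventually.of_forall fun t => ?_)
    simp only [e1]; ring
  have x2 : ∫ t in Set.Ioi (0:ℝ), wz k T t * (ev t f).im = u * Ii := by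
    rw [hIi, ← integral_const_mul]
    refine integral_congr_ae (Eventually.of_forall fun t => ?_)
    simp only [e2]; ring
  rw [x0] at r0
  rw [x1, f1] at r1
  rw [x2] at r2
  have eW : ∫ t in Set.Ioi (0:ℝ), wz k T t * (gq lm J a (RR Rs) (II y) t * Wt (Real.log l - Real.log h) r s t) =
      2 * I0 + (r * Ir + s * Ii) := by
    rw [hI0, hIr, hIi, ← integral_const_mul, ← integral_const_mul, ← integral_const_mul, ← integral_add,
      ← integral_add]
    · refine integral_congr_ae (Eventually.of_forall fun t => ?_)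
      simp only [Wt]; ring
    · exact i0.const_mul 2
    · exact (i1.const_mul r).add (i2.const_mul s)
    · exact i1.const_mul r
    · exact i2.const_mul s
  rw [eW]
  have hx : 0 < Real.exp (-(Rs:ℝ)) := Real.exp_pos _
  have hBc := Bc_pos c
  have a2c : 0 ≤ a ^ 2 * c := by positivity
  have hBx : 0 < Bc c * Real.exp (-(Rs:ℝ)) := mul_pos hBc hx
  have hup : P ≤ E * Real.exp (2 * κ) := by
    refine g4.trans ?_
    rw [hE, ← Real.exp_add]
    apply Real.exp_le_exp.mpr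
    have b1 : (2 * 1 * a + a ^ 2) * V = (a ^ 2 + 2 * a) * V := by ring
    linarith only [b1, hac, hB, hBx]
  have hlow : E * Real.exp (-(2 * κ)) ≤ P := by
    refine le_trans ?_ g3
    rw [hE, ← Real.exp_add]
    apply Real.exp_le_exp.mpr
    have b1 : (2 * 1 * a + a ^ 2) * V = (a ^ 2 + 2 * a) * V := by ring
    have b2 : 4 * a ^ 2 * c = 4 * (a ^ 2 * c) := by ring
    have b3 : 12 * a ^ 2 * c = 12 * (a ^ 2 * c) := by ring
    rw [b2]
    rw [b3] at hac
    linarith only [b1, hac, hB, hBx, a2c]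
  have hce : Real.exp (-(c' + q)) ≤ Real.exp (-c') := Real.exp_le_exp.mpr (by linarith)
  have hκe : κ * Real.exp (-c') ≤ κ * (L * E) := mul_le_mul_of_nonneg_left hEc hκ.le
  refine arithW (e := κ * Real.exp (-c')) hκ hκ1 hL0 (Real.exp_pos _).le hP0 hup hlow hrs hu0.le hu1 hκe ?_ ?_ ?_
  · refine r0.trans ?_
    have := mul_le_mul_of_nonneg_left hce hκ.le
    linarith only [this]
  · -- divide by u
    have hLP : 0 ≤ L * P := mul_nonneg hL0 hP0
    have e3 : u * Ir - L * (P * (1 / q)) = u * (Ir - L * P * u) := by rw [← huu]; ring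
    rw [e3, abs_mul, abs_of_pos hu0] at r1
    have e4 : |Ir - L * P * u| = (1 / u) * (u * |Ir - L * P * u|) := by field_simp
    rw [e4]
    have b1 := mul_le_mul_of_nonneg_left r1 (by positivity : 0 ≤ 1 / u)
    refine b1.trans ?_
    have b2 : 1 / u * (2 * κ * (L * (P * (1 / q)))) = 2 * κ * (L * P) * u := by
      rw [← huu]; field_simp
    have b3 : 2 * κ * (L * P) * u ≤ 2 * κ * (L * P) := mul_le_of_le_one_right (by positivity) hu1
    have b4 : 1 / u * (κ * Real.exp (-(c' + q))) ≤ κ * Real.exp (-c') := by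
      calc 1 / u * (κ * Real.exp (-(c' + q))) ≤ q * (κ * Real.exp (-(c' + q))) := by gcongr
        _ = κ * (q * Real.exp (-(c' + q))) := by ring
        _ ≤ _ := mul_le_mul_of_nonneg_left hqe hκ.le
    rw [mul_add, b2]
    linarith
  · rw [abs_mul, abs_of_pos hu0] at r2
    have e4 : |Ii| = (1 / u) * (u * |Ii|) := by field_simp
    rw [e4]
    refine (mul_le_mul_of_nonneg_left r2 (by positivity : 0 ≤ 1 / u)).trans ?_
    calc 1 / u * (κ * Real.exp (-(c' + q))) ≤ q * (κ * Real.exp (-(c' + q))) := by gcongr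
      _ = κ * (q * Real.exp (-(c' + q))) := by ring
      _ ≤ _ := mul_le_mul_of_nonneg_left hqe hκ.le

end

end Pool.Agent.K6.H29.A
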