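import Pool.Agent.K6.H29.A2
import Pool.Agent.TH806.WinM

set_option autoImplicit false

/-! Lower bounds for the twisted moments in a window: the large primes only in the multiplier. -/

namespace Pool.Agent.K6.H29.A

open Finset Filter MeasureTheory MonoidAlgebra
open Pool.Agent.W184.NZ
open Pool.Agent.TH806
open Pool.Agent.H306R2.SM (om cl Yf)
open Pool.Agent.H262R4.TM (Rng Ck)

noncomputable section

lemma cut_ex {P y : ℝ} (hP : 144 ≤ P) (hy : P ≤ y) : ∃ n : ℕ, P ≤ bb y n ∧ bb y n < P ^ 4 := by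
  classical
  have h1 : ∃ n, bb y n < P := by
    obtain ⟨J, _, hJ⟩ := J_ex y
    exact ⟨J, lt_of_lt_of_le hJ hP⟩
  have h2 := Nat.find_spec h1
  set n := Nat.find h1 with hn
  have hn0 : n ≠ 0 := by
    intro h
    rw [h, bb_zero (by linarith)] at h2
    linarith
  obtain ⟨m, hm⟩ := Nat.exists_eq_succ_of_ne_zero hn0
  refine ⟨m, ?_, ?_⟩
  · have := Nat.find_min h1 (m := m) (by omega)
    linarith
  · rw [hm] at h2
    have e : bb y m = bb y (m + 1) ^ 4 := by
      unfold bb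
      rw [← Real.exp_nat_mul]
      congr 1
      rw [pow_succ]; push_cast; ring
    rw [e]
    exact pow_lt_pow_left₀ h2 (bb_pos y _).le (by norm_num)

/-- the number of the dropped primes -/
lemma card_drop {y Q : ℝ} (hy : 1 ≤ y) {m J : ℕ} (h2 : bb y m < Q) :
    ∑ i ∈ Ico m J, ((II y i).card : ℝ) ≤ Q := by
  have h3 : ∑ i ∈ Ico m J, (II y i).card = ((Ico m J).biUnion (II y)).card := by
    rw [card_biUnion]
    intro i _ j _ hij
    rcases lt_or_gt_of_ne hij with h | h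
    · exact II_disj hy h
    · exact (II_disj hy h).symm
  have h4 : (Ico m J).biUnion (II y) ⊆ Icc 1 ⌊bb y m⌋₊ := by
    intro p hp
    rw [mem_biUnion] at hp
    obtain ⟨i, hi, hpi⟩ := hp
    rw [mem_Ico] at hi
    rw [mem_II] at hpi
    rw [mem_Icc, Nat.le_floor_iff (bb_pos y m).le]
    exact ⟨by omega, hpi.2.2.2.trans (bb_anti hy hi.1)⟩
  have h5 := card_le_card h4
  rw [Nat.card_Icc, Nat.add_sub_cancel] at h5
  have h6 : (((Ico m J).biUnion (II y)).card : ℝ) ≤ ⌊bb y m⌋₊ := by exact_mod_cast h5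
  have h7 : (⌊bb y m⌋₊ : ℝ) ≤ bb y m := Nat.floor_le (bb_pos y m).le
  calc ∑ i ∈ Ico m J, ((II y i).card : ℝ) = ((∑ i ∈ Ico m J, (II y i).card : ℕ) : ℝ) := by push_cast; rfl
    _ = (((Ico m J).biUnion (II y)).card : ℝ) := by rw [h3]
    _ ≤ _ := by linarith

lemma PI_card {I : Finset ℕ} (hI : ∀ p ∈ I, p.Prime) (t : ℝ) : ‖PI I (1 / 2 + t * Complex.I)‖ ≤ I.card := by
  unfold PI
  refine (norm_sum_le _ _).trans ?_
  refine (sum_le_sum (g := fun _ => (1:ℝ)) fun p hp => ?_).trans (by simp)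
  rw [Complex.norm_natCast_cpow_of_pos (hI p hp).pos]
  refine Real.rpow_le_one_of_one_le_of_nonpos (by exact_mod_cast (hI p hp).one_le) ?_
  simp

lemma vI_card {I : Finset ℕ} (hI : ∀ p ∈ I, p.Prime) : vI I ≤ I.card := by
  unfold vI
  refine (sum_le_sum (g := fun _ => (1:ℝ)) fun p hp => ?_).trans (by simp)
  have : (1:ℝ) ≤ p := by exact_mod_cast (hI p hp).one_le
  rw [div_le_one (by linarith)]; exact this

/-- the data of the truncated ranges -/
structure Cut (c y Q : ℝ) (J m Rs : ℕ) (h l : ℕ) : Prop where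
  le : m ≤ J
  rg : Rg c m (II y) (bb y)
  nd : ∀ i < m, ∀ p ∈ II y i, ¬ (p ∣ h ∨ p ∣ l)
  good : ∀ (t : ℝ) (i : ℕ), m ≤ i → i < J → ‖PI (II y i) (1 / 2 + t * Complex.I)‖ ≤ RR Rs i
  S : ∀ t : ℝ, |Sr J (II y) t - Sr m (II y) t| ≤ Q
  V : |∑ i ∈ range J, vI (II y i) - ∑ i ∈ range m, vI (II y i)| ≤ Q

lemma Cut_ex {c y P : ℝ} {J Rs h l : ℕ} (hBL : BL c y J) (hP : 144 ≤ P) (hPy : P ≤ y) (hh : h ≠ 0) (hl : l ≠ 0)
    (hhP : (h:ℝ) ≤ P) (hlP : (l:ℝ) ≤ P) (hRs : P ^ 4 ≤ Rs) : ∃ m, Cut c y (P ^ 4) J m Rs h l := by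
  obtain ⟨m, h1, h2⟩ := cut_ex hP hPy
  have hy : 1 ≤ y := by linarith
  have hmJ : m ≤ J := by
    by_contra hcon
    push Not at hcon
    have := bb_anti hy hcon.le
    linarith [hBL.end_]
  have hpr : ∀ i, ∀ p ∈ II y i, p.Prime := hBL.pr
  have hcard := card_drop (J := J) hy h2
  have hc1 : ∀ i, m ≤ i → i < J → ((II y i).card : ℝ) ≤ P ^ 4 := by
    intro i hi hiJ
    refine le_trans ?_ hcard
    exact single_le_sum (f := fun i => ((II y i).card : ℝ)) (fun _ _ => by positivity) (mem_Ico.mpr ⟨hi, hiJ⟩)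
  refine ⟨m, hmJ, ⟨hBL.rg.pr, hBL.rg.dj, fun i hi => hBL.rg.b10 i (by omega), fun i hi => hBL.rg.v i (by omega), ?_⟩,
    ?_, ?_, ?_, ?_⟩
  · refine le_trans ?_ hBL.rg.U
    exact sum_le_sum_of_subset_of_nonneg (range_subset_range.mpr hmJ) fun _ _ _ => uI_nonneg _
  · intro i hi p hp hd
    rw [mem_II] at hp
    have h3 : bb y m ≤ bb y (i + 1) := bb_anti hy (by omega)
    have h4 : P < p := by linarith [hp.2.2.1]
    rcases hd with hd | hd
    · have := Nat.le_of_dvd (Nat.pos_of_ne_zero hh) hd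
      have h5 : (p:ℝ) ≤ h := by exact_mod_cast this
      linarith
    · have := Nat.le_of_dvd (Nat.pos_of_ne_zero hl) hd
      have h5 : (p:ℝ) ≤ l := by exact_mod_cast this
      linarith
  · intro t i hi hiJ
    refine (PI_card (hpr i) t).trans ((hc1 i hi hiJ).trans (hRs.trans ?_))
    unfold RR
    push_cast
    have : (0:ℝ) ≤ Rs := Nat.cast_nonneg _
    have : (0:ℝ) ≤ i := Nat.cast_nonneg _
    linarith
  · intro t
    have e : Sr J (II y) t - Sr m (II y) t = ∑ i ∈ Ico m J, (PI (II y i) (1 / 2 + t * Complex.I)).re := by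
      unfold Sr
      rw [sum_Ico_eq_sub _ hmJ]
    rw [e]
    refine (abs_sum_le_sum_abs _ _).trans (le_trans (sum_le_sum fun i _ => ?_) hcard)
    exact (Complex.abs_re_le_norm _).trans (PI_card (hpr i) t)
  · have e : ∑ i ∈ range J, vI (II y i) - ∑ i ∈ range m, vI (II y i) = ∑ i ∈ Ico m J, vI (II y i) := by
      rw [sum_Ico_eq_sub _ hmJ]
    rw [e, abs_of_nonneg (sum_nonneg fun _ _ => vI_nonneg _)]
    exact (sum_le_sum fun i _ => vI_card (hpr i)).trans hcard

lemma amgm_minus {X a : ℝ} (hX0 : 0 < X) (ha0 : 0 ≤ a) (S : ℝ) :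
    X ^ 2 * Real.exp (2 * (-a) * S) ≤ 1 / (1 + a) * X ^ (2 - 2 * a) + a / (1 + a) *
      (X ^ 4 * Real.exp (2 * (-1 + -a) * S)) := by
  have h1a : 0 < 1 + a := by linarith
  have h3 := Real.geom_mean_le_arith_mean2_weighted (w₁ := 1 / (1 + a)) (w₂ := a / (1 + a))
    (p₁ := X ^ (2 - 2 * a)) (p₂ := X ^ 4 * Real.exp (2 * (-1 + -a) * S)) (by positivity) (by positivity)
    (by positivity) (by positivity) (by field_simp)
  have e1 : (X ^ (2 - 2 * a)) ^ (1 / (1 + a)) * (X ^ 4 * Real.exp (2 * (-1 + -a) * S)) ^ (a / (1 + a)) =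
      X ^ 2 * Real.exp (2 * (-a) * S) := by
    rw [← Real.rpow_natCast X 4, ← Real.rpow_natCast X 2, Real.mul_rpow (by positivity) (Real.exp_pos _).le,
      ← Real.rpow_mul hX0.le, ← Real.rpow_mul hX0.le, ← Real.exp_mul, ← mul_assoc, ← Real.rpow_add hX0]
    congr 1
    · congr 1; push_cast; field_simp; ring
    · congr 1; field_simp; ring
  rwa [e1] at h3

lemma amgm_plus {X a : ℝ} (hX0 : 0 < X) (ha0 : 0 ≤ a) (S : ℝ) :
    X ^ 2 * Real.exp (2 * a * S) ≤ 1 / (1 + a) * X ^ (2 + 2 * a) + a / (1 + a) *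
      Real.exp (2 * (1 + a) * S) := by
  have h1a : 0 < 1 + a := by linarith
  have h3 := Real.geom_mean_le_arith_mean2_weighted (w₁ := 1 / (1 + a)) (w₂ := a / (1 + a))
    (p₁ := X ^ (2 + 2 * a)) (p₂ := Real.exp (2 * (1 + a) * S)) (by positivity) (by positivity)
    (by positivity) (by positivity) (by field_simp)
  have e1 : (X ^ (2 + 2 * a)) ^ (1 / (1 + a)) * (Real.exp (2 * (1 + a) * S)) ^ (a / (1 + a)) =
      X ^ 2 * Real.exp (2 * a * S) := by
    rw [← Real.rpow_natCast X 2, ← Real.rpow_mul hX0.le, ← Real.exp_mul]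
    congr 1
    · congr 1; push_cast; field_simp
    · congr 1; field_simp
  rwa [e1] at h3

variable {J m Rs : ℕ} {I : ℕ → Finset ℕ} {a t Q : ℝ}

lemma full_good (hd : ∀ i, m ≤ i → i < J → ‖PI (I i) (1 / 2 + t * Complex.I)‖ ≤ RR Rs i)
    (hg : ∀ i < m, ‖PI (I i) (1 / 2 + t * Complex.I)‖ ≤ RR Rs i) :
    ∀ i < J, ‖PI (I i) (1 / 2 + t * Complex.I)‖ ≤ RR Rs i := by
  intro i hi
  rcases lt_or_ge i m with h | h
  · exact hg i h
  · exact hd i h hi

/-- exponent below two -/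
theorem low_minus' (hRs : 1 ≤ Rs) (ha0 : 0 ≤ a) (ha : a ≤ 1 / 16) (t : ℝ) {X : ℝ} (hX : 0 ≤ X)
    (hd : ∀ i, m ≤ i → i < J → ‖PI (I i) (1 / 2 + t * Complex.I)‖ ≤ RR Rs i)
    (hS : |Sr J I t - Sr m I t| ≤ Q) :
    X ^ 2 * (2 * gq l0 m (-a) (RR Rs) I t - gq (l1e Rs) m (-a) (RR Rs) I t) ≤
      Real.exp (12 * Real.exp (-(Rs:ℝ)) + 2 * a * Q) * ((1 / (1 + a)) * X ^ (2 - 2 * a) +
        (a / (1 + a)) * (X ^ 4 * gp J (-1 + -a) (RR Rs) I t)) := by
  have ha' : |(-a)| ≤ 1 / 16 := by rw [abs_neg, abs_of_nonneg ha0]; exact ha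
  have hgp := gp_nonneg J (-1 + -a) (RR Rs) I t
  have h1a : 0 < 1 + a := by linarith
  have hR0 : 0 ≤ Real.exp (12 * Real.exp (-(Rs:ℝ)) + 2 * a * Q) * ((1 / (1 + a)) * X ^ (2 - 2 * a) +
        (a / (1 + a)) * (X ^ 4 * gp J (-1 + -a) (RR Rs) I t)) := by positivity
  rcases bad_or_good (J := m) (I := I) hRs ha' t with h | ⟨hg, h⟩
  · refine le_trans ?_ hR0
    exact mul_nonpos_of_nonneg_of_nonpos (sq_nonneg X) h
  · rcases hX.eq_or_lt with hX0 | hX0
    · rw [← hX0] at hR0 ⊢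
      refine le_trans (le_of_eq ?_) hR0
      simp
    · have h1 := good_up ha' hg
      have h2 := good_low hRs (b := -1 + -a) (by rw [abs_le]; constructor <;> linarith) (full_good hd hg)
      set S := Sr J I t with hSd
      set S' := Sr m I t with hSd'
      set x := Real.exp (-(Rs:ℝ)) with hx
      have hx0 : 0 < x := Real.exp_pos _
      have h3 := amgm_minus hX0 ha0 S
      have h4 : Real.exp (2 * (-a) * S') ≤ Real.exp (2 * a * Q) * Real.exp (2 * (-a) * S) := by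
        rw [← Real.exp_add]
        apply Real.exp_le_exp.mpr
        have := mul_le_mul_of_nonneg_left (abs_le.mp hS).2 ha0
        nlinarith
      calc X ^ 2 * (2 * gq l0 m (-a) (RR Rs) I t - gq (l1e Rs) m (-a) (RR Rs) I t)
          ≤ X ^ 2 * (Real.exp (4 * x) * (Real.exp (2 * a * Q) * Real.exp (2 * (-a) * S))) := by
            refine mul_le_mul_of_nonneg_left (h.trans (h1.trans ?_)) (sq_nonneg X)
            exact mul_le_mul_of_nonneg_left h4 (Real.exp_pos _).le
        _ = Real.exp (2 * a * Q) * Real.exp (4 * x) * (X ^ 2 * Real.exp (2 * (-a) * S)) := by ring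
        _ ≤ Real.exp (2 * a * Q) * Real.exp (4 * x) * (1 / (1 + a) * X ^ (2 - 2 * a) + a / (1 + a) *
              (X ^ 4 * Real.exp (2 * (-1 + -a) * S))) := mul_le_mul_of_nonneg_left h3 (by positivity)
        _ ≤ Real.exp (2 * a * Q) * Real.exp (4 * x) * (Real.exp (8 * x) * (1 / (1 + a) * X ^ (2 - 2 * a)) +
              a / (1 + a) * (X ^ 4 * (Real.exp (8 * x) * gp J (-1 + -a) (RR Rs) I t))) := by
            have h8 : 1 ≤ Real.exp (8 * x) := Real.one_le_exp (by positivity)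
            have h9 : 0 ≤ 1 / (1 + a) * X ^ (2 - 2 * a) := by positivity
            refine mul_le_mul_of_nonneg_left (add_le_add ?_ ?_) (by positivity)
            · exact le_mul_of_one_le_left h9 h8
            · exact mul_le_mul_of_nonneg_left (mul_le_mul_of_nonneg_left h2 (by positivity)) (by positivity)
        _ = _ := by
            have : Real.exp (12 * x + 2 * a * Q) = Real.exp (2 * a * Q) * Real.exp (4 * x) * Real.exp (8 * x) := by
              rw [← Real.exp_add, ← Real.exp_add]; congr 1; ring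
            rw [this]; ring

/-- exponent above two -/
theorem low_plus' (hRs : 1 ≤ Rs) (ha0 : 0 ≤ a) (ha : a ≤ 1 / 16) (t : ℝ) {X : ℝ} (hX : 0 ≤ X)
    (hd : ∀ i, m ≤ i → i < J → ‖PI (I i) (1 / 2 + t * Complex.I)‖ ≤ RR Rs i)
    (hS : |Sr J I t - Sr m I t| ≤ Q) :
    X ^ 2 * (2 * gq l0 m a (RR Rs) I t - gq (l1e Rs) m a (RR Rs) I t) ≤
      Real.exp (12 * Real.exp (-(Rs:ℝ)) + 2 * a * Q) * ((1 / (1 + a)) * X ^ (2 + 2 * a) +
        (a / (1 + a)) * gp J (1 + a) (RR Rs) I t) := by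
  have ha' : |a| ≤ 1 / 16 := by rw [abs_of_nonneg ha0]; exact ha
  have hgp := gp_nonneg J (1 + a) (RR Rs) I t
  have h1a : 0 < 1 + a := by linarith
  have hR0 : 0 ≤ Real.exp (12 * Real.exp (-(Rs:ℝ)) + 2 * a * Q) * ((1 / (1 + a)) * X ^ (2 + 2 * a) +
        (a / (1 + a)) * gp J (1 + a) (RR Rs) I t) := by positivity
  rcases bad_or_good (J := m) (I := I) hRs ha' t with h | ⟨hg, h⟩
  · refine le_trans ?_ hR0
    exact mul_nonpos_of_nonneg_of_nonpos (sq_nonneg X) h
  · rcases hX.eq_or_lt with hX0 | hX0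
    · rw [← hX0] at hR0 ⊢
      refine le_trans (le_of_eq ?_) hR0
      simp
    · have h1 := good_up ha' hg
      have h2 := good_low hRs (b := 1 + a) (by rw [abs_le]; constructor <;> linarith) (full_good hd hg)
      set S := Sr J I t with hSd
      set S' := Sr m I t with hSd'
      set x := Real.exp (-(Rs:ℝ)) with hx
      have hx0 : 0 < x := Real.exp_pos _
      have h3 := amgm_plus hX0 ha0 S
      have h4 : Real.exp (2 * a * S') ≤ Real.exp (2 * a * Q) * Real.exp (2 * a * S) := by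
        rw [← Real.exp_add]
        apply Real.exp_le_exp.mpr
        have := mul_le_mul_of_nonneg_left (abs_le.mp hS).1 ha0
        nlinarith
      calc X ^ 2 * (2 * gq l0 m a (RR Rs) I t - gq (l1e Rs) m a (RR Rs) I t)
          ≤ X ^ 2 * (Real.exp (4 * x) * (Real.exp (2 * a * Q) * Real.exp (2 * a * S))) := by
            refine mul_le_mul_of_nonneg_left (h.trans (h1.trans ?_)) (sq_nonneg X)
            exact mul_le_mul_of_nonneg_left h4 (Real.exp_pos _).le
        _ = Real.exp (2 * a * Q) * Real.exp (4 * x) * (X ^ 2 * Real.exp (2 * a * S)) := by ring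
        _ ≤ Real.exp (2 * a * Q) * Real.exp (4 * x) * (1 / (1 + a) * X ^ (2 + 2 * a) + a / (1 + a) *
              Real.exp (2 * (1 + a) * S)) := mul_le_mul_of_nonneg_left h3 (by positivity)
        _ ≤ Real.exp (2 * a * Q) * Real.exp (4 * x) * (Real.exp (8 * x) * (1 / (1 + a) * X ^ (2 + 2 * a)) +
              a / (1 + a) * (Real.exp (8 * x) * gp J (1 + a) (RR Rs) I t)) := by
            have h8 : 1 ≤ Real.exp (8 * x) := Real.one_le_exp (by positivity)
            have h9 : 0 ≤ 1 / (1 + a) * X ^ (2 + 2 * a) := by positivity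
            refine mul_le_mul_of_nonneg_left (add_le_add ?_ ?_) (by positivity)
            · exact le_mul_of_one_le_left h9 h8
            · exact mul_le_mul_of_nonneg_left h2 (by positivity)
        _ = _ := by
            have : Real.exp (12 * x + 2 * a * Q) = Real.exp (2 * a * Q) * Real.exp (4 * x) * Real.exp (8 * x) := by
              rw [← Real.exp_add, ← Real.exp_add]; congr 1; ring
            rw [this]; ring

end

end Pool.Agent.K6.H29.A
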