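import Pool.Agent.K6.H29.A3

set_option autoImplicit false

/-! The twisted moments in a window, exponents near two. -/

namespace Pool.Agent.K6.H29.A

open Finset Filter MeasureTheory MonoidAlgebra
open Pool.Agent.W184.NZ
open Pool.Agent.TH806
open Pool.Agent.H306R2.SM (om cl Yf)
open Pool.Agent.H262R4.TM (Rng Ck)

noncomputable section

section
variable {c y T Q D r s : ℝ} {J m k Rs h l : ℕ}

lemma Xz_poly {β : ℝ} (hβ : 0 ≤ β) (hβ3 : β ≤ 3) {t : ℝ} (ht : 0 ≤ t) {r s : ℝ} (hrs : |r| + |s| ≤ 1) (D : ℝ) :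
    |Xz t ^ β * Wt D r s t| ≤ 3 * 24 ^ 3 * (1 + t) ^ 6 := by
  obtain ⟨w1, w2⟩ := Wt_bd hrs D t
  have h0 := Real.rpow_nonneg (Xz_nonneg t) β
  rw [abs_of_nonneg (mul_nonneg h0 (by linarith))]
  calc Xz t ^ β * Wt D r s t ≤ (24 ^ 3 * (1 + t) ^ 6) * 3 :=
        mul_le_mul (Xz_pow_le hβ hβ3 ht) w2 (by linarith) (by positivity)
    _ = _ := by ring

lemma iXW (hδ : 0 < (k:ℝ) / T) {β : ℝ} (h0 : 0 ≤ β) (h3 : β ≤ 3) (hrs : |r| + |s| ≤ 1) :
    IntegrableOn (fun t => om k (k / T) t * (Xz t ^ β * Wt D r s t)) (Set.Ioi 0) :=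
  om_poly_int hδ ((Xz_pow_cont h0).mul (Wt_cont D r s)) (C := 3 * 24 ^ 3) 6 fun t ht => Xz_poly h0 h3 ht hrs D

lemma iwgqW (hy : 1 ≤ y) (hRg : Rg c m (II y) (bb y)) (hδ : 0 < (k:ℝ) / T) (lm : ℕ → ℝ) (a : ℝ)
    (hrs : |r| + |s| ≤ 1) :
    IntegrableOn (fun t => wz k T t * (gq lm m a (RR Rs) (II y) t * Wt D r s t)) (Set.Ioi 0) := by
  have hB := GQ_Bd (Rs := Rs) (lm := lm) hy hRg a
  have e0 : ∀ t, (ev t (GQ lm m a (RR Rs) (II y))).re = gq lm m a (RR Rs) (II y) t := fun t => by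
    rw [gq_eq' hRg, Complex.ofReal_re]
  have hgc : Continuous (gq lm m a (RR Rs) (II y)) := (ev_re_cont hB).congr e0
  have hW := Wt_cont D r s
  refine wz_int k hδ (C := l1 (GQ lm m a (RR Rs) (II y)) * 3) (by fun_prop) fun t => ?_
  obtain ⟨w1, w2⟩ := Wt_bd hrs D t
  rw [abs_mul, abs_of_nonneg (by linarith : 0 ≤ Wt D r s t)]
  refine mul_le_mul ?_ w2 (by linarith) (l1_nonneg _)
  rw [← e0]; exact ev_re_le hB t

lemma igpW (hBL : BL c y J) (hRs : 1 ≤ Rs) (hδ : 0 < (k:ℝ) / T) {a : ℝ} (ha : |a| ≤ 9 / 8) (hrs : |r| + |s| ≤ 1) :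
    IntegrableOn (fun t => om k (k / T) t * (gp J a (RR Rs) (II y) t * Wt D r s t)) (Set.Ioi 0) := by
  have hc := gp_cont hBL a Rs
  have hW := Wt_cont D r s
  refine om_poly_int hδ (by fun_prop) (C := Real.exp (Real.log y * (320 * ((Rs:ℝ) + 1))) * 3) 0 fun t ht => ?_
  obtain ⟨w1, w2⟩ := Wt_bd hrs D t
  rw [abs_mul, abs_of_nonneg (by linarith : 0 ≤ Wt D r s t), abs_of_nonneg (gp_nonneg _ _ _ _ _), pow_zero, mul_one]
  exact mul_le_mul (gp_le hBL hRs (by linarith) t) w2 (by linarith) (Real.exp_pos _).le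

lemma mulW {g : ℝ → ℝ} (hg : IntegrableOn g (Set.Ioi 0)) (hg0 : ∀ t ∈ Set.Ioi (0:ℝ), 0 ≤ g t)
    (hrs : |r| + |s| ≤ 1) :
    IntegrableOn (fun t => g t * Wt D r s t) (Set.Ioi 0) ∧
      ∫ t in Set.Ioi (0:ℝ), g t * Wt D r s t ≤ 3 * ∫ t in Set.Ioi (0:ℝ), g t := by
  have i1 : IntegrableOn (fun t => g t * Wt D r s t) (Set.Ioi 0) := by
    refine Integrable.mul_bdd (c := 3) hg (Wt_cont D r s).aestronglyMeasurable ?_
    refine Eventually.of_forall fun t => ?_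
    obtain ⟨w1, w2⟩ := Wt_bd hrs D t
    rw [Real.norm_eq_abs, abs_of_nonneg (by linarith)]; exact w2
  refine ⟨i1, ?_⟩
  rw [← integral_const_mul]
  refine setIntegral_mono_on i1 (hg.const_mul 3) measurableSet_Ioi fun t ht => ?_
  obtain ⟨w1, w2⟩ := Wt_bd hrs D t
  rw [mul_comm 3]
  exact mul_le_mul_of_nonneg_left w2 (hg0 t ht)

theorem winW_minus (hBL : BL c y J) (hcut : Cut c y Q J m Rs h l) (hRs : 1 ≤ Rs) (hδ : 0 < (k:ℝ) / T)
    (hrs : |r| + |s| ≤ 1) {κ a U M C5 : ℝ} (hκ : 0 < κ)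
    (hκ1 : κ ≤ 1 / 200) (hM : 0 ≤ M) (hU : 0 ≤ U) (ha0 : 0 ≤ a) (ha : a ≤ 1 / 16) (h5 : 0 ≤ C5) (haC5 : a * C5 ≤ κ)
    (h12 : 12 * Real.exp (-(Rs:ℝ)) + 2 * a * Q ≤ κ)
    (q1 : |(∫ t in Set.Ioi (0:ℝ), wz k T t * (gq l0 m (-a) (RR Rs) (II y) t * Wt D r s t)) - U| ≤ 7 * κ * U)
    (q2 : |(∫ t in Set.Ioi (0:ℝ), wz k T t * (gq (l1e Rs) m (-a) (RR Rs) (II y) t * Wt D r s t)) - U| ≤ 7 * κ * U)
    (i5 : IntegrableOn (fun t => om k (k / T) t * (‖riemannZeta (cl t)‖ ^ 4 *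
      gp J (-1 + -a) (RR Rs) (II y) t)) (Set.Ioi 0))
    (q5 : 3 * ∫ t in Set.Ioi (0:ℝ), om k (k / T) t * (‖riemannZeta (cl t)‖ ^ 4 *
      gp J (-1 + -a) (RR Rs) (II y) t) ≤ C5 * U)
    (hc2 : Real.exp (-κ) * M ≤ U) :
    (1 - 24 * κ) * M ≤ ∫ t in Set.Ioi (0:ℝ), om k (k / T) t * (Xz t ^ (2 - 2 * a) * Wt D r s t) := by
  have hom : ∀ t ∈ Set.Ioi (0:ℝ), 0 ≤ om k (k / T) t := fun t ht => om_nn k hδ (le_of_lt ht)
  have hy1 : 1 ≤ y := by linarith [hBL.y1]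
  have hWp : ∀ t, 0 ≤ Wt D r s t := fun t => by linarith [(Wt_bd hrs D t).1]
  obtain ⟨i5', q5'⟩ := mulW (D := D) i5 (fun t ht => mul_nonneg (hom t ht)
    (mul_nonneg (by positivity) (gp_nonneg _ _ _ _ _))) hrs
  have l1 := int_two (C := Real.exp (12 * Real.exp (-(Rs:ℝ)) + 2 * a * Q)) (p := 1 / (1 + a)) (q := a / (1 + a))
    (f := fun t => 2 * (wz k T t * (gq l0 m (-a) (RR Rs) (II y) t * Wt D r s t)) -
      wz k T t * (gq (l1e Rs) m (-a) (RR Rs) (II y) t * Wt D r s t))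
    measurableSet_Ioi (((iwgqW hy1 hcut.rg hδ l0 (-a) hrs).const_mul 2).sub (iwgqW hy1 hcut.rg hδ (l1e Rs) (-a) hrs))
    (iXW (D := D) hδ (β := 2 - 2 * a) (by linarith) (by linarith) hrs) i5' (fun t ht => by
      have h1 := low_minus' (J := J) (m := m) (I := II y) (Q := Q) hRs ha0 ha t (Xz_nonneg t)
        (hcut.good t) (hcut.S t)
      have h2 := mul_le_mul_of_nonneg_left h1 (mul_nonneg (hom t ht) (hWp t))
      rw [ewz, ewz]
      refine le_trans (le_of_eq (by ring)) (h2.trans (le_of_eq ?_))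
      unfold Xz; ring)
  have el : ∫ t in Set.Ioi (0:ℝ), (2 * (wz k T t * (gq l0 m (-a) (RR Rs) (II y) t * Wt D r s t)) -
      wz k T t * (gq (l1e Rs) m (-a) (RR Rs) (II y) t * Wt D r s t)) =
      2 * (∫ t in Set.Ioi (0:ℝ), wz k T t * (gq l0 m (-a) (RR Rs) (II y) t * Wt D r s t)) -
      ∫ t in Set.Ioi (0:ℝ), wz k T t * (gq (l1e Rs) m (-a) (RR Rs) (II y) t * Wt D r s t) := by
    rw [integral_sub ((iwgqW hy1 hcut.rg hδ l0 (-a) hrs).const_mul 2) (iwgqW hy1 hcut.rg hδ (l1e Rs) (-a) hrs),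
      integral_const_mul]
  rw [el] at l1
  have hW0 : 0 ≤ ∫ t in Set.Ioi (0:ℝ), om k (k / T) t * (Xz t ^ (2 - 2 * a) * Wt D r s t) :=
    setIntegral_nonneg measurableSet_Ioi fun t ht => mul_nonneg (hom t ht)
      (mul_nonneg (Real.rpow_nonneg (Xz_nonneg t) _) (hWp t))
  exact num_low hκ hκ1 hM hU (Real.exp_pos _).le (Real.exp_le_exp.mpr h12) ha0 h5 haC5 hW0 q1 q2 (q5'.trans q5) l1 hc2

theorem winW_plus (hBL : BL c y J) (hcut : Cut c y Q J m Rs h l) (hRs : 1 ≤ Rs) (hδ : 0 < (k:ℝ) / T)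
    (hrs : |r| + |s| ≤ 1) {κ a U M C5 : ℝ} (hκ : 0 < κ)
    (hκ1 : κ ≤ 1 / 200) (hM : 0 ≤ M) (hU : 0 ≤ U) (ha0 : 0 ≤ a) (ha : a ≤ 1 / 16) (h5 : 0 ≤ C5) (haC5 : a * C5 ≤ κ)
    (h12 : 12 * Real.exp (-(Rs:ℝ)) + 2 * a * Q ≤ κ)
    (q1 : |(∫ t in Set.Ioi (0:ℝ), wz k T t * (gq l0 m a (RR Rs) (II y) t * Wt D r s t)) - U| ≤ 7 * κ * U)
    (q2 : |(∫ t in Set.Ioi (0:ℝ), wz k T t * (gq (l1e Rs) m a (RR Rs) (II y) t * Wt D r s t)) - U| ≤ 7 * κ * U)
    (q5 : 3 * ∫ t in Set.Ioi (0:ℝ), om k (k / T) t * gp J (1 + a) (RR Rs) (II y) t ≤ C5 * U)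
    (hc2 : Real.exp (-κ) * M ≤ U) :
    (1 - 24 * κ) * M ≤ ∫ t in Set.Ioi (0:ℝ), om k (k / T) t * (Xz t ^ (2 + 2 * a) * Wt D r s t) := by
  have hom : ∀ t ∈ Set.Ioi (0:ℝ), 0 ≤ om k (k / T) t := fun t ht => om_nn k hδ (le_of_lt ht)
  have hy1 : 1 ≤ y := by linarith [hBL.y1]
  have hWp : ∀ t, 0 ≤ Wt D r s t := fun t => by linarith [(Wt_bd hrs D t).1]
  have i5 := igp hBL hRs hδ (a := 1 + a) (by rw [abs_le]; constructor <;> linarith)
  obtain ⟨i5', q5'⟩ := mulW (D := D) i5 (fun t ht => mul_nonneg (hom t ht) (gp_nonneg _ _ _ _ _)) hrs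
  have l1 := int_two (C := Real.exp (12 * Real.exp (-(Rs:ℝ)) + 2 * a * Q)) (p := 1 / (1 + a)) (q := a / (1 + a))
    (f := fun t => 2 * (wz k T t * (gq l0 m a (RR Rs) (II y) t * Wt D r s t)) -
      wz k T t * (gq (l1e Rs) m a (RR Rs) (II y) t * Wt D r s t))
    measurableSet_Ioi (((iwgqW hy1 hcut.rg hδ l0 a hrs).const_mul 2).sub (iwgqW hy1 hcut.rg hδ (l1e Rs) a hrs))
    (iXW (D := D) hδ (β := 2 + 2 * a) (by linarith) (by linarith) hrs) i5' (fun t ht => by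
      have h1 := low_plus' (J := J) (m := m) (I := II y) (Q := Q) hRs ha0 ha t (Xz_nonneg t)
        (hcut.good t) (hcut.S t)
      have h2 := mul_le_mul_of_nonneg_left h1 (mul_nonneg (hom t ht) (hWp t))
      rw [ewz, ewz]
      refine le_trans (le_of_eq (by ring)) (h2.trans (le_of_eq (by ring))))
  have el : ∫ t in Set.Ioi (0:ℝ), (2 * (wz k T t * (gq l0 m a (RR Rs) (II y) t * Wt D r s t)) -
      wz k T t * (gq (l1e Rs) m a (RR Rs) (II y) t * Wt D r s t)) =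
      2 * (∫ t in Set.Ioi (0:ℝ), wz k T t * (gq l0 m a (RR Rs) (II y) t * Wt D r s t)) -
      ∫ t in Set.Ioi (0:ℝ), wz k T t * (gq (l1e Rs) m a (RR Rs) (II y) t * Wt D r s t) := by
    rw [integral_sub ((iwgqW hy1 hcut.rg hδ l0 a hrs).const_mul 2) (iwgqW hy1 hcut.rg hδ (l1e Rs) a hrs),
      integral_const_mul]
  rw [el] at l1
  have hW0 : 0 ≤ ∫ t in Set.Ioi (0:ℝ), om k (k / T) t * (Xz t ^ (2 + 2 * a) * Wt D r s t) :=
    setIntegral_nonneg measurableSet_Ioi fun t ht => mul_nonneg (hom t ht)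
      (mul_nonneg (Real.rpow_nonneg (Xz_nonneg t) _) (hWp t))
  exact num_low hκ hκ1 hM hU (Real.exp_pos _).le (Real.exp_le_exp.mpr h12) ha0 h5 haC5 hW0 q1 q2 (q5'.trans q5) l1 hc2

end

/-- from relative errors `25 κ / 4` of `L E` to `7 κ` of `U = L E v` -/
lemma rescale {κ X v I : ℝ} (hκ : 0 < κ) (hX : 0 ≤ X) (hv : 1 ≤ v) (h : |I - X * v| ≤ 25 * (κ / 4) * X) :
    |I - X * v| ≤ 7 * κ * (X * v) := by
  refine h.trans ?_
  have h1 : X ≤ X * v := le_mul_of_one_le_right hX hv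
  nlinarith [mul_nonneg hκ.le hX]

/-- lower bounds for the twisted moments in a window -/
theorem winW_low {h l : ℕ} (hh : h ≠ 0) (hl : l ≠ 0) (hco : Nat.Coprime h l) {ε : ℝ} (hε : 0 < ε) :
    ∃ δ : ℝ, 0 < δ ∧ δ ≤ 1 / 40 ∧ ∀ᶠ T : ℝ in atTop, ∀ k : ℕ, Rng T k →
    ∀ β : ℝ, |β - 2| ≤ δ → ∀ r s : ℝ, |r| + |s| ≤ 1 →
    (1 - ε) * ((2 + r * ((h:ℝ) * l) ^ (-(1 / 2 : ℝ))) * Real.log T ^ (β ^ 2 / 4)) ≤
      ∫ t in Set.Ioi (0:ℝ), om k (k / T) t * (Xz t ^ β * Wt (Real.log l - Real.log h) r s t) := by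
  obtain ⟨κ, hκ, hκ1, hκε⟩ : ∃ κ : ℝ, 0 < κ ∧ κ ≤ 1 / 200 ∧ 24 * κ ≤ ε :=
    ⟨min (ε / 24) (1 / 200), lt_min (by positivity) (by norm_num), min_le_right _ _, by
      have := min_le_left (ε / 24) (1 / 200); linarith⟩
  have h0 : (0:ℝ) < h := by exact_mod_cast Nat.pos_of_ne_zero hh
  have l0' : (0:ℝ) < l := by exact_mod_cast Nat.pos_of_ne_zero hl
  have h1' : (1:ℝ) ≤ h := by exact_mod_cast Nat.pos_of_ne_zero hh
  have l1' : (1:ℝ) ≤ l := by exact_mod_cast Nat.pos_of_ne_zero hl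
  set u : ℝ := ((h:ℝ) * l) ^ (-(1 / 2 : ℝ)) with hu
  have hu0 : 0 < u := Real.rpow_pos_of_pos (by positivity) _
  have hu1 : u ≤ 1 := Real.rpow_le_one_of_one_le_of_nonpos (by nlinarith) (by norm_num)
  -- the cut
  set P : ℝ := 144 + (h + l) with hP
  have hP144 : 144 ≤ P := by rw [hP]; linarith
  have hhP : (h:ℝ) ≤ P := by rw [hP]; linarith
  have hlP : (l:ℝ) ≤ P := by rw [hP]; linarith
  have hP0 : 0 < P := by linarith
  set Q : ℝ := P ^ 4 with hQ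
  have hQ0 : 0 < Q := by positivity
  obtain ⟨c, hc0, hrange⟩ := ranges
  obtain ⟨Rs0, hRs0, hRs20⟩ := Rs_ex c (κ / 16) (by positivity)
  obtain ⟨n0, hn0⟩ := exists_nat_ge Q
  set Rs := max Rs0 n0 with hRsd
  have hRs : Rok c Rs := Rok_mono hRs0 (le_max_left _ _)
  have hQRs : Q ≤ Rs := hn0.trans (by exact_mod_cast le_max_right Rs0 n0)
  have hx0 : 0 < Real.exp (-(Rs:ℝ)) := Real.exp_pos _
  have hxx : Real.exp (-(Rs:ℝ)) ≤ Real.exp (-(Rs0:ℝ)) := by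
    apply Real.exp_le_exp.mpr
    have : (Rs0:ℝ) ≤ Rs := by exact_mod_cast le_max_left Rs0 n0
    linarith
  have hBc := Bc_pos c
  have hBx : 0 < Bc c * Real.exp (-(Rs:ℝ)) := mul_pos hBc hx0
  have hRs3 : (8 + 2 * Bc c) * Real.exp (-(Rs:ℝ)) ≤ κ / 16 := by
    have h1 := Real.add_one_le_exp ((8 + 2 * Bc c) * Real.exp (-(Rs0:ℝ)))
    have h2 : (8 + 2 * Bc c) * Real.exp (-(Rs:ℝ)) ≤ (8 + 2 * Bc c) * Real.exp (-(Rs0:ℝ)) :=
      mul_le_mul_of_nonneg_left hxx (by positivity)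
    linarith
  have hB4 : 4 * Bc c * Real.exp (-(Rs:ℝ)) ≤ κ / 4 := by linarith
  have h12 : 12 * Real.exp (-(Rs:ℝ)) ≤ κ / 2 := by linarith
  obtain ⟨η1, hη1, _, hgq⟩ := gqW_win hh hl hco
  obtain ⟨η3, hη3, hη38, hX4⟩ := X4
  have hgq := hgq (κ / 4) c (c + Q) Rs (by positivity) (by linarith) hc0 hRs hB4
  -- the exponent of `y`
  obtain ⟨η, hη, hη_a, hη_b'⟩ := eta_ex (q := min (min η1 η3) (κ / 4)) (C := Cl2 c + Cl3 c) (R := (Rs:ℝ))
    (lt_min (lt_min hη1 hη3) (by positivity)) (add_pos (Cl2_pos c) (Cl3_pos c)).le (Nat.cast_nonneg _)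
  have hη_b := hη_b'.trans (min_le_right _ _)
  have hη_1 : 320 * ((Rs:ℝ) + 1) * η ≤ η1 := hη_a.trans ((min_le_left _ _).trans (min_le_left _ _))
  have hη_3 : 320 * ((Rs:ℝ) + 1) * η ≤ η3 := hη_a.trans ((min_le_left _ _).trans (min_le_right _ _))
  obtain ⟨C4, hC4, hX4⟩ := hX4 c (1 / η)
  obtain ⟨C0, hC0, hG0⟩ := G0 c
  have hX4 := hX4 Rs hRs.1
  have hG0 := hG0 Rs hRs.1
  set D := c + |Real.log η| with hD
  have hD0 : 0 ≤ D := by positivity
  obtain ⟨a0, ha0, ha080, ha0s⟩ := a0_ex (C4 := 9 * C4) (C5 := 9 * (C0 * Real.exp D)) (κ := κ / 4) (c := c)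
    (D := D + Q) (by positivity) hc0 (by positivity) (by positivity) (by positivity)
  refine ⟨2 * a0, by positivity, by linarith, ?_⟩
  have hyT : ∀ᶠ T : ℝ in atTop, P ≤ Real.exp (η * Real.log T) :=
    (Real.tendsto_exp_atTop.comp (Real.tendsto_log_atTop.const_mul_atTop hη)).eventually_ge_atTop P
  clear hη_a hη_b' hRs20 hRs3 hBx hxx
  filter_upwards [hgq, hX4, hG0, hyT, eventually_ge_atTop (1:ℝ), Real.tendsto_log_atTop.eventually_ge_atTop 1]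
    with T hgq hX4 hG0 hyT hT1 hL1 k hk β hβ r s hrs
  have hT0 : 0 < T := by linarith
  set L := Real.log T with hLd
  have hL0 : 0 < L := by linarith
  set y := Real.exp (η * L) with hyd
  have hly : Real.log y = η * L := Real.log_exp _
  have hy144 : 144 ≤ y := hP144.trans hyT
  obtain ⟨J, hRg, _, hend, hVV⟩ := hrange y hy144
  have hBL : BL c y J := ⟨hc0, hy144, hRg, hend, hVV⟩
  obtain ⟨m, hcut⟩ := Cut_ex (Rs := Rs) hBL hP144 hyT hh hl hhP hlP hQRs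
  have hk1 : 1 ≤ k := by
    have := hk.1
    have h2 : (0:ℝ) < k := lt_of_lt_of_le (by positivity) this
    exact_mod_cast h2
  have hk0 : (0:ℝ) < k := by exact_mod_cast hk1
  have hδ : 0 < (k:ℝ) / T := by positivity
  set V := ∑ i ∈ range J, vI (II y i) with hV
  set V' := ∑ i ∈ range m, vI (II y i) with hV'
  have hVL : |V - Real.log L| ≤ D := by
    have e1 : Real.log (Real.log y) = Real.log η + Real.log L := by
      rw [hly, Real.log_mul hη.ne' hL0.ne']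
    rw [e1] at hVV
    have e2 : V - Real.log L = (V - (Real.log η + Real.log L)) + Real.log η := by ring
    rw [e2]
    exact (abs_add_le _ _).trans (add_le_add hVV le_rfl)
  have hVV' : |V - V'| ≤ Q := hcut.V
  have hVL' : |V' - Real.log L| ≤ D + Q := by
    have e2 : V' - Real.log L = (V - Real.log L) - (V - V') := by ring
    rw [e2]
    exact (abs_sub _ _).trans (add_le_add hVL hVV')
  have hVc' : |V' - Real.log (Real.log y)| ≤ c + Q := by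
    have e2 : V' - Real.log (Real.log y) = (V - Real.log (Real.log y)) - (V - V') := by ring
    rw [e2]
    exact (abs_sub _ _).trans (add_le_add hVV hVV')
  have hyg : ∀ q : ℝ, 320 * ((Rs:ℝ) + 1) * η ≤ q → 320 * ((Rs:ℝ) + 1) * Real.log y ≤ q * L := by
    intro q hq
    calc 320 * ((Rs:ℝ) + 1) * Real.log y = (320 * ((Rs:ℝ) + 1) * η) * L := by rw [hly]; ring
      _ ≤ _ := mul_le_mul_of_nonneg_right hq hL0.le
  have hy1 := hyg η1 hη_1
  have hy3 := hyg η3 hη_3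
  have hy4 : 320 * ((Rs:ℝ) + 1) * Real.log y ≤ 1 / 8 * L := hy3.trans (mul_le_mul_of_nonneg_right hη38 hL0.le)
  have hy5 : 320 * ((Rs:ℝ) + 1) * (Cl2 c + Cl3 c) * Real.log y ≤ κ / 4 * L := by
    calc 320 * ((Rs:ℝ) + 1) * (Cl2 c + Cl3 c) * Real.log y = (320 * ((Rs:ℝ) + 1) * (Cl2 c + Cl3 c) * η) * L := by
          rw [hly]; ring
      _ ≤ _ := mul_le_mul_of_nonneg_right hη_b hL0.le
  have hy6 : L ≤ 1 / η * Real.log y := by rw [hly]; field_simp; exact le_rfl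
  -- the parameter
  obtain ⟨a, ha0', haa0, hcase⟩ : ∃ a : ℝ, 0 ≤ a ∧ a ≤ a0 ∧ (β = 2 - 2 * a ∨ β = 2 + 2 * a) := by
    refine ⟨|β - 2| / 2, by positivity, by linarith, ?_⟩
    rcases abs_cases (β - 2) with ⟨h, _⟩ | ⟨h, _⟩
    · right; rw [h]; ring
    · left; rw [h]; ring
  obtain ⟨hac, haC4, haC0, ha3D⟩ := ha0s a ha0' haa0
  have ha16 : a ≤ 1 / 16 := by linarith
  have ha3D' : 3 * a * (D + Q) ≤ κ := by linarith
  have haQ : 3 * a * Q ≤ κ / 4 := by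
    have : 3 * a * Q ≤ 3 * a * (D + Q) := mul_le_mul_of_nonneg_left (by linarith) (by linarith)
    linarith
  have h12' : 12 * Real.exp (-(Rs:ℝ)) + 2 * a * Q ≤ κ := by
    have : 0 ≤ a * Q := by positivity
    linarith
  have hl0a : ∀ i, (0:ℝ) ≤ l0 i := fun i => le_rfl
  have hl0b : ∀ i, l0 i ≤ Real.exp (RR Rs i) := fun i => (Real.exp_pos _).le
  have hl1a : ∀ i, (0:ℝ) ≤ l1e Rs i := fun i => (Real.exp_pos _).le
  have hl1b : ∀ i, l1e Rs i ≤ Real.exp (RR Rs i) := fun i => le_rfl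
  have habs := abs_quad ha0' (by linarith : a ≤ 1)
  set v := 2 + r * u with hv
  have hv1 : 1 ≤ v := by
    have h1 : |r * u| ≤ 1 := by
      rw [abs_mul, abs_of_pos hu0]
      exact mul_le_one₀ (by linarith [abs_nonneg s]) hu0.le hu1
    have := (abs_le.mp h1).1
    linarith
  set Mm := v * L ^ (β ^ 2 / 4) with hMm
  have hMm0 : 0 ≤ Mm := by positivity
  have hkM : (1 - ε) * Mm ≤ (1 - 24 * κ) * Mm := mul_le_mul_of_nonneg_right (by linarith) hMm0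
  refine hkM.trans ?_
  have heκ : Real.exp κ ≤ 3 := by
    have : Real.exp κ ≤ Real.exp 1 := Real.exp_le_exp.mpr (by linarith)
    linarith [Real.exp_one_lt_d9]
  rcases hcase with hβe | hβe
  · -- below two
    have hna : |(-a)| = a := by rw [abs_neg, abs_of_nonneg ha0']
    have hMe : β ^ 2 / 4 = 1 + ((-a) ^ 2 + 2 * (-a)) := by rw [hβe]; ring
    have hcmp := LE_cmp (b := (-a) ^ 2 + 2 * (-a)) (κ := κ) hL0 hVL'
      (le_trans (mul_le_mul_of_nonneg_right habs.1 (by positivity)) ha3D')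
    rw [← hMe] at hcmp
    set E' := Real.exp (((-a) ^ 2 + 2 * (-a)) * V') with hE'
    have hLE : 0 ≤ L * E' := by positivity
    have q1 := hgq k hk y (-a) m l0 hy144 hcut.rg hVc' hcut.nd hy1 hy5 (by rw [hna]; exact ha16)
      (by rw [neg_sq]; exact hac) hl0a hl0b r s hrs
    have q2 := hgq k hk y (-a) m (l1e Rs) hy144 hcut.rg hVc' hcut.nd hy1 hy5 (by rw [hna]; exact ha16)
      (by rw [neg_sq]; exact hac) hl1a hl1b r s hrs
    obtain ⟨i4, q4⟩ := hX4 k hk y (-a) J hBL hy3 hy6 (by rw [hna]; linarith)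
    have hEE : Real.exp (((-a) ^ 2 + 2 * (-a)) * V) ≤ Real.exp κ * E' := by
      rw [hE', ← Real.exp_add]
      apply Real.exp_le_exp.mpr
      have h1 : |((-a) ^ 2 + 2 * (-a)) * (V - V')| ≤ 3 * a * Q := by
        rw [abs_mul]; exact mul_le_mul habs.1 hVV' (abs_nonneg _) (by positivity)
      have h2 := (abs_le.mp h1).2
      have h3 : ((-a) ^ 2 + 2 * (-a)) * V = ((-a) ^ 2 + 2 * (-a)) * (V - V') + ((-a) ^ 2 + 2 * (-a)) * V' := by ring
      linarith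
    have q5 : 3 * ∫ t in Set.Ioi (0:ℝ), om k (k / T) t * (‖riemannZeta (cl t)‖ ^ 4 *
        gp J (-1 + -a) (RR Rs) (II y) t) ≤ (9 * C4) * (L * E' * v) := by
      calc _ ≤ 3 * (C4 * L * Real.exp (((-a) ^ 2 + 2 * (-a)) * V)) := mul_le_mul_of_nonneg_left q4 (by norm_num)
        _ ≤ 3 * (C4 * L * (Real.exp κ * E')) := by gcongr
        _ ≤ 3 * (C4 * L * (3 * E')) := by gcongr
        _ = 9 * C4 * (L * E' * 1) := by ring
        _ ≤ _ := by gcongr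
    have := winW_minus (D := Real.log l - Real.log h) hBL hcut hRs.1 hδ hrs hκ hκ1 (U := L * E' * v) (M := Mm)
      hMm0 (by positivity) ha0' ha16 (by positivity) (haC4.trans (by linarith)) h12'
      (rescale hκ hLE hv1 q1) (rescale hκ hLE hv1 q2) i4 q5 (by
        rw [hMm]
        calc Real.exp (-κ) * (v * L ^ (β ^ 2 / 4)) = Real.exp (-κ) * L ^ (β ^ 2 / 4) * v := by ring
          _ ≤ _ := mul_le_mul_of_nonneg_right hcmp.2 (by linarith))
    rwa [← hβe] at this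
  · -- above two
    have hna : |a| = a := abs_of_nonneg ha0'
    have hMe : β ^ 2 / 4 = 1 + (a ^ 2 + 2 * a) := by rw [hβe]; ring
    have hcmp := LE_cmp (b := a ^ 2 + 2 * a) (κ := κ) hL0 hVL'
      (le_trans (mul_le_mul_of_nonneg_right habs.2 (by positivity)) ha3D')
    rw [← hMe] at hcmp
    set E' := Real.exp ((a ^ 2 + 2 * a) * V') with hE'
    have hLE : 0 ≤ L * E' := by positivity
    have q1 := hgq k hk y a m l0 hy144 hcut.rg hVc' hcut.nd hy1 hy5 (by rw [hna]; exact ha16)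
      hac hl0a hl0b r s hrs
    have q2 := hgq k hk y a m (l1e Rs) hy144 hcut.rg hVc' hcut.nd hy1 hy5 (by rw [hna]; exact ha16)
      hac hl1a hl1b r s hrs
    have q4 := hG0 k hk y (1 + a) J hBL hy4 (by rw [abs_le]; constructor <;> linarith)
    have hEE : Real.exp ((a ^ 2 + 2 * a) * V) ≤ Real.exp κ * E' := by
      rw [hE', ← Real.exp_add]
      apply Real.exp_le_exp.mpr
      have h1 : |(a ^ 2 + 2 * a) * (V - V')| ≤ 3 * a * Q := by
        rw [abs_mul]; exact mul_le_mul habs.2 hVV' (abs_nonneg _) (by positivity)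
      have h2 := (abs_le.mp h1).2
      have h3 : (a ^ 2 + 2 * a) * V = (a ^ 2 + 2 * a) * (V - V') + (a ^ 2 + 2 * a) * V' := by ring
      linarith
    have heV : Real.exp V ≤ L * Real.exp D := by
      have h1 := (abs_le.mp hVL).2
      calc Real.exp V ≤ Real.exp (Real.log L + D) := Real.exp_le_exp.mpr (by linarith)
        _ = L * Real.exp D := by rw [Real.exp_add, Real.exp_log hL0]
    have q5 : 3 * ∫ t in Set.Ioi (0:ℝ), om k (k / T) t * gp J (1 + a) (RR Rs) (II y) t ≤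
        (9 * (C0 * Real.exp D)) * (L * E' * v) := by
      have e1 : Real.exp ((1 + a) ^ 2 * V) = Real.exp V * Real.exp ((a ^ 2 + 2 * a) * V) := by
        rw [← Real.exp_add]; congr 1; ring
      rw [← hV, e1] at q4
      calc _ ≤ 3 * (C0 * (Real.exp V * Real.exp ((a ^ 2 + 2 * a) * V))) := mul_le_mul_of_nonneg_left q4 (by norm_num)
        _ ≤ 3 * (C0 * ((L * Real.exp D) * (Real.exp κ * E'))) := by gcongr
        _ ≤ 3 * (C0 * ((L * Real.exp D) * (3 * E'))) := by gcongr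
        _ = 9 * (C0 * Real.exp D) * (L * E' * 1) := by ring
        _ ≤ _ := by gcongr
    have := winW_plus (D := Real.log l - Real.log h) hBL hcut hRs.1 hδ hrs hκ hκ1 (U := L * E' * v) (M := Mm)
      hMm0 (by positivity) ha0' ha16 (by positivity) (haC0.trans (by linarith)) h12'
      (rescale hκ hLE hv1 q1) (rescale hκ hLE hv1 q2) q5 (by
        rw [hMm]
        calc Real.exp (-κ) * (v * L ^ (β ^ 2 / 4)) = Real.exp (-κ) * L ^ (β ^ 2 / 4) * v := by ring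
          _ ≤ _ := mul_le_mul_of_nonneg_right hcmp.2 (by linarith))
    rwa [← hβe] at this

/-- the twisted moments in a window -/
theorem winW {h l : ℕ} (hh : h ≠ 0) (hl : l ≠ 0) (hco : Nat.Coprime h l) {ε : ℝ} (hε : 0 < ε) :
    ∃ δ : ℝ, 0 < δ ∧ δ ≤ 1 / 40 ∧ ∀ᶠ T : ℝ in atTop, ∀ k : ℕ, Rng T k →
    ∀ β : ℝ, |β - 2| ≤ δ → ∀ r s : ℝ, |r| + |s| ≤ 1 →
    |(∫ t in Set.Ioi (0:ℝ), om k (k / T) t * (Xz t ^ β * Wt (Real.log l - Real.log h) r s t)) -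
      (2 + r * ((h:ℝ) * l) ^ (-(1 / 2 : ℝ))) * Real.log T ^ (β ^ 2 / 4)| ≤ ε * Real.log T ^ (β ^ 2 / 4) := by
  obtain ⟨δ1, hδ1, hδ1', h1⟩ := winW_low hh hl hco (ε := ε / 7) (by positivity)
  obtain ⟨δ2, hδ2, _, h2⟩ := win_mom (ε := ε / 7) (by positivity)
  refine ⟨min δ1 δ2, lt_min hδ1 hδ2, (min_le_left _ _).trans hδ1', ?_⟩
  filter_upwards [h1, h2, eventually_ge_atTop (1:ℝ), Real.tendsto_log_atTop.eventually_ge_atTop 1]
    with T h1 h2 hT1 hL1 k hk β hβ r s hrs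
  have hT0 : 0 < T := by linarith
  have hk1 : 1 ≤ k := by
    have := hk.1
    have h2 : (0:ℝ) < k := lt_of_lt_of_le (by positivity) this
    exact_mod_cast h2
  have hk0 : (0:ℝ) < k := by exact_mod_cast hk1
  have hδ : 0 < (k:ℝ) / T := by positivity
  have a1 := h1 k hk β (hβ.trans (min_le_left _ _)) r s hrs
  have hrs' : |(-r)| + |(-s)| ≤ 1 := by rwa [abs_neg, abs_neg]
  have a2 := h1 k hk β (hβ.trans (min_le_left _ _)) (-r) (-s) hrs'
  have a3 := h2 k hk β (hβ.trans (min_le_right _ _))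
  have hβ' := hβ.trans ((min_le_left _ _).trans hδ1')
  have hβ2 := abs_le.mp hβ'
  set D := Real.log l - Real.log h
  have i1 := iXW (D := D) (r := r) (s := s) hδ (β := β) (by linarith [hβ2.1]) (by linarith [hβ2.2]) hrs
  have i2 := iXW (D := D) (r := -r) (s := -s) hδ (β := β) (by linarith [hβ2.1]) (by linarith [hβ2.2]) hrs'
  have e1 : (∫ t in Set.Ioi (0:ℝ), om k (k / T) t * (Xz t ^ β * Wt D r s t)) +
      (∫ t in Set.Ioi (0:ℝ), om k (k / T) t * (Xz t ^ β * Wt D (-r) (-s) t)) =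
      4 * ∫ t in Set.Ioi (0:ℝ), om k (k / T) t * Xz t ^ β := by
    rw [← integral_add i1 i2, ← integral_const_mul]
    refine integral_congr_ae (Eventually.of_forall fun t => ?_)
    simp only
    have := Wt_add D r s t
    calc _ = om k (k / T) t * Xz t ^ β * (Wt D r s t + Wt D (-r) (-s) t) := by ring
      _ = _ := by rw [this]; ring
  set A := ∫ t in Set.Ioi (0:ℝ), om k (k / T) t * (Xz t ^ β * Wt D r s t)
  set B := ∫ t in Set.Ioi (0:ℝ), om k (k / T) t * (Xz t ^ β * Wt D (-r) (-s) t)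
  set M := Real.log T ^ (β ^ 2 / 4)
  have hM0 : 0 < M := Real.rpow_pos_of_pos (by linarith) _
  set u : ℝ := ((h:ℝ) * l) ^ (-(1 / 2 : ℝ)) with hu
  have h1' : (1:ℝ) ≤ h := by exact_mod_cast Nat.pos_of_ne_zero hh
  have l1' : (1:ℝ) ≤ l := by exact_mod_cast Nat.pos_of_ne_zero hl
  have hu0 : 0 < u := Real.rpow_pos_of_pos (by positivity) _
  have hu1 : u ≤ 1 := Real.rpow_le_one_of_one_le_of_nonpos (by nlinarith) (by norm_num)
  have hru : |r * u| ≤ 1 := by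
    rw [abs_mul, abs_of_pos hu0]
    exact mul_le_one₀ (by linarith [abs_nonneg s]) hu0.le hu1
  obtain ⟨b1, b2⟩ := abs_le.mp hru
  have b3 := (abs_le.mp a3).2
  have c1 : ε / 7 * ((2 + r * u) * M) ≤ ε / 7 * (3 * M) :=
    mul_le_mul_of_nonneg_left (mul_le_mul_of_nonneg_right (by linarith) hM0.le) (by positivity)
  have c2 : ε / 7 * ((2 + -r * u) * M) ≤ ε / 7 * (3 * M) :=
    mul_le_mul_of_nonneg_left (mul_le_mul_of_nonneg_right (by linarith) hM0.le) (by positivity)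
  have hεM : 0 < ε * M := by positivity
  rw [abs_le]
  constructor
  · have : (1 - ε / 7) * ((2 + r * u) * M) = (2 + r * u) * M - ε / 7 * ((2 + r * u) * M) := by ring
    rw [this] at a1
    linarith
  · have : (1 - ε / 7) * ((2 + -r * u) * M) = (2 + -r * u) * M - ε / 7 * ((2 + -r * u) * M) := by ring
    rw [this] at a2
    have e2 : (2 + -r * u) * M = 4 * M - (2 + r * u) * M := by ring
    linarith

end

end Pool.Agent.K6.H29.A
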