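import Pool.Agent.TH73.N4_SHT

set_option autoImplicit false

/-!
From the Gamma windows to intervals, for general continuous functions of polynomial growth.
-/

namespace Pool.Agent.K6.H29

open Finset Filter Topology MeasureTheory
open Pool.Agent.W184.NZ Pool.Agent.TH806 Pool.Agent.TH806.N4
open Pool.Agent.H306R2.SM (om cl Yf)
open Pool.Agent.H262R4.TM (Rng Ck)
open Pool.Agent.H965R2.SMT1 (Ph Ph_nonneg Ph_le_one Ph_chernoff om_nonneg gam gam_pos tail_bound)
open Pool.Agent.TH73.N4_FIN Pool.Agent.TH73.N4_SHT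

noncomputable section

/-- the window functional -/
def WF (k : ℕ) (x : ℝ) (f : ℝ → ℝ) : ℝ := ∫ t in Set.Ioi (0:ℝ), om k (k / x) t * f t

/-- continuous nonnegative functions of polynomial growth -/
structure PG (f : ℝ → ℝ) : Prop where
  co : Continuous f
  nn : ∀ t, 0 ≤ f t
  gr : ∀ t, 0 ≤ t → f t ≤ 24 ^ 5 * (1 + t) ^ 10

lemma PG.int {f : ℝ → ℝ} (hf : PG f) {k : ℕ} {δ : ℝ} (hδ : 0 < δ) :
    IntegrableOn (fun t => om k δ t * f t) (Set.Ioi 0) := by
  refine om_poly_int hδ hf.co (C := 24 ^ 5) 10 fun t ht => ?_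
  rw [abs_of_nonneg (hf.nn t)]
  exact hf.gr t ht

lemma inner_eq' {f : ℝ → ℝ} (hf : PG f) {k : ℕ} (hk : 1 ≤ k) {x : ℝ} (hx : 0 < x) :
    ∫⁻ t in Set.Ioi (0:ℝ), ENNReal.ofReal (om k (k / x) t * f t) = ENNReal.ofReal (WF k x f) := by
  have hk0 : (0:ℝ) < k := by exact_mod_cast hk
  unfold WF
  rw [← ofReal_integral_eq_lintegral_ofReal (hf.int (by positivity))]
  filter_upwards [ae_restrict_mem measurableSet_Ioi] with t ht
  exact mul_nonneg (om_nonneg (by positivity) (le_of_lt ht)) (hf.nn t)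

lemma ss_bd' {f : ℝ → ℝ} (hf : PG f) {k : ℕ} (hk : 1 ≤ k) {a b c : ℝ} (ha : 0 < a)
    (hc : 0 ≤ c) (h : ∀ x ∈ Set.Ioc a b, WF k x f ≤ c) :
    SS k a b f ≤ ENNReal.ofReal (c * (b - a)) := by
  unfold SS
  have e2 : ∫⁻ _ in Set.Ioc a b, ENNReal.ofReal c = ENNReal.ofReal (c * (b - a)) := by
    rw [setLIntegral_const, Real.volume_Ioc, ← ENNReal.ofReal_mul hc]
  rw [← e2]
  apply setLIntegral_mono' measurableSet_Ioc
  intro x hx
  have hx0 : 0 < x := ha.trans hx.1
  rw [inner_eq' hf hk hx0]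
  exact ENNReal.ofReal_le_ofReal (h x hx)

lemma ss_bd_low' {f : ℝ → ℝ} (hf : PG f) {k : ℕ} (hk : 1 ≤ k) {a b c : ℝ} (ha : 0 < a)
    (hc : 0 ≤ c) (h : ∀ x ∈ Set.Ioc a b, c ≤ WF k x f) :
    ENNReal.ofReal (c * (b - a)) ≤ SS k a b f := by
  unfold SS
  have e2 : ∫⁻ _ in Set.Ioc a b, ENNReal.ofReal c = ENNReal.ofReal (c * (b - a)) := by
    rw [setLIntegral_const, Real.volume_Ioc, ← ENNReal.ofReal_mul hc]
  rw [← e2]
  apply setLIntegral_mono' measurableSet_Ioc
  intro x hx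
  have hx0 : 0 < x := ha.trans hx.1
  rw [inner_eq' hf hk hx0]
  exact ENNReal.ofReal_le_ofReal (h x hx)

/-- the tails of the windows -/
lemma tailk' {σ c : ℝ} (hσ0 : 0 < σ) (hσ1 : σ < 1) (hc0 : 0 < c) : ∀ᶠ T : ℝ in atTop,
    ∀ f : ℝ → ℝ, PG f → ∀ t : ℝ, c * T < t →
      f t * Ph (kk T) ((kk T : ℕ) * t / (σ * (c * T))) ≤ t ^ (-2 : ℝ) := by
  have hv0 : 1 < 1 / σ := by rw [lt_div_iff₀ hσ0]; linarith
  set γ := (1 / σ - 1 - Real.log (1 / σ)) / (1 / σ) with hγ
  have hγ0 : 0 < γ := gam_pos hv0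
  have hcT : Tendsto (fun T : ℝ => c * T) atTop atTop := tendsto_id.const_mul_atTop hc0
  have hlcT := Real.tendsto_log_atTop.comp hcT
  filter_upwards [hcT.eventually_ge_atTop (max 1 (24 ^ 5 * 2 ^ 10)), kk_ev,
    hlcT.eventually_ge_atTop (max 1 ((2 * ((10:ℕ):ℝ) + 5) / (2 * γ))),
    Real.tendsto_log_atTop.eventually_ge_atTop (10 * |Real.log c|), eventually_gt_atTop (0:ℝ),
    Real.tendsto_log_atTop.eventually_ge_atTop 1] with
    T t1 hk t2 t3 hT0 hL1 f hf t ht
  simp only [Function.comp] at t2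
  refine tail_bound (f := f) (C := 24 ^ 5) (A := 10)
    hf.nn (by norm_num) (fun t ht => hf.gr t ht) hσ0 hσ1
    ((le_max_left _ _).trans t1) ((le_max_right _ _).trans t1) ((le_max_left _ _).trans t2) ?_ ?_ ht
  · rw [← hγ]
    have := (le_max_right _ _).trans t2
    rw [div_le_iff₀ (by positivity)] at this
    linarith
  · refine le_trans ?_ hk.2.1
    rw [Real.log_mul hc0.ne' hT0.ne']
    have h1 := le_abs_self (Real.log c)
    have h2 : 0 ≤ Real.log c + Real.log T := by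
      have := neg_abs_le (Real.log c)
      have := abs_nonneg (Real.log c)
      linarith
    have h3 : (Real.log c + Real.log T) ^ 2 ≤ (11 / 10 * Real.log T) ^ 2 :=
      pow_le_pow_left₀ h2 (by linarith) 2
    nlinarith

/-- short intervals, upper bounds -/
theorem shtU' {κ : ℝ} (hκ : 0 < κ) (hκ1 : κ ≤ 1 / 10) (α : ℝ) (hα0 : 0 ≤ α) (hα : α < 1 / 2) :
    ∀ᶠ T : ℝ in atTop, ∀ H : ℝ, T / Real.log T ^ α ≤ H → H ≤ T → ∀ (f : ℝ → ℝ) (c : ℝ), PG f → 0 ≤ c →
      (∀ x ∈ Set.Icc (T ^ ((9:ℝ)/10) / 2) (8 * T), WF (kk T) x f ≤ c) →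
        (1 - κ) * ∫ t in T..(T + H), f t ≤ c * ((1 + 3 * κ) * H) := by
  filter_upwards [kk_ev, rho_ev hκ hα, e9 (show (0:ℝ) < 1 by norm_num), eventually_ge_atTop (max 1 (2 / κ)),
    Real.tendsto_log_atTop.eventually_ge_atTop 1] with T hk hρ h9 hT1 hL H hH1 hH2 f c hf hc' hW
  have hT1' := (le_max_left _ _).trans hT1
  have hT2 := (le_max_right _ _).trans hT1
  have hT : 0 < T := by linarith
  have hL0 : 0 < Real.log T := by linarith
  set La := Real.log T ^ α with hLa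
  have hLa1 : 1 ≤ La := Real.one_le_rpow hL hα0
  set ρ := κ / La with hρd
  have hρ0 : 0 < ρ := by positivity
  have hρ1 : ρ ≤ κ := div_le_self hκ.le hLa1
  have hH0 : 0 < H := lt_of_lt_of_le (by positivity) hH1
  have hρT : ρ * T ≤ κ * H := by
    have : ρ * T = κ * (T / La) := by rw [hρd]; ring
    rw [this]; exact mul_le_mul_of_nonneg_left hH1 hκ.le
  have hex : Real.exp (-(ρ ^ 2 / 8 * (kk T : ℝ))) ≤ κ / 2 := by
    calc Real.exp (-(ρ ^ 2 / 8 * (kk T : ℝ))) ≤ Real.exp (-Real.log T) :=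
          Real.exp_le_exp.mpr (by linarith)
      _ = T⁻¹ := by rw [Real.exp_neg, Real.exp_log hT]
      _ ≤ κ / 2 := by
          rw [inv_le_comm₀ hT (by positivity), inv_div]; exact hT2
  set a := T / (1 + ρ) with had
  set b := (1 + ρ) * (T + H) with hbd
  have ha0 : 0 < a := by positivity
  have haT : (1 - ρ) * T ≤ a := by
    rw [had, le_div_iff₀ (by positivity)]
    nlinarith [mul_pos (mul_pos hρ0 hρ0) hT]
  have haT2 : a ≤ T := div_le_self hT.le (by linarith)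
  have haa : (1 + ρ) * a = T := by rw [had]; field_simp
  have hbT : T ≤ b := by nlinarith [mul_pos hρ0 (add_pos hT hH0)]
  have h1 := ss_low hf.co hf.nn hk.1
    (a := a) (b := b) (A := T) (B := T + H) (κ := κ) ha0 (by linarith) hT (by linarith) (by linarith)
    (fun t ht => by
      have ht0 : 0 < t := hT.trans ht.1
      have p1 := phR hρ0 (by linarith) (kk T) ht0 (b := b) (by
        rw [hbd]; exact mul_le_mul_of_nonneg_left ht.2 (by positivity))
      have p2 := phL hρ0 (by linarith) (kk T) ha0 (t := t) (by rw [haa]; exact ht.1.le)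
      have p3 : Real.exp (-(ρ ^ 2 / 8 * (t / a) * (kk T : ℝ))) ≤ Real.exp (-(ρ ^ 2 / 8 * (kk T : ℝ))) := by
        apply Real.exp_le_exp.mpr
        have q1 : 1 ≤ t / a := by rw [le_div_iff₀ ha0]; linarith [ht.1]
        have q2 : 0 ≤ ρ ^ 2 / 8 * (kk T : ℝ) := by positivity
        nlinarith
      linarith)
  have h9' : T ^ ((9:ℝ)/10) / 2 ≤ a := by
    have : (1 - ρ) * T ≥ T / 2 := by nlinarith
    linarith
  have hb8 : b ≤ 8 * T := by
    rw [hbd]
    have : (1 + ρ) * (T + H) ≤ (1 + ρ) * (2 * T) := mul_le_mul_of_nonneg_left (by linarith) (by positivity)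
    nlinarith
  have h2 := ss_bd' hf hk.1 (a := a) (b := b) (c := c) ha0 hc'
    (fun x hx => hW x ⟨by linarith [hx.1], by linarith [hx.2]⟩)
  have h3 := h1.trans h2
  have hba : b - a ≤ (1 + 3 * κ) * H := by
    have : ρ * H ≤ ρ * T := mul_le_mul_of_nonneg_left hH2 hρ0.le
    rw [hbd]
    nlinarith
  rw [ENNReal.ofReal_le_ofReal_iff (mul_nonneg hc' (by linarith))] at h3
  exact h3.trans (mul_le_mul_of_nonneg_left hba hc')

/-- short intervals, lower bounds -/
theorem shtL' {κ : ℝ} (hκ : 0 < κ) (hκ1 : κ ≤ 1 / 100) (α : ℝ) (hα0 : 0 ≤ α) (hα : α < 1 / 2) :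
    ∀ᶠ T : ℝ in atTop, ∀ H : ℝ, T / Real.log T ^ α ≤ H → H ≤ T → ∀ (f : ℝ → ℝ) (c : ℝ), PG f → 0 ≤ c →
      (∀ x ∈ Set.Icc (κ * T) (8 * T), c ≤ WF (kk T) x f) →
        c * ((1 - 3 * κ) * H) ≤ (∫ t in T..(T + H), f t) + 2 := by
  filter_upwards [kk_ev, rho_ev hκ hα, e9 (show (0:ℝ) < 1 by norm_num), eventually_ge_atTop (24 ^ 5 * 2 ^ 22),
    Real.tendsto_log_atTop.eventually_ge_atTop 1] with T hk hρ h9 hT1 hL H hH1 hH2 f c hf hc' hW
  have hT : 0 < T := by linarith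
  have hT1' : 1 ≤ T := by linarith
  have hL0 : 0 < Real.log T := by linarith
  set La := Real.log T ^ α with hLa
  have hLa1 : 1 ≤ La := Real.one_le_rpow hL hα0
  set ρ := κ / La with hρd
  have hρ0 : 0 < ρ := by positivity
  have hρ1 : ρ ≤ κ := div_le_self hκ.le hLa1
  have hH0 : 0 < H := lt_of_lt_of_le (by positivity) hH1
  have hρT : ρ * T ≤ κ * H := by
    have : ρ * T = κ * (T / La) := by rw [hρd]; ring
    rw [this]; exact mul_le_mul_of_nonneg_left hH1 hκ.le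
  have hex : Real.exp (-(ρ ^ 2 / 8 * (kk T : ℝ))) ≤ (T ^ 20)⁻¹ := by
    calc Real.exp (-(ρ ^ 2 / 8 * (kk T : ℝ))) ≤ Real.exp (-(((20:ℕ):ℝ) * Real.log T)) :=
          Real.exp_le_exp.mpr (by push_cast; linarith)
      _ = (T ^ 20)⁻¹ := by rw [Real.exp_neg, Real.exp_nat_mul, Real.exp_log hT]
  set a := (1 + ρ) * T with had
  set b := (T + H) / (1 + ρ) with hbd
  have ha0 : 0 < a := by positivity
  have hb0 : 0 < b := by positivity
  have haT2 : T ≤ a := by nlinarith [mul_pos hρ0 hT]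
  have hbb : (1 + ρ) * b = T + H := by rw [hbd]; field_simp
  have hbT : b ≤ T + H := div_le_self (by linarith) (by linarith)
  have hblow : (1 - ρ) * (T + H) ≤ b := by
    rw [hbd, le_div_iff₀ (by positivity)]
    nlinarith [mul_pos (mul_pos hρ0 hρ0) (add_pos hT hH0)]
  have hba : (1 - 3 * κ) * H ≤ b - a := by
    have : ρ * H ≤ ρ * T := mul_le_mul_of_nonneg_left hH2 hρ0.le
    rw [had]
    nlinarith
  have hba0 : 0 ≤ (1 - 3 * κ) * H := mul_nonneg (by linarith) hH0.le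
  have h2 := ss_bd_low' hf hk.1 (a := a) (b := b) (c := c) ha0
    hc' (fun x hx => hW x ⟨by nlinarith [hx.1], by linarith [hx.2]⟩)
  have h1 := ss_high2 hf.co hf.nn hk.1
    (a := a) (b := b) (A := T) (B := T + H) ha0 (by linarith) hT (by linarith)
    (fun t ht0 htT => by
      have p1 := phR hρ0 (by linarith) (kk T) ht0 (b := a) (by
        rw [had]; exact mul_le_mul_of_nonneg_left htT (by positivity))
      have p2 := hf.gr t ht0.le
      have p3 : 24 ^ 5 * (1 + t) ^ 10 ≤ 24 ^ 5 * (2 * T) ^ 10 := by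
        have : (1 + t) ^ 10 ≤ (2 * T) ^ 10 := pow_le_pow_left₀ (by linarith) (by linarith) 10
        linarith
      calc f t * (1 - Ph (kk T) ((kk T : ℕ) * t / a)) ≤ f t * (T ^ 20)⁻¹ :=
            mul_le_mul_of_nonneg_left (p1.trans hex) (hf.nn t)
        _ ≤ (24 ^ 5 * (2 * T) ^ 10) * (T ^ 20)⁻¹ :=
            mul_le_mul_of_nonneg_right (p2.trans p3) (by positivity)
        _ = (24 ^ 5 * 2 ^ 10) * (T ^ 10)⁻¹ := by
            rw [mul_pow]; field_simp
        _ ≤ 1 / T := by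
            rw [← div_eq_mul_inv, div_le_div_iff₀ (by positivity) hT]
            have : T * T ≤ T ^ 10 := by
              calc T * T = T ^ 2 := by ring
                _ ≤ T ^ 10 := pow_le_pow_right₀ hT1' (by norm_num)
            nlinarith)
    (fun t ht => by
      have ht0 : 0 < t := by linarith
      have p1 := phL hρ0 (by linarith) (kk T) hb0 (t := t) (by rw [hbb]; exact ht.le)
      have p2 := hf.gr t ht0.le
      set v := t / b with hv
      have hv1 : 1 ≤ v := by rw [hv, le_div_iff₀ hb0]; linarith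
      have htv : t = v * b := by rw [hv]; field_simp
      have p4 : Real.exp (-(ρ ^ 2 / 8 * v * (kk T : ℝ))) ≤ (T ^ 20 * v ^ 12)⁻¹ := by
        rw [Real.exp_neg]
        apply inv_anti₀ (by positivity)
        calc T ^ 20 * v ^ 12 ≤ Real.exp (((20:ℕ):ℝ) * Real.log T) * Real.exp (((12:ℕ):ℝ) * (v - 1)) := by
              rw [Real.exp_nat_mul, Real.exp_log hT, Real.exp_nat_mul]
              refine mul_le_mul_of_nonneg_left (pow_le_pow_left₀ (by linarith) ?_ 12) (by positivity)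
              have := Real.add_one_le_exp (v - 1)
              linarith
          _ = Real.exp (((20:ℕ):ℝ) * Real.log T + ((12:ℕ):ℝ) * (v - 1)) := (Real.exp_add _ _).symm
          _ ≤ Real.exp (ρ ^ 2 / 8 * v * (kk T : ℝ)) := by
              apply Real.exp_le_exp.mpr
              push_cast
              have q1 : 20 * Real.log T * v ≤ (ρ ^ 2 / 8 * (kk T : ℝ)) * v :=
                mul_le_mul_of_nonneg_right hρ (by linarith)
              nlinarith [mul_nonneg hL0.le (show 0 ≤ v - 1 by linarith)]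
      have hb2 : b ≤ 2 * T := by linarith
      have p5 : (1 + t) ^ 10 ≤ (2 * t) ^ 10 := pow_le_pow_left₀ (by linarith) (by linarith) 10
      have p6 : t ^ 12 ≤ v ^ 12 * (2 * T) ^ 12 := by
        rw [htv, mul_pow]
        refine mul_le_mul_of_nonneg_left (pow_le_pow_left₀ hb0.le hb2 12) (by positivity)
      have e2 : t ^ (-2 : ℝ) = (t ^ 2)⁻¹ := by
        rw [Real.rpow_neg ht0.le]; congr 1
        rw [← Real.rpow_natCast]; norm_num
      rw [e2]
      calc f t * Ph (kk T) ((kk T : ℕ) * t / b) ≤ f t * (T ^ 20 * v ^ 12)⁻¹ :=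
            mul_le_mul_of_nonneg_left (p1.trans p4) (hf.nn t)
        _ ≤ (24 ^ 5 * (2 * t) ^ 10) * (T ^ 20 * v ^ 12)⁻¹ :=
            mul_le_mul_of_nonneg_right (by linarith) (by positivity)
        _ ≤ (t ^ 2)⁻¹ := by
            rw [← div_eq_mul_inv, div_le_iff₀ (by positivity), ← div_eq_inv_mul, le_div_iff₀ (by positivity)]
            have q1 : 24 ^ 5 * 2 ^ 22 * T ^ 12 ≤ T ^ 20 := by
              have : T * T ^ 12 ≤ T ^ 20 := by
                calc T * T ^ 12 = T ^ 13 := by ring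
                  _ ≤ T ^ 20 := pow_le_pow_right₀ hT1' (by norm_num)
              have q2 : 24 ^ 5 * 2 ^ 22 * T ^ 12 ≤ T * T ^ 12 := mul_le_mul_of_nonneg_right hT1 (by positivity)
              linarith
            calc 24 ^ 5 * (2 * t) ^ 10 * t ^ 2 = 24 ^ 5 * 2 ^ 10 * t ^ 12 := by ring
              _ ≤ 24 ^ 5 * 2 ^ 10 * (v ^ 12 * (2 * T) ^ 12) := by gcongr
              _ = (24 ^ 5 * 2 ^ 22 * T ^ 12) * v ^ 12 := by ring
              _ ≤ T ^ 20 * v ^ 12 := mul_le_mul_of_nonneg_right q1 (by positivity))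
  have h3 := h2.trans h1
  have hi0 : 0 ≤ ∫ t in T..(T + H), f t := intervalIntegral.integral_nonneg (by linarith)
    fun t _ => hf.nn t
  rw [ENNReal.ofReal_le_ofReal_iff (by positivity)] at h3
  have h4 : 1 / (T + H) ≤ 1 := by rw [div_le_one (by linarith)]; linarith
  have h5 := mul_le_mul_of_nonneg_left hba hc'
  linarith

/-- long intervals, upper bounds -/
theorem absU' {κ : ℝ} (hκ : 0 < κ) (hκ1 : κ ≤ 1 / 10) :
    ∀ᶠ T : ℝ in atTop, ∀ (f : ℝ → ℝ) (c : ℝ), PG f → 0 ≤ c →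
      (∀ x ∈ Set.Icc (T ^ ((9:ℝ)/10) / 2) (8 * T), WF (kk T) x f ≤ c) →
        (1 - κ) * (∫ t in (T ^ ((9:ℝ)/10))..((1 + κ) * T), f t) ≤ c * ((1 + κ) ^ 2 * T) := by
  obtain ⟨K, hK⟩ := PhC hκ
  filter_upwards [kk_ev, kk_top K, e9 (show (0:ℝ) < 1 by norm_num), eventually_ge_atTop 1,
    Real.tendsto_log_atTop.eventually_ge_atTop 1] with T hk hkK h9 hT1 hL f c hf hc' hW
  have hT : 0 < T := by linarith
  have hL0 : 0 < Real.log T := by linarith
  have hκp : 0 < 1 + κ := by linarith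
  have hA0 : 0 < T ^ ((9:ℝ)/10) := by positivity
  have hTb : T ≤ (1 + κ) ^ 2 * T := by nlinarith [mul_pos hκ hT]
  have hTB : T ≤ (1 + κ) * T := by nlinarith [mul_pos hκ hT]
  have h1 := ss_low hf.co hf.nn hk.1
    (a := T ^ ((9:ℝ)/10) / 2)
    (b := (1 + κ) ^ 2 * T) (A := T ^ ((9:ℝ)/10)) (B := (1 + κ) * T) (κ := κ) (by positivity)
    (by linarith) hA0 (by linarith) (by linarith)
    (fun t ht => hK _ hkK t _ _ (by positivity) (by nlinarith [ht.1]) (by
      calc (1 + κ) * t ≤ (1 + κ) * ((1 + κ) * T) := mul_le_mul_of_nonneg_left ht.2 hκp.le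
        _ = _ := by ring))
  have hb8 : (1 + κ) ^ 2 * T ≤ 8 * T := mul_le_mul_of_nonneg_right (by nlinarith) hT.le
  have h2 := ss_bd' hf hk.1 (a := T ^ ((9:ℝ)/10) / 2) (b := (1 + κ) ^ 2 * T)
    (c := c) (by positivity) hc' (fun x hx => hW x ⟨by linarith [hx.1], by linarith [hx.2]⟩)
  have h3 := h1.trans h2
  rw [ENNReal.ofReal_le_ofReal_iff (mul_nonneg hc' (by linarith))] at h3
  exact h3.trans (mul_le_mul_of_nonneg_left (by linarith) hc')

/-- long intervals, lower bounds -/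
theorem absL' {κ : ℝ} (hκ : 0 < κ) (hκ1 : κ ≤ 1 / 100) :
    ∀ᶠ T : ℝ in atTop, ∀ (f : ℝ → ℝ) (c : ℝ), PG f → 0 ≤ c →
      (∀ x ∈ Set.Icc (κ * T) (8 * T), c ≤ WF (kk T) x f) →
        c * ((1 - 3 * κ) * T) ≤ (∫ t in (0:ℝ)..((1 - κ) * T), f t) + 1 := by
  have hκp : 0 < 1 + κ := by linarith
  have hκm : 0 < 1 - κ := by linarith
  filter_upwards [kk_ev, tailk' (σ := 1 / (1 + κ)) (c := 1 - κ) (by positivity)
      (by rw [div_lt_one hκp]; linarith) hκm, eventually_ge_atTop 2,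
    Real.tendsto_log_atTop.eventually_ge_atTop 1] with T hk htl hT2 hL f c hf hc' hW
  have hT : 0 < T := by linarith
  have hL0 : 0 < Real.log T := by linarith
  set b := (1 - κ) * T / (1 + κ) with hbd
  have hbT : b ≤ (1 - κ) * T := div_le_self (by positivity) (by linarith)
  have hblow : (1 - 2 * κ) * T ≤ b := by
    rw [hbd, le_div_iff₀ hκp]
    nlinarith [mul_pos (mul_pos hκ hκ) hT]
  have hab : κ * T ≤ b := by nlinarith
  have h2 := ss_bd_low' hf hk.1 (a := κ * T) (b := b) (c := c)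
    (by positivity) hc'
    (fun x hx => hW x ⟨hx.1.le, by nlinarith [hx.2, mul_pos hκ hT]⟩)
  have h3 := ss_high hf.co hf.nn hk.1
    (a := κ * T) (b := b) (T := (1 - κ) * T) (by positivity) hab hbT (by
      intro t ht
      have := htl f hf t ht
      rwa [show 1 / (1 + κ) * ((1 - κ) * T) = b by rw [hbd]; ring] at this)
  have h5 := h2.trans h3
  have hi0 : 0 ≤ ∫ t in (0:ℝ)..((1 - κ) * T), f t :=
    intervalIntegral.integral_nonneg (by positivity) fun t _ => hf.nn t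
  have h5' : c * (b - κ * T) ≤ (∫ t in (0:ℝ)..((1 - κ) * T), f t) + 1 / ((1 - κ) * T) :=
    (ENNReal.ofReal_le_ofReal_iff (add_nonneg hi0 (by positivity))).1 h5
  have h4 : 1 / ((1 - κ) * T) ≤ 1 := by
    rw [div_le_one (by positivity)]
    nlinarith
  have h6 : (1 - 3 * κ) * T ≤ b - κ * T := by linarith
  have h7 := mul_le_mul_of_nonneg_left h6 hc'
  linarith

end

end Pool.Agent.K6.H29
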