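import Pool.Agent.K6.H29.A4
import Pool.Agent.K6.H29.Trans
import Pool.Agent.TH806.Fin

set_option autoImplicit false

/-! The twisted moments over intervals and in the average. -/

namespace Pool.Agent.K6.H29.A

open Finset Filter MeasureTheory
open Pool.Agent.W184.NZ
open Pool.Agent.TH806
open Pool.Agent.H306R2.SM (om cl Yf)
open Pool.Agent.H262R4.TM (Rng Ck)
open Pool.Agent.TH73.N4_FIN Pool.Agent.TH73.N4_SHT

noncomputable section

/-- intervals, from windows -/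
theorem trans_int {κ : ℝ} (hκ : 0 < κ) (hκ1 : κ ≤ 1 / 100) (α : ℝ) (hα0 : 0 ≤ α) (hα : α < 1 / 2) :
    ∀ᶠ T : ℝ in atTop, ∀ H : ℝ, T / Real.log T ^ α ≤ H → H ≤ T → ∀ (f : ℝ → ℝ) (c : ℝ), PG f → 1 ≤ c →
      (∀ x ∈ Set.Icc (T ^ ((9:ℝ)/10) / 2) (8 * T), WF (kk T) x f ≤ (1 + κ) * c) →
      (∀ x ∈ Set.Icc (κ * T) (8 * T), (1 - κ) * c ≤ WF (kk T) x f) →
      |(∫ t in T..(T + H), f t) - c * H| ≤ 10 * κ * (c * H) := by
  have hdiv : ∀ᶠ T : ℝ in atTop, 2 / κ ≤ T / Real.log T := by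
    have h1 := Real.isLittleO_log_id_atTop
    have h2 := h1.def (show 0 < κ / 2 by positivity)
    filter_upwards [h2, Real.tendsto_log_atTop.eventually_ge_atTop 1, eventually_ge_atTop 1] with T h hL hT
    rw [Real.norm_of_nonneg (by linarith), id, Real.norm_of_nonneg (by linarith)] at h
    rw [div_le_div_iff₀ hκ (by linarith)]
    linarith
  filter_upwards [shtU' hκ (by linarith) α hα0 hα, shtL' hκ hκ1 α hα0 hα, hdiv, eventually_ge_atTop (1:ℝ),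
    Real.tendsto_log_atTop.eventually_ge_atTop 1] with T hU hLw hdiv hT1 hL H hH1 hH2 f c hf hc hW1 hW2
  have hT : 0 < T := by linarith
  have hL0 : 0 < Real.log T := by linarith
  have hLa0 : 0 < Real.log T ^ α := Real.rpow_pos_of_pos hL0 _
  have hH0 : 0 < H := lt_of_lt_of_le (by positivity) hH1
  have hH2' : 2 / κ ≤ H := by
    refine hdiv.trans (le_trans ?_ hH1)
    refine div_le_div_of_nonneg_left hT.le hLa0 ?_
    calc Real.log T ^ α ≤ Real.log T ^ (1:ℝ) := Real.rpow_le_rpow_of_exponent_le hL (by linarith)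
      _ = _ := Real.rpow_one _
  rw [div_le_iff₀ hκ] at hH2'
  have hc0 : 0 < c := by linarith
  have hcH : 0 < c * H := by positivity
  have h1 := hU H hH1 hH2 f ((1 + κ) * c) hf (by positivity) hW1
  have h2 := hLw H hH1 hH2 f ((1 - κ) * c) hf (mul_nonneg (by linarith) hc0.le) hW2
  have hHc : H ≤ c * H := le_mul_of_one_le_left hH0.le hc
  have h3 : 2 ≤ κ * (c * H) := by
    have : κ * H ≤ κ * (c * H) := mul_le_mul_of_nonneg_left hHc hκ.le
    linarith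
  rw [abs_le]
  constructor
  · have h4 : (1 - κ) * c * ((1 - 3 * κ) * H) = ((1 - κ) * (1 - 3 * κ)) * (c * H) := by ring
    rw [h4] at h2
    have h5 : 1 - 9 * κ ≤ (1 - κ) * (1 - 3 * κ) := by nlinarith
    have h6 := mul_le_mul_of_nonneg_right h5 hcH.le
    linarith
  · have h4 : (1 - κ) * (∫ t in T..(T + H), f t) ≤ (1 - κ) * ((1 + 10 * κ) * (c * H)) := by
      refine h1.trans ?_
      have h5 : (1 + κ) * (1 + 3 * κ) ≤ (1 - κ) * (1 + 10 * κ) := by nlinarith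
      calc (1 + κ) * c * ((1 + 3 * κ) * H) = ((1 + κ) * (1 + 3 * κ)) * (c * H) := by ring
        _ ≤ ((1 - κ) * (1 + 10 * κ)) * (c * H) := mul_le_mul_of_nonneg_right h5 hcH.le
        _ = _ := by ring
    have h5 := le_of_mul_le_mul_left h4 (by linarith)
    linarith

/-- the average, from windows -/
theorem trans_avg {κ : ℝ} (hκ : 0 < κ) (hκ1 : κ ≤ 1 / 100) (x : ℝ) :
    ∀ᶠ T : ℝ in atTop, ∀ (f : ℝ → ℝ) (c : ℝ), PG f → (∀ t, f t ≤ 24 ^ 5 * (1 + |t|) ^ 10) → 1 ≤ c →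
      (∫ t in (0:ℝ)..(T ^ ((9:ℝ)/10)), f t) ≤ κ * T →
      (∀ x ∈ Set.Icc (T ^ ((9:ℝ)/10) / 2) (8 * T), WF (kk T) x f ≤ (1 + κ) * c) →
      (∀ x ∈ Set.Icc (κ * T) (8 * T), (1 - κ) * c ≤ WF (kk T) x f) →
      |(∫ t in x..(x + T), f t) - c * T| ≤ 10 * κ * (c * T) := by
  filter_upwards [absU' hκ (by linarith), absL' hκ hκ1, e9 hκ,
    eventually_ge_atTop ((|x| + 24 ^ 5 * (1 + |x|) ^ 10 * |x| + 1) / κ),
    eventually_ge_atTop (1:ℝ), Real.tendsto_log_atTop.eventually_ge_atTop 1] with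
    T hU hLw h9 hTx hT1 hL1 f c hf hfa hc hsm hW1 hW2
  have hT : 0 < T := by linarith
  rw [div_le_iff₀ hκ] at hTx
  set cx := 24 ^ 5 * (1 + |x|) ^ 10 * |x| with hcx
  have hx0 := abs_nonneg x
  have hcx0 : 0 ≤ cx := by positivity
  have hxx := abs_le.mp (show |x| ≤ κ * T by linarith)
  have hcxT : cx + 1 ≤ κ * T := by linarith
  have hc0 : 0 < c := by linarith
  have hcT : 0 < c * T := by positivity
  have hTc : T ≤ c * T := le_mul_of_one_le_left hT.le hc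
  have hκT : κ * T ≤ κ * (c * T) := mul_le_mul_of_nonneg_left hTc hκ.le
  have hprim : ∀ a b : ℝ, ∫ t in a..b, f t = (∫ t in (0:ℝ)..b, f t) - ∫ t in (0:ℝ)..a, f t := by
    intro a b
    have e := intervalIntegral.integral_add_adjacent_intervals (hf.co.intervalIntegrable 0 a)
      (hf.co.intervalIntegrable a b) (μ := volume)
    linarith
  have hmono : ∀ a b : ℝ, a ≤ b → ∫ t in (0:ℝ)..a, f t ≤ ∫ t in (0:ℝ)..b, f t := by
    intro a b hab
    have h0 : 0 ≤ ∫ t in a..b, f t := intervalIntegral.integral_nonneg hab fun t _ => hf.nn t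
    rw [hprim] at h0
    linarith
  have hseg : |∫ t in (0:ℝ)..x, f t| ≤ cx := by
    have := intervalIntegral.norm_integral_le_of_norm_le_const (a := (0:ℝ)) (b := x)
      (C := 24 ^ 5 * (1 + |x|) ^ 10) (f := f) (fun y hy => by
        rw [Real.norm_of_nonneg (hf.nn y)]
        refine (hfa y).trans ?_
        have : |y| ≤ |x| := by
          rcases Set.mem_uIoc.mp hy with h | h
          · rw [abs_of_nonneg h.1.le, abs_of_nonneg (by linarith [h.1, h.2])]; exact h.2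
          · rw [abs_of_nonpos h.2, abs_of_neg (by linarith [h.1, h.2])]; linarith [h.1]
        gcongr)
    rwa [Real.norm_eq_abs, sub_zero] at this
  have hseg' := abs_le.mp hseg
  have h1 := hU f ((1 + κ) * c) hf (by positivity) hW1
  have h2 := hLw f ((1 - κ) * c) hf (mul_nonneg (by linarith) hc0.le) hW2
  have hsp := hprim (T ^ ((9:ℝ)/10)) ((1 + κ) * T)
  have hxT := hprim x (x + T)
  have m1 := hmono (x + T) ((1 + κ) * T) (by linarith [hxx.2])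
  have m2 := hmono ((1 - κ) * T) (x + T) (by linarith [hxx.1])
  rw [abs_le]
  constructor
  · have h4 : (1 - κ) * c * ((1 - 3 * κ) * T) = ((1 - κ) * (1 - 3 * κ)) * (c * T) := by ring
    rw [h4] at h2
    have h5 : 1 - 9 * κ ≤ (1 - κ) * (1 - 3 * κ) := by nlinarith
    have h6 := mul_le_mul_of_nonneg_right h5 hcT.le
    rw [hxT]
    linarith [hseg'.2]
  · have h4 : (1 - κ) * (∫ t in (T ^ ((9:ℝ)/10))..((1 + κ) * T), f t) ≤ (1 - κ) * ((1 + 5 * κ) * (c * T)) := by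
      refine h1.trans ?_
      have h5 : (1 + κ) * (1 + κ) ^ 2 ≤ (1 - κ) * (1 + 5 * κ) := by nlinarith [mul_pos hκ hκ]
      calc (1 + κ) * c * ((1 + κ) ^ 2 * T) = ((1 + κ) * (1 + κ) ^ 2) * (c * T) := by ring
        _ ≤ ((1 - κ) * (1 + 5 * κ)) * (c * T) := mul_le_mul_of_nonneg_right h5 hcT.le
        _ = _ := by ring
    have h5 := le_of_mul_le_mul_left h4 (by linarith)
    rw [hxT]
    linarith [hseg'.1]

/-- the weighted power -/
def fW (β D r s t : ℝ) : ℝ := Xz t ^ β * Wt D r s t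

lemma fW_bd {β D r s : ℝ} (h0 : 0 ≤ β) (h3 : β ≤ 3) (hrs : |r| + |s| ≤ 1) (t : ℝ) :
    fW β D r s t ≤ 24 ^ 5 * (1 + |t|) ^ 10 := by
  unfold fW
  have h1 := Xz_poly (β := β) h0 h3 (abs_nonneg t) hrs D
  obtain ⟨w1, w2⟩ := Wt_bd hrs D t
  have h2 : Xz t ^ β * Wt D r s t ≤ (24 ^ 3 * (1 + |t|) ^ 6) * 3 := by
    rw [Xz_abs]
    exact mul_le_mul (Xz_pow_le h0 h3 (abs_nonneg t)) w2 (by linarith) (by positivity)
  refine h2.trans ?_
  have h4 : (1 + |t|) ^ 6 ≤ (1 + |t|) ^ 10 := pow_le_pow_right₀ (by linarith [abs_nonneg t]) (by norm_num)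
  nlinarith [pow_nonneg (show 0 ≤ 1 + |t| by positivity) 10]

lemma fW_pg {β D r s : ℝ} (h0 : 0 ≤ β) (h3 : β ≤ 3) (hrs : |r| + |s| ≤ 1) : PG (fW β D r s) := by
  refine ⟨?_, fun t => ?_, fun t ht => ?_⟩
  · exact (Xz_pow_cont h0).mul (Wt_cont D r s)
  · obtain ⟨w1, w2⟩ := Wt_bd hrs D t
    exact mul_nonneg (Real.rpow_nonneg (Xz_nonneg t) _) (by linarith)
  · have := fW_bd (D := D) h0 h3 hrs t
    rwa [abs_of_nonneg ht] at this

lemma v_bd {h l : ℕ} (hh : h ≠ 0) (hl : l ≠ 0) {r s : ℝ} (hrs : |r| + |s| ≤ 1) :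
    1 ≤ 2 + r * ((h:ℝ) * l) ^ (-(1 / 2 : ℝ)) ∧ 2 + r * ((h:ℝ) * l) ^ (-(1 / 2 : ℝ)) ≤ 3 := by
  set u : ℝ := ((h:ℝ) * l) ^ (-(1 / 2 : ℝ)) with hu
  have h1' : (1:ℝ) ≤ h := by exact_mod_cast Nat.pos_of_ne_zero hh
  have l1' : (1:ℝ) ≤ l := by exact_mod_cast Nat.pos_of_ne_zero hl
  have hu0 : 0 < u := Real.rpow_pos_of_pos (by positivity) _
  have hu1 : u ≤ 1 := Real.rpow_le_one_of_one_le_of_nonpos (by nlinarith) (by norm_num)
  have hru : |r * u| ≤ 1 := by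
    rw [abs_mul, abs_of_pos hu0]
    exact mul_le_one₀ (by linarith [abs_nonneg s]) hu0.le hu1
  obtain ⟨b1, b2⟩ := abs_le.mp hru
  constructor <;> linarith

/-- the windows at all the heights that matter -/
theorem winx {h l : ℕ} (hh : h ≠ 0) (hl : l ≠ 0) (hco : Nat.Coprime h l) {κ : ℝ} (hκ : 0 < κ) (hκ1 : κ ≤ 1 / 10) :
    ∃ δ : ℝ, 0 < δ ∧ δ ≤ 1 / 40 ∧ ∀ᶠ T : ℝ in atTop, ∀ β : ℝ, |β - 2| ≤ δ → ∀ r s : ℝ, |r| + |s| ≤ 1 →
      (∀ x ∈ Set.Icc (T ^ ((9:ℝ)/10) / 2) (8 * T), WF (kk T) x (fW β (Real.log l - Real.log h) r s) ≤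
        (1 + κ) * ((2 + r * ((h:ℝ) * l) ^ (-(1 / 2 : ℝ))) * Real.log T ^ (β ^ 2 / 4))) ∧
      (∀ x ∈ Set.Icc (κ * T) (8 * T), (1 - κ) * ((2 + r * ((h:ℝ) * l) ^ (-(1 / 2 : ℝ))) * Real.log T ^ (β ^ 2 / 4)) ≤
        WF (kk T) x (fW β (Real.log l - Real.log h) r s)) := by
  set e := κ / 10 with he
  have he0 : 0 < e := by positivity
  have he1 : e ≤ 1 / 100 := by rw [he]; linarith
  obtain ⟨δ, hδ, hδ1, hW⟩ := winW hh hl hco he0
  refine ⟨δ, hδ, hδ1, ?_⟩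
  obtain ⟨T0, hT0⟩ := eventually_atTop.1 hW
  filter_upwards [kk_ev, e9_top T0, e9 hκ, eventually_ge_atTop (1:ℝ),
    Real.tendsto_log_atTop.eventually_ge_atTop 2,
    Real.tendsto_log_atTop.eventually_ge_atTop (Real.log 8 / e),
    Real.tendsto_log_atTop.eventually_ge_atTop (-Real.log κ / e)] with T hk hT0' h9 hT1 hL1 hL8 hLκ β hβ r s hrs
  have hT : 0 < T := by linarith
  have hL0 : 0 < Real.log T := by linarith
  rw [div_le_iff₀ he0] at hL8 hLκ
  obtain ⟨hβ1, hβ3, hm0, hm2⟩ := beta_range (hβ.trans hδ1)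
  obtain ⟨v1, v2⟩ := v_bd hh hl hrs
  set v := 2 + r * ((h:ℝ) * l) ^ (-(1 / 2 : ℝ)) with hv
  set m := β ^ 2 / 4 with hm
  have hLp : 0 ≤ Real.log T ^ m := Real.rpow_nonneg hL0.le _
  constructor
  · intro x hx
    obtain ⟨hr, l1, l2⟩ := hk.2.2 x hx
    have hx0 : 0 < x := lt_of_lt_of_le (by positivity) hx.1
    have a1 := hT0 x (hT0'.trans hx.1) (kk T) hr β hβ r s hrs
    change |WF (kk T) x (fW β (Real.log l - Real.log h) r s) - v * Real.log x ^ m| ≤ e * Real.log x ^ m at a1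
    have b2 := (abs_le.mp a1).2
    have hlx : 0 < Real.log x := by linarith
    have hl : Real.log x ≤ (1 + e) * Real.log T := by
      have := Real.log_le_log hx0 hx.2
      rw [Real.log_mul (by norm_num) hT.ne'] at this
      linarith
    have hp : Real.log x ^ m ≤ (1 + e) ^ 2 * Real.log T ^ m := by
      calc Real.log x ^ m ≤ ((1 + e) * Real.log T) ^ m := Real.rpow_le_rpow hlx.le hl hm0
        _ = (1 + e) ^ m * Real.log T ^ m := Real.mul_rpow (by positivity) hL0.le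
        _ ≤ _ := by
            refine mul_le_mul_of_nonneg_right ?_ hLp
            rw [← Real.rpow_natCast]
            exact Real.rpow_le_rpow_of_exponent_le (by linarith) (by exact_mod_cast hm2)
    calc WF (kk T) x (fW β (Real.log l - Real.log h) r s) ≤ (v + e) * Real.log x ^ m := by linarith
      _ ≤ (v * (1 + e)) * ((1 + e) ^ 2 * Real.log T ^ m) := by
          refine mul_le_mul ?_ hp (Real.rpow_nonneg hlx.le _) (by positivity)
          nlinarith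
      _ = (1 + e) ^ 3 * (v * Real.log T ^ m) := by ring
      _ ≤ _ := by
          refine mul_le_mul_of_nonneg_right ?_ (by positivity)
          have : (1 + e) ^ 3 ≤ 1 + 10 * e := by nlinarith [mul_pos he0 he0]
          linarith
  · intro x hx
    have hx0 : 0 < x := lt_of_lt_of_le (by positivity) hx.1
    have hx9 : T ^ ((9:ℝ)/10) / 2 ≤ x := by
      have : 0 < T ^ ((9:ℝ)/10) := by positivity
      linarith [hx.1]
    obtain ⟨hr, l1, l2⟩ := hk.2.2 x ⟨hx9, hx.2⟩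
    have a1 := hT0 x (hT0'.trans hx9) (kk T) hr β hβ r s hrs
    change |WF (kk T) x (fW β (Real.log l - Real.log h) r s) - v * Real.log x ^ m| ≤ e * Real.log x ^ m at a1
    have b2 := (abs_le.mp a1).1
    have hlx : 0 < Real.log x := by linarith
    have hl : (1 - e) * Real.log T ≤ Real.log x := by
      have := Real.log_le_log (by positivity) hx.1
      rw [Real.log_mul hκ.ne' hT.ne'] at this
      linarith
    have he2 : 0 ≤ 1 - e := by linarith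
    have hp : (1 - e) ^ 2 * Real.log T ^ m ≤ Real.log x ^ m := by
      calc (1 - e) ^ 2 * Real.log T ^ m ≤ (1 - e) ^ m * Real.log T ^ m := by
            refine mul_le_mul_of_nonneg_right ?_ hLp
            rw [← Real.rpow_natCast]
            exact Real.rpow_le_rpow_of_exponent_ge (by linarith) (by linarith) (by exact_mod_cast hm2)
        _ = ((1 - e) * Real.log T) ^ m := (Real.mul_rpow (by linarith) hL0.le).symm
        _ ≤ _ := Real.rpow_le_rpow (mul_nonneg (by linarith) hL0.le) hl hm0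
    calc (1 - κ) * (v * Real.log T ^ m) ≤ (1 - e) ^ 3 * (v * Real.log T ^ m) := by
          refine mul_le_mul_of_nonneg_right ?_ (by positivity)
          nlinarith [mul_pos he0 he0]
      _ = (v * (1 - e)) * ((1 - e) ^ 2 * Real.log T ^ m) := by ring
      _ ≤ (v - e) * Real.log x ^ m := by
          refine mul_le_mul ?_ hp (by positivity) (by linarith)
          nlinarith
      _ ≤ _ := by linarith

/-- the initial segment is negligible -/
lemma seg0 {κ : ℝ} (hκ : 0 < κ) : ∃ δ : ℝ, 0 < δ ∧ δ ≤ 1 / 40 ∧ ∀ᶠ T : ℝ in atTop, ∀ β : ℝ, |β - 2| ≤ δ →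
    ∀ D r s : ℝ, |r| + |s| ≤ 1 → (∫ t in (0:ℝ)..(T ^ ((9:ℝ)/10)), fW β D r s t) ≤ κ * T := by
  obtain ⟨δ, hδ, hδ1, h⟩ := mom_T (ε := 1) one_pos
  refine ⟨δ, hδ, hδ1, ?_⟩
  have ht : Tendsto (fun T : ℝ => T ^ ((9:ℝ)/10)) atTop atTop := tendsto_rpow_atTop (by norm_num)
  have hsm : ∀ᶠ T : ℝ in atTop, 6 * Real.log T ^ 2 ≤ κ * T ^ ((1:ℝ)/10) := by
    have h1 := (isLittleO_log_rpow_atTop (r := 1 / 20) (by norm_num)).bound (c := Real.sqrt (κ / 6)) (by positivity)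
    filter_upwards [h1, eventually_ge_atTop (1:ℝ)] with T hT hT1
    have hT0 : 0 < T := by linarith
    rw [Real.norm_eq_abs, Real.norm_eq_abs, abs_of_nonneg (Real.log_nonneg hT1),
      abs_of_nonneg (by positivity)] at hT
    have h2 : Real.log T ^ 2 ≤ (Real.sqrt (κ / 6) * T ^ (1 / 20 : ℝ)) ^ 2 :=
      pow_le_pow_left₀ (Real.log_nonneg hT1) hT 2
    have h3 : (Real.sqrt (κ / 6) * T ^ (1 / 20 : ℝ)) ^ 2 = κ / 6 * T ^ (1 / 10 : ℝ) := by
      rw [mul_pow, Real.sq_sqrt (by positivity), ← Real.rpow_natCast (T ^ (1 / 20 : ℝ)) 2, ← Real.rpow_mul hT0.le]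
      norm_num
    rw [h3] at h2
    linarith
  filter_upwards [ht.eventually h, hsm, eventually_ge_atTop (1:ℝ),
    (Real.tendsto_log_atTop.comp ht).eventually_ge_atTop 1] with T hT hsm hT1 hL β hβ D r s hrs
  have hT0 : 0 < T := by linarith
  obtain ⟨hβ1, hβ3, hm0, hm2⟩ := beta_range (hβ.trans hδ1)
  have h1 := (abs_le.mp (hT β hβ)).2
  set U := T ^ ((9:ℝ)/10) with hU
  have hU0 : 0 < U := by positivity
  have hL' : 1 ≤ Real.log U := hL
  have hLU : Real.log U ≤ Real.log T := by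
    rw [hU, Real.log_rpow hT0]
    have := Real.log_nonneg hT1
    linarith
  have h2 : Real.log U ^ (β ^ 2 / 4) ≤ Real.log T ^ 2 := by
    calc Real.log U ^ (β ^ 2 / 4) ≤ Real.log U ^ (2:ℝ) := Real.rpow_le_rpow_of_exponent_le hL' hm2
      _ = Real.log U ^ 2 := by rw [← Real.rpow_natCast]; norm_num
      _ ≤ _ := pow_le_pow_left₀ (by linarith) hLU 2
  have h3 : (∫ t in (0:ℝ)..U, fW β D r s t) ≤ 3 * ∫ t in (0:ℝ)..U, Xz t ^ β := by
    rw [← intervalIntegral.integral_const_mul]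
    refine intervalIntegral.integral_mono_on hU0.le ((fW_pg (by linarith) hβ3 hrs).co.intervalIntegrable _ _)
      (((Xz_pow_cont (by linarith)).const_mul 3).intervalIntegrable _ _) fun t _ => ?_
    unfold fW
    obtain ⟨w1, w2⟩ := Wt_bd hrs D t
    rw [mul_comm 3]
    exact mul_le_mul_of_nonneg_left w2 (Real.rpow_nonneg (Xz_nonneg t) _)
  have h4 : (∫ t in (0:ℝ)..U, Xz t ^ β) ≤ 2 * (U * Real.log T ^ 2) := by
    have : U * Real.log U ^ (β ^ 2 / 4) ≤ U * Real.log T ^ 2 := mul_le_mul_of_nonneg_left h2 hU0.le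
    linarith
  have h5 : U * T ^ ((1:ℝ)/10) = T := by
    rw [hU, ← Real.rpow_add hT0]; norm_num
  calc (∫ t in (0:ℝ)..U, fW β D r s t) ≤ 3 * (2 * (U * Real.log T ^ 2)) := by linarith
    _ = U * (6 * Real.log T ^ 2) := by ring
    _ ≤ U * (κ * T ^ ((1:ℝ)/10)) := mul_le_mul_of_nonneg_left hsm hU0.le
    _ = κ * (U * T ^ ((1:ℝ)/10)) := by ring
    _ = _ := by rw [h5]

/-- the twisted moments over intervals -/
theorem intW {h l : ℕ} (hh : h ≠ 0) (hl : l ≠ 0) (hco : Nat.Coprime h l) {ε : ℝ} (hε : 0 < ε) :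
    ∃ δ : ℝ, 0 < δ ∧ δ ≤ 1 / 40 ∧ ∀ α : ℝ, 0 ≤ α → α < 1 / 2 → ∀ᶠ T : ℝ in atTop,
      ∀ H : ℝ, T / Real.log T ^ α ≤ H → H ≤ T → ∀ β : ℝ, |β - 2| ≤ δ → ∀ r s : ℝ, |r| + |s| ≤ 1 →
      |(∫ t in T..(T + H), fW β (Real.log l - Real.log h) r s t) -
        (2 + r * ((h:ℝ) * l) ^ (-(1 / 2 : ℝ))) * (H * Real.log T ^ (β ^ 2 / 4))| ≤
          ε * (H * Real.log T ^ (β ^ 2 / 4)) := by
  obtain ⟨κ, hκ, hκ1, hκ2⟩ : ∃ κ : ℝ, 0 < κ ∧ κ ≤ 1 / 100 ∧ κ ≤ ε / 30 :=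
    ⟨min (1 / 100) (ε / 30), by positivity, min_le_left _ _, min_le_right _ _⟩
  obtain ⟨δ, hδ, hδ1, hW⟩ := winx hh hl hco hκ (by linarith)
  refine ⟨δ, hδ, hδ1, fun α hα0 hα => ?_⟩
  filter_upwards [hW, trans_int hκ hκ1 α hα0 hα, eventually_ge_atTop (1:ℝ),
    Real.tendsto_log_atTop.eventually_ge_atTop 1] with T hW hT hT1 hL H hH1 hH2 β hβ r s hrs
  have hT0 : 0 < T := by linarith
  have hL0 : 0 < Real.log T := by linarith
  have hLa0 : 0 < Real.log T ^ α := Real.rpow_pos_of_pos hL0 _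
  have hH0 : 0 < H := lt_of_lt_of_le (by positivity) hH1
  obtain ⟨hβ1, hβ3, hm0, hm2⟩ := beta_range (hβ.trans hδ1)
  obtain ⟨v1, v2⟩ := v_bd hh hl hrs
  set v := 2 + r * ((h:ℝ) * l) ^ (-(1 / 2 : ℝ)) with hv
  set m := β ^ 2 / 4 with hm
  have hLp : 1 ≤ Real.log T ^ m := Real.one_le_rpow hL hm0
  obtain ⟨w1, w2⟩ := hW β hβ r s hrs
  have h1 := hT H hH1 hH2 (fW β (Real.log l - Real.log h) r s) (v * Real.log T ^ m)
    (fW_pg (by linarith) hβ3 hrs) (by nlinarith) w1 w2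
  have e1 : v * Real.log T ^ m * H = v * (H * Real.log T ^ m) := by ring
  rw [e1] at h1
  refine h1.trans ?_
  have h2 : 0 ≤ H * Real.log T ^ m := by positivity
  calc 10 * κ * (v * (H * Real.log T ^ m)) ≤ 10 * (ε / 30) * (3 * (H * Real.log T ^ m)) := by gcongr
    _ = _ := by ring

/-- the twisted moments in the average -/
theorem avgW {h l : ℕ} (hh : h ≠ 0) (hl : l ≠ 0) (hco : Nat.Coprime h l) {ε : ℝ} (hε : 0 < ε) :
    ∃ δ : ℝ, 0 < δ ∧ δ ≤ 1 / 40 ∧ ∀ x : ℝ, ∀ᶠ T : ℝ in atTop,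
      ∀ β : ℝ, |β - 2| ≤ δ → ∀ r s : ℝ, |r| + |s| ≤ 1 →
      |(∫ t in x..(x + T), fW β (Real.log l - Real.log h) r s t) -
        (2 + r * ((h:ℝ) * l) ^ (-(1 / 2 : ℝ))) * (T * Real.log T ^ (β ^ 2 / 4))| ≤
          ε * (T * Real.log T ^ (β ^ 2 / 4)) := by
  obtain ⟨κ, hκ, hκ1, hκ2⟩ : ∃ κ : ℝ, 0 < κ ∧ κ ≤ 1 / 100 ∧ κ ≤ ε / 30 :=
    ⟨min (1 / 100) (ε / 30), by positivity, min_le_left _ _, min_le_right _ _⟩
  obtain ⟨δ1, hδ, hδ1, hW⟩ := winx hh hl hco hκ (by linarith)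
  obtain ⟨δ2, hδ2, hδ3, hS⟩ := seg0 hκ
  refine ⟨min δ1 δ2, lt_min hδ hδ2, (min_le_left _ _).trans hδ1, fun x => ?_⟩
  filter_upwards [hW, hS, trans_avg hκ hκ1 x, eventually_ge_atTop (1:ℝ),
    Real.tendsto_log_atTop.eventually_ge_atTop 1] with T hW hS hT hT1 hL β hβ r s hrs
  have hT0 : 0 < T := by linarith
  have hL0 : 0 < Real.log T := by linarith
  have hβ' := hβ.trans (min_le_left _ _)
  have hβ'' := hβ.trans (min_le_right _ _)
  obtain ⟨hβ1, hβ3, hm0, hm2⟩ := beta_range (hβ'.trans hδ1)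
  obtain ⟨v1, v2⟩ := v_bd hh hl hrs
  set v := 2 + r * ((h:ℝ) * l) ^ (-(1 / 2 : ℝ)) with hv
  set m := β ^ 2 / 4 with hm
  have hLp : 1 ≤ Real.log T ^ m := Real.one_le_rpow hL hm0
  obtain ⟨w1, w2⟩ := hW β hβ' r s hrs
  have h1 := hT (fW β (Real.log l - Real.log h) r s) (v * Real.log T ^ m)
    (fW_pg (by linarith) hβ3 hrs) (fW_bd (by linarith) hβ3 hrs) (by nlinarith) (hS β hβ'' _ r s hrs) w1 w2
  have e1 : v * Real.log T ^ m * T = v * (T * Real.log T ^ m) := by ring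
  rw [e1] at h1
  refine h1.trans ?_
  have h2 : 0 ≤ T * Real.log T ^ m := by positivity
  calc 10 * κ * (v * (T * Real.log T ^ m)) ≤ 10 * (ε / 30) * (3 * (T * Real.log T ^ m)) := by gcongr
    _ = _ := by ring

end

end Pool.Agent.K6.H29.A
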