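import Pool.Agent.K6.H29.Fin4

set_option autoImplicit false

/-!
Uniformity in the level.
-/

namespace Pool.Agent.K6.H29

open Finset Filter Topology MeasureTheory ProbabilityTheory
open Pool.Agent.TH806 Pool.Agent.TH806.N4
open Pool.Agent.TH73.N4_FIN Pool.Agent.TH73.N4_SHT

noncomputable section

lemma Ga_mono : Monotone Ga := by
  intro a b hab
  unfold Ga
  exact measureReal_mono (Set.Iic_subset_Iic.mpr hab)

lemma Ga_cont : Continuous Ga := by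
  have : NullSingletonClass (gaussianReal 0 1) := nullSingletonClass_gaussianReal (by norm_num)
  rw [Metric.continuous_iff]
  intro b ε hε
  obtain ⟨d1, h1, h1'⟩ := Pool.Agent.R313.cdf_right (gaussianReal 0 1) b (ε / 2) (by positivity)
  obtain ⟨d2, h2, h2'⟩ := Pool.Agent.R313.cdf_left (gaussianReal 0 1) b (ε / 2) (by positivity)
  refine ⟨min d1 d2, lt_min h1 h2, fun a ha => ?_⟩
  rw [Real.dist_eq] at ha ⊢
  have h3 := ha.trans_le (min_le_left _ _)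
  have h4 := ha.trans_le (min_le_right _ _)
  rw [abs_lt] at h3 h4 ⊢
  have h5 := Ga_mono (show a ≤ b + d1 by linarith)
  have h6 := Ga_mono (show b - d2 ≤ a by linarith)
  change Ga (b + d1) ≤ Ga b + ε / 2 at h1'
  change Ga b - ε / 2 ≤ Ga (b - d2) at h2'
  constructor <;> linarith

lemma Ga_bot : Tendsto Ga atBot (𝓝 0) := by
  have h := tendsto_cdf_atBot (gaussianReal 0 1)
  refine h.congr fun x => ?_
  rw [cdf_eq_real]
  rfl

lemma Ga_top : Tendsto Ga atTop (𝓝 1) := by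
  have h := tendsto_cdf_atTop (gaussianReal 0 1)
  refine h.congr fun x => ?_
  rw [cdf_eq_real]
  rfl

/-- a finite grid of levels -/
lemma grid {ε : ℝ} (hε : 0 < ε) : ∃ S : Finset ℝ, ∀ u : ℝ, (∃ s ∈ S, u ≤ s ∧ Ga s ≤ Ga u + ε) ∨ 1 - ε ≤ Ga u := by
  obtain ⟨n, hn⟩ := exists_nat_gt (1 / ε)
  have hn0 : (0:ℝ) < n := lt_trans (by positivity) hn
  have hnε : 1 / (n:ℝ) ≤ ε := by
    rw [div_le_iff₀ hn0]
    rw [div_lt_iff₀ hε] at hn
    linarith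
  have hq : ∀ j : ℕ, ∃ s : ℝ, 1 ≤ j → j < n → Ga s = (j:ℝ) / n := by
    intro j
    by_cases hj : 1 ≤ j ∧ j < n
    · have h1 : (0:ℝ) < (j:ℝ) / n := by
        have : (1:ℝ) ≤ j := by exact_mod_cast hj.1
        positivity
      have h2 : (j:ℝ) / n < 1 := by
        rw [div_lt_one hn0]; exact_mod_cast hj.2
      obtain ⟨a, ha⟩ := (Ga_bot.eventually (gt_mem_nhds h1)).exists
      obtain ⟨b, hb⟩ := (Ga_top.eventually (lt_mem_nhds h2)).exists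
      obtain ⟨s, hs⟩ := mem_range_of_exists_le_of_exists_ge Ga_cont ⟨a, ha.le⟩ ⟨b, hb.le⟩
      exact ⟨s, fun _ _ => hs⟩
    · exact ⟨0, fun h1 h2 => absurd ⟨h1, h2⟩ hj⟩
  choose q hq using hq
  refine ⟨(Finset.range n).image q, fun u => ?_⟩
  by_cases hu : 1 - ε ≤ Ga u
  · exact Or.inr hu
  left
  push Not at hu
  have h0 := Ga_nonneg u
  set j := ⌊(n:ℝ) * Ga u⌋₊ + 1 with hj
  have h1 : (n:ℝ) * Ga u < j := by rw [hj]; push_cast; exact Nat.lt_floor_add_one _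
  have h2 : (j:ℝ) ≤ n * Ga u + 1 := by
    rw [hj]; push_cast
    have := Nat.floor_le (show 0 ≤ (n:ℝ) * Ga u by positivity)
    linarith
  have h3 : (j:ℝ) < n := by
    have : (n:ℝ) * Ga u + 1 < n := by
      have h4 : (n:ℝ) * Ga u < n * (1 - ε) := mul_lt_mul_of_pos_left hu hn0
      have h5 : 1 ≤ (n:ℝ) * ε := by
        rw [div_le_iff₀ hn0] at hnε
        linarith
      linarith
    linarith
  have h4 : j < n := by exact_mod_cast h3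
  have hs := hq j (by omega) h4
  refine ⟨q j, Finset.mem_image_of_mem _ (Finset.mem_range.mpr h4), ?_, ?_⟩
  · by_contra hcon
    push Not at hcon
    have h5 := Ga_mono hcon.le
    rw [hs, div_le_iff₀ hn0] at h5
    linarith
  · rw [hs, div_le_iff₀ hn0]
    have : (n:ℝ) * ε ≥ 1 := by
      rw [div_le_iff₀ hn0] at hnε
      linarith
    nlinarith

lemma lev_mono {T β : ℝ} (hL : 0 < Real.log T) {u v : ℝ} (h : u ≤ v) : lev T β u ≤ lev T β v := by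
  unfold lev
  refine mul_le_mul_of_nonneg_left (Real.exp_le_exp.mpr ?_) (Real.rpow_nonneg hL.le _)
  exact mul_le_mul_of_nonneg_right h (Real.sqrt_nonneg _)

lemma trunc_mono {g : ℝ → ℝ} (hg : Continuous g) (hg0 : ∀ t, 0 ≤ g t) {β V V' a b : ℝ} (hβ : 0 ≤ β) (h : V ≤ V') :
    ∫ t in {t | t ∈ Set.Icc a b ∧ g t ≤ V}, g t ^ β ≤ ∫ t in {t | t ∈ Set.Icc a b ∧ g t ≤ V'}, g t ^ β := by
  have hc : Continuous fun t => g t ^ β := hg.rpow_const fun _ => Or.inr hβ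
  refine setIntegral_mono_set (hc.integrableOn_Icc.mono_set fun t ht => ht.1) ?_ ?_
  · exact Eventually.of_forall fun t => Real.rpow_nonneg (hg0 t) _
  · exact Eventually.of_forall fun t ht => ⟨ht.1, ht.2.trans h⟩

lemma trunc_le {g : ℝ → ℝ} (hg : Continuous g) (hg0 : ∀ t, 0 ≤ g t) {β V a b : ℝ} (hβ : 0 ≤ β) (hab : a ≤ b) :
    ∫ t in {t | t ∈ Set.Icc a b ∧ g t ≤ V}, g t ^ β ≤ ∫ t in a..b, g t ^ β := by
  have hc : Continuous fun t => g t ^ β := hg.rpow_const fun _ => Or.inr hβ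
  rw [intervalIntegral.integral_of_le hab, ← integral_Icc_eq_integral_Ioc]
  refine setIntegral_mono_set hc.integrableOn_Icc ?_ ?_
  · exact Eventually.of_forall fun t => Real.rpow_nonneg (hg0 t) _
  · exact Eventually.of_forall fun t ht => ht.1

lemma above_anti {g : ℝ → ℝ} (hg : Continuous g) (hg0 : ∀ t, 0 ≤ g t) {β V V' a b : ℝ} (hβ : 0 ≤ β) (h : V ≤ V') :
    ∫ t in {t | t ∈ Set.Icc a b ∧ V' < g t}, g t ^ β ≤ ∫ t in {t | t ∈ Set.Icc a b ∧ V < g t}, g t ^ β := by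
  have hc : Continuous fun t => g t ^ β := hg.rpow_const fun _ => Or.inr hβ
  refine setIntegral_mono_set (hc.integrableOn_Icc.mono_set fun t ht => ht.1) ?_ ?_
  · exact Eventually.of_forall fun t => Real.rpow_nonneg (hg0 t) _
  · exact Eventually.of_forall fun t ht => ⟨ht.1, lt_of_le_of_lt h ht.2⟩

lemma above_nn {g : ℝ → ℝ} (hg0 : ∀ t, 0 ≤ g t) {β V a b : ℝ} :
    0 ≤ ∫ t in {t | t ∈ Set.Icc a b ∧ V < g t}, g t ^ β :=
  integral_nonneg fun t => Real.rpow_nonneg (hg0 t) _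

/-- uniformity: the abstract step -/
lemma unif_up {g : ℝ → ℝ} (hg : Continuous g) (hg0 : ∀ t, 0 ≤ g t) {β a b T ε M : ℝ} (hβ : 0 ≤ β) (hab : a ≤ b)
    (hL : 0 < Real.log T) (hε : 0 < ε) (hM : 0 ≤ M) {S : Finset ℝ}
    (hS : ∀ u : ℝ, (∃ s ∈ S, u ≤ s ∧ Ga s ≤ Ga u + ε) ∨ 1 - ε ≤ Ga u)
    (h1 : ∀ s ∈ S, ∫ t in {t | t ∈ Set.Icc a b ∧ g t ≤ lev T β s}, g t ^ β ≤ (c4 * Ga s + ε) * M)
    (h2 : ∫ t in a..b, g t ^ β ≤ (c4 + ε) * M) (u : ℝ) :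
    ∫ t in {t | t ∈ Set.Icc a b ∧ g t ≤ lev T β u}, g t ^ β ≤ (c4 * Ga u + 2 * ε) * M := by
  have hc := c4_pos
  have hc2 := c4_le
  rcases hS u with ⟨s, hs, hus, hG⟩ | h
  · refine (trunc_mono hg hg0 hβ (lev_mono hL hus)).trans ((h1 s hs).trans ?_)
    refine mul_le_mul_of_nonneg_right ?_ hM
    nlinarith
  · refine (trunc_le hg hg0 hβ hab).trans (h2.trans ?_)
    refine mul_le_mul_of_nonneg_right ?_ hM
    nlinarith

lemma unif_low {g : ℝ → ℝ} (hg : Continuous g) (hg0 : ∀ t, 0 ≤ g t) {β a b T ε M : ℝ} (hβ : 0 ≤ β)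
    (hL : 0 < Real.log T) (hε : 0 < ε) (hM : 0 ≤ M) {S : Finset ℝ}
    (hS : ∀ u : ℝ, (∃ s ∈ S, u ≤ s ∧ Ga s ≤ Ga u + ε) ∨ 1 - ε ≤ Ga u)
    (h1 : ∀ s ∈ S, (c4 * (1 - Ga s) - ε) * M ≤ ∫ t in {t | t ∈ Set.Icc a b ∧ lev T β s < g t}, g t ^ β) (u : ℝ) :
    (c4 * (1 - Ga u) - 2 * ε) * M ≤ ∫ t in {t | t ∈ Set.Icc a b ∧ lev T β u < g t}, g t ^ β := by
  have hc := c4_pos
  have hc2 := c4_le
  rcases hS u with ⟨s, hs, hus, hG⟩ | h
  · refine le_trans ?_ ((h1 s hs).trans (above_anti hg hg0 hβ (lev_mono hL hus)))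
    refine mul_le_mul_of_nonneg_right ?_ hM
    nlinarith
  · refine (mul_nonpos_of_nonpos_of_nonneg ?_ hM).trans (above_nn hg0)
    nlinarith

/-- finitely many levels at the same time -/
lemma fin_delta {P : ℝ → ℝ → Prop} (hP : ∀ u, ∃ δ, 0 < δ ∧ δ ≤ 1 / 40 ∧ P u δ)
    (hanti : ∀ u δ δ', 0 < δ' → δ' ≤ δ → P u δ → P u δ') (S : Finset ℝ) :
    ∃ δ, 0 < δ ∧ δ ≤ 1 / 40 ∧ ∀ s ∈ S, P s δ := by
  classical
  induction S using Finset.induction_on with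
  | empty => exact ⟨1 / 40, by norm_num, le_rfl, by simp⟩
  | insert a S ha ih =>
    obtain ⟨δ1, h1, h1', h1''⟩ := ih
    obtain ⟨δ2, h2, h2', h2''⟩ := hP a
    refine ⟨min δ1 δ2, lt_min h1 h2, (min_le_left _ _).trans h1', fun s hs => ?_⟩
    rcases Finset.mem_insert.mp hs with rfl | hs
    · exact hanti _ _ _ (lt_min h1 h2) (min_le_right _ _) h2''
    · exact hanti _ _ _ (lt_min h1 h2) (min_le_left _ _) (h1'' s hs)

/-- intervals -/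
theorem int4u (hI : P_ING) (hw : P_WG) (hs : P_SHT) {ε : ℝ} (hε : 0 < ε) : ∃ δ : ℝ, 0 < δ ∧
    ∀ α : ℝ, 0 ≤ α → α < 1 / 2 → ∀ᶠ T : ℝ in atTop, ∀ H : ℝ, T / Real.log T ^ α ≤ H → H ≤ T →
      (∀ β : ℝ, 4 - δ ≤ β → β ≤ 4 → ∀ u : ℝ, ∫ t in {t | t ∈ Set.Icc T (T + H) ∧ Xz t ≤ lev T β u}, Xz t ^ β ≤
        (c4 * Ga u + ε) * (H * Real.log T ^ (β ^ 2 / 4))) ∧
      (∀ β : ℝ, 4 ≤ β → β ≤ 4 + δ → ∀ u : ℝ, (c4 * (1 - Ga u) - ε) * (H * Real.log T ^ (β ^ 2 / 4)) ≤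
        ∫ t in {t | t ∈ Set.Icc T (T + H) ∧ lev T β u < Xz t}, Xz t ^ β) := by
  obtain ⟨S, hS⟩ := grid (show 0 < ε / 2 by positivity)
  obtain ⟨δ1, h1, h1', hA⟩ := fin_delta (P := fun u δ =>
    ∀ α : ℝ, 0 ≤ α → α < 1 / 2 → ∀ᶠ T : ℝ in atTop, ∀ H : ℝ, T / Real.log T ^ α ≤ H → H ≤ T →
      (∀ β : ℝ, 4 - δ ≤ β → β ≤ 4 → ∫ t in {t | t ∈ Set.Icc T (T + H) ∧ Xz t ≤ lev T β u}, Xz t ^ β ≤
        (c4 * Ga u + ε / 2) * (H * Real.log T ^ (β ^ 2 / 4))) ∧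
      (∀ β : ℝ, 4 ≤ β → β ≤ 4 + δ → (c4 * (1 - Ga u) - ε / 2) * (H * Real.log T ^ (β ^ 2 / 4)) ≤
        ∫ t in {t | t ∈ Set.Icc T (T + H) ∧ lev T β u < Xz t}, Xz t ^ β))
    (fun u => int4 hI hw (by positivity) u) (fun u δ δ' h0 hle hP α ha0 ha1 => by
      filter_upwards [hP α ha0 ha1] with T hT H hH1 hH2
      obtain ⟨a1, a2⟩ := hT H hH1 hH2
      exact ⟨fun β b1 b2 => a1 β (by linarith) b2, fun β b1 b2 => a2 β b1 (by linarith)⟩) S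
  obtain ⟨δ2, h2, hB⟩ := hs (ε / 2) (by positivity)
  refine ⟨min δ1 δ2, lt_min h1 h2, fun α ha0 ha1 => ?_⟩
  have hA' : ∀ᶠ T : ℝ in atTop, ∀ s ∈ S, ∀ H : ℝ, T / Real.log T ^ α ≤ H → H ≤ T →
      (∀ β : ℝ, 4 - δ1 ≤ β → β ≤ 4 → ∫ t in {t | t ∈ Set.Icc T (T + H) ∧ Xz t ≤ lev T β s}, Xz t ^ β ≤
        (c4 * Ga s + ε / 2) * (H * Real.log T ^ (β ^ 2 / 4))) ∧
      (∀ β : ℝ, 4 ≤ β → β ≤ 4 + δ1 → (c4 * (1 - Ga s) - ε / 2) * (H * Real.log T ^ (β ^ 2 / 4)) ≤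
        ∫ t in {t | t ∈ Set.Icc T (T + H) ∧ lev T β s < Xz t}, Xz t ^ β) :=
    (Finset.eventually_all S).mpr fun s hs => hA s hs α ha0 ha1
  filter_upwards [hA', hB α ha0 ha1, eventually_ge_atTop (1:ℝ),
    Real.tendsto_log_atTop.eventually_ge_atTop 1] with T hT1 hT2 hT0 hL H hH1 hH2
  have hL0 : 0 < Real.log T := by linarith
  have hH0 : 0 ≤ H := le_trans (by positivity) hH1
  have m1 := min_le_left δ1 δ2
  have m2 := min_le_right δ1 δ2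
  constructor
  · intro β b1 b2 u
    have := unif_up Xz_cont Xz_nonneg (β := β) (a := T) (b := T + H) (M := H * Real.log T ^ (β ^ 2 / 4))
      (by linarith) (by linarith) hL0 (by positivity) (by positivity) hS
      (fun s hs => (hT1 s hs H hH1 hH2).1 β (by linarith) b2)
      (((hT2 H hH1 hH2).1 β (by linarith) b2)) u
    rwa [show 2 * (ε / 2) = ε by ring] at this
  · intro β b1 b2 u
    have := unif_low Xz_cont Xz_nonneg (β := β) (a := T) (b := T + H) (M := H * Real.log T ^ (β ^ 2 / 4))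
      (by linarith) hL0 (by positivity) (by positivity) hS
      (fun s hs => (hT1 s hs H hH1 hH2).2 β b1 (by linarith)) u
    rwa [show 2 * (ε / 2) = ε by ring] at this

/-- the average of the problem -/
theorem abs4u (hI : P_ING) (hw : P_WG) (hs : P_ABS) {ε : ℝ} (hε : 0 < ε) : ∃ δ : ℝ, 0 < δ ∧
    ∀ x : ℝ, ∀ᶠ T : ℝ in atTop,
      (∀ β : ℝ, 4 - δ ≤ β → β ≤ 4 → ∀ u : ℝ,
        ∫ s in {s | s ∈ Set.Icc (0:ℝ) 1 ∧ Xz (x + s * T) ≤ lev T β u}, Xz (x + s * T) ^ β ≤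
        (c4 * Ga u + ε) * Real.log T ^ (β ^ 2 / 4)) ∧
      (∀ β : ℝ, 4 ≤ β → β ≤ 4 + δ → ∀ u : ℝ, (c4 * (1 - Ga u) - ε) * Real.log T ^ (β ^ 2 / 4) ≤
        ∫ s in {s | s ∈ Set.Icc (0:ℝ) 1 ∧ lev T β u < Xz (x + s * T)}, Xz (x + s * T) ^ β) := by
  obtain ⟨S, hS⟩ := grid (show 0 < ε / 2 by positivity)
  obtain ⟨δ1, h1, h1', hA⟩ := fin_delta (P := fun u δ =>
    ∀ x : ℝ, ∀ᶠ T : ℝ in atTop,
      (∀ β : ℝ, 4 - δ ≤ β → β ≤ 4 → ∫ s in {s | s ∈ Set.Icc (0:ℝ) 1 ∧ Xz (x + s * T) ≤ lev T β u}, Xz (x + s * T) ^ β ≤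
        (c4 * Ga u + ε / 2) * Real.log T ^ (β ^ 2 / 4)) ∧
      (∀ β : ℝ, 4 ≤ β → β ≤ 4 + δ → (c4 * (1 - Ga u) - ε / 2) * Real.log T ^ (β ^ 2 / 4) ≤
        ∫ s in {s | s ∈ Set.Icc (0:ℝ) 1 ∧ lev T β u < Xz (x + s * T)}, Xz (x + s * T) ^ β))
    (fun u => abs4 hI hw (by positivity) u) (fun u δ δ' h0 hle hP x => by
      filter_upwards [hP x] with T hT
      obtain ⟨a1, a2⟩ := hT
      exact ⟨fun β b1 b2 => a1 β (by linarith) b2, fun β b1 b2 => a2 β b1 (by linarith)⟩) S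
  obtain ⟨δ2, h2, hB⟩ := hs (ε / 2) (by positivity)
  refine ⟨min δ1 δ2, lt_min h1 h2, fun x => ?_⟩
  have hA' : ∀ᶠ T : ℝ in atTop, ∀ s ∈ S,
      (∀ β : ℝ, 4 - δ1 ≤ β → β ≤ 4 → ∫ r in {r | r ∈ Set.Icc (0:ℝ) 1 ∧ Xz (x + r * T) ≤ lev T β s}, Xz (x + r * T) ^ β ≤
        (c4 * Ga s + ε / 2) * Real.log T ^ (β ^ 2 / 4)) ∧
      (∀ β : ℝ, 4 ≤ β → β ≤ 4 + δ1 → (c4 * (1 - Ga s) - ε / 2) * Real.log T ^ (β ^ 2 / 4) ≤
        ∫ r in {r | r ∈ Set.Icc (0:ℝ) 1 ∧ lev T β s < Xz (x + r * T)}, Xz (x + r * T) ^ β) :=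
    (Finset.eventually_all S).mpr fun s hs => hA s hs x
  filter_upwards [hA', hB x, eventually_ge_atTop (1:ℝ),
    Real.tendsto_log_atTop.eventually_ge_atTop 1] with T hT1 hT2 hT0 hL
  have hL0 : 0 < Real.log T := by linarith
  have m1 := min_le_left δ1 δ2
  have m2 := min_le_right δ1 δ2
  have hgc : Continuous fun s : ℝ => Xz (x + s * T) := Xz_cont.comp (by fun_prop)
  have hg0 : ∀ s : ℝ, 0 ≤ Xz (x + s * T) := fun s => Xz_nonneg _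
  have haM : ∀ β : ℝ, ∫ s in (0:ℝ)..1, Xz (x + s * T) ^ β = aM β x T := by
    intro β
    unfold aM
    refine intervalIntegral.integral_congr fun s _ => ?_
    show Xz (x + s * T) ^ β = _
    rw [Xz_shift]
    push_cast
    rfl
  constructor
  · intro β b1 b2 u
    have h3 := hT2.1 β (by linarith) b2
    rw [← haM] at h3
    have := unif_up hgc hg0 (β := β) (a := 0) (b := 1) (M := Real.log T ^ (β ^ 2 / 4))
      (by linarith) zero_le_one hL0 (by positivity) (by positivity) hS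
      (fun s hs => (hT1 s hs).1 β (by linarith) b2) h3 u
    rwa [show 2 * (ε / 2) = ε by ring] at this
  · intro β b1 b2 u
    have := unif_low hgc hg0 (β := β) (a := 0) (b := 1) (M := Real.log T ^ (β ^ 2 / 4))
      (by linarith) hL0 (by positivity) (by positivity) hS
      (fun s hs => (hT1 s hs).2 β b1 (by linarith)) u
    rwa [show 2 * (ε / 2) = ε by ring] at this

end

end Pool.Agent.K6.H29
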