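import Pool.Agent.K6.H29.A5
import Pool.Agent.K6.H29.Unif

set_option autoImplicit false

/-! From moments near an exponent to the law under the weighted measure. -/

namespace Pool.Agent.K6.H29.A

open Finset Filter Topology MeasureTheory ProbabilityTheory
open Pool.Agent.TH806

noncomputable section

/-- the law from the moments -/
theorem law_of_mom {g w : ℝ → ℝ} (hg : Continuous g) (hg0 : ∀ t, 0 ≤ g t) (hw : Continuous w) (hw0 : ∀ t, 0 ≤ w t)
    {a b N v κ0 κ1 A u ε δ L β β0 : ℝ} (hab : a ≤ b) (hN : 0 < N) (hv : 1 ≤ v) (hL : 1 < L)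
    (hβ0 : δ < β0) (hβ : |β - β0| ≤ δ / 2) (hκ1 : 0 ≤ κ1)
    (hA : A / Real.sqrt (1 / 2 * Real.log L) ≤ δ / 2) (hκ : κ1 * Real.exp (A ^ 2 / 2) ≤ κ0)
    (hM : ∀ β' : ℝ, |β' - β0| ≤ δ → |(∫ t in a..b, g t ^ β' * w t) - v * (N * L ^ (β' ^ 2 / 4))| ≤
      κ1 * (N * L ^ (β' ^ 2 / 4)))
    (hQ : ∀ (p Y : ℝ → ℝ) (m : Measure ℝ), Near κ0 A p Y m →
      |(∫ t in {t : ℝ | Y t ≤ u}, p t ∂m) - (gaussianReal 0 1).real (Set.Iic u)| ≤ ε) :
    |(∫ t in {t | t ∈ Set.Icc a b ∧ g t ≤ L ^ (β / 2) * Real.exp (u * Real.sqrt (1 / 2 * Real.log L))}, g t ^ β * w t) -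
      v * Ga u * (N * L ^ (β ^ 2 / 4))| ≤ ε * (v * (N * L ^ (β ^ 2 / 4))) := by
  have hL0 : 0 < L := by linarith
  set LL := Real.log L with hLL
  have hLL0 : 0 < LL := Real.log_pos hL
  set σ := Real.sqrt (1 / 2 * LL) with hσ
  have hσ0 : 0 < σ := Real.sqrt_pos.mpr (by positivity)
  have hs2 : σ ^ 2 = 1 / 2 * LL := Real.sq_sqrt (by positivity)
  have hLs : LL = 2 * σ ^ 2 := by rw [hs2]; ring
  have hv0 : 0 < v := by linarith
  obtain ⟨hb1, hb2⟩ := abs_le.mp hβ
  have hδ0 : 0 ≤ δ := by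
    have := abs_nonneg (β - β0)
    linarith
  have hβp : 0 < β := by linarith
  set E := v * (N * L ^ (β ^ 2 / 4)) with hE
  have hLm : ∀ m : ℝ, 0 < L ^ m := fun m => Real.rpow_pos_of_pos hL0 m
  have hE0 : 0 < E := mul_pos hv0 (mul_pos hN (hLm _))
  have hm : MeasurableSet (Set.Icc a b) := measurableSet_Icc
  have hc : ∀ β' : ℝ, 0 ≤ β' → Continuous fun t => g t ^ β' * w t := fun β' h =>
    (hg.rpow_const fun _ => Or.inr h).mul hw
  obtain ⟨p, hp⟩ : ∃ p : ℝ → ℝ, p = (Set.Icc a b).indicator (fun t => g t ^ β * w t / E) := ⟨_, rfl⟩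
  obtain ⟨Y, hY⟩ : ∃ Y : ℝ → ℝ, Y = fun t => (Real.log (g t) - β / 2 * LL) / σ := ⟨_, rfl⟩
  have hpm : Measurable p := by rw [hp]; exact ((hc β hβp.le).measurable.div_const _).indicator hm
  have hYm : Measurable Y := by rw [hY]; exact ((Real.measurable_log.comp hg.measurable).sub_const _).div_const _
  have hp0 : ∀ t, 0 ≤ p t := by
    intro t
    rw [hp]
    exact Set.indicator_nonneg (fun t _ => div_nonneg (mul_nonneg (Real.rpow_nonneg (hg0 t) _) (hw0 t)) hE0.le) t
  have hsσ : ∀ s : ℝ, |s| ≤ A → |s / σ| ≤ δ / 2 := by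
    intro s hs
    rw [abs_div, abs_of_pos hσ0]
    exact (div_le_div_of_nonneg_right hs hσ0.le).trans hA
  have key : ∀ s t : ℝ, |s| ≤ A → p t * Real.exp (s * Y t) =
      (Set.Icc a b).indicator (fun t => Real.exp (-(s * (β / 2 * LL) / σ)) / E * (g t ^ (β + s / σ) * w t)) t := by
    intro s t hs
    have hps : 0 < β + s / σ := by
      have := (abs_le.mp (hsσ s hs)).1
      linarith
    rw [hp, hY]
    by_cases ht : t ∈ Set.Icc a b
    · rw [Set.indicator_of_mem ht, Set.indicator_of_mem ht]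
      simp only
      rcases (hg0 t).eq_or_lt with h0 | h0
      · rw [← h0, Real.zero_rpow hβp.ne', Real.zero_rpow hps.ne']
        simp
      · have e1 : g t ^ (β + s / σ) = g t ^ β * Real.exp (s / σ * Real.log (g t)) := by
          rw [Real.rpow_add h0, Real.rpow_def_of_pos h0 (s / σ)]
          congr 2; ring
        have e2 : Real.exp (s * ((Real.log (g t) - β / 2 * LL) / σ)) =
            Real.exp (s / σ * Real.log (g t)) * Real.exp (-(s * (β / 2 * LL) / σ)) := by
          rw [← Real.exp_add]; congr 1; field_simp; ring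
        rw [e1, e2]
        ring
    · rw [Set.indicator_of_notMem ht, Set.indicator_of_notMem ht, zero_mul]
  have hNear : Near κ0 A p Y (volume : Measure ℝ) := by
    refine ⟨hpm, hp0, hYm, fun s hs => ?_⟩
    have hb := hsσ s hs
    have hps : 0 < β + s / σ := by
      have := (abs_le.mp hb).1
      linarith
    have e0 : (fun t => p t * Real.exp (s * Y t)) =
        (Set.Icc a b).indicator (fun t => Real.exp (-(s * (β / 2 * LL) / σ)) / E * (g t ^ (β + s / σ) * w t)) :=
      funext fun t => key s t hs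
    have hI := ((hc (β + s / σ) hps.le).const_mul (Real.exp (-(s * (β / 2 * LL) / σ)) / E)).integrableOn_Icc
      (a := a) (b := b) (μ := volume)
    constructor
    · rw [e0, integrable_indicator_iff hm]
      exact hI
    · rw [e0, integral_indicator hm, integral_const_mul, integral_Icc_eq_integral_Ioc,
        ← intervalIntegral.integral_of_le hab]
      have h1 := hM (β + s / σ) (by
        have e : β + s / σ - β0 = (β - β0) + s / σ := by ring
        rw [e]
        exact (abs_add_le _ _).trans (by linarith))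
      have e3 : Real.exp (-(s * (β / 2 * LL) / σ)) / E * (v * (N * L ^ ((β + s / σ) ^ 2 / 4))) =
          Real.exp (s ^ 2 / 2) := by
        have e4 : L ^ ((β + s / σ) ^ 2 / 4) = L ^ (β ^ 2 / 4) * Real.exp (s * (β / 2 * LL) / σ) *
            Real.exp (s ^ 2 / 2) := by
          rw [Real.rpow_def_of_pos hL0, Real.rpow_def_of_pos hL0, ← hLL, ← Real.exp_add, ← Real.exp_add]
          congr 1
          rw [hLs]
          field_simp
          ring
        rw [e4, Real.exp_neg, hE]
        have n1 := (Real.exp_pos (s * (β / 2 * LL) / σ)).ne'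
        have n2 := (hLm (β ^ 2 / 4)).ne'
        field_simp
      have e5 : Real.exp (-(s * (β / 2 * LL) / σ)) / E * (∫ t in a..b, g t ^ (β + s / σ) * w t) -
          Real.exp (s ^ 2 / 2) = Real.exp (-(s * (β / 2 * LL) / σ)) / E *
            ((∫ t in a..b, g t ^ (β + s / σ) * w t) - v * (N * L ^ ((β + s / σ) ^ 2 / 4))) := by
        rw [mul_sub, e3]
      have hfac : 0 < Real.exp (-(s * (β / 2 * LL) / σ)) / E := by positivity
      rw [e5, abs_mul, abs_of_pos hfac]
      have h2 : κ1 * (N * L ^ ((β + s / σ) ^ 2 / 4)) ≤ κ1 * (v * (N * L ^ ((β + s / σ) ^ 2 / 4))) := by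
        refine mul_le_mul_of_nonneg_left ?_ hκ1
        exact le_mul_of_one_le_left (mul_pos hN (hLm _)).le hv
      calc _ ≤ Real.exp (-(s * (β / 2 * LL) / σ)) / E * (κ1 * (v * (N * L ^ ((β + s / σ) ^ 2 / 4)))) :=
            mul_le_mul_of_nonneg_left (h1.trans h2) hfac.le
        _ = κ1 * (Real.exp (-(s * (β / 2 * LL) / σ)) / E * (v * (N * L ^ ((β + s / σ) ^ 2 / 4)))) := by ring
        _ = κ1 * Real.exp (s ^ 2 / 2) := by rw [e3]
        _ ≤ κ1 * Real.exp (A ^ 2 / 2) := by
            refine mul_le_mul_of_nonneg_left (Real.exp_le_exp.mpr ?_) hκ1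
            have : s ^ 2 ≤ A ^ 2 := by rw [← sq_abs s]; exact pow_le_pow_left₀ (abs_nonneg s) hs 2
            linarith
        _ ≤ κ0 := hκ
  have h1 := hQ p Y volume hNear
  set Vv := L ^ (β / 2) * Real.exp (u * σ) with hVv
  have hVv0 : 0 < Vv := mul_pos (hLm _) (Real.exp_pos _)
  have hlV : Real.log Vv = β / 2 * LL + u * σ := by
    rw [hVv, Real.log_mul (hLm _).ne' (Real.exp_pos _).ne', Real.log_rpow hL0, Real.log_exp]
  have mS : MeasurableSet {t : ℝ | Y t ≤ u} := hYm measurableSet_Iic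
  have mS2 : MeasurableSet {t : ℝ | g t ≤ Vv} := hg.measurable measurableSet_Iic
  have e7 : ∫ t in {t : ℝ | Y t ≤ u}, p t = (∫ t in {t | t ∈ Set.Icc a b ∧ g t ≤ Vv}, g t ^ β * w t) / E := by
    have e8 : {t : ℝ | Y t ≤ u}.indicator p =
        {t | t ∈ Set.Icc a b ∧ g t ≤ Vv}.indicator (fun t => g t ^ β * w t / E) := by
      funext t
      rw [hp]
      by_cases ht : t ∈ Set.Icc a b
      · rcases (hg0 t).eq_or_lt with h0 | h0
        · have hz : g t ^ β * w t / E = 0 := by rw [← h0, Real.zero_rpow hβp.ne']; simp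
          have hz1 : (Set.Icc a b).indicator (fun t => g t ^ β * w t / E) t = 0 := by
            rw [Set.indicator_of_mem ht]; exact hz
          have h2 : {t : ℝ | Y t ≤ u}.indicator ((Set.Icc a b).indicator fun t => g t ^ β * w t / E) t = 0 := by
            by_cases h3 : t ∈ {t : ℝ | Y t ≤ u}
            · rw [Set.indicator_of_mem h3]; exact hz1
            · rw [Set.indicator_of_notMem h3]
          have h4 : {t | t ∈ Set.Icc a b ∧ g t ≤ Vv}.indicator (fun t => g t ^ β * w t / E) t = 0 := by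
            by_cases h3 : t ∈ {t | t ∈ Set.Icc a b ∧ g t ≤ Vv}
            · rw [Set.indicator_of_mem h3]; exact hz
            · rw [Set.indicator_of_notMem h3]
          rw [h2, h4]
        · have hiff : Y t ≤ u ↔ g t ≤ Vv := by
            rw [hY]
            show (Real.log (g t) - β / 2 * LL) / σ ≤ u ↔ g t ≤ Vv
            rw [div_le_iff₀ hσ0, ← Real.log_le_log_iff h0 hVv0, hlV]
            constructor <;> intro h <;> linarith
          by_cases h3 : Y t ≤ u
          · rw [Set.indicator_of_mem (show t ∈ {t : ℝ | Y t ≤ u} from h3), Set.indicator_of_mem ht,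
              Set.indicator_of_mem (show t ∈ {t | t ∈ Set.Icc a b ∧ g t ≤ Vv} from ⟨ht, hiff.mp h3⟩)]
          · rw [Set.indicator_of_notMem (show t ∉ {t : ℝ | Y t ≤ u} from h3),
              Set.indicator_of_notMem (show t ∉ {t | t ∈ Set.Icc a b ∧ g t ≤ Vv} from fun h => h3 (hiff.mpr h.2))]
      · have hz1 : (Set.Icc a b).indicator (fun t => g t ^ β * w t / E) t = 0 := Set.indicator_of_notMem ht _
        rw [Set.indicator_of_notMem (show t ∉ {t | t ∈ Set.Icc a b ∧ g t ≤ Vv} from fun h => ht h.1)]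
        by_cases h3 : t ∈ {t : ℝ | Y t ≤ u}
        · rw [Set.indicator_of_mem h3]; exact hz1
        · rw [Set.indicator_of_notMem h3]
    have m3 : MeasurableSet {t | t ∈ Set.Icc a b ∧ g t ≤ Vv} := hm.inter mS2
    rw [← integral_indicator mS, e8, integral_indicator m3, integral_div]
  rw [e7] at h1
  have e9 : (∫ t in {t | t ∈ Set.Icc a b ∧ g t ≤ Vv}, g t ^ β * w t) - v * Ga u * (N * L ^ (β ^ 2 / 4)) =
      ((∫ t in {t | t ∈ Set.Icc a b ∧ g t ≤ Vv}, g t ^ β * w t) / E - Ga u) * E := by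
    rw [sub_mul, div_mul_cancel₀ _ hE0.ne', hE]; ring
  rw [e9, abs_mul, abs_of_pos hE0]
  exact mul_le_mul_of_nonneg_right h1 hE0.le

end

end Pool.Agent.K6.H29.A
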