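import Pool.Agent.K6.H29.A6

set_option autoImplicit false

/-! Uniformity in the level; the joint law for the twists. -/

namespace Pool.Agent.K6.H29.A

open Finset Filter Topology MeasureTheory ProbabilityTheory
open Pool.Agent.TH806

noncomputable section

/-- a finite grid of levels, from below -/
lemma grid' {ε : ℝ} (hε : 0 < ε) : ∃ S : Finset ℝ, ∀ u : ℝ, (∃ s ∈ S, s ≤ u ∧ Ga u ≤ Ga s + ε) ∨ Ga u ≤ ε := by
  obtain ⟨n, hn⟩ := exists_nat_gt (1 / ε)
  have hn0 : (0:ℝ) < n := lt_trans (by positivity) hn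
  have hnε : 1 / (n:ℝ) ≤ ε := by
    rw [div_le_iff₀ hn0]
    rw [div_lt_iff₀ hε] at hn
    linarith
  have hnε' : 1 ≤ (n:ℝ) * ε := by
    rw [div_le_iff₀ hn0] at hnε
    linarith
  have hq : ∀ j : ℕ, ∃ s : ℝ, 1 ≤ j → j < n → Ga s = (j:ℝ) / n := by
    intro j
    by_cases hj : 1 ≤ j ∧ j < n
    · have h1 : (0:ℝ) < (j:ℝ) / n := by
        have : (1:ℝ) ≤ j := by exact_mod_cast hj.1
        positivity
      have h2 : (j:ℝ) / n < 1 := by
        rw [div_lt_one hn0]; exact_mod_cast hj.2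
      obtain ⟨a, ha⟩ := (Ga_bot.eventually (gt_mem_nhds h1)).exists
      obtain ⟨b, hb⟩ := (Ga_top.eventually (lt_mem_nhds h2)).exists
      obtain ⟨s, hs⟩ := mem_range_of_exists_le_of_exists_ge Ga_cont ⟨a, ha.le⟩ ⟨b, hb.le⟩
      exact ⟨s, fun _ _ => hs⟩
    · exact ⟨0, fun h1 h2 => absurd ⟨h1, h2⟩ hj⟩
  choose q hq using hq
  refine ⟨(Finset.range n).image q, fun u => ?_⟩
  by_cases hu : Ga u ≤ ε
  · exact Or.inr hu
  left
  push Not at hu
  have h0 := Ga_nonneg u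
  have h1 := Ga_le_one u
  set c := ⌈(n:ℝ) * Ga u⌉₊ with hc
  have hc1 : (n:ℝ) * Ga u ≤ c := Nat.le_ceil _
  have hc2 : (c:ℝ) < n * Ga u + 1 := Nat.ceil_lt_add_one (by positivity)
  have hnG : 1 < (n:ℝ) * Ga u := by
    have : (n:ℝ) * ε < n * Ga u := mul_lt_mul_of_pos_left hu hn0
    linarith
  have hc3 : 2 ≤ c := by
    have : (1:ℝ) < c := by linarith
    exact_mod_cast this
  have hc4 : c ≤ n := by
    have h4 : (c:ℝ) < n + 1 := by nlinarith
    have : c < n + 1 := by exact_mod_cast h4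
    omega
  obtain ⟨j, hj⟩ : ∃ j, c = j + 1 := ⟨c - 1, by omega⟩
  have hjc : (c:ℝ) = j + 1 := by rw [hj]; push_cast; ring
  have hs := hq j (by omega) (by omega)
  refine ⟨q j, Finset.mem_image_of_mem _ (Finset.mem_range.mpr (by omega)), ?_, ?_⟩
  · by_contra hcon
    push Not at hcon
    have h5 := Ga_mono hcon.le
    rw [hs, le_div_iff₀ hn0] at h5
    nlinarith
  · rw [hs]
    have h6 : Ga u ≤ ((j:ℝ) + 1) / n := by
      rw [le_div_iff₀ hn0]; nlinarith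
    rw [add_div] at h6
    linarith

/-- one choice of the constants for finitely many levels -/
lemma mgf_fin {ε : ℝ} (hε : 0 < ε) (S : Finset ℝ) : ∃ κ A : ℝ, 0 < κ ∧ κ ≤ ε ∧ 0 < A ∧
    ∀ (p Y : ℝ → ℝ) (m : Measure ℝ), Near κ A p Y m → ∀ s ∈ S, |(∫ t in {t : ℝ | Y t ≤ s}, p t ∂m) - Ga s| ≤ ε := by
  classical
  induction S using Finset.induction_on with
  | empty => exact ⟨ε, 1, hε, le_rfl, one_pos, by simp⟩
  | insert a S ha ih =>
    obtain ⟨κ1, A1, h1, h1', h2, h3⟩ := ih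
    obtain ⟨κ2, A2, h4, h5, h6⟩ := mgf_cdf a ε hε
    refine ⟨min κ1 κ2, max A1 A2, lt_min h1 h4, (min_le_left _ _).trans h1', lt_max_of_lt_left h2,
      fun p Y m hN s hs => ?_⟩
    rcases Finset.mem_insert.mp hs with rfl | hs
    · refine h6 p Y m ⟨hN.1, hN.2.1, hN.2.2.1, fun s hs => ?_⟩
      obtain ⟨a1, a2⟩ := hN.2.2.2 s (hs.trans (le_max_right _ _))
      exact ⟨a1, a2.trans (min_le_right _ _)⟩
    · refine h3 p Y m ⟨hN.1, hN.2.1, hN.2.2.1, fun s hs => ?_⟩ s hs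
      obtain ⟨a1, a2⟩ := hN.2.2.2 s (hs.trans (le_max_left _ _))
      exact ⟨a1, a2.trans (min_le_left _ _)⟩

/-- the quantitative limit theorem, uniformly in the level -/
theorem mgf_unif {ε : ℝ} (hε : 0 < ε) : ∃ κ A : ℝ, 0 < κ ∧ 0 < A ∧
    ∀ (p Y : ℝ → ℝ) (m : Measure ℝ), Near κ A p Y m → ∀ y : ℝ,
      |(∫ t in {t : ℝ | Y t ≤ y}, p t ∂m) - (gaussianReal 0 1).real (Set.Iic y)| ≤ ε := by
  obtain ⟨S1, hS1⟩ := grid (show 0 < ε / 2 by positivity)
  obtain ⟨S2, hS2⟩ := grid' (show 0 < ε / 2 by positivity)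
  obtain ⟨κ, A, hκ, hκε, hA, h⟩ := mgf_fin (show 0 < ε / 2 by positivity) (S1 ∪ S2)
  refine ⟨κ, A, hκ, hA, fun p Y m hN y => ?_⟩
  have h' := h p Y m hN
  obtain ⟨hp, hp0, hY, hm⟩ := hN
  obtain ⟨i0, m0⟩ := hm 0 (by rw [abs_zero]; exact hA.le)
  simp only [zero_mul, Real.exp_zero, mul_one] at i0 m0
  norm_num at m0
  have hmono : ∀ a b : ℝ, a ≤ b → ∫ t in {t : ℝ | Y t ≤ a}, p t ∂m ≤ ∫ t in {t : ℝ | Y t ≤ b}, p t ∂m := by
    intro a b hab
    exact setIntegral_mono_set i0.integrableOn (Eventually.of_forall hp0) (Eventually.of_forall fun t ht => le_trans ht hab)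
  have htot : ∫ t in {t : ℝ | Y t ≤ y}, p t ∂m ≤ ∫ t, p t ∂m :=
    setIntegral_le_integral i0 (Eventually.of_forall hp0)
  have hnn : 0 ≤ ∫ t in {t : ℝ | Y t ≤ y}, p t ∂m := integral_nonneg fun t => hp0 t
  change |(∫ t in {t : ℝ | Y t ≤ y}, p t ∂m) - Ga y| ≤ ε
  rw [abs_le]
  constructor
  · rcases hS2 y with ⟨s, hs, h1, h2⟩ | h1
    · have h3 := (abs_le.mp (h' s (mem_union_right _ hs))).1
      have h4 := hmono s y h1
      linarith
    · linarith
  · rcases hS1 y with ⟨s, hs, h1, h2⟩ | h1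
    · have h3 := (abs_le.mp (h' s (mem_union_left _ hs))).2
      have h4 := hmono y s h1
      linarith
    · have := (abs_le.mp m0).2
      linarith

/-- truncated weighted moments -/
def tr (g w : ℝ → ℝ) (a b β V : ℝ) : ℝ := ∫ t in {t | t ∈ Set.Icc a b ∧ g t ≤ V}, g t ^ β * w t

lemma lev_eq (T β u : ℝ) : lev T β u =
    Real.log T ^ (β / 2) * Real.exp (u * Real.sqrt (1 / 2 * Real.log (Real.log T))) := rfl

/-- from four weights to the cosine and the sine -/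
lemma comb {g : ℝ → ℝ} (hg : Continuous g) {θ : ℝ → ℝ} (hθ : Continuous θ)
    {a b β V N u G ε : ℝ} (hβ : 0 ≤ β)
    (h : ∀ r s : ℝ, |r| + |s| ≤ 1 →
      |tr g (fun t => 2 + (r * Real.cos (θ t) + s * Real.sin (θ t))) a b β V - (2 + r * u) * G * N| ≤ ε) :
    |tr g (fun t => Real.cos (θ t)) a b β V - u * G * N| ≤ ε ∧ |tr g (fun t => Real.sin (θ t)) a b β V| ≤ ε := by
  have hc : Continuous fun t => g t ^ β := hg.rpow_const fun _ => Or.inr hβ
  have i1 : IntegrableOn (fun t => g t ^ β) {t | t ∈ Set.Icc a b ∧ g t ≤ V} :=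
    hc.integrableOn_Icc.mono_set fun t ht => ht.1
  have i2 : IntegrableOn (fun t => g t ^ β * Real.cos (θ t)) {t | t ∈ Set.Icc a b ∧ g t ≤ V} :=
    (hc.mul (Real.continuous_cos.comp hθ)).integrableOn_Icc.mono_set fun t ht => ht.1
  have i3 : IntegrableOn (fun t => g t ^ β * Real.sin (θ t)) {t | t ∈ Set.Icc a b ∧ g t ≤ V} :=
    (hc.mul (Real.continuous_sin.comp hθ)).integrableOn_Icc.mono_set fun t ht => ht.1
  have e : ∀ r s : ℝ, tr g (fun t => 2 + (r * Real.cos (θ t) + s * Real.sin (θ t))) a b β V =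
      2 * (∫ t in {t | t ∈ Set.Icc a b ∧ g t ≤ V}, g t ^ β) +
        (r * tr g (fun t => Real.cos (θ t)) a b β V + s * tr g (fun t => Real.sin (θ t)) a b β V) := by
    intro r s
    have i4 : IntegrableOn (fun t => r * (g t ^ β * Real.cos (θ t)) + s * (g t ^ β * Real.sin (θ t)))
        {t | t ∈ Set.Icc a b ∧ g t ≤ V} := (i2.const_mul r).add (i3.const_mul s)
    unfold tr
    rw [← integral_const_mul, ← integral_const_mul, ← integral_const_mul, ← integral_add (i2.const_mul r) (i3.const_mul s),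
      ← integral_add (i1.const_mul 2) i4]
    refine integral_congr_ae (Eventually.of_forall fun t => ?_)
    simp only
    ring
  have h1 := h 1 0 (by norm_num)
  have h2 := h (-1) 0 (by norm_num)
  have h3 := h 0 1 (by norm_num)
  have h4 := h 0 (-1) (by norm_num)
  rw [e] at h1 h2 h3 h4
  set A := ∫ t in {t | t ∈ Set.Icc a b ∧ g t ≤ V}, g t ^ β
  set B := tr g (fun t => Real.cos (θ t)) a b β V
  set C := tr g (fun t => Real.sin (θ t)) a b β V
  rw [abs_le] at h1 h2 h3 h4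
  constructor <;> rw [abs_le] <;> constructor <;> linarith [h1.1, h1.2, h2.1, h2.2, h3.1, h3.2, h4.1, h4.2]

lemma levT_small (A δ : ℝ) (hδ : 0 < δ) :
    ∀ᶠ T : ℝ in atTop, A / Real.sqrt (1 / 2 * Real.log (Real.log T)) ≤ δ / 2 := by
  have h1 : Tendsto (fun T : ℝ => Real.sqrt (1 / 2 * Real.log (Real.log T))) atTop atTop := by
    refine Real.tendsto_sqrt_atTop.comp (Tendsto.const_mul_atTop (by norm_num) ?_)
    exact Real.tendsto_log_atTop.comp Real.tendsto_log_atTop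
  filter_upwards [h1.eventually_ge_atTop (2 * |A| / δ), h1.eventually_gt_atTop 0] with T hT hT0
  rw [div_le_iff₀ hδ] at hT
  rw [div_le_iff₀ hT0]
  have := le_abs_self A
  linarith

/-- the joint law over intervals -/
theorem jointI {h l : ℕ} (hh : h ≠ 0) (hl : l ≠ 0) (hco : Nat.Coprime h l) {ε : ℝ} (hε : 0 < ε) :
    ∃ δ : ℝ, 0 < δ ∧ ∀ α : ℝ, 0 ≤ α → α < 1 / 2 → ∀ᶠ T : ℝ in atTop,
      ∀ H : ℝ, T / Real.log T ^ α ≤ H → H ≤ T → ∀ β : ℝ, |β - 2| ≤ δ → ∀ u : ℝ,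
      |tr Xz (fun t => Real.cos (t * (Real.log l - Real.log h))) T (T + H) β (lev T β u) -
        ((h:ℝ) * l) ^ (-(1 / 2 : ℝ)) * Ga u * (H * Real.log T ^ (β ^ 2 / 4))| ≤ ε * (H * Real.log T ^ (β ^ 2 / 4)) ∧
      |tr Xz (fun t => Real.sin (t * (Real.log l - Real.log h))) T (T + H) β (lev T β u)| ≤
        ε * (H * Real.log T ^ (β ^ 2 / 4)) := by
  obtain ⟨κ0, A, hκ0, hA, hQ⟩ := mgf_unif (show 0 < ε / 3 by positivity)
  obtain ⟨δ, hδ, hδ1, hI⟩ := intW hh hl hco (ε := κ0 * Real.exp (-(A ^ 2 / 2))) (by positivity)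
  refine ⟨δ / 2, by positivity, fun α hα0 hα => ?_⟩
  filter_upwards [hI α hα0 hα, levT_small A δ hδ, eventually_ge_atTop (1:ℝ),
    Real.tendsto_log_atTop.eventually_ge_atTop 2] with T hI hA' hT1 hL H hH1 hH2 β hβ u
  have hT0 : 0 < T := by linarith
  have hL0 : 0 < Real.log T := by linarith
  have hLa0 : 0 < Real.log T ^ α := Real.rpow_pos_of_pos hL0 _
  have hH0 : 0 < H := lt_of_lt_of_le (by positivity) hH1
  have hM0 : 0 < H * Real.log T ^ (β ^ 2 / 4) := mul_pos hH0 (Real.rpow_pos_of_pos hL0 _)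
  have hθ : Continuous fun t : ℝ => t * (Real.log l - Real.log h) := by fun_prop
  obtain ⟨b1, b2⟩ := abs_le.mp hβ
  refine comb Xz_cont hθ (by linarith) (fun r s hrs => ?_)
  obtain ⟨v1, v2⟩ := v_bd hh hl hrs
  have h1 := law_of_mom (g := Xz) (w := Wt (Real.log l - Real.log h) r s) (a := T) (b := T + H) (N := H)
    (v := 2 + r * ((h:ℝ) * l) ^ (-(1 / 2 : ℝ))) (κ0 := κ0) (κ1 := κ0 * Real.exp (-(A ^ 2 / 2))) (A := A) (u := u)
    (ε := ε / 3) (δ := δ) (L := Real.log T) (β := β) (β0 := 2)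
    Xz_cont Xz_nonneg (Wt_cont _ _ _) (fun t => by linarith [(Wt_bd hrs (Real.log l - Real.log h) t).1])
    (by linarith) hH0 v1 (by linarith) (by linarith) hβ (by positivity) hA'
    (by rw [mul_assoc, ← Real.exp_add]; simp) (fun β' hβ' => hI H hH1 hH2 β' hβ' r s hrs)
    (fun p Y m hN => hQ p Y m hN u)
  refine h1.trans ?_
  calc ε / 3 * ((2 + r * ((h:ℝ) * l) ^ (-(1 / 2 : ℝ))) * (H * Real.log T ^ (β ^ 2 / 4))) ≤
      ε / 3 * (3 * (H * Real.log T ^ (β ^ 2 / 4))) := by gcongr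
    _ = _ := by ring

/-- the joint law in the average -/
theorem jointA {h l : ℕ} (hh : h ≠ 0) (hl : l ≠ 0) (hco : Nat.Coprime h l) {ε : ℝ} (hε : 0 < ε) :
    ∃ δ : ℝ, 0 < δ ∧ ∀ x : ℝ, ∀ᶠ T : ℝ in atTop, ∀ β : ℝ, |β - 2| ≤ δ → ∀ u : ℝ,
      |tr (fun s => Xz (x + s * T)) (fun s => Real.cos ((x + s * T) * (Real.log l - Real.log h))) 0 1 β (lev T β u) -
        ((h:ℝ) * l) ^ (-(1 / 2 : ℝ)) * Ga u * Real.log T ^ (β ^ 2 / 4)| ≤ ε * Real.log T ^ (β ^ 2 / 4) ∧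
      |tr (fun s => Xz (x + s * T)) (fun s => Real.sin ((x + s * T) * (Real.log l - Real.log h))) 0 1 β (lev T β u)| ≤
        ε * Real.log T ^ (β ^ 2 / 4) := by
  obtain ⟨κ0, A, hκ0, hA, hQ⟩ := mgf_unif (show 0 < ε / 3 by positivity)
  obtain ⟨δ, hδ, hδ1, hI⟩ := avgW hh hl hco (ε := κ0 * Real.exp (-(A ^ 2 / 2))) (by positivity)
  refine ⟨δ / 2, by positivity, fun x => ?_⟩
  filter_upwards [hI x, levT_small A δ hδ, eventually_ge_atTop (1:ℝ),
    Real.tendsto_log_atTop.eventually_ge_atTop 2] with T hI hA' hT1 hL β hβ u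
  have hT0 : 0 < T := by linarith
  have hL0 : 0 < Real.log T := by linarith
  have hM0 : 0 < Real.log T ^ (β ^ 2 / 4) := Real.rpow_pos_of_pos hL0 _
  have hθ : Continuous fun s : ℝ => (x + s * T) * (Real.log l - Real.log h) := by fun_prop
  have hgc : Continuous fun s : ℝ => Xz (x + s * T) := Xz_cont.comp (by fun_prop)
  have hg0 : ∀ s : ℝ, 0 ≤ Xz (x + s * T) := fun s => Xz_nonneg _
  obtain ⟨b1, b2⟩ := abs_le.mp hβ
  have hcv : ∀ g : ℝ → ℝ, ∫ s in (0 : ℝ)..1, g (x + s * T) = T⁻¹ * ∫ t in x..(x + T), g t := by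
    intro g
    have h := intervalIntegral.integral_comp_add_mul (a := (0 : ℝ)) (b := 1) g hT0.ne' x
    simp only [mul_zero, add_zero, mul_one, smul_eq_mul] at h
    rw [← h]
    refine intervalIntegral.integral_congr fun s _ => ?_
    show g (x + s * T) = g (x + T * s)
    rw [mul_comm]
  have h0 : ∀ r s : ℝ, |r| + |s| ≤ 1 → |tr (fun s => Xz (x + s * T)) (fun t => 2 +
      (r * Real.cos ((x + t * T) * (Real.log l - Real.log h)) + s * Real.sin ((x + t * T) * (Real.log l - Real.log h))))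
      0 1 β (lev T β u) - (2 + r * ((h:ℝ) * l) ^ (-(1 / 2 : ℝ))) * Ga u * Real.log T ^ (β ^ 2 / 4)| ≤
      ε * Real.log T ^ (β ^ 2 / 4) := by
    intro r s hrs
    obtain ⟨v1, v2⟩ := v_bd hh hl hrs
    have h1 := law_of_mom (g := fun s => Xz (x + s * T)) (w := fun t => Wt (Real.log l - Real.log h) r s (x + t * T))
      (a := 0) (b := 1) (N := 1)
      (v := 2 + r * ((h:ℝ) * l) ^ (-(1 / 2 : ℝ))) (κ0 := κ0) (κ1 := κ0 * Real.exp (-(A ^ 2 / 2))) (A := A) (u := u)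
      (ε := ε / 3) (δ := δ) (L := Real.log T) (β := β) (β0 := 2)
      hgc hg0 ((Wt_cont _ _ _).comp (by fun_prop))
      (fun t => by linarith [(Wt_bd hrs (Real.log l - Real.log h) (x + t * T)).1])
      (by linarith) one_pos v1 (by linarith) (by linarith) hβ (by positivity) hA'
      (by rw [mul_assoc, ← Real.exp_add]; simp) (fun β' hβ' => by
        have h2 := hI β' hβ' r s hrs
        have h3 := hcv (fun t => Xz t ^ β' * Wt (Real.log l - Real.log h) r s t)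
        have h4 : ∫ t in x..(x + T), Xz t ^ β' * Wt (Real.log l - Real.log h) r s t =
          ∫ t in x..(x + T), fW β' (Real.log l - Real.log h) r s t := rfl
        rw [h3, h4, one_mul]
        set Im := ∫ t in x..(x + T), fW β' (Real.log l - Real.log h) r s t
        have e1 : T⁻¹ * Im - (2 + r * ((h:ℝ) * l) ^ (-(1 / 2 : ℝ))) * Real.log T ^ (β' ^ 2 / 4) =
            T⁻¹ * (Im - (2 + r * ((h:ℝ) * l) ^ (-(1 / 2 : ℝ))) * (T * Real.log T ^ (β' ^ 2 / 4))) := by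
          field_simp
        rw [e1, abs_mul, abs_of_pos (by positivity : 0 < T⁻¹)]
        refine (mul_le_mul_of_nonneg_left h2 (by positivity)).trans (le_of_eq ?_)
        field_simp)
      (fun p Y m hN => hQ p Y m hN u)
    rw [one_mul] at h1
    refine h1.trans ?_
    calc ε / 3 * ((2 + r * ((h:ℝ) * l) ^ (-(1 / 2 : ℝ))) * Real.log T ^ (β ^ 2 / 4)) ≤
        ε / 3 * (3 * Real.log T ^ (β ^ 2 / 4)) := by gcongr
      _ = _ := by ring
  exact comb hgc hθ (by linarith) h0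

end

end Pool.Agent.K6.H29.A
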