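import Pool.Agent.K6.H29.A7

set_option autoImplicit false

/-! The complex form, all positive integers, and the untruncated moments. -/

namespace Pool.Agent.K6.H29.A

open Finset Filter Topology MeasureTheory ProbabilityTheory
open Pool.Agent.TH806

noncomputable section

lemma cpow_phase {h l : ℕ} (hh : 0 < h) (hl : 0 < l) (t : ℝ) :
    ((h:ℂ) / l) ^ ((t:ℂ) * Complex.I) = ((Real.cos (t * (Real.log h - Real.log l)) : ℝ) : ℂ) +
      ((Real.sin (t * (Real.log h - Real.log l)) : ℝ) : ℂ) * Complex.I := by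
  have h0 : (0:ℝ) < h := by exact_mod_cast hh
  have l0 : (0:ℝ) < l := by exact_mod_cast hl
  have e : (h:ℂ) / l = (((h:ℝ) / l : ℝ) : ℂ) := by push_cast; rfl
  have hne : (((h:ℝ) / l : ℝ) : ℂ) ≠ 0 := by
    have : (h:ℝ) / l ≠ 0 := by positivity
    exact_mod_cast this
  rw [e, Complex.cpow_def_of_ne_zero hne, ← Complex.ofReal_log (by positivity), Real.log_div h0.ne' l0.ne',
    Complex.ofReal_cos, Complex.ofReal_sin, ← Complex.exp_mul_I]
  congr 1
  push_cast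
  ring

/-- the complex form of a truncated moment -/
def trc (g : ℝ → ℝ) (χ : ℝ → ℂ) (a b β V : ℝ) : ℂ :=
  ∫ t in {t | t ∈ Set.Icc a b ∧ g t ≤ V}, ((g t ^ β : ℝ) : ℂ) * χ t

lemma trc_le {g : ℝ → ℝ} (hg : Continuous g) {θ : ℝ → ℝ} (hθ : Continuous θ) {χ : ℝ → ℂ}
    (hχ : ∀ t, χ t = ((Real.cos (θ t) : ℝ) : ℂ) + ((Real.sin (θ t) : ℝ) : ℂ) * Complex.I)
    {a b β V M c ε : ℝ} (hβ : 0 ≤ β) (hM : 0 < M)
    (h1 : |tr g (fun t => Real.cos (θ t)) a b β V - c * M| ≤ ε * M)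
    (h2 : |tr g (fun t => Real.sin (θ t)) a b β V| ≤ ε * M) :
    ‖trc g χ a b β V / ((M:ℝ):ℂ) - ((c:ℝ):ℂ)‖ ≤ 2 * ε := by
  have hc : Continuous fun t => g t ^ β := hg.rpow_const fun _ => Or.inr hβ
  have i2 : IntegrableOn (fun t => g t ^ β * Real.cos (θ t)) {t | t ∈ Set.Icc a b ∧ g t ≤ V} :=
    (hc.mul (Real.continuous_cos.comp hθ)).integrableOn_Icc.mono_set fun t ht => ht.1
  have i3 : IntegrableOn (fun t => g t ^ β * Real.sin (θ t)) {t | t ∈ Set.Icc a b ∧ g t ≤ V} :=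
    (hc.mul (Real.continuous_sin.comp hθ)).integrableOn_Icc.mono_set fun t ht => ht.1
  have e : trc g χ a b β V = ((tr g (fun t => Real.cos (θ t)) a b β V : ℝ) : ℂ) +
      ((tr g (fun t => Real.sin (θ t)) a b β V : ℝ) : ℂ) * Complex.I := by
    have j2 : Integrable (fun t => ((g t ^ β * Real.cos (θ t) : ℝ) : ℂ))
        (volume.restrict {t | t ∈ Set.Icc a b ∧ g t ≤ V}) := i2.ofReal
    have j3 : Integrable (fun t => ((g t ^ β * Real.sin (θ t) : ℝ) : ℂ) * Complex.I)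
        (volume.restrict {t | t ∈ Set.Icc a b ∧ g t ≤ V}) := Integrable.mul_const i3.ofReal _
    unfold trc tr
    rw [← integral_complex_ofReal, ← integral_complex_ofReal, ← integral_mul_const, ← integral_add j2 j3]
    refine integral_congr_ae (Eventually.of_forall fun t => ?_)
    simp only [hχ]
    push_cast
    ring
  rw [e]
  set A := tr g (fun t => Real.cos (θ t)) a b β V
  set B := tr g (fun t => Real.sin (θ t)) a b β V
  have hMc : ((M:ℝ):ℂ) ≠ 0 := by exact_mod_cast hM.ne'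
  have e2 : (((A:ℝ):ℂ) + ((B:ℝ):ℂ) * Complex.I) / ((M:ℝ):ℂ) - ((c:ℝ):ℂ) =
      (((A - c * M) / M : ℝ) : ℂ) + ((B / M : ℝ) : ℂ) * Complex.I := by
    push_cast
    field_simp
    ring
  rw [e2]
  refine (norm_add_le _ _).trans ?_
  rw [norm_mul, Complex.norm_I, mul_one, Complex.norm_real, Complex.norm_real, Real.norm_eq_abs, Real.norm_eq_abs,
    abs_div, abs_div, abs_of_pos hM]
  have a1 : |A - c * M| / M ≤ ε := by rw [div_le_iff₀ hM]; exact h1
  have a2 : |B| / M ≤ ε := by rw [div_le_iff₀ hM]; exact h2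
  linarith

/-- removing the truncation -/
lemma untr {g : ℝ → ℝ} (hg : Continuous g) {χ : ℝ → ℂ} {a b β T c ε : ℝ} {M : ℂ} (hab : a ≤ b)
    (hL : 1 < Real.log T) (h : ∀ u : ℝ, ‖trc g χ a b β (lev T β u) / M - ((c * Ga u : ℝ) : ℂ)‖ ≤ ε) :
    ‖(∫ t in a..b, ((g t ^ β : ℝ) : ℂ) * χ t) / M - ((c : ℝ) : ℂ)‖ ≤ ε := by
  have hlev : Tendsto (fun u : ℝ => lev T β u) atTop atTop := by
    have hL0 : 0 < Real.log T := by linarith
    have hs : 0 < Real.sqrt (1 / 2 * Real.log (Real.log T)) :=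
      Real.sqrt_pos.mpr (mul_pos (by norm_num) (Real.log_pos hL))
    unfold lev
    refine Tendsto.const_mul_atTop (Real.rpow_pos_of_pos hL0 _) ?_
    exact Real.tendsto_exp_atTop.comp (tendsto_id.atTop_mul_const hs)
  obtain ⟨K, hK⟩ := (isCompact_Icc (a := a) (b := b)).bddAbove_image hg.continuousOn
  have hK' : ∀ t ∈ Set.Icc a b, g t ≤ K := fun t ht => hK (Set.mem_image_of_mem _ ht)
  have hev : ∀ᶠ u : ℝ in atTop, ‖(∫ t in a..b, ((g t ^ β : ℝ) : ℂ) * χ t) / M - ((c * Ga u : ℝ) : ℂ)‖ ≤ ε := by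
    filter_upwards [hlev.eventually_ge_atTop K] with u hu
    have e : trc g χ a b β (lev T β u) = ∫ t in a..b, ((g t ^ β : ℝ) : ℂ) * χ t := by
      unfold trc
      have es : {t | t ∈ Set.Icc a b ∧ g t ≤ lev T β u} = Set.Icc a b := by
        ext t
        exact ⟨fun h => h.1, fun h => ⟨h, (hK' t h).trans hu⟩⟩
      rw [es, intervalIntegral.integral_of_le hab, ← integral_Icc_eq_integral_Ioc]
    rw [← e]
    exact h u
  have ht : Tendsto (fun u : ℝ => ‖(∫ t in a..b, ((g t ^ β : ℝ) : ℂ) * χ t) / M - ((c * Ga u : ℝ) : ℂ)‖) atTop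
      (𝓝 ‖(∫ t in a..b, ((g t ^ β : ℝ) : ℂ) * χ t) / M - ((c * 1 : ℝ) : ℂ)‖) := by
    refine (tendsto_const_nhds.sub ?_).norm
    exact (Complex.continuous_ofReal.tendsto _).comp (Ga_top.const_mul c)
  rw [mul_one] at ht
  exact le_of_tendsto ht hev

/-- reduction to lowest terms -/
lemma reduce {h l : ℕ} (hh : 0 < h) (hl : 0 < l) : ∃ h' l' : ℕ, h' ≠ 0 ∧ l' ≠ 0 ∧ Nat.Coprime h' l' ∧
    Real.log l - Real.log h = Real.log l' - Real.log h' ∧
    ((h':ℝ) * l') ^ (-(1 / 2 : ℝ)) = (Nat.gcd h l : ℝ) / Real.sqrt ((h:ℝ) * l) := by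
  have hg : 0 < Nat.gcd h l := Nat.gcd_pos_of_pos_left _ hh
  obtain ⟨h', l', hco, e1, e2⟩ := Nat.exists_coprime h l
  set g := Nat.gcd h l with hgd
  have h'0 : h' ≠ 0 := by rintro rfl; simp at e1; omega
  have l'0 : l' ≠ 0 := by rintro rfl; simp at e2; omega
  have a1 : (0:ℝ) < h' := by exact_mod_cast Nat.pos_of_ne_zero h'0
  have a2 : (0:ℝ) < l' := by exact_mod_cast Nat.pos_of_ne_zero l'0
  have a3 : (0:ℝ) < g := by exact_mod_cast hg
  refine ⟨h', l', h'0, l'0, hco, ?_, ?_⟩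
  · rw [e1, e2]; push_cast
    rw [Real.log_mul a2.ne' a3.ne', Real.log_mul a1.ne' a3.ne']
    ring
  · have e3 : (h:ℝ) * l = (h' * l') * g ^ 2 := by
      rw [e1, e2]; push_cast; ring
    rw [e3, Real.sqrt_mul (by positivity), Real.sqrt_sq a3.le, Real.rpow_neg (by positivity), ← Real.sqrt_eq_rpow]
    field_simp

end

end Pool.Agent.K6.H29.A
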