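import Pool.Agent.Y753.NL.Cur

set_option autoImplicit false

/-! Convergence of moment generating functions near `0` implies weak convergence. -/

namespace Pool.Agent.K6.H29.B

open MeasureTheory Filter Topology ProbabilityTheory BoundedContinuousFunction
open Pool.Agent.Y753.NL (te te_apply te_near te_lim)

lemma tight_loc {c : ℝ} (hc : 0 < c) (C : ℝ) : IsTightMeasureSet {((μ : ProbabilityMeasure ℝ) : Measure ℝ) | μ ∈
    {μ : ProbabilityMeasure ℝ | Integrable (fun x => Real.exp (c * x)) (μ : Measure ℝ) ∧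
      Integrable (fun x => Real.exp ((-c) * x)) (μ : Measure ℝ) ∧
      ∫ x, Real.exp (c * x) ∂(μ : Measure ℝ) ≤ C ∧ ∫ x, Real.exp ((-c) * x) ∂(μ : Measure ℝ) ≤ C}} := by
  rw [isTightMeasureSet_iff_exists_isCompact_measure_compl_le]
  intro ε hε
  obtain ⟨r, hr⟩ : ∃ r : ℝ, ENNReal.ofReal (2 * C * Real.exp (-(c * r))) ≤ ε := by
    have h0 : Tendsto (fun r : ℝ => Real.exp (-(c * r))) atTop (𝓝 0) :=
      Real.tendsto_exp_neg_atTop_nhds_zero.comp (tendsto_id.const_mul_atTop hc)
    have h1 : Tendsto (fun r : ℝ => ENNReal.ofReal (2 * C * Real.exp (-(c * r)))) atTop (𝓝 (ENNReal.ofReal (2 * C * 0))) :=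
      ENNReal.tendsto_ofReal (h0.const_mul _)
    rw [mul_zero, ENNReal.ofReal_zero] at h1
    exact ((h1.eventually (gt_mem_nhds hε)).exists).imp fun r hr => hr.le
  refine ⟨Metric.closedBall 0 r, isCompact_closedBall 0 r, ?_⟩
  rintro _ ⟨μ, ⟨h1, h2, h3, h4⟩, rfl⟩
  refine le_trans ?_ hr
  have h5 : (μ : Measure ℝ).real (Metric.closedBall 0 r)ᶜ ≤ 2 * C * Real.exp (-(c * r)) := by
    have hm : MeasurableSet (Metric.closedBall (0:ℝ) r)ᶜ := Metric.isClosed_closedBall.measurableSet.compl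
    rw [← integral_indicator_one hm]
    have h6 : ∫ x, (Metric.closedBall (0:ℝ) r)ᶜ.indicator 1 x ∂(μ : Measure ℝ) ≤
        ∫ x, (Real.exp (c * x) + Real.exp ((-c) * x)) * Real.exp (-(c * r)) ∂(μ : Measure ℝ) := by
      refine integral_mono ?_ ((h1.add h2).mul_const _) fun x => ?_
      · exact (integrable_const (1:ℝ)).indicator hm
      · by_cases hx : x ∈ (Metric.closedBall (0:ℝ) r)ᶜ
        · rw [Set.indicator_of_mem hx]
          rw [Set.mem_compl_iff, Metric.mem_closedBall, Real.dist_eq, sub_zero, not_le] at hx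
          show (1:ℝ) ≤ (Real.exp (c * x) + Real.exp ((-c) * x)) * Real.exp (-(c * r))
          rcases le_or_gt 0 x with h0 | h0
          · rw [abs_of_nonneg h0] at hx
            have : 1 ≤ Real.exp (c * x) * Real.exp (-(c * r)) := by
              rw [← Real.exp_add]
              refine Real.one_le_exp ?_
              have := mul_le_mul_of_nonneg_left hx.le hc.le
              linarith
            nlinarith [Real.exp_pos ((-c) * x), mul_pos (Real.exp_pos ((-c) * x)) (Real.exp_pos (-(c * r)))]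
          · rw [abs_of_neg h0] at hx
            have : 1 ≤ Real.exp ((-c) * x) * Real.exp (-(c * r)) := by
              rw [← Real.exp_add]
              refine Real.one_le_exp ?_
              have := mul_le_mul_of_nonneg_left hx.le hc.le
              linarith
            nlinarith [mul_pos (Real.exp_pos (c * x)) (Real.exp_pos (-(c * r)))]
        · rw [Set.indicator_of_notMem hx]
          positivity
    refine h6.trans ?_
    rw [integral_mul_const, integral_add h1 h2]
    exact mul_le_mul_of_nonneg_right (by linarith) (Real.exp_pos _).le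
  rw [measureReal_def] at h5
  exact ENNReal.le_ofReal_iff_toReal_le (measure_ne_top _ _) (le_trans ENNReal.toReal_nonneg h5) |>.mpr h5

/-- uniqueness from a neighbourhood of `0` -/
lemma unique_loc {ρ ν : Measure ℝ} [IsProbabilityMeasure ρ] [IsProbabilityMeasure ν] {r : ℝ} (hr : 0 < r)
    (h1 : ∀ s : ℝ, |s| < r → Integrable (fun x => Real.exp (s * x)) ρ)
    (h2 : ∀ s : ℝ, |s| < r → Integrable (fun x => Real.exp (s * x)) ν)
    (h : ∀ s : ℝ, |s| < r → ∫ x, Real.exp (s * x) ∂ρ = ∫ x, Real.exp (s * x) ∂ν) : ρ = ν := by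
  have hsub : ∀ (η : Measure ℝ), (∀ s : ℝ, |s| < r → Integrable (fun x => Real.exp (s * x)) η) →
      {z : ℂ | |z.re| < r} ⊆ {z : ℂ | z.re ∈ interior (integrableExpSet id η)} := by
    intro η hη z hz
    have : Set.Ioo (-r) r ⊆ integrableExpSet id η := fun s hs => hη s (abs_lt.mpr hs)
    exact interior_maximal this isOpen_Ioo (abs_lt.mp hz)
  have hρ : AnalyticOnNhd ℂ (complexMGF id ρ) {z : ℂ | |z.re| < r} := analyticOnNhd_complexMGF.mono (hsub ρ h1)
  have hν : AnalyticOnNhd ℂ (complexMGF id ν) {z : ℂ | |z.re| < r} := analyticOnNhd_complexMGF.mono (hsub ν h2)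
  have hconv : Convex ℝ {z : ℂ | |z.re| < r} := by
    have e : {z : ℂ | |z.re| < r} = Complex.reLm ⁻¹' Set.Ioo (-r) r := by
      ext z
      simp [abs_lt]
    rw [e]
    exact (convex_Ioo _ _).linear_preimage Complex.reLm
  have h_real : ∃ᶠ (x : ℝ) in 𝓝[≠] (0:ℝ), complexMGF id ρ x = complexMGF id ν x := by
    refine Eventually.frequently ?_
    have h3 : ∀ᶠ x : ℝ in 𝓝[≠] (0:ℝ), |x| < r := by
      refine nhdsWithin_le_nhds ?_
      have : Set.Ioo (-r) r ∈ 𝓝 (0:ℝ) := Ioo_mem_nhds (by linarith) hr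
      filter_upwards [this] with x hx
      exact abs_lt.mpr hx
    filter_upwards [h3] with x hx
    rw [complexMGF_ofReal, complexMGF_ofReal]
    show ((mgf id ρ x : ℝ) : ℂ) = ((mgf id ν x : ℝ) : ℂ)
    congr 1
    exact h x hx
  have heq : Set.EqOn (complexMGF id ρ) (complexMGF id ν) {z : ℂ | |z.re| < r} := by
    refine AnalyticOnNhd.eqOn_of_preconnected_of_frequently_eq hρ hν hconv.isPreconnected
      (z₀ := ((0:ℝ) : ℂ)) (by simpa using hr) ?_
    rw [frequently_iff_seq_forall] at h_real ⊢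
    obtain ⟨xs, hx_tendsto, hx_eq⟩ := h_real
    refine ⟨fun n ↦ xs n, ?_, fun n ↦ ?_⟩
    · rw [tendsto_nhdsWithin_iff] at hx_tendsto ⊢
      constructor
      · rw [tendsto_ofReal_iff]
        exact hx_tendsto.1
      · simpa using hx_tendsto.2
    · simp [hx_eq]
  refine Measure.ext_of_charFun (funext fun t => ?_)
  rw [← complexMGF_id_mul_I, ← complexMGF_id_mul_I]
  exact heq (by simpa using hr)

/-- the local theorem of Curtiss -/
theorem curtiss_loc {ι : Type*} {l : Filter ι} {μ : ι → ProbabilityMeasure ℝ} {ν : ProbabilityMeasure ℝ}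
    (hi : ∀ s : ℝ, |s| < 1 → ∀ᶠ i in l, Integrable (fun x => Real.exp (s * x)) (μ i : Measure ℝ))
    (hν : ∀ s : ℝ, |s| < 1 → Integrable (fun x => Real.exp (s * x)) (ν : Measure ℝ))
    (h : ∀ s : ℝ, |s| < 1 → Tendsto (fun i => ∫ x, Real.exp (s * x) ∂(μ i : Measure ℝ)) l
      (𝓝 (∫ x, Real.exp (s * x) ∂(ν : Measure ℝ)))) :
    Tendsto μ l (𝓝 ν) := by
  rw [tendsto_iff_ultrafilter]
  intro g hg
  obtain ⟨m, hm⟩ : ∃ m : ℝ → ℝ, ∀ s, m s = ∫ x, Real.exp (s * x) ∂(ν : Measure ℝ) := ⟨_, fun _ => rfl⟩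
  simp_rw [← hm] at h
  have hb : ∀ s : ℝ, |s| < 1 → ∀ᶠ i in (g : Filter ι), ∫ x, Real.exp (s * x) ∂(μ i : Measure ℝ) ≤ m s + 1 := fun s hs =>
    hg ((h s hs).eventually (ge_mem_nhds (by linarith)))
  set C := max (m (1 / 2) + 1) (m (-(1 / 2)) + 1) with hC
  set S : Set (ProbabilityMeasure ℝ) := {μ : ProbabilityMeasure ℝ | Integrable (fun x => Real.exp (1 / 2 * x)) (μ : Measure ℝ) ∧
      Integrable (fun x => Real.exp ((-(1 / 2)) * x)) (μ : Measure ℝ) ∧
      ∫ x, Real.exp (1 / 2 * x) ∂(μ : Measure ℝ) ≤ C ∧ ∫ x, Real.exp ((-(1 / 2)) * x) ∂(μ : Measure ℝ) ≤ C} with hS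
  have hcomp : IsCompact (closure S) := isCompact_closure_of_isTightMeasureSet (tight_loc (by norm_num) C)
  have n1 : |(1 / 2 : ℝ)| < 1 := by rw [abs_of_pos (by norm_num)]; norm_num
  have n2 : |(-(1 / 2) : ℝ)| < 1 := by rw [abs_neg]; exact n1
  have hmem : ∀ᶠ i in (g : Filter ι), μ i ∈ S := by
    filter_upwards [hg (hi (1 / 2) n1), hg (hi (-(1 / 2)) n2), hb (1 / 2) n1, hb (-(1 / 2)) n2] with i a1 a2 a3 a4
    exact ⟨a1, a2, a3.trans (le_max_left _ _), a4.trans (le_max_right _ _)⟩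
  obtain ⟨ρ, -, hρ⟩ := isCompact_iff_ultrafilter_le_nhds.mp hcomp (g.map μ) (by
    rw [Ultrafilter.coe_map, le_principal_iff, mem_map]
    filter_upwards [hmem] with i hi
    exact subset_closure hi)
  have hT : Tendsto μ g (𝓝 ρ) := hρ
  have hF := ProbabilityMeasure.tendsto_iff_forall_integral_tendsto.mp hT
  have key : ∀ s R : ℝ, |2 * s| < 1 → ∀ hR : 0 < R, |∫ x, te s R hR.le x ∂(ρ : Measure ℝ) - m s| ≤ (m (2 * s) + 1) / R := by
    intro s R hs hR
    have hs1 : |s| < 1 := by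
      rw [abs_mul, abs_of_pos (by norm_num : (0:ℝ) < 2)] at hs
      linarith [abs_nonneg s]
    have h1 := (hF (te s R hR.le)).sub ((h s hs1).mono_left hg)
    refine le_of_tendsto h1.abs ?_
    filter_upwards [hg (hi s hs1), hg (hi (2 * s) hs), hb (2 * s) hs] with i a1 a2 a3
    refine (te_near hR a1 a2).trans ?_
    exact div_le_div_of_nonneg_right a3 hR.le
  have hm0 : ∀ s, 0 ≤ m s := fun s => by rw [hm]; exact integral_nonneg fun x => (Real.exp_pos _).le
  have hint : ∀ s : ℝ, |2 * s| < 1 → Integrable (fun x => Real.exp (s * x)) (ρ : Measure ℝ) := by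
    intro s hs
    refine te_lim (C := m s + (m (2 * s) + 1)) fun R hR => ?_
    rcases le_or_gt 1 R with h1 | h1
    · have h2 := (abs_le.mp (key s R hs hR)).2
      have h3 : (m (2 * s) + 1) / R ≤ m (2 * s) + 1 := div_le_self (by have := hm0 (2 * s); linarith) h1
      linarith
    · have h2 := (abs_le.mp (key s 1 hs one_pos)).2
      have h4 : ∫ x, te s R hR.le x ∂(ρ : Measure ℝ) ≤ ∫ x, te s 1 zero_le_one x ∂(ρ : Measure ℝ) := by
        refine integral_mono ((te s R hR.le).integrable _) ((te s 1 zero_le_one).integrable _) fun x => ?_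
        show te s R hR.le x ≤ te s 1 zero_le_one x
        rw [te_apply, te_apply]
        exact min_le_min le_rfl h1.le
      rw [div_one] at h2
      linarith
  have heq : ∀ s : ℝ, |4 * s| < 1 → ∫ x, Real.exp (s * x) ∂(ρ : Measure ℝ) = m s := by
    intro s hs
    have hs2 : |2 * s| < 1 := by
      rw [abs_mul, abs_of_pos (by norm_num : (0:ℝ) < 4)] at hs
      rw [abs_mul, abs_of_pos (by norm_num : (0:ℝ) < 2)]
      linarith [abs_nonneg s]
    have h22 : |2 * (2 * s)| < 1 := by rwa [show 2 * (2 * s) = 4 * s by ring]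
    have h1 : ∀ R : ℝ, 0 < R → |∫ x, Real.exp (s * x) ∂(ρ : Measure ℝ) - m s| ≤
        ((∫ x, Real.exp (2 * s * x) ∂(ρ : Measure ℝ)) + (m (2 * s) + 1)) / R := by
      intro R hR
      have h2 := te_near hR (hint s hs2) (hint (2 * s) h22)
      have h3 := key s R hs2 hR
      rw [abs_sub_comm] at h2
      have h4 := abs_add_le (∫ x, Real.exp (s * x) ∂(ρ : Measure ℝ) - ∫ x, te s R hR.le x ∂(ρ : Measure ℝ))
        (∫ x, te s R hR.le x ∂(ρ : Measure ℝ) - m s)
      rw [sub_add_sub_cancel] at h4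
      rw [add_div]
      linarith
    have h5 : Tendsto (fun R : ℝ => ((∫ x, Real.exp (2 * s * x) ∂(ρ : Measure ℝ)) + (m (2 * s) + 1)) / R) atTop (𝓝 0) :=
      tendsto_const_nhds.div_atTop tendsto_id
    have h6 : |∫ x, Real.exp (s * x) ∂(ρ : Measure ℝ) - m s| ≤ 0 :=
      ge_of_tendsto h5 ((eventually_gt_atTop 0).mono fun R hR => h1 R hR)
    exact sub_eq_zero.mp (abs_eq_zero.mp (le_antisymm h6 (abs_nonneg _)))
  have hfin' : (ρ : Measure ℝ) = (ν : Measure ℝ) := by
    refine unique_loc (r := 1 / 4) (by norm_num) (fun s hs => hint s ?_) (fun s hs => hν s ?_) fun s hs => ?_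
    · rw [abs_mul, abs_of_pos (by norm_num : (0:ℝ) < 2)]; linarith [abs_nonneg s]
    · linarith
    · rw [← hm]
      refine heq s ?_
      rw [abs_mul, abs_of_pos (by norm_num : (0:ℝ) < 4)]; linarith
  have hfin : ρ = ν := Subtype.ext hfin'
  rw [hfin] at hT
  exact hT

end Pool.Agent.K6.H29.B
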