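import Pool.Agent.K6.H29.B1
import Pool.Agent.K6.H29.A7

set_option autoImplicit false

/-! The limit theorem from one-sided moment generating functions. -/

namespace Pool.Agent.K6.H29.B

open MeasureTheory Filter Topology ProbabilityTheory
open Pool.Agent.Y753.NL (wg wg_integral wg_integrable wg_prob gauss_mgf)
open Pool.Agent.K6.H29.A (grid')

noncomputable section

/-- the function `exp (- max x y)` -/
def Fe (y : ℝ) : BoundedContinuousFunction ℝ ℝ :=
  BoundedContinuousFunction.ofNormedAddCommGroup (fun x => Real.exp (-(max x y)))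
    (by fun_prop) (Real.exp (-y)) (fun x => by
      rw [Real.norm_eq_abs, abs_of_nonneg (Real.exp_pos _).le]
      exact Real.exp_le_exp.mpr (neg_le_neg (le_max_right _ _)))

lemma Fe_apply (y x : ℝ) : Fe y x = Real.exp (-(max x y)) := rfl

/-- the tilted Gaussian density -/
def qg (x : ℝ) : ℝ := Real.exp x / Real.exp (1 / 2)

lemma qg_pos (x : ℝ) : 0 < qg x := by unfold qg; positivity

lemma qg_cont : Continuous qg := by unfold qg; fun_prop

lemma gauss_int (s : ℝ) : Integrable (fun x => Real.exp (s * x)) (gaussianReal 0 1) :=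
  integrable_exp_mul_gaussianReal (μ := 0) (v := 1) s

lemma qg_mgf_int (s : ℝ) : Integrable (fun x => qg x * Real.exp (s * x)) (gaussianReal 0 1) := by
  have h := (gauss_int (1 + s)).div_const (Real.exp (1 / 2))
  refine h.congr (Eventually.of_forall fun x => ?_)
  show Real.exp ((1 + s) * x) / Real.exp (1 / 2) = qg x * Real.exp (s * x)
  unfold qg
  rw [show (1 + s) * x = x + s * x by ring, Real.exp_add]
  ring

lemma qg_mgf (s : ℝ) : ∫ x, qg x * Real.exp (s * x) ∂(gaussianReal 0 1) =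
    Real.exp ((1 + s) ^ 2 / 2) / Real.exp (1 / 2) := by
  rw [← gauss_mgf, ← integral_div]
  refine integral_congr_ae (Eventually.of_forall fun x => ?_)
  show qg x * Real.exp (s * x) = Real.exp ((1 + s) * x) / Real.exp (1 / 2)
  unfold qg
  rw [show (1 + s) * x = x + s * x by ring, Real.exp_add]
  ring

lemma qg_int : Integrable qg (gaussianReal 0 1) := by simpa using qg_mgf_int 0

lemma qg_one : ∫ x, qg x ∂(gaussianReal 0 1) = 1 := by
  have := qg_mgf 0
  simpa using this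

/-- the tilted Gaussian law -/
def nu : Measure ℝ := wg qg id (gaussianReal 0 1)

instance : IsProbabilityMeasure nu :=
  wg_prob (fun x => (qg_pos x).le) qg_int measurable_id qg_one

instance : NullSingletonClass nu := by
  have : NullSingletonClass (gaussianReal 0 1) := nullSingletonClass_gaussianReal (by norm_num)
  refine ⟨fun x => ?_⟩
  unfold nu wg
  rw [Measure.map_id]
  exact withDensity_absolutelyContinuous _ _ (measure_singleton x)

/-- the algebraic identity -/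
lemma split {p Y : ℝ → ℝ} {m : Measure ℝ} (hp : Measurable p) (hp0 : ∀ t, 0 ≤ p t) (hY : Measurable Y)
    (hi : Integrable p m) (hi1 : Integrable (fun t => p t * Real.exp (Y t)) m) {M : ℝ} (hM : 0 < M) (y : ℝ) :
    ∫ t in {t : ℝ | Y t ≤ y}, p t ∂m = (∫ t, p t ∂m) -
      M * ((∫ t, (p t * Real.exp (Y t) / M) * Fe y (Y t) ∂m) -
        Real.exp (-y) * ∫ t in {t : ℝ | Y t ≤ y}, (p t * Real.exp (Y t) / M) ∂m) := by
  have mS : MeasurableSet {t : ℝ | Y t ≤ y} := hY measurableSet_Iic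
  have hq : Integrable (fun t => p t * Real.exp (Y t) / M) m := hi1.div_const M
  have hqF : Integrable (fun t => (p t * Real.exp (Y t) / M) * Fe y (Y t)) m := by
    refine Integrable.mul_bdd (c := Real.exp (-y)) hq ((Fe y).continuous.measurable.comp hY).aestronglyMeasurable ?_
    refine Eventually.of_forall fun t => ?_
    rw [Real.norm_eq_abs, Fe_apply, abs_of_nonneg (Real.exp_pos _).le]
    exact Real.exp_le_exp.mpr (neg_le_neg (le_max_right _ _))
  rw [← integral_indicator mS, ← integral_indicator mS]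
  have hqi : Integrable ({t : ℝ | Y t ≤ y}.indicator fun t => p t * Real.exp (Y t) / M) m := hq.indicator mS
  have j : Integrable (fun t => (p t * Real.exp (Y t) / M) * Fe y (Y t) -
      Real.exp (-y) * ({t : ℝ | Y t ≤ y}.indicator (fun t => p t * Real.exp (Y t) / M) t)) m := hqF.sub (hqi.const_mul _)
  have j2 : Integrable (fun t => M * ((p t * Real.exp (Y t) / M) * Fe y (Y t) -
      Real.exp (-y) * ({t : ℝ | Y t ≤ y}.indicator (fun t => p t * Real.exp (Y t) / M) t))) m := j.const_mul _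
  have e0 : ∫ t, (p t - M * ((p t * Real.exp (Y t) / M) * Fe y (Y t) -
      Real.exp (-y) * ({t : ℝ | Y t ≤ y}.indicator (fun t => p t * Real.exp (Y t) / M) t))) ∂m =
      (∫ t, p t ∂m) -
      M * ((∫ t, (p t * Real.exp (Y t) / M) * Fe y (Y t) ∂m) -
        Real.exp (-y) * ∫ t, ({t : ℝ | Y t ≤ y}.indicator (fun t => p t * Real.exp (Y t) / M) t) ∂m) := by
    rw [integral_sub hi j2, integral_const_mul, integral_sub hqF (hqi.const_mul _), integral_const_mul]
  rw [← e0]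
  refine integral_congr_ae (Eventually.of_forall fun t => ?_)
  simp only
  by_cases ht : Y t ≤ y
  · rw [Set.indicator_of_mem (show t ∈ {t : ℝ | Y t ≤ y} from ht),
      Set.indicator_of_mem (show t ∈ {t : ℝ | Y t ≤ y} from ht), Fe_apply, max_eq_right ht]
    ring
  · rw [Set.indicator_of_notMem (show t ∉ {t : ℝ | Y t ≤ y} from ht),
      Set.indicator_of_notMem (show t ∉ {t : ℝ | Y t ≤ y} from ht), Fe_apply, max_eq_left (not_le.mp ht).le]
    have h1 : Real.exp (Y t) * Real.exp (-(Y t)) = 1 := by rw [← Real.exp_add]; simp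
    have h2 : M * (p t * Real.exp (Y t) / M * Real.exp (-(Y t))) = p t := by
      calc M * (p t * Real.exp (Y t) / M * Real.exp (-(Y t))) = p t * (Real.exp (Y t) * Real.exp (-(Y t))) := by
            field_simp
        _ = p t := by rw [h1, mul_one]
    rw [mul_zero, sub_zero, h2, sub_self]

lemma nu_F (F : BoundedContinuousFunction ℝ ℝ) : ∫ x, F x ∂nu = ∫ x, qg x * F x ∂(gaussianReal 0 1) := by
  unfold nu
  rw [wg_integral qg_cont.measurable (fun x => (qg_pos x).le) measurable_id F.continuous]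
  rfl

lemma nu_cdf (y : ℝ) : nu.real (Set.Iic y) = ∫ x in {x : ℝ | x ≤ y}, qg x ∂(gaussianReal 0 1) := by
  have h := Pool.Agent.R313.trunc (p := fun _ => qg) (Y := fun _ => id) (ms := fun _ => gaussianReal 0 1) nu
    (Eventually.of_forall fun _ => ⟨qg_cont.measurable, fun x => (qg_pos x).le⟩)
    (Eventually.of_forall fun _ => qg_int) (Eventually.of_forall fun _ => measurable_id)
    (fun F => by
      rw [nu_F]
      exact tendsto_const_nhds) y
  exact (tendsto_nhds_unique tendsto_const_nhds h).symm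

/-- the limit theorem -/
theorem one_lim {p Y : ℝ → ℝ → ℝ} {ms : ℝ → Measure ℝ} (hp : ∀ᶠ T : ℝ in atTop, Measurable (p T) ∧ ∀ t, 0 ≤ p T t)
    (hY : ∀ᶠ T : ℝ in atTop, Measurable (Y T))
    (hint : ∀ s : ℝ, 0 ≤ s → ∀ᶠ T : ℝ in atTop, Integrable (fun t => p T t * Real.exp (s * Y T t)) (ms T))
    (hm : ∀ s : ℝ, 0 ≤ s → Tendsto (fun T : ℝ => ∫ t, p T t * Real.exp (s * Y T t) ∂(ms T)) atTop
      (𝓝 (Real.exp (s ^ 2 / 2)))) (y : ℝ) :
    Tendsto (fun T : ℝ => ∫ t in {t : ℝ | Y T t ≤ y}, p T t ∂(ms T)) atTop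
      (𝓝 ((gaussianReal 0 1).real (Set.Iic y))) := by
  classical
  obtain ⟨M, hMd⟩ : ∃ M : ℝ → ℝ, ∀ T, M T = ∫ t, p T t * Real.exp (1 * Y T t) ∂(ms T) := ⟨_, fun _ => rfl⟩
  have hM0 : Tendsto M atTop (𝓝 (Real.exp (1 / 2))) := by
    have h0 := hm 1 zero_le_one
    norm_num at h0
    refine h0.congr fun T => ?_
    rw [hMd]; simp
  have hMp : ∀ᶠ T in atTop, 0 < M T := hM0.eventually (lt_mem_nhds (Real.exp_pos _))
  obtain ⟨q, hq⟩ : ∃ q : ℝ → ℝ → ℝ, ∀ T t, q T t = p T t * Real.exp (Y T t) / M T := ⟨_, fun _ _ => rfl⟩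
  have hq1 : ∀ᶠ T : ℝ in atTop, Measurable (q T) ∧ (∀ t, 0 ≤ q T t) ∧ Integrable (q T) (ms T) ∧ ∫ t, q T t ∂(ms T) = 1 := by
    filter_upwards [hp, hMp, hint 1 zero_le_one, hY] with T h1 h2 h3 h4
    have e : q T = fun t => p T t * Real.exp (Y T t) / M T := funext (hq T)
    simp only [one_mul] at h3
    rw [e]
    refine ⟨(h1.1.mul (Real.measurable_exp.comp h4)).div_const _,
      fun t => div_nonneg (mul_nonneg (h1.2 t) (Real.exp_pos _).le) h2.le, h3.div_const _, ?_⟩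
    rw [integral_div]
    have : ∫ t, p T t * Real.exp (Y T t) ∂(ms T) = M T := by rw [hMd]; simp
    rw [this, div_self h2.ne']
  obtain ⟨μ, hμ⟩ : ∃ μ : ℝ → ProbabilityMeasure ℝ, ∀ᶠ T : ℝ in atTop, (μ T : Measure ℝ) = wg (q T) (Y T) (ms T) := by
    have hex : ∀ T : ℝ, ∃ μT : ProbabilityMeasure ℝ, IsProbabilityMeasure (wg (q T) (Y T) (ms T)) →
        (μT : Measure ℝ) = wg (q T) (Y T) (ms T) := by
      intro T
      by_cases h : IsProbabilityMeasure (wg (q T) (Y T) (ms T))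
      · exact ⟨⟨wg (q T) (Y T) (ms T), h⟩, fun _ => rfl⟩
      · exact ⟨⟨nu, inferInstance⟩, fun h1 => absurd h1 h⟩
    choose μ hμ using hex
    refine ⟨μ, ?_⟩
    filter_upwards [hq1, hY] with T h1 h2
    exact hμ T (wg_prob h1.2.1 h1.2.2.1 h2 h1.2.2.2)
  obtain ⟨γ', hγ'⟩ : ∃ γ' : ProbabilityMeasure ℝ, (γ' : Measure ℝ) = nu := ⟨⟨nu, inferInstance⟩, rfl⟩
  have hqe : ∀ s T t : ℝ, q T t * Real.exp (s * Y T t) = p T t * Real.exp ((1 + s) * Y T t) / M T := by
    intro s T t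
    rw [hq, show (1 + s) * Y T t = Y T t + s * Y T t by ring, Real.exp_add]; ring
  have hT : Tendsto μ atTop (𝓝 γ') := by
    refine curtiss_loc (fun s hs => ?_) (fun s _ => ?_) fun s hs => ?_
    · have hs1 : 0 ≤ 1 + s := by have := (abs_lt.mp hs).1; linarith
      filter_upwards [hint (1 + s) hs1, hq1, hY, hμ] with T h1 h2 h3 h4
      rw [h4]
      refine wg_integrable h2.1 h2.2.1 h3 (by fun_prop) ?_
      refine (h1.div_const (M T)).congr (Eventually.of_forall fun t => ?_)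
      exact (hqe s T t).symm
    · rw [hγ']
      exact wg_integrable qg_cont.measurable (fun x => (qg_pos x).le) measurable_id (by fun_prop) (qg_mgf_int s)
    · have hs1 : 0 ≤ 1 + s := by have := (abs_lt.mp hs).1; linarith
      have e1 : ∫ x, Real.exp (s * x) ∂(γ' : Measure ℝ) = Real.exp ((1 + s) ^ 2 / 2) / Real.exp (1 / 2) := by
        rw [hγ', ← qg_mgf]
        unfold nu
        rw [wg_integral qg_cont.measurable (fun x => (qg_pos x).le) measurable_id
          (by fun_prop : Continuous fun x => Real.exp (s * x))]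
        rfl
      rw [e1]
      have h1 := (hm (1 + s) hs1).div hM0 (Real.exp_pos _).ne'
      refine h1.congr' ?_
      filter_upwards [hq1, hY, hμ] with T h2 h3 h4
      rw [h4, wg_integral h2.1 h2.2.1 h3 (by fun_prop : Continuous fun x => Real.exp (s * x))]
      show (∫ t, p T t * Real.exp ((1 + s) * Y T t) ∂(ms T)) / M T = _
      rw [← integral_div]
      exact integral_congr_ae (Eventually.of_forall fun t => (hqe s T t).symm)
  have hF : ∀ F : BoundedContinuousFunction ℝ ℝ,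
      Tendsto (fun T : ℝ => ∫ t, q T t * F (Y T t) ∂(ms T)) atTop (𝓝 (∫ x, F x ∂nu)) := by
    intro F
    have h1 := ProbabilityMeasure.tendsto_iff_forall_integral_tendsto.mp hT F
    rw [hγ'] at h1
    refine h1.congr' ?_
    filter_upwards [hq1, hY, hμ] with T h3 h4 h5
    rw [h5, wg_integral h3.1 h3.2.1 h4 F.continuous]
  have hcdf := Pool.Agent.R313.trunc (p := q) (Y := Y) (ms := ms) nu
    (by filter_upwards [hq1] with T h; exact ⟨h.1, h.2.1⟩) (by filter_upwards [hq1] with T h; exact h.2.2.1) hY hF y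
  have hp1 : Tendsto (fun T : ℝ => ∫ t, p T t ∂(ms T)) atTop (𝓝 1) := by
    have := hm 0 le_rfl
    simpa using this
  have hmain := hp1.sub (hM0.mul ((hF (Fe y)).sub (hcdf.const_mul (Real.exp (-y)))))
  have hg := split (p := fun _ => 1) (Y := id) (m := gaussianReal 0 1) measurable_const (fun _ => zero_le_one)
    measurable_id (integrable_const _) (by simpa using gauss_int 1) (Real.exp_pos (1 / 2)) y
  have hlim : (1:ℝ) - Real.exp (1 / 2) * ((∫ x, Fe y x ∂nu) - Real.exp (-y) * nu.real (Set.Iic y)) =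
      (gaussianReal 0 1).real (Set.Iic y) := by
    rw [nu_F, nu_cdf]
    have e1 : ∫ x in {x : ℝ | id x ≤ y}, (1:ℝ) ∂(gaussianReal 0 1) = (gaussianReal 0 1).real (Set.Iic y) := by
      have : {x : ℝ | id x ≤ y} = Set.Iic y := rfl
      rw [this, setIntegral_const, smul_eq_mul, mul_one]
    have e2 : ∫ _t : ℝ, (1:ℝ) ∂(gaussianReal 0 1) = 1 := by simp
    rw [e1, e2] at hg
    rw [hg]
    simp only [id, one_mul]
    rfl
  rw [hlim] at hmain
  refine hmain.congr' ?_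
  filter_upwards [hp, hY, hint 0 le_rfl, hint 1 zero_le_one, hMp] with T h1 h2 h3 h4 h5
  simp only [zero_mul, Real.exp_zero, mul_one] at h3
  simp only [one_mul] at h4
  have h6 := split h1.1 h1.2 h2 h3 h4 h5 y
  rw [h6]
  have e : q T = fun t => p T t * Real.exp (Y T t) / M T := funext (hq T)
  rw [e]

/-- the hypothesis -/
def Near1 (κ A : ℝ) (p Y : ℝ → ℝ) (m : Measure ℝ) : Prop :=
  Measurable p ∧ (∀ t, 0 ≤ p t) ∧ Measurable Y ∧
    ∀ s : ℝ, 0 ≤ s → s ≤ A → Integrable (fun t => p t * Real.exp (s * Y t)) m ∧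
      |(∫ t, p t * Real.exp (s * Y t) ∂m) - Real.exp (s ^ 2 / 2)| ≤ κ

theorem mgf1_cdf (y ε : ℝ) (hε : 0 < ε) : ∃ κ A : ℝ, 0 < κ ∧ 0 < A ∧
    ∀ (p Y : ℝ → ℝ) (m : Measure ℝ), Near1 κ A p Y m →
      |(∫ t in {t : ℝ | Y t ≤ y}, p t ∂m) - (gaussianReal 0 1).real (Set.Iic y)| ≤ ε := by
  by_contra hcon
  push Not at hcon
  have h1 : ∀ n : ℕ, ∃ (p Y : ℝ → ℝ) (m : Measure ℝ), Near1 (1 / ((n:ℝ) + 1)) ((n:ℝ) + 1) p Y m ∧
      ε < |(∫ t in {t : ℝ | Y t ≤ y}, p t ∂m) - (gaussianReal 0 1).real (Set.Iic y)| := by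
    intro n
    obtain ⟨p, Y, m, h2, h3⟩ := hcon (1 / ((n:ℝ) + 1)) ((n:ℝ) + 1) (by positivity) (by positivity)
    exact ⟨p, Y, m, h2, h3⟩
  choose p Y m hN hbad using h1
  have hfl : Tendsto (fun T : ℝ => ⌊T⌋₊) atTop atTop := tendsto_nat_floor_atTop
  have hsm : ∀ s : ℝ, ∀ᶠ T : ℝ in atTop, s ≤ ((⌊T⌋₊ : ℕ) : ℝ) + 1 := by
    intro s
    have h2 : Tendsto (fun T : ℝ => ((⌊T⌋₊ : ℕ) : ℝ)) atTop atTop := tendsto_natCast_atTop_atTop.comp hfl
    filter_upwards [h2.eventually_ge_atTop s] with T hT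
    linarith
  have hpc : ∀ᶠ T : ℝ in atTop, Measurable (p ⌊T⌋₊) ∧ ∀ t, 0 ≤ p ⌊T⌋₊ t :=
    Eventually.of_forall fun T => ⟨(hN _).1, (hN _).2.1⟩
  have hYm : ∀ᶠ T : ℝ in atTop, Measurable (Y ⌊T⌋₊) := Eventually.of_forall fun T => (hN _).2.2.1
  have hint : ∀ s : ℝ, 0 ≤ s → ∀ᶠ T : ℝ in atTop,
      Integrable (fun t => p ⌊T⌋₊ t * Real.exp (s * Y ⌊T⌋₊ t)) (m ⌊T⌋₊) := by
    intro s hs
    filter_upwards [hsm s] with T hT
    exact ((hN _).2.2.2 s hs hT).1
  have hm : ∀ s : ℝ, 0 ≤ s → Tendsto (fun T : ℝ => ∫ t, p ⌊T⌋₊ t * Real.exp (s * Y ⌊T⌋₊ t) ∂(m ⌊T⌋₊)) atTop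
      (𝓝 (Real.exp (s ^ 2 / 2))) := by
    intro s hs
    have h0 : Tendsto (fun n : ℕ => 1 / ((n:ℝ) + 1)) atTop (𝓝 0) := tendsto_one_div_add_atTop_nhds_zero_nat
    have h2 := h0.comp hfl
    rw [tendsto_iff_norm_sub_tendsto_zero]
    refine squeeze_zero' (Eventually.of_forall fun T => norm_nonneg _) ?_ h2
    filter_upwards [hsm s] with T hT
    exact ((hN _).2.2.2 s hs hT).2
  have hT := one_lim (p := fun T => p ⌊T⌋₊) (Y := fun T => Y ⌊T⌋₊) (ms := fun T => m ⌊T⌋₊) hpc hYm hint hm y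
  rw [Metric.tendsto_atTop'] at hT
  obtain ⟨N, hN'⟩ := hT ε hε
  have h5 := hN' (N + 1) (by linarith)
  rw [Real.dist_eq] at h5
  have h6 := hbad ⌊N + 1⌋₊
  linarith

lemma mgf1_fin {ε : ℝ} (hε : 0 < ε) (S : Finset ℝ) : ∃ κ A : ℝ, 0 < κ ∧ κ ≤ ε ∧ 0 < A ∧
    ∀ (p Y : ℝ → ℝ) (m : Measure ℝ), Near1 κ A p Y m → ∀ s ∈ S, |(∫ t in {t : ℝ | Y t ≤ s}, p t ∂m) - Ga s| ≤ ε := by
  classical
  induction S using Finset.induction_on with
  | empty => exact ⟨ε, 1, hε, le_rfl, one_pos, by simp⟩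
  | insert a S ha ih =>
    obtain ⟨κ1, A1, h1, h1', h2, h3⟩ := ih
    obtain ⟨κ2, A2, h4, h5, h6⟩ := mgf1_cdf a ε hε
    refine ⟨min κ1 κ2, max A1 A2, lt_min h1 h4, (min_le_left _ _).trans h1', lt_max_of_lt_left h2,
      fun p Y m hN s hs => ?_⟩
    rcases Finset.mem_insert.mp hs with rfl | hs
    · refine h6 p Y m ⟨hN.1, hN.2.1, hN.2.2.1, fun s hs0 hs => ?_⟩
      obtain ⟨a1, a2⟩ := hN.2.2.2 s hs0 (hs.trans (le_max_right _ _))
      exact ⟨a1, a2.trans (min_le_right _ _)⟩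
    · refine h3 p Y m ⟨hN.1, hN.2.1, hN.2.2.1, fun s hs0 hs => ?_⟩ s hs
      obtain ⟨a1, a2⟩ := hN.2.2.2 s hs0 (hs.trans (le_max_left _ _))
      exact ⟨a1, a2.trans (min_le_left _ _)⟩

/-- the quantitative one-sided limit theorem, uniformly in the level -/
theorem mgf1_unif {ε : ℝ} (hε : 0 < ε) : ∃ κ A : ℝ, 0 < κ ∧ 0 < A ∧
    ∀ (p Y : ℝ → ℝ) (m : Measure ℝ), Near1 κ A p Y m → ∀ y : ℝ,
      |(∫ t in {t : ℝ | Y t ≤ y}, p t ∂m) - (gaussianReal 0 1).real (Set.Iic y)| ≤ ε := by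
  obtain ⟨S1, hS1⟩ := grid (show 0 < ε / 2 by positivity)
  obtain ⟨S2, hS2⟩ := grid' (show 0 < ε / 2 by positivity)
  obtain ⟨κ, A, hκ, hκε, hA, h⟩ := mgf1_fin (show 0 < ε / 2 by positivity) (S1 ∪ S2)
  refine ⟨κ, A, hκ, hA, fun p Y m hN y => ?_⟩
  have h' := h p Y m hN
  obtain ⟨hp, hp0, hY, hm⟩ := hN
  obtain ⟨i0, m0⟩ := hm 0 le_rfl hA.le
  simp only [zero_mul, Real.exp_zero, mul_one] at i0 m0
  norm_num at m0
  have hmono : ∀ a b : ℝ, a ≤ b → ∫ t in {t : ℝ | Y t ≤ a}, p t ∂m ≤ ∫ t in {t : ℝ | Y t ≤ b}, p t ∂m := by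
    intro a b hab
    exact setIntegral_mono_set i0.integrableOn (Eventually.of_forall hp0) (Eventually.of_forall fun t ht => le_trans ht hab)
  have htot : ∫ t in {t : ℝ | Y t ≤ y}, p t ∂m ≤ ∫ t, p t ∂m :=
    setIntegral_le_integral i0 (Eventually.of_forall hp0)
  have hnn : 0 ≤ ∫ t in {t : ℝ | Y t ≤ y}, p t ∂m := integral_nonneg fun t => hp0 t
  change |(∫ t in {t : ℝ | Y t ≤ y}, p t ∂m) - Ga y| ≤ ε
  rw [abs_le]
  constructor
  · rcases hS2 y with ⟨s, hs, h1, h2⟩ | h1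
    · have h3 := (abs_le.mp (h' s (Finset.mem_union_right _ hs))).1
      have h4 := hmono s y h1
      linarith
    · linarith
  · rcases hS1 y with ⟨s, hs, h1, h2⟩ | h1
    · have h3 := (abs_le.mp (h' s (Finset.mem_union_left _ hs))).2
      have h4 := hmono y s h1
      linarith
    · have := (abs_le.mp m0).2
      linarith

end

end Pool.Agent.K6.H29.B
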