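import Pool.Agent.R313.Cdf
import Pool.Agent.Y753.NL.Clt2

set_option autoImplicit false

/-!
A quantitative form of the limit theorem: if finitely much of the moment generating function of a weighted average is
close to that of the standard Gaussian law, then the distribution function is close to the Gaussian one.
-/

namespace Pool.Agent.K6.H29

open MeasureTheory Filter Topology ProbabilityTheory

/-- the hypothesis: the moment generating function is `κ`-close to `exp (s²/2)` on `[-A, A]` -/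
def Near (κ A : ℝ) (p Y : ℝ → ℝ) (m : Measure ℝ) : Prop :=
  Measurable p ∧ (∀ t, 0 ≤ p t) ∧ Measurable Y ∧
    ∀ s : ℝ, |s| ≤ A → Integrable (fun t => p t * Real.exp (s * Y t)) m ∧
      |(∫ t, p t * Real.exp (s * Y t) ∂m) - Real.exp (s ^ 2 / 2)| ≤ κ

theorem mgf_cdf (y ε : ℝ) (hε : 0 < ε) : ∃ κ A : ℝ, 0 < κ ∧ 0 < A ∧
    ∀ (p Y : ℝ → ℝ) (m : Measure ℝ), Near κ A p Y m →
      |(∫ t in {t : ℝ | Y t ≤ y}, p t ∂m) - (gaussianReal 0 1).real (Set.Iic y)| ≤ ε := by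
  by_contra hcon
  push Not at hcon
  have h1 : ∀ n : ℕ, ∃ (p Y : ℝ → ℝ) (m : Measure ℝ), Near (1 / ((n:ℝ) + 1)) ((n:ℝ) + 1) p Y m ∧
      ε < |(∫ t in {t : ℝ | Y t ≤ y}, p t ∂m) - (gaussianReal 0 1).real (Set.Iic y)| := by
    intro n
    obtain ⟨p, Y, m, h2, h3⟩ := hcon (1 / ((n:ℝ) + 1)) ((n:ℝ) + 1) (by positivity) (by positivity)
    exact ⟨p, Y, m, h2, h3⟩
  choose p Y m hN hbad using h1
  have hfl : Tendsto (fun T : ℝ => ⌊T⌋₊) atTop atTop := tendsto_nat_floor_atTop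
  have hsm : ∀ s : ℝ, ∀ᶠ T : ℝ in atTop, |s| ≤ ((⌊T⌋₊ : ℕ) : ℝ) + 1 := by
    intro s
    have h2 : Tendsto (fun T : ℝ => ((⌊T⌋₊ : ℕ) : ℝ)) atTop atTop := tendsto_natCast_atTop_atTop.comp hfl
    filter_upwards [h2.eventually_ge_atTop |s|] with T hT
    linarith
  have hpc : ∀ᶠ T : ℝ in atTop, Measurable (p ⌊T⌋₊) ∧ ∀ t, 0 ≤ p ⌊T⌋₊ t :=
    Eventually.of_forall fun T => ⟨(hN _).1, (hN _).2.1⟩
  have hYm : ∀ᶠ T : ℝ in atTop, Measurable (Y ⌊T⌋₊) := Eventually.of_forall fun T => (hN _).2.2.1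
  have hint : ∀ s : ℝ, ∀ᶠ T : ℝ in atTop,
      Integrable (fun t => p ⌊T⌋₊ t * Real.exp (s * Y ⌊T⌋₊ t)) (m ⌊T⌋₊) := by
    intro s
    filter_upwards [hsm s] with T hT
    exact ((hN _).2.2.2 s hT).1
  have hpI : ∀ᶠ T : ℝ in atTop, Integrable (p ⌊T⌋₊) (m ⌊T⌋₊) := by
    filter_upwards [hint 0] with T hT
    simpa using hT
  have hm : ∀ s : ℝ, Tendsto (fun T : ℝ => ∫ t, p ⌊T⌋₊ t * Real.exp (s * Y ⌊T⌋₊ t) ∂(m ⌊T⌋₊)) atTop
      (𝓝 (1 * Real.exp (s ^ 2 / 2))) := by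
    intro s
    rw [one_mul]
    have h0 : Tendsto (fun n : ℕ => 1 / ((n:ℝ) + 1)) atTop (𝓝 0) := tendsto_one_div_add_atTop_nhds_zero_nat
    have h2 := h0.comp hfl
    rw [tendsto_iff_norm_sub_tendsto_zero]
    refine squeeze_zero' (Eventually.of_forall fun T => norm_nonneg _) ?_ h2
    filter_upwards [hsm s] with T hT
    exact ((hN _).2.2.2 s hT).2
  have hF := fun F : BoundedContinuousFunction ℝ ℝ =>
    Pool.Agent.Y753.NL.clt2 (p := fun T => p ⌊T⌋₊) (Y := fun T => Y ⌊T⌋₊) (ms := fun T => m ⌊T⌋₊)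
      hpc hYm hint one_pos hm F
  simp only [one_mul] at hF
  have : NullSingletonClass (gaussianReal 0 1) := nullSingletonClass_gaussianReal (by norm_num)
  have hT := Pool.Agent.R313.trunc (gaussianReal 0 1) hpc hpI hYm hF y
  rw [Metric.tendsto_atTop'] at hT
  obtain ⟨N, hN'⟩ := hT ε hε
  have h5 := hN' (N + 1) (by linarith)
  rw [Real.dist_eq] at h5
  have h6 := hbad ⌊N + 1⌋₊
  linarith

end Pool.Agent.K6.H29
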