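import Pool.Agent.K6.H29.Pt
import Pool.Agent.K6.H29.Q

set_option autoImplicit false

/-!
The Gaussian law of the prime sum under the tilted fourth moment measure.
-/

namespace Pool.Agent.K6.H29

open Finset Filter Topology MeasureTheory ProbabilityTheory
open Pool.Agent.W184.NZ Pool.Agent.TH806 Pool.Agent.TH806.N4
open Pool.Agent.H306R2.SM (om cl Yf)
open Pool.Agent.H262R4.TM (Rng Ck)

noncomputable section

variable {c y T : ℝ} {J k Rs : ℕ}

/-- the distribution function of the standard Gaussian law -/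
def Ga (u : ℝ) : ℝ := (gaussianReal 0 1).real (Set.Iic u)

lemma Ga_nonneg (u : ℝ) : 0 ≤ Ga u := measureReal_nonneg

lemma Ga_le_one (u : ℝ) : Ga u ≤ 1 := by
  unfold Ga
  exact measureReal_le_one

theorem core (hBL : BL c y J) (hδ : 0 < (k:ℝ) / T) {W4 a κ0 κ1 A u ε V σ : ℝ} (hW4 : 0 < W4)
    (hV : V = ∑ i ∈ range J, vI (II y i)) (hσ : σ = Real.sqrt (V / 2)) (hσ0 : 0 < σ) (hκ1 : 0 ≤ κ1)
    (hQ : ∀ (p Y : ℝ → ℝ) (m : Measure ℝ), Near κ0 A p Y m →
      |(∫ t in {t : ℝ | Y t ≤ u}, p t ∂m) - Ga u| ≤ ε)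
    (hG : ∀ b : ℝ, |b| ≤ A / (2 * σ) → |GM J Rs y (a + b) k T - W4 * EV J y (a + b)| ≤ κ1 * (W4 * EV J y (a + b)))
    (hκ : κ1 * Real.exp (A ^ 2 / 2) ≤ κ0) :
    |(∫ t in Gd J Rs y ∩ {t | Sr J (II y) t ≤ (2 + a) * V + u * σ}, ft J y a k T t) - W4 * EV J y a * Ga u| ≤
      ε * (W4 * EV J y a) := by
  have hm : MeasurableSet (Gd J Rs y) := Gd_meas hBL
  have hE : 0 < EV J y a := Real.exp_pos _
  have hWE : 0 < W4 * EV J y a := mul_pos hW4 hE
  have hV0 : 0 < V / 2 := by
    rw [hσ] at hσ0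
    exact Real.sqrt_pos.mp hσ0
  have hs2 : σ ^ 2 = V / 2 := by rw [hσ]; exact Real.sq_sqrt hV0.le
  have hVs : V = 2 * σ ^ 2 := by rw [hs2]; ring
  obtain ⟨p, hp⟩ : ∃ p : ℝ → ℝ, p = (Gd J Rs y).indicator (fun t => ft J y a k T t / (W4 * EV J y a)) := ⟨_, rfl⟩
  obtain ⟨Y, hY⟩ : ∃ Y : ℝ → ℝ, Y = fun t => (Sr J (II y) t - (2 + a) * V) / σ := ⟨_, rfl⟩
  have hftm : Measurable (ft J y a k T) := by
    unfold ft
    have h1 : Measurable fun t => om k (k / T) t := (Pool.Agent.H262R4.TM.TTW.om_cont k _).measurable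
    exact h1.mul ((Xz_cont.measurable.pow_const 4).mul
      (Real.measurable_exp.comp ((Sr_cont hBL).measurable.const_mul _)))
  have hpm : Measurable p := by rw [hp]; exact (hftm.div_const _).indicator hm
  have hYm : Measurable Y := by rw [hY]; exact ((Sr_cont hBL).measurable.sub_const _).div_const _
  have hp0 : ∀ t, 0 ≤ p t := by
    intro t
    rw [hp]
    refine Set.indicator_nonneg (fun t ht => div_nonneg (ft_nn hδ a ht.1) hWE.le) t
  have key : ∀ s t : ℝ, p t * Real.exp (s * Y t) =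
      (Gd J Rs y).indicator (fun t => Real.exp (-(s * ((2 + a) * V) / σ)) / (W4 * EV J y a) *
        ft J y (a + s / (2 * σ)) k T t) t := by
    intro s t
    rw [hp, hY]
    by_cases ht : t ∈ Gd J Rs y
    · rw [Set.indicator_of_mem ht, Set.indicator_of_mem ht]
      unfold ft
      have e1 : Real.exp (2 * (a + s / (2 * σ)) * Sr J (II y) t) =
          Real.exp (2 * a * Sr J (II y) t) * Real.exp (s / σ * Sr J (II y) t) := by
        rw [← Real.exp_add]; congr 1; field_simp
      have e2 : Real.exp (s * ((Sr J (II y) t - (2 + a) * V) / σ)) =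
          Real.exp (s / σ * Sr J (II y) t) * Real.exp (-(s * ((2 + a) * V) / σ)) := by
        rw [← Real.exp_add]; congr 1; field_simp; ring
      show _ * Real.exp (s * ((Sr J (II y) t - (2 + a) * V) / σ)) = _
      rw [e1, e2]
      ring
    · rw [Set.indicator_of_notMem ht, Set.indicator_of_notMem ht, zero_mul]
  have hN : Near κ0 A p Y (volume : Measure ℝ) := by
    refine ⟨hpm, hp0, hYm, fun s hs => ?_⟩
    have hb : |s / (2 * σ)| ≤ A / (2 * σ) := by
      rw [abs_div, abs_of_pos (by positivity : 0 < 2 * σ)]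
      exact div_le_div_of_nonneg_right hs (by positivity)
    have e0 : (fun t => p t * Real.exp (s * Y t)) =
        (Gd J Rs y).indicator (fun t => Real.exp (-(s * ((2 + a) * V) / σ)) / (W4 * EV J y a) *
        ft J y (a + s / (2 * σ)) k T t) := funext (key s)
    have hI := ((ft_intG (Rs := Rs) hBL hδ (a + s / (2 * σ))).const_mul
      (Real.exp (-(s * ((2 + a) * V) / σ)) / (W4 * EV J y a)))
    constructor
    · rw [e0, integrable_indicator_iff hm]
      exact hI
    · rw [e0, integral_indicator hm, integral_const_mul]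
      have h1 := hG _ hb
      have e3 : Real.exp (-(s * ((2 + a) * V) / σ)) / (W4 * EV J y a) * (W4 * EV J y (a + s / (2 * σ))) =
          Real.exp (s ^ 2 / 2) := by
        have e4 : EV J y (a + s / (2 * σ)) = EV J y a * Real.exp (s * ((2 + a) * V) / σ) * Real.exp (s ^ 2 / 2) := by
          unfold EV
          rw [← hV, ← Real.exp_add, ← Real.exp_add]
          congr 1
          rw [hVs]
          field_simp
          ring
        rw [e4, Real.exp_neg]
        have n1 := (Real.exp_pos (s * ((2 + a) * V) / σ)).ne'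
        have n2 := hE.ne'
        have n3 := hW4.ne'
        field_simp
      have e5 : Real.exp (-(s * ((2 + a) * V) / σ)) / (W4 * EV J y a) *
          (∫ t in Gd J Rs y, ft J y (a + s / (2 * σ)) k T t) - Real.exp (s ^ 2 / 2) =
          Real.exp (-(s * ((2 + a) * V) / σ)) / (W4 * EV J y a) *
            (GM J Rs y (a + s / (2 * σ)) k T - W4 * EV J y (a + s / (2 * σ))) := by
        rw [mul_sub, e3]; rfl
      rw [e5, abs_mul, abs_of_pos (by positivity)]
      calc _ ≤ Real.exp (-(s * ((2 + a) * V) / σ)) / (W4 * EV J y a) *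
            (κ1 * (W4 * EV J y (a + s / (2 * σ)))) := mul_le_mul_of_nonneg_left h1 (by positivity)
        _ = κ1 * (Real.exp (-(s * ((2 + a) * V) / σ)) / (W4 * EV J y a) * (W4 * EV J y (a + s / (2 * σ)))) := by ring
        _ = κ1 * Real.exp (s ^ 2 / 2) := by rw [e3]
        _ ≤ κ1 * Real.exp (A ^ 2 / 2) := by
            refine mul_le_mul_of_nonneg_left (Real.exp_le_exp.mpr ?_) hκ1
            have : s ^ 2 ≤ A ^ 2 := by rw [← sq_abs s]; exact pow_le_pow_left₀ (abs_nonneg s) hs 2
            linarith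
        _ ≤ κ0 := hκ
  have h1 := hQ p Y volume hN
  have mS : MeasurableSet {t : ℝ | Y t ≤ u} := hYm measurableSet_Iic
  have e6 : {t : ℝ | Y t ≤ u} = {t | Sr J (II y) t ≤ (2 + a) * V + u * σ} := by
    ext t
    simp only [Set.mem_setOf_eq, hY]
    rw [div_le_iff₀ hσ0]
    constructor <;> intro h <;> linarith
  have e7 : ∫ t in {t : ℝ | Y t ≤ u}, p t = (∫ t in Gd J Rs y ∩ {t | Sr J (II y) t ≤ (2 + a) * V + u * σ},
      ft J y a k T t) / (W4 * EV J y a) := by
    rw [hp, setIntegral_indicator hm, e6, Set.inter_comm, integral_div]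
  rw [e7] at h1
  have e8 : (∫ t in Gd J Rs y ∩ {t | Sr J (II y) t ≤ (2 + a) * V + u * σ}, ft J y a k T t) - W4 * EV J y a * Ga u =
      ((∫ t in Gd J Rs y ∩ {t | Sr J (II y) t ≤ (2 + a) * V + u * σ}, ft J y a k T t) / (W4 * EV J y a) - Ga u) *
        (W4 * EV J y a) := by
    field_simp
  rw [e8, abs_mul, abs_of_pos hWE]
  exact mul_le_mul_of_nonneg_right h1 hWE.le

end

end Pool.Agent.K6.H29
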