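import Pool.Agent.K6.H29.Lev

set_option autoImplicit false

/-!
The truncated moments near exponent four over intervals.
-/

namespace Pool.Agent.K6.H29

open Finset Filter Topology MeasureTheory ProbabilityTheory
open Pool.Agent.W184.NZ Pool.Agent.TH806 Pool.Agent.TH806.N4
open Pool.Agent.H306R2.SM (om cl Yf)
open Pool.Agent.H262R4.TM (Rng Ck)
open Pool.Agent.TH73.N4_FIN Pool.Agent.TH73.N4_SHT

noncomputable section

lemma ind_up {g : ℝ → ℝ} (hg : Continuous g) (hg0 : ∀ t, 0 ≤ g t) {β V a b : ℝ} (hβ : 0 ≤ β) (hV : 0 < V)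
    (hab : a ≤ b) :
    ∫ t in {t | t ∈ Set.Icc a b ∧ g t ≤ V}, g t ^ β ≤ ∫ t in a..b, g t ^ β * rf V (g t) := by
  have m1 : MeasurableSet {t : ℝ | g t ≤ V} := hg.measurable measurableSet_Iic
  have hc : Continuous fun t => g t ^ β := hg.rpow_const fun _ => Or.inr hβ
  have e0 : {t : ℝ | t ∈ Set.Icc a b ∧ g t ≤ V} = Set.Icc a b ∩ {t : ℝ | g t ≤ V} := rfl
  rw [e0, ← setIntegral_indicator m1, integral_Icc_eq_integral_Ioc, ← intervalIntegral.integral_of_le hab]
  have hi : IntervalIntegrable (fun t => {t : ℝ | g t ≤ V}.indicator (fun t => g t ^ β) t) volume a b := by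
    rw [intervalIntegrable_iff_integrableOn_Ioc_of_le hab]
    exact ((hc.intervalIntegrable a b).1).indicator m1
  refine intervalIntegral.integral_mono_on hab hi
    ((hc.mul ((rf_cont V).comp hg)).intervalIntegrable a b) fun t _ => ?_
  have h0 : 0 ≤ g t ^ β := Real.rpow_nonneg (hg0 t) _
  by_cases ht : g t ≤ V
  · rw [Set.indicator_of_mem (show t ∈ {t : ℝ | g t ≤ V} from ht)]
    show g t ^ β ≤ g t ^ β * rf V (g t)
    rw [rf_one hV ht, mul_one]
  · rw [Set.indicator_of_notMem (show t ∉ {t : ℝ | g t ≤ V} from ht)]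
    exact mul_nonneg h0 (rf_nn _ _)

lemma ind_low {g : ℝ → ℝ} (hg : Continuous g) (hg0 : ∀ t, 0 ≤ g t) {β V a b : ℝ} (hβ : 0 ≤ β) (hV : 0 < V)
    (hab : a ≤ b) :
    ∫ t in a..b, g t ^ β * (1 - rf V (g t)) ≤ ∫ t in {t | t ∈ Set.Icc a b ∧ V < g t}, g t ^ β := by
  have m1 : MeasurableSet {t : ℝ | V < g t} := hg.measurable measurableSet_Ioi
  have hc : Continuous fun t => g t ^ β := hg.rpow_const fun _ => Or.inr hβ
  have e0 : {t : ℝ | t ∈ Set.Icc a b ∧ V < g t} = Set.Icc a b ∩ {t : ℝ | V < g t} := rfl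
  rw [e0, ← setIntegral_indicator m1, integral_Icc_eq_integral_Ioc, ← intervalIntegral.integral_of_le hab]
  have hi : IntervalIntegrable (fun t => {t : ℝ | V < g t}.indicator (fun t => g t ^ β) t) volume a b := by
    rw [intervalIntegrable_iff_integrableOn_Ioc_of_le hab]
    exact ((hc.intervalIntegrable a b).1).indicator m1
  refine intervalIntegral.integral_mono_on hab
    ((hc.mul (continuous_const.sub ((rf_cont V).comp hg))).intervalIntegrable a b) hi fun t _ => ?_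
  have h0 : 0 ≤ g t ^ β := Real.rpow_nonneg (hg0 t) _
  by_cases ht : V < g t
  · rw [Set.indicator_of_mem (show t ∈ {t : ℝ | V < g t} from ht)]
    exact mul_le_of_le_one_right h0 (by linarith [rf_nn V (g t)])
  · rw [Set.indicator_of_notMem (show t ∉ {t : ℝ | V < g t} from ht)]
    show g t ^ β * (1 - rf V (g t)) ≤ 0
    rw [rf_one hV (not_lt.mp ht), sub_self, mul_zero]

/-- intervals, one level -/
theorem int4 (hI : P_ING) (hw : P_WG) {ε : ℝ} (hε : 0 < ε) (u : ℝ) : ∃ δ : ℝ, 0 < δ ∧ δ ≤ 1 / 40 ∧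
    ∀ α : ℝ, 0 ≤ α → α < 1 / 2 → ∀ᶠ T : ℝ in atTop, ∀ H : ℝ, T / Real.log T ^ α ≤ H → H ≤ T →
      (∀ β : ℝ, 4 - δ ≤ β → β ≤ 4 → ∫ t in {t | t ∈ Set.Icc T (T + H) ∧ Xz t ≤ lev T β u}, Xz t ^ β ≤
        (c4 * Ga u + ε) * (H * Real.log T ^ (β ^ 2 / 4))) ∧
      (∀ β : ℝ, 4 ≤ β → β ≤ 4 + δ → (c4 * (1 - Ga u) - ε) * (H * Real.log T ^ (β ^ 2 / 4)) ≤
        ∫ t in {t | t ∈ Set.Icc T (T + H) ∧ lev T β u < Xz t}, Xz t ^ β) := by
  have hc1 := c4_ge
  have hc2 := c4_le
  have hc := c4_pos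
  have hG0 := Ga_nonneg u
  have hG1 := Ga_le_one u
  obtain ⟨κ, hκ, hκ1, hκ2⟩ : ∃ κ : ℝ, 0 < κ ∧ κ ≤ 1 / 100 ∧ κ ≤ ε / 10 :=
    ⟨min (1 / 100) (ε / 10), by positivity, min_le_left _ _, min_le_right _ _⟩
  obtain ⟨δ, hδ, hδ1, hW⟩ := winG hI hw hκ (by linarith) u
  refine ⟨δ, hδ, hδ1, fun α hα0 hα => ?_⟩
  have hdiv : ∀ᶠ T : ℝ in atTop, 2 / κ ≤ T / Real.log T := by
    have h1 := Real.isLittleO_log_id_atTop
    have h2 := h1.def (show 0 < κ / 2 by positivity)
    filter_upwards [h2, Real.tendsto_log_atTop.eventually_ge_atTop 1, eventually_ge_atTop 1] with T h hL hT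
    rw [Real.norm_of_nonneg (by linarith), id, Real.norm_of_nonneg (by linarith)] at h
    rw [div_le_div_iff₀ hκ (by linarith)]
    linarith
  filter_upwards [hW, shtU' hκ (by linarith) α hα0 hα, shtL' hκ hκ1 α hα0 hα, hdiv, eventually_ge_atTop (1:ℝ),
    Real.tendsto_log_atTop.eventually_ge_atTop 1] with T hW hU hLw hdiv hT1 hL H hH1 hH2
  have hT : 0 < T := by linarith
  have hL0 : 0 < Real.log T := by linarith
  have hLa0 : 0 < Real.log T ^ α := Real.rpow_pos_of_pos hL0 _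
  have hH0 : 0 < H := lt_of_lt_of_le (by positivity) hH1
  have hH2' : 2 / κ ≤ H := by
    refine hdiv.trans (le_trans ?_ hH1)
    refine div_le_div_of_nonneg_left hT.le hLa0 ?_
    calc Real.log T ^ α ≤ Real.log T ^ (1:ℝ) := Real.rpow_le_rpow_of_exponent_le hL (by linarith)
      _ = _ := Real.rpow_one _
  rw [div_le_iff₀ hκ] at hH2'
  constructor
  · intro β hβ1 hβ2
    have hV := lev_pos' hL0 β u
    have hP0 : 0 ≤ Real.log T ^ (β ^ 2 / 4) := Real.rpow_nonneg hL0.le _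
    refine (ind_up Xz_cont Xz_nonneg (by linarith) hV (by linarith)).trans ?_
    have h1 := hU H hH1 hH2 (fu β (lev T β u)) ((c4 * Ga u + κ) * Real.log T ^ (β ^ 2 / 4))
      (fu_pg (by linarith) (by linarith) _) (by positivity) (fun x hx => hW.1 x hx β hβ1 hβ2)
    have h2 : (1 - κ) * ∫ t in T..(T + H), fu β (lev T β u) t ≤
        (1 - κ) * ((c4 * Ga u + ε) * (H * Real.log T ^ (β ^ 2 / 4))) := by
      refine h1.trans ?_
      have hcG : c4 * Ga u ≤ 1 / 2 := by nlinarith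
      have hcG0 : 0 ≤ c4 * Ga u := by positivity
      have h3 : (c4 * Ga u + κ) * (1 + 3 * κ) ≤ (1 - κ) * (c4 * Ga u + ε) := by
        nlinarith [mul_nonneg hκ.le hcG0]
      calc (c4 * Ga u + κ) * Real.log T ^ (β ^ 2 / 4) * ((1 + 3 * κ) * H) =
          ((c4 * Ga u + κ) * (1 + 3 * κ)) * (H * Real.log T ^ (β ^ 2 / 4)) := by ring
        _ ≤ ((1 - κ) * (c4 * Ga u + ε)) * (H * Real.log T ^ (β ^ 2 / 4)) :=
            mul_le_mul_of_nonneg_right h3 (by positivity)
        _ = _ := by ring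
    exact le_of_mul_le_mul_left h2 (by linarith)
  · intro β hβ1 hβ2
    have hV := lev_pos' hL0 β u
    have hP1 : 1 ≤ Real.log T ^ (β ^ 2 / 4) := Real.one_le_rpow hL (by positivity)
    refine le_trans ?_ (ind_low Xz_cont Xz_nonneg (by linarith) hV (by linarith))
    have hpg := fl_pg (β := β) (by linarith) (by linarith) (lev T β u)
    change _ ≤ ∫ t in T..(T + H), fl β (lev T β u) t
    rcases le_total (c4 * (1 - Ga u) - κ) 0 with hneg | hpos
    · have h0 : 0 ≤ ∫ t in T..(T + H), fl β (lev T β u) t :=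
        intervalIntegral.integral_nonneg (by linarith) fun t _ => hpg.nn t
      refine le_trans (mul_nonpos_of_nonpos_of_nonneg (by linarith) (by positivity)) h0
    have h1 := hLw H hH1 hH2 (fl β (lev T β u)) ((c4 * (1 - Ga u) - κ) * Real.log T ^ (β ^ 2 / 4))
      hpg (mul_nonneg hpos (by positivity)) (fun x hx => hW.2 x hx β hβ1 hβ2)
    have hcG : c4 * (1 - Ga u) ≤ 1 / 2 := by nlinarith
    have h3 : c4 * (1 - Ga u) - ε ≤ (c4 * (1 - Ga u) - κ) * (1 - 3 * κ) - κ := by nlinarith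
    have h4 : 2 ≤ κ * (H * Real.log T ^ (β ^ 2 / 4)) := by
      have : H * 1 ≤ H * Real.log T ^ (β ^ 2 / 4) := mul_le_mul_of_nonneg_left hP1 hH0.le
      nlinarith
    have h5 : (c4 * (1 - Ga u) - ε) * (H * Real.log T ^ (β ^ 2 / 4)) ≤
        ((c4 * (1 - Ga u) - κ) * (1 - 3 * κ) - κ) * (H * Real.log T ^ (β ^ 2 / 4)) :=
      mul_le_mul_of_nonneg_right h3 (by positivity)
    calc (c4 * (1 - Ga u) - ε) * (H * Real.log T ^ (β ^ 2 / 4)) ≤
          ((c4 * (1 - Ga u) - κ) * (1 - 3 * κ) - κ) * (H * Real.log T ^ (β ^ 2 / 4)) := h5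
      _ = ((c4 * (1 - Ga u) - κ) * Real.log T ^ (β ^ 2 / 4)) * ((1 - 3 * κ) * H) -
          κ * (H * Real.log T ^ (β ^ 2 / 4)) := by ring
      _ ≤ _ := by linarith

lemma Xz_shift (x s : ℝ) : Xz (x + s) = ‖riemannZeta (1 / 2 + x * Complex.I + s * Complex.I)‖ := by
  unfold Xz cl
  congr 2
  push_cast
  ring

/-- the average of the problem, one level -/
theorem abs4 (hI : P_ING) (hw : P_WG) {ε : ℝ} (hε : 0 < ε) (u : ℝ) : ∃ δ : ℝ, 0 < δ ∧ δ ≤ 1 / 40 ∧
    ∀ x : ℝ, ∀ᶠ T : ℝ in atTop,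
      (∀ β : ℝ, 4 - δ ≤ β → β ≤ 4 → ∫ s in {s | s ∈ Set.Icc (0:ℝ) 1 ∧ Xz (x + s * T) ≤ lev T β u}, Xz (x + s * T) ^ β ≤
        (c4 * Ga u + ε) * Real.log T ^ (β ^ 2 / 4)) ∧
      (∀ β : ℝ, 4 ≤ β → β ≤ 4 + δ → (c4 * (1 - Ga u) - ε) * Real.log T ^ (β ^ 2 / 4) ≤
        ∫ s in {s | s ∈ Set.Icc (0:ℝ) 1 ∧ lev T β u < Xz (x + s * T)}, Xz (x + s * T) ^ β) := by
  have hc1 := c4_ge
  have hc2 := c4_le
  have hc := c4_pos
  have hG0 := Ga_nonneg u
  have hG1 := Ga_le_one u
  obtain ⟨κ, hκ, hκ1, hκ2⟩ : ∃ κ : ℝ, 0 < κ ∧ κ ≤ 1 / 100 ∧ κ ≤ ε / 10 :=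
    ⟨min (1 / 100) (ε / 10), by positivity, min_le_left _ _, min_le_right _ _⟩
  obtain ⟨δ, hδ, hδ1, hW⟩ := winG hI hw hκ (by linarith) u
  refine ⟨δ, hδ, hδ1, fun x => ?_⟩
  filter_upwards [hW, absU' hκ (by linarith), absL' hκ hκ1, small (W4_of hI) hκ, e9 hκ,
    eventually_ge_atTop ((|x| + 24 ^ 5 * (1 + |x|) ^ 10 * |x| + 1) / κ),
    eventually_ge_atTop (1:ℝ), Real.tendsto_log_atTop.eventually_ge_atTop 1] with
    T hW hU hLw hsm h9 hTx hT1 hL1
  have hT : 0 < T := by linarith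
  have hL0 : 0 < Real.log T := by linarith
  rw [div_le_iff₀ hκ] at hTx
  set cx := 24 ^ 5 * (1 + |x|) ^ 10 * |x| with hcx
  have hx0 := abs_nonneg x
  have hcx0 : 0 ≤ cx := by positivity
  have hxx := abs_le.mp (show |x| ≤ κ * T by linarith)
  have hcxT : cx + 1 ≤ κ * T := by linarith
  have hκT : 0 < κ * T := by positivity
  have hTinv : 0 < T⁻¹ := by positivity
  -- change of variables
  have hcv : ∀ g : ℝ → ℝ, ∫ s in (0 : ℝ)..1, g (x + s * T) = T⁻¹ * ∫ t in x..(x + T), g t := by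
    intro g
    have h := intervalIntegral.integral_comp_add_mul (a := (0 : ℝ)) (b := 1) g hT.ne' x
    simp only [mul_zero, add_zero, mul_one, smul_eq_mul] at h
    rw [← h]
    refine intervalIntegral.integral_congr fun s _ => ?_
    show g (x + s * T) = g (x + T * s)
    rw [mul_comm]
  have hgc : Continuous fun s : ℝ => Xz (x + s * T) := Xz_cont.comp (by fun_prop)
  have hg0 : ∀ s : ℝ, 0 ≤ Xz (x + s * T) := fun s => Xz_nonneg _
  -- general properties of the primitives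
  have hprim : ∀ f : ℝ → ℝ, PG f → (∀ t, f t ≤ Xz t ^ (4:ℝ) + 1 ∨ True) → ∀ a b : ℝ,
      ∫ t in a..b, f t = (∫ t in (0:ℝ)..b, f t) - ∫ t in (0:ℝ)..a, f t := by
    intro f hf _ a b
    have e := intervalIntegral.integral_add_adjacent_intervals (hf.co.intervalIntegrable 0 a)
      (hf.co.intervalIntegrable a b) (μ := volume)
    linarith
  constructor
  · intro β hβ1 hβ2
    have hV := lev_pos' hL0 β u
    have hpg := fu_pg (β := β) (by linarith) (by linarith) (lev T β u)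
    set f := fu β (lev T β u) with hf
    set P := Real.log T ^ (β ^ 2 / 4) with hPd
    have hP1 : 1 ≤ P := Real.one_le_rpow hL1 (by positivity)
    refine (ind_up hgc hg0 (by linarith) hV zero_le_one).trans ?_
    change ∫ s in (0:ℝ)..1, f (x + s * T) ≤ _
    rw [hcv f]
    have h1 := hU f ((c4 * Ga u + κ) * P) hpg (by positivity) (fun x hx => hW.1 x hx β hβ1 hβ2)
    have hmono : ∀ a b : ℝ, a ≤ b → ∫ t in (0:ℝ)..a, f t ≤ ∫ t in (0:ℝ)..b, f t := by
      intro a b hab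
      have h0 : 0 ≤ ∫ t in a..b, f t := intervalIntegral.integral_nonneg hab fun t _ => hpg.nn t
      rw [hprim f hpg (fun _ => Or.inr trivial)] at h0
      linarith
    have hseg : |∫ t in (0:ℝ)..x, f t| ≤ cx := by
      have := intervalIntegral.norm_integral_le_of_norm_le_const (a := (0:ℝ)) (b := x)
        (C := 24 ^ 5 * (1 + |x|) ^ 10) (f := f) (fun y hy => by
          rw [Real.norm_of_nonneg (hpg.nn y)]
          refine (fu_le _ _ _).trans ?_
          rw [Xz_abs]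
          refine (X5_le (by linarith) (by linarith) (abs_nonneg y)).trans ?_
          have : |y| ≤ |x| := by
            rcases Set.mem_uIoc.mp hy with h | h
            · rw [abs_of_nonneg h.1.le, abs_of_nonneg (by linarith [h.1, h.2])]; exact h.2
            · rw [abs_of_nonpos h.2, abs_of_neg (by linarith [h.1, h.2])]; linarith [h.1]
          gcongr)
      rwa [Real.norm_eq_abs, sub_zero] at this
    have hseg' := abs_le.mp hseg
    have h2 : ∫ t in x..(x + T), f t ≤ (∫ t in (0:ℝ)..((1 + κ) * T), f t) + cx := by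
      rw [hprim f hpg (fun _ => Or.inr trivial)]
      have := hmono (x + T) ((1 + κ) * T) (by linarith [hxx.2])
      linarith [hseg'.1]
    have h3 : ∫ t in (0:ℝ)..(T ^ ((9:ℝ)/10)), f t ≤ 2 * (κ * T) := by
      have a1 : ∫ t in (0:ℝ)..(T ^ ((9:ℝ)/10)), f t ≤ I0 β (T ^ ((9:ℝ)/10)) := by
        unfold I0
        refine intervalIntegral.integral_mono_on (by positivity) (hpg.co.intervalIntegrable _ _)
          ((Xz_pow_cont (by linarith)).intervalIntegrable _ _) fun t _ => fu_le _ _ _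
      have := I0_le_four (β := β) (U := T ^ ((9:ℝ)/10)) (by linarith) hβ2 (by positivity)
      linarith
    have hsp := hprim f hpg (fun _ => Or.inr trivial) (T ^ ((9:ℝ)/10)) ((1 + κ) * T)
    have hcG : c4 * Ga u ≤ 1 / 2 := by nlinarith
    have hcG0 : 0 ≤ c4 * Ga u := by positivity
    have h6 : (1 - κ) * (∫ t in (T ^ ((9:ℝ)/10))..((1 + κ) * T), f t) ≤
        (1 - κ) * ((c4 * Ga u + 4 * κ) * (P * T)) := by
      refine h1.trans ?_
      have h7 : (c4 * Ga u + κ) * (1 + κ) ^ 2 ≤ (1 - κ) * (c4 * Ga u + 4 * κ) := by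
        have : (1 + κ) ^ 2 ≤ 1 + 2.01 * κ := by nlinarith
        have := mul_le_mul_of_nonneg_left this (show 0 ≤ c4 * Ga u + κ by linarith)
        nlinarith [mul_nonneg hκ.le hcG0]
      calc (c4 * Ga u + κ) * P * ((1 + κ) ^ 2 * T) = ((c4 * Ga u + κ) * (1 + κ) ^ 2) * (P * T) := by ring
        _ ≤ ((1 - κ) * (c4 * Ga u + 4 * κ)) * (P * T) := mul_le_mul_of_nonneg_right h7 (by positivity)
        _ = _ := by ring
    have h7 := le_of_mul_le_mul_left h6 (by linarith)
    have h8 : κ * T ≤ κ * (P * T) := by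
      have : 1 * T ≤ P * T := mul_le_mul_of_nonneg_right hP1 hT.le
      nlinarith
    have h10 : ∫ t in x..(x + T), f t ≤ (c4 * Ga u + ε) * (P * T) := by
      have h11 : (c4 * Ga u + 7 * κ) * (P * T) ≤ (c4 * Ga u + ε) * (P * T) :=
        mul_le_mul_of_nonneg_right (by linarith) (by positivity)
      linarith
    calc T⁻¹ * ∫ t in x..(x + T), f t ≤ T⁻¹ * ((c4 * Ga u + ε) * (P * T)) :=
          mul_le_mul_of_nonneg_left h10 hTinv.le
      _ = _ := by field_simp
  · intro β hβ1 hβ2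
    have hV := lev_pos' hL0 β u
    have hpg := fl_pg (β := β) (by linarith) (by linarith) (lev T β u)
    set f := fl β (lev T β u) with hf
    set P := Real.log T ^ (β ^ 2 / 4) with hPd
    have hP1 : 1 ≤ P := Real.one_le_rpow hL1 (by positivity)
    refine le_trans ?_ (ind_low hgc hg0 (by linarith) hV zero_le_one)
    change _ ≤ ∫ s in (0:ℝ)..1, f (x + s * T)
    rw [hcv f]
    have hi0 : 0 ≤ ∫ t in x..(x + T), f t := intervalIntegral.integral_nonneg (by linarith) fun t _ => hpg.nn t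
    rcases le_total (c4 * (1 - Ga u) - κ) 0 with hneg | hpos
    · refine le_trans (mul_nonpos_of_nonpos_of_nonneg (by linarith) (by positivity)) (by positivity)
    have h1 := hLw f ((c4 * (1 - Ga u) - κ) * P) hpg (mul_nonneg hpos (by positivity))
      (fun x hx => hW.2 x hx β hβ1 hβ2)
    have hmono : ∀ a b : ℝ, a ≤ b → ∫ t in (0:ℝ)..a, f t ≤ ∫ t in (0:ℝ)..b, f t := by
      intro a b hab
      have h0 : 0 ≤ ∫ t in a..b, f t := intervalIntegral.integral_nonneg hab fun t _ => hpg.nn t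
      rw [hprim f hpg (fun _ => Or.inr trivial)] at h0
      linarith
    have hseg : |∫ t in (0:ℝ)..x, f t| ≤ cx := by
      have := intervalIntegral.norm_integral_le_of_norm_le_const (a := (0:ℝ)) (b := x)
        (C := 24 ^ 5 * (1 + |x|) ^ 10) (f := f) (fun y hy => by
          rw [Real.norm_of_nonneg (hpg.nn y)]
          refine (fl_le _ _ _).trans ?_
          rw [Xz_abs]
          refine (X5_le (by linarith) (by linarith) (abs_nonneg y)).trans ?_
          have : |y| ≤ |x| := by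
            rcases Set.mem_uIoc.mp hy with h | h
            · rw [abs_of_nonneg h.1.le, abs_of_nonneg (by linarith [h.1, h.2])]; exact h.2
            · rw [abs_of_nonpos h.2, abs_of_neg (by linarith [h.1, h.2])]; linarith [h.1]
          gcongr)
      rwa [Real.norm_eq_abs, sub_zero] at this
    have hseg' := abs_le.mp hseg
    have h2 : (∫ t in (0:ℝ)..((1 - κ) * T), f t) - cx ≤ ∫ t in x..(x + T), f t := by
      rw [hprim f hpg (fun _ => Or.inr trivial) x (x + T)]
      have := hmono ((1 - κ) * T) (x + T) (by linarith [hxx.1])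
      linarith [hseg'.2]
    have h8 : κ * T ≤ κ * (P * T) := by
      have : 1 * T ≤ P * T := mul_le_mul_of_nonneg_right hP1 hT.le
      nlinarith
    have hcG : c4 * (1 - Ga u) ≤ 1 / 2 := by nlinarith
    have h9 : c4 * (1 - Ga u) - ε ≤ (c4 * (1 - Ga u) - κ) * (1 - 3 * κ) - κ := by nlinarith
    have h10 : (c4 * (1 - Ga u) - ε) * (P * T) ≤ ∫ t in x..(x + T), f t := by
      calc (c4 * (1 - Ga u) - ε) * (P * T) ≤ ((c4 * (1 - Ga u) - κ) * (1 - 3 * κ) - κ) * (P * T) :=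
            mul_le_mul_of_nonneg_right h9 (by positivity)
        _ = (c4 * (1 - Ga u) - κ) * P * ((1 - 3 * κ) * T) - κ * (P * T) := by ring
        _ ≤ _ := by linarith
    calc (c4 * (1 - Ga u) - ε) * P = T⁻¹ * ((c4 * (1 - Ga u) - ε) * (P * T)) := by field_simp
      _ ≤ _ := mul_le_mul_of_nonneg_left h10 hTinv.le

end

end Pool.Agent.K6.H29
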