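import Pool.Agent.K6.H29.WinG
import Pool.Agent.K6.H29.Trans

set_option autoImplicit false

/-!
The truncated moments near exponent four: from the windows to intervals.
-/

namespace Pool.Agent.K6.H29

open Finset Filter Topology MeasureTheory ProbabilityTheory
open Pool.Agent.W184.NZ Pool.Agent.TH806 Pool.Agent.TH806.N4
open Pool.Agent.H306R2.SM (om cl Yf)
open Pool.Agent.H262R4.TM (Rng Ck)
open Pool.Agent.TH73.N4_FIN Pool.Agent.TH73.N4_SHT

noncomputable section

/-- the continuous cutoff: `1` up to `V` and `0` from `2 V` on -/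
def rf (V X : ℝ) : ℝ := max 0 (min 1 (2 - X / V))

lemma rf_cont (V : ℝ) : Continuous (rf V) := by unfold rf; fun_prop

lemma rf_nn (V X : ℝ) : 0 ≤ rf V X := le_max_left _ _

lemma rf_le (V X : ℝ) : rf V X ≤ 1 := max_le zero_le_one (min_le_left _ _)

lemma rf_one {V X : ℝ} (hV : 0 < V) (h : X ≤ V) : rf V X = 1 := by
  unfold rf
  have h1 : X / V ≤ 1 := by rw [div_le_one hV]; exact h
  rw [min_eq_left (by linarith), max_eq_right zero_le_one]

lemma rf_zero {V X : ℝ} (hV : 0 < V) (h : 2 * V ≤ X) : rf V X = 0 := by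
  unfold rf
  have h1 : 2 ≤ X / V := by rw [le_div_iff₀ hV]; exact h
  rw [min_eq_right (by linarith), max_eq_left (by linarith)]

/-- the part below the level -/
def fu (β V t : ℝ) : ℝ := Xz t ^ β * rf V (Xz t)

/-- the part above the level -/
def fl (β V t : ℝ) : ℝ := Xz t ^ β * (1 - rf V (Xz t))

lemma fu_le (β V t : ℝ) : fu β V t ≤ Xz t ^ β := by
  unfold fu
  exact mul_le_of_le_one_right (Real.rpow_nonneg (Xz_nonneg t) _) (rf_le _ _)

lemma fl_le (β V t : ℝ) : fl β V t ≤ Xz t ^ β := by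
  unfold fl
  exact mul_le_of_le_one_right (Real.rpow_nonneg (Xz_nonneg t) _) (by linarith [rf_nn V (Xz t)])

lemma fu_pg {β : ℝ} (h0 : 0 ≤ β) (h5 : β ≤ 5) (V : ℝ) : PG (fu β V) := by
  refine ⟨?_, fun t => ?_, fun t ht => ?_⟩
  · unfold fu
    exact (Xz_pow_cont h0).mul ((rf_cont V).comp Xz_cont)
  · exact mul_nonneg (Real.rpow_nonneg (Xz_nonneg t) _) (rf_nn _ _)
  · exact (fu_le β V t).trans (X5_le h0 h5 ht)

lemma fl_pg {β : ℝ} (h0 : 0 ≤ β) (h5 : β ≤ 5) (V : ℝ) : PG (fl β V) := by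
  refine ⟨?_, fun t => ?_, fun t ht => ?_⟩
  · unfold fl
    exact (Xz_pow_cont h0).mul (continuous_const.sub ((rf_cont V).comp Xz_cont))
  · exact mul_nonneg (Real.rpow_nonneg (Xz_nonneg t) _) (by linarith [rf_le V (Xz t)])
  · exact (fl_le β V t).trans (X5_le h0 h5 ht)

lemma fu_ind {β V V' : ℝ} (hV : 0 < V) (hVV : 2 * V ≤ V') (t : ℝ) :
    fu β V t ≤ if Xz t ≤ V' then Xz t ^ β else 0 := by
  split_ifs with h
  · exact fu_le β V t
  · unfold fu
    rw [rf_zero hV (by linarith [not_le.mp h]), mul_zero]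

lemma fl_ind {β V V' : ℝ} (hV : 0 < V) (hVV : 2 * V ≤ V') (t : ℝ) :
    (if V' < Xz t then Xz t ^ β else 0) ≤ fl β V t := by
  split_ifs with h
  · unfold fl
    rw [rf_zero hV (by linarith), sub_zero, mul_one]
  · exact mul_nonneg (Real.rpow_nonneg (Xz_nonneg t) _) (by linarith [rf_le V (Xz t)])

lemma lev_pos' {T : ℝ} (hL : 0 < Real.log T) (β u : ℝ) : 0 < lev T β u := by
  unfold lev
  positivity

lemma two52 {β : ℝ} (h5 : β ≤ 5) : (2:ℝ) ^ (β / 2) ≤ 6 := by
  have h1 : (2:ℝ) ^ (β / 2) ≤ 2 ^ ((5:ℝ) / 2) :=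
    Real.rpow_le_rpow_of_exponent_le (by norm_num) (by linarith)
  refine h1.trans ?_
  have h2 : ((2:ℝ) ^ ((5:ℝ) / 2)) ^ 2 = 32 := by
    rw [← Real.rpow_natCast, ← Real.rpow_mul (by norm_num)]; norm_num
  have h3 : 0 ≤ (2:ℝ) ^ ((5:ℝ) / 2) := by positivity
  nlinarith

/-- the levels at neighbouring heights -/
lemma lev_cmp {T x β : ℝ} (u : ℝ) (hL : 2 ≤ Real.log T) (h1 : 1 / 2 * Real.log T ≤ Real.log x)
    (h2 : Real.log x ≤ 2 * Real.log T) (h0 : 0 ≤ β) (h5 : β ≤ 5) :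
    2 * lev T β u ≤ (12 * Real.exp |u|) * lev x β u := by
  set A := Real.log T with hA
  set B := Real.log x with hB
  have hA0 : 0 < A := by linarith
  have hB1 : 1 ≤ B := by linarith
  have hlog2 := Real.log_two_lt_d9
  have l1 : Real.log A ≤ Real.log B + 1 := by
    have : Real.log A ≤ Real.log (2 * B) := Real.log_le_log hA0 (by linarith)
    rw [Real.log_mul (by norm_num) (by linarith)] at this
    linarith
  have l2 : Real.log B ≤ Real.log A + 1 := by
    have : Real.log B ≤ Real.log (2 * A) := Real.log_le_log (by linarith) h2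
    rw [Real.log_mul (by norm_num) hA0.ne'] at this
    linarith
  have lB : 0 ≤ Real.log B := Real.log_nonneg hB1
  have lA : 0 ≤ Real.log A := Real.log_nonneg (by linarith)
  have s1 : Real.sqrt (1 / 2 * Real.log A) ≤ Real.sqrt (1 / 2 * Real.log B) + 1 := by
    have h3 := Real.sqrt_le_sqrt (show 1 / 2 * Real.log A ≤ 1 / 2 * Real.log B + 1 by linarith)
    have h4 := sqrt_add_le' (a := 1 / 2 * Real.log B) (b := 1) (by positivity) zero_le_one
    rw [Real.sqrt_one] at h4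
    linarith
  have s2 : Real.sqrt (1 / 2 * Real.log B) ≤ Real.sqrt (1 / 2 * Real.log A) + 1 := by
    have h3 := Real.sqrt_le_sqrt (show 1 / 2 * Real.log B ≤ 1 / 2 * Real.log A + 1 by linarith)
    have h4 := sqrt_add_le' (a := 1 / 2 * Real.log A) (b := 1) (by positivity) zero_le_one
    rw [Real.sqrt_one] at h4
    linarith
  have s3 : |Real.sqrt (1 / 2 * Real.log A) - Real.sqrt (1 / 2 * Real.log B)| ≤ 1 := by
    rw [abs_le]; constructor <;> linarith
  have s4 : u * Real.sqrt (1 / 2 * Real.log A) ≤ |u| + u * Real.sqrt (1 / 2 * Real.log B) := by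
    have : u * (Real.sqrt (1 / 2 * Real.log A) - Real.sqrt (1 / 2 * Real.log B)) ≤ |u| * 1 := by
      refine (le_abs_self _).trans ?_
      rw [abs_mul]
      exact mul_le_mul_of_nonneg_left s3 (abs_nonneg u)
    linarith
  have p1 : A ^ (β / 2) ≤ 6 * B ^ (β / 2) := by
    calc A ^ (β / 2) ≤ (2 * B) ^ (β / 2) := Real.rpow_le_rpow hA0.le (by linarith) (by linarith)
      _ = 2 ^ (β / 2) * B ^ (β / 2) := Real.mul_rpow (by norm_num) (by linarith)
      _ ≤ _ := mul_le_mul_of_nonneg_right (two52 h5) (Real.rpow_nonneg (by linarith) _)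
  unfold lev
  rw [← hA, ← hB]
  calc 2 * (A ^ (β / 2) * Real.exp (u * Real.sqrt (1 / 2 * Real.log A)))
      ≤ 2 * ((6 * B ^ (β / 2)) * Real.exp (|u| + u * Real.sqrt (1 / 2 * Real.log B))) := by
        have := Real.exp_le_exp.mpr s4
        gcongr
    _ = _ := by rw [Real.exp_add]; ring

/-- the windows -/
theorem winG (hI : P_ING) (hw : P_WG) {κ : ℝ} (hκ : 0 < κ) (hκ1 : κ ≤ 1 / 10) (u : ℝ) : ∃ δ : ℝ, 0 < δ ∧ δ ≤ 1 / 40 ∧
    ∀ᶠ T : ℝ in atTop,
      (∀ x ∈ Set.Icc (T ^ ((9:ℝ)/10) / 2) (8 * T), ∀ β : ℝ, 4 - δ ≤ β → β ≤ 4 →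
        WF (kk T) x (fu β (lev T β u)) ≤ (c4 * Ga u + κ) * Real.log T ^ (β ^ 2 / 4)) ∧
      (∀ x ∈ Set.Icc (κ * T) (8 * T), ∀ β : ℝ, 4 ≤ β → β ≤ 4 + δ →
        (c4 * (1 - Ga u) - κ) * Real.log T ^ (β ^ 2 / 4) ≤ WF (kk T) x (fl β (lev T β u))) := by
  set e := κ / 20 with he
  have he0 : 0 < e := by positivity
  have he1 : e ≤ 1 / 200 := by rw [he]; linarith
  have hC0 : (1:ℝ) ≤ 12 * Real.exp |u| := by
    have := Real.one_le_exp (abs_nonneg u)
    linarith
  obtain ⟨δ1, hδ1, hδ2, hW⟩ := hw e u (12 * Real.exp |u|) he0 hC0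
  have hI' := hI (e * c4) (mul_pos he0 c4_pos)
  obtain ⟨T0, hT0⟩ := eventually_atTop.1 (hW.and hI')
  refine ⟨δ1, hδ1, hδ2, ?_⟩
  have hc := c4_pos
  have hc2 := c4_le
  have hG0 := Ga_nonneg u
  have hG1 := Ga_le_one u
  filter_upwards [kk_ev, e9_top T0, e9 hκ, eventually_ge_atTop (1:ℝ),
    Real.tendsto_log_atTop.eventually_ge_atTop 2,
    Real.tendsto_log_atTop.eventually_ge_atTop (Real.log 8 / e),
    Real.tendsto_log_atTop.eventually_ge_atTop (-Real.log κ / e)] with T hk hT0' h9 hT1 hL1 hL8 hLκ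
  have hT : 0 < T := by linarith
  have hL0 : 0 < Real.log T := by linarith
  have hk0 : (0:ℝ) < kk T := by
    have := hk.1
    exact_mod_cast this
  rw [div_le_iff₀ he0] at hL8 hLκ
  constructor
  · intro x hx β hβ1 hβ2
    obtain ⟨hr, l1, l2⟩ := hk.2.2 x hx
    have hx0 : 0 < x := lt_of_lt_of_le (by positivity) hx.1
    obtain ⟨a1, a2⟩ := hT0 x (hT0'.trans hx.1)
    have b1 := (a1 (kk T) hr).1 β hβ1 hβ2 (fu β (lev T β u))
      ((fu_pg (by linarith) (by linarith) _).int (by positivity))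
      (fun t _ => fu_ind (lev_pos' hL0 β u) (lev_cmp u hL1 l1 l2 (by linarith) (by linarith)) t)
    have b2 := (abs_le.mp (a2 (kk T) hr)).2
    have b3 : W 4 (kk T) x ≤ (1 + e) * c4 * Real.log x ^ 4 := by
      change W 4 (kk T) x - c4 * Real.log x ^ 4 ≤ e * c4 * Real.log x ^ 4 at b2
      linarith
    have hlx : 0 < Real.log x := by linarith
    have hl : Real.log x ≤ (1 + e) * Real.log T := by
      have := Real.log_le_log hx0 hx.2
      rw [Real.log_mul (by norm_num) hT.ne'] at this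
      linarith
    have hp : Real.log x ^ (β ^ 2 / 4) ≤ (1 + e) ^ 4 * Real.log T ^ (β ^ 2 / 4) := by
      calc Real.log x ^ (β ^ 2 / 4) ≤ ((1 + e) * Real.log T) ^ (β ^ 2 / 4) :=
            Real.rpow_le_rpow hlx.le hl (by positivity)
        _ = (1 + e) ^ (β ^ 2 / 4) * Real.log T ^ (β ^ 2 / 4) := Real.mul_rpow (by positivity) hL0.le
        _ ≤ (1 + e) ^ 4 * Real.log T ^ (β ^ 2 / 4) := by
            refine mul_le_mul_of_nonneg_right ?_ (Real.rpow_nonneg hL0.le _)
            have : (1 + e) ^ 4 = (1 + e) ^ (4:ℝ) := by rw [← Real.rpow_natCast]; norm_num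
            rw [this]
            exact Real.rpow_le_rpow_of_exponent_le (by linarith) (by nlinarith)
    change WF (kk T) x (fu β (lev T β u)) ≤ _ at b1
    calc WF (kk T) x (fu β (lev T β u)) ≤ (Ga u + e) * (Real.log x ^ (β ^ 2 / 4 - 4) * W 4 (kk T) x) := b1
      _ ≤ (Ga u + e) * (Real.log x ^ (β ^ 2 / 4 - 4) * ((1 + e) * c4 * Real.log x ^ 4)) := by
          refine mul_le_mul_of_nonneg_left (mul_le_mul_of_nonneg_left b3 (Real.rpow_nonneg hlx.le _)) (by positivity)
      _ = (Ga u + e) * (1 + e) * c4 * (Real.log x ^ (β ^ 2 / 4 - 4) * Real.log x ^ 4) := by ring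
      _ = (Ga u + e) * (1 + e) * c4 * Real.log x ^ (β ^ 2 / 4) := by rw [rpow4 β hlx]
      _ ≤ (Ga u + e) * (1 + e) * c4 * ((1 + e) ^ 4 * Real.log T ^ (β ^ 2 / 4)) :=
          mul_le_mul_of_nonneg_left hp (by positivity)
      _ = (c4 * (Ga u + e) * (1 + e) ^ 5) * Real.log T ^ (β ^ 2 / 4) := by ring
      _ ≤ _ := by
          refine mul_le_mul_of_nonneg_right ?_ (Real.rpow_nonneg hL0.le _)
          have h6 : (1 + e) ^ 5 ≤ 1 + 6 * e := by
            have p2 : (1 + e) ^ 2 ≤ 1 + 2.005 * e := by nlinarith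
            have p4 : (1 + e) ^ 4 ≤ 1 + 4.1 * e := by
              calc (1 + e) ^ 4 = (1 + e) ^ 2 * (1 + e) ^ 2 := by ring
                _ ≤ (1 + 2.005 * e) * (1 + 2.005 * e) := by gcongr
                _ ≤ _ := by nlinarith
            calc (1 + e) ^ 5 = (1 + e) ^ 4 * (1 + e) := by ring
              _ ≤ (1 + 4.1 * e) * (1 + e) := by gcongr
              _ ≤ _ := by nlinarith
          have h7 : (Ga u + e) * (1 + e) ^ 5 ≤ (Ga u + e) * (1 + 6 * e) :=
            mul_le_mul_of_nonneg_left h6 (by positivity)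
          have h8 : (Ga u + e) * (1 + 6 * e) ≤ Ga u + 8 * e := by
            have q1 : e * Ga u ≤ e := by nlinarith
            nlinarith
          have h9 : c4 * (Ga u + e) * (1 + e) ^ 5 ≤ c4 * (Ga u + 8 * e) := by
            rw [mul_assoc]
            exact mul_le_mul_of_nonneg_left (h7.trans h8) hc.le
          nlinarith
  · intro x hx β hβ1 hβ2
    have hx0 : 0 < x := lt_of_lt_of_le (by positivity) hx.1
    have hx9 : T ^ ((9:ℝ)/10) / 2 ≤ x := by
      have : 0 < T ^ ((9:ℝ)/10) := by positivity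
      linarith [hx.1]
    obtain ⟨hr, l1, l2⟩ := hk.2.2 x ⟨hx9, hx.2⟩
    obtain ⟨a1, a2⟩ := hT0 x (hT0'.trans hx9)
    have b1 := (a1 (kk T) hr).2 β hβ1 hβ2 (fl β (lev T β u))
      ((fl_pg (by linarith) (by linarith) _).int (by positivity))
      (fun t _ => fl_ind (lev_pos' hL0 β u) (lev_cmp u hL1 l1 l2 (by linarith) (by linarith)) t)
    have b2 := (abs_le.mp (a2 (kk T) hr)).1
    have b3 : (1 - e) * c4 * Real.log x ^ 4 ≤ W 4 (kk T) x := by
      change -(e * c4 * Real.log x ^ 4) ≤ W 4 (kk T) x - c4 * Real.log x ^ 4 at b2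
      linarith
    have hlx : 0 < Real.log x := by linarith
    have hl : (1 - e) * Real.log T ≤ Real.log x := by
      have := Real.log_le_log (by positivity) hx.1
      rw [Real.log_mul hκ.ne' hT.ne'] at this
      linarith
    have hp : (1 - e) ^ 5 * Real.log T ^ (β ^ 2 / 4) ≤ Real.log x ^ (β ^ 2 / 4) := by
      calc (1 - e) ^ 5 * Real.log T ^ (β ^ 2 / 4) ≤ (1 - e) ^ (β ^ 2 / 4) * Real.log T ^ (β ^ 2 / 4) := by
            refine mul_le_mul_of_nonneg_right ?_ (Real.rpow_nonneg hL0.le _)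
            have : (1 - e) ^ 5 = (1 - e) ^ (5:ℝ) := by rw [← Real.rpow_natCast]; norm_num
            rw [this]
            exact Real.rpow_le_rpow_of_exponent_ge (by linarith) (by linarith) (by nlinarith)
        _ = ((1 - e) * Real.log T) ^ (β ^ 2 / 4) := (Real.mul_rpow (by linarith) hL0.le).symm
        _ ≤ _ := Real.rpow_le_rpow (mul_nonneg (by linarith) hL0.le) hl (by positivity)
    have he2 : 0 ≤ 1 - e := by linarith
    have hLp : 0 ≤ Real.log T ^ (β ^ 2 / 4) := Real.rpow_nonneg hL0.le _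
    have hF0 : 0 ≤ WF (kk T) x (fl β (lev T β u)) := by
      refine setIntegral_nonneg measurableSet_Ioi fun t ht => ?_
      refine mul_nonneg (om_nn _ (by positivity) (le_of_lt ht)) ((fl_pg (by linarith) (by linarith) _).nn t)
    rcases le_total (c4 * (1 - Ga u) - κ) 0 with hneg | hpos
    · exact (mul_nonpos_of_nonpos_of_nonneg hneg hLp).trans hF0
    have hGe : 0 ≤ 1 - Ga u - e := by nlinarith
    change (1 - Ga u - e) * (Real.log x ^ (β ^ 2 / 4 - 4) * W 4 (kk T) x) ≤ WF (kk T) x (fl β (lev T β u)) at b1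
    calc (c4 * (1 - Ga u) - κ) * Real.log T ^ (β ^ 2 / 4) ≤
          ((1 - Ga u - e) * ((1 - e) ^ 6 * c4)) * Real.log T ^ (β ^ 2 / 4) := by
          refine mul_le_mul_of_nonneg_right ?_ hLp
          have h7 : 1 - 6 * e ≤ (1 - e) ^ 6 := by
            have := one_add_mul_le_pow (show -2 ≤ -e by linarith) 6
            calc 1 - 6 * e = 1 + ((6:ℕ):ℝ) * (-e) := by push_cast; ring
              _ ≤ (1 + -e) ^ 6 := this
              _ = _ := by ring
          have h8 : (1 - Ga u - e) * ((1 - 6 * e) * c4) ≤ (1 - Ga u - e) * ((1 - e) ^ 6 * c4) :=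
            mul_le_mul_of_nonneg_left (mul_le_mul_of_nonneg_right h7 hc.le) hGe
          refine le_trans ?_ h8
          have h9 : 1 - Ga u - 7 * e ≤ (1 - Ga u - e) * (1 - 6 * e) := by
            have q1 : 0 ≤ e * Ga u := by positivity
            nlinarith
          have h10 := mul_le_mul_of_nonneg_right h9 hc.le
          nlinarith
      _ = (1 - Ga u - e) * ((1 - e) * c4) * ((1 - e) ^ 5 * Real.log T ^ (β ^ 2 / 4)) := by ring
      _ ≤ (1 - Ga u - e) * ((1 - e) * c4) * Real.log x ^ (β ^ 2 / 4) :=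
          mul_le_mul_of_nonneg_left hp (by positivity)
      _ = (1 - Ga u - e) * ((1 - e) * c4) * (Real.log x ^ (β ^ 2 / 4 - 4) * Real.log x ^ 4) := by rw [rpow4 β hlx]
      _ = (1 - Ga u - e) * (Real.log x ^ (β ^ 2 / 4 - 4) * ((1 - e) * c4 * Real.log x ^ 4)) := by ring
      _ ≤ (1 - Ga u - e) * (Real.log x ^ (β ^ 2 / 4 - 4) * W 4 (kk T) x) := by
          refine mul_le_mul_of_nonneg_left (mul_le_mul_of_nonneg_left b3 (Real.rpow_nonneg hlx.le _)) hGe
      _ ≤ _ := b1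

end

end Pool.Agent.K6.H29
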