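import Pool.Agent.K6.H29.Tilt

set_option autoImplicit false

/-!
Pointwise comparison of the truncated powers of zeta near exponent four with the tilted measures, and the integrated
forms.
-/

namespace Pool.Agent.K6.H29

open Finset Filter Topology MeasureTheory
open Pool.Agent.W184.NZ Pool.Agent.TH806 Pool.Agent.TH806.N4
open Pool.Agent.H306R2.SM (om cl Yf)
open Pool.Agent.H262R4.TM (Rng Ck)

noncomputable section

variable {c y T : ℝ} {J k Rs : ℕ}

lemma pow_split {X : ℝ} (hX : 0 < X) (n : ℕ) (b : ℝ) : X ^ ((n:ℝ) + b) = X ^ n * Real.exp (b * Real.log X) := by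
  rw [Real.rpow_add hX, Real.rpow_natCast, Real.rpow_def_of_pos hX b, mul_comm b]

/-- below four, good points -/
lemma pt_minus_good (hRs : 1 ≤ Rs) {a K v : ℝ} (ha0 : 0 ≤ a) (ha : a ≤ 1 / 16) (hK : 0 ≤ K) {t : ℝ}
    (hg : ∀ i < J, ‖PI (II y i) (1 / 2 + t * Complex.I)‖ ≤ RR Rs i) {X f : ℝ} (hX : 0 ≤ X)
    (hf : f ≤ if X ≤ Real.exp v then X ^ (4 - 2 * a) else 0) :
    f ≤ Real.exp (2 * a * K) * (if Sr J (II y) t ≤ v + K then X ^ 4 * Real.exp (2 * (-a) * Sr J (II y) t) else 0) +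
      Real.exp (8 * Real.exp (-(Rs:ℝ))) * Real.exp (-K) * (X ^ 2 * gp J (1 - a) (RR Rs) (II y) t) := by
  have hgp := gp_nonneg J (1 - a) (RR Rs) (II y) t
  set S := Sr J (II y) t with hS
  have r1 : 0 ≤ Real.exp (2 * a * K) * (if S ≤ v + K then X ^ 4 * Real.exp (2 * (-a) * S) else 0) := by
    split_ifs <;> positivity
  have r2 : 0 ≤ Real.exp (8 * Real.exp (-(Rs:ℝ))) * Real.exp (-K) * (X ^ 2 * gp J (1 - a) (RR Rs) (II y) t) := by
    positivity
  by_cases hv : X ≤ Real.exp v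
  · rw [if_pos hv] at hf
    rcases hX.eq_or_lt with h0 | h0
    · rw [← h0, Real.zero_rpow (by linarith)] at hf
      linarith
    · have hl : Real.log X ≤ v := (Real.log_le_iff_le_exp h0).mpr hv
      by_cases hc : S ≤ Real.log X + K
      · rw [if_pos (by linarith)]
        have e1 : X ^ (4 - 2 * a) = X ^ 4 * Real.exp ((-(2 * a)) * Real.log X) := by
          rw [← pow_split h0]; push_cast; congr 1
        have h1 : Real.exp ((-(2 * a)) * Real.log X) ≤ Real.exp (2 * a * K) * Real.exp (2 * (-a) * S) := by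
          rw [← Real.exp_add]
          apply Real.exp_le_exp.mpr
          nlinarith
        have h2 : X ^ (4 - 2 * a) ≤ Real.exp (2 * a * K) * (X ^ 4 * Real.exp (2 * (-a) * S)) := by
          rw [e1]
          calc X ^ 4 * Real.exp ((-(2 * a)) * Real.log X) ≤ X ^ 4 * (Real.exp (2 * a * K) * Real.exp (2 * (-a) * S)) :=
                mul_le_mul_of_nonneg_left h1 (by positivity)
            _ = _ := by ring
        linarith
      · push Not at hc
        have e1 : X ^ (4 - 2 * a) = X ^ 2 * Real.exp ((2 - 2 * a) * Real.log X) := by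
          rw [← pow_split h0]; push_cast; congr 1; ring
        have h1 : Real.exp ((2 - 2 * a) * Real.log X) ≤ Real.exp (-K) * Real.exp (2 * (1 - a) * S) := by
          rw [← Real.exp_add]
          apply Real.exp_le_exp.mpr
          have h3 : (2 - 2 * a) * Real.log X ≤ (2 - 2 * a) * (S - K) :=
            mul_le_mul_of_nonneg_left (by linarith) (by linarith)
          nlinarith [mul_nonneg hK (show 0 ≤ 1 - 2 * a by linarith)]
        have h2 := good_low hRs (J := J) (I := II y) (b := 1 - a) (t := t) (by rw [abs_le]; constructor <;> linarith) hg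
        rw [← hS] at h2
        have h4 : X ^ (4 - 2 * a) ≤ Real.exp (8 * Real.exp (-(Rs:ℝ))) * Real.exp (-K) *
            (X ^ 2 * gp J (1 - a) (RR Rs) (II y) t) := by
          rw [e1]
          calc X ^ 2 * Real.exp ((2 - 2 * a) * Real.log X) ≤ X ^ 2 * (Real.exp (-K) * Real.exp (2 * (1 - a) * S)) :=
                mul_le_mul_of_nonneg_left h1 (by positivity)
            _ ≤ X ^ 2 * (Real.exp (-K) * (Real.exp (8 * Real.exp (-(Rs:ℝ))) * gp J (1 - a) (RR Rs) (II y) t)) := by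
                gcongr
            _ = _ := by ring
        linarith
  · rw [if_neg hv] at hf
    linarith

/-- below four, all points -/
lemma pt_minus_all (hRs : 1 ≤ Rs) {a v : ℝ} (ha0 : 0 ≤ a) (ha : a ≤ 1 / 16) (t : ℝ) {X f : ℝ} (hX : 0 ≤ X)
    (hf : f ≤ if X ≤ Real.exp v then X ^ (4 - 2 * a) else 0) :
    f ≤ Real.exp (8 * Real.exp (-(Rs:ℝ))) * (X ^ 4 * gp J (-a) (RR Rs) (II y) t) +
      Real.exp (8 * Real.exp (-(Rs:ℝ))) * a * (X ^ 2 * gp J (1 - a) (RR Rs) (II y) t) := by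
  have g1 := gp_nonneg J (1 - a) (RR Rs) (II y) t
  have g2 := gp_nonneg J (-a) (RR Rs) (II y) t
  have h0 : f ≤ X ^ (4 - 2 * a) := by
    refine hf.trans ?_
    split_ifs
    · exact le_rfl
    · positivity
  have e0 : X ^ (4 - 2 * a) = X ^ 2 * X ^ (2 - 2 * a) := by
    rw [show (4:ℝ) - 2 * a = 2 + (2 - 2 * a) by ring]
    exact Pool.Agent.TH298.N4_WIN.rpow_split hX (by linarith)
  have h1 := up_minus (J := J) (I := II y) hRs ha0 ha t hX
  have h2 := mul_le_mul_of_nonneg_left h1 (sq_nonneg X)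
  rw [← e0] at h2
  have h3 : 0 ≤ X ^ 4 * gp J (-a) (RR Rs) (II y) t := by positivity
  have h4 : (1 - a) * (X ^ 4 * gp J (-a) (RR Rs) (II y) t) ≤ X ^ 4 * gp J (-a) (RR Rs) (II y) t := by nlinarith
  have h5 := mul_le_mul_of_nonneg_left h4 (Real.exp_pos (8 * Real.exp (-(Rs:ℝ)))).le
  calc f ≤ _ := h0.trans h2
    _ = Real.exp (8 * Real.exp (-(Rs:ℝ))) * ((1 - a) * (X ^ 4 * gp J (-a) (RR Rs) (II y) t)) +
      Real.exp (8 * Real.exp (-(Rs:ℝ))) * a * (X ^ 2 * gp J (1 - a) (RR Rs) (II y) t) := by ring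
    _ ≤ _ := by linarith

/-- above four, good points -/
lemma pt_plus_good (hRs : 1 ≤ Rs) {a K v : ℝ} (ha0 : 0 ≤ a) (ha : a ≤ 1 / 16) (hK : 0 ≤ K) {t : ℝ}
    (hg : ∀ i < J, ‖PI (II y i) (1 / 2 + t * Complex.I)‖ ≤ RR Rs i) {X f : ℝ} (hX : 0 ≤ X)
    (hf : (if Real.exp v < X then X ^ (4 + 2 * a) else 0) ≤ f) :
    Real.exp (-(2 * a * K)) * (if v + K < Sr J (II y) t then X ^ 4 * Real.exp (2 * a * Sr J (II y) t) else 0) ≤ f +
      Real.exp (8 * Real.exp (-(Rs:ℝ))) * Real.exp (-K) * (X ^ 2 * gp J (1 + a) (RR Rs) (II y) t) := by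
  have hgp := gp_nonneg J (1 + a) (RR Rs) (II y) t
  set S := Sr J (II y) t with hS
  have hf0 : 0 ≤ f := by
    refine le_trans ?_ hf
    split_ifs
    · positivity
    · exact le_rfl
  have r2 : 0 ≤ Real.exp (8 * Real.exp (-(Rs:ℝ))) * Real.exp (-K) * (X ^ 2 * gp J (1 + a) (RR Rs) (II y) t) := by
    positivity
  by_cases hv : v + K < S
  · rw [if_pos hv]
    rcases hX.eq_or_lt with h0 | h0
    · rw [← h0] at r2 ⊢
      simp only [ne_eq, OfNat.ofNat_ne_zero, not_false_eq_true, zero_pow, zero_mul, mul_zero, add_zero]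
      exact hf0
    · by_cases hc : S ≤ Real.log X + K
      · have hl : Real.exp v < X := by
          rw [← Real.lt_log_iff_exp_lt h0]; linarith
        rw [if_pos hl] at hf
        have e1 : X ^ (4 + 2 * a) = X ^ 4 * Real.exp ((2 * a) * Real.log X) := by
          rw [← pow_split h0]; push_cast; rfl
        have h1 : Real.exp (-(2 * a * K)) * Real.exp (2 * a * S) ≤ Real.exp ((2 * a) * Real.log X) := by
          rw [← Real.exp_add]
          apply Real.exp_le_exp.mpr
          nlinarith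
        have h2 : Real.exp (-(2 * a * K)) * (X ^ 4 * Real.exp (2 * a * S)) ≤ X ^ (4 + 2 * a) := by
          rw [e1]
          calc _ = X ^ 4 * (Real.exp (-(2 * a * K)) * Real.exp (2 * a * S)) := by ring
            _ ≤ _ := mul_le_mul_of_nonneg_left h1 (by positivity)
        linarith
      · push Not at hc
        have e1 : X ^ 4 = X ^ 2 * Real.exp (2 * Real.log X) := by
          have : Real.exp (2 * Real.log X) = X ^ 2 := by
            rw [show (2:ℝ) * Real.log X = ((2:ℕ):ℝ) * Real.log X by norm_num, Real.exp_nat_mul, Real.exp_log h0]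
          rw [this]; ring
        have h1 : Real.exp (-(2 * a * K)) * (Real.exp (2 * Real.log X) * Real.exp (2 * a * S)) ≤
            Real.exp (-K) * Real.exp (2 * (1 + a) * S) := by
          rw [← Real.exp_add, ← Real.exp_add, ← Real.exp_add]
          apply Real.exp_le_exp.mpr
          nlinarith [mul_nonneg ha0 hK]
        have h2 := good_low hRs (J := J) (I := II y) (b := 1 + a) (t := t) (by rw [abs_le]; constructor <;> linarith) hg
        rw [← hS] at h2
        have h4 : Real.exp (-(2 * a * K)) * (X ^ 4 * Real.exp (2 * a * S)) ≤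
            Real.exp (8 * Real.exp (-(Rs:ℝ))) * Real.exp (-K) * (X ^ 2 * gp J (1 + a) (RR Rs) (II y) t) := by
          calc _ = X ^ 2 * (Real.exp (-(2 * a * K)) * (Real.exp (2 * Real.log X) * Real.exp (2 * a * S))) := by
                rw [e1]; ring
            _ ≤ X ^ 2 * (Real.exp (-K) * Real.exp (2 * (1 + a) * S)) := mul_le_mul_of_nonneg_left h1 (by positivity)
            _ ≤ X ^ 2 * (Real.exp (-K) * (Real.exp (8 * Real.exp (-(Rs:ℝ))) * gp J (1 + a) (RR Rs) (II y) t)) := by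
                gcongr
            _ = _ := by ring
        linarith
  · rw [if_neg hv, mul_zero]
    linarith

lemma meas_S (hBL : BL c y J) (w : ℝ) : MeasurableSet {t : ℝ | Sr J (II y) t ≤ w} :=
  (Sr_cont hBL).measurable measurableSet_Iic

lemma meas_S' (hBL : BL c y J) (w : ℝ) : MeasurableSet {t : ℝ | w < Sr J (II y) t} :=
  (Sr_cont hBL).measurable measurableSet_Ioi

/-- below four, integrated -/
theorem int_minus (hBL : BL c y J) (hRs : 1 ≤ Rs) (hδ : 0 < (k:ℝ) / T) {a K v : ℝ} (ha0 : 0 ≤ a) (ha : a ≤ 1 / 16)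
    (hK : 0 ≤ K)
    (i3 : IntegrableOn (fun t => om k (k / T) t * (Xz t ^ 4 * gp J (-a) (RR Rs) (II y) t)) (Set.Ioi 0))
    {f : ℝ → ℝ} (hfi : IntegrableOn (fun t => om k (k / T) t * f t) (Set.Ioi 0))
    (hf : ∀ t, 0 < t → f t ≤ if Xz t ≤ Real.exp v then Xz t ^ (4 - 2 * a) else 0) :
    ∫ t in Set.Ioi (0:ℝ), om k (k / T) t * f t ≤
      Real.exp (2 * a * K) * (∫ t in Gd J Rs y ∩ {t | Sr J (II y) t ≤ v + K}, ft J y (-a) k T t) +
      Real.exp (8 * Real.exp (-(Rs:ℝ))) * (Real.exp (-K) + a) *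
        (∫ t in Set.Ioi (0:ℝ), wz k T t * gp J (1 - a) (RR Rs) (II y) t) +
      (Real.exp (8 * Real.exp (-(Rs:ℝ))) *
        (∫ t in Set.Ioi (0:ℝ), om k (k / T) t * (Xz t ^ 4 * gp J (-a) (RR Rs) (II y) t)) - GM J Rs y (-a) k T) := by
  have hna : |(-a)| ≤ 1 / 16 := by rw [abs_neg, abs_of_nonneg ha0]; exact ha
  have hm : MeasurableSet (Gd J Rs y) := Gd_meas hBL
  have hms := meas_S hBL (v + K)
  have hb := bad_low hBL hRs hδ hna i3
  set x8 := Real.exp (8 * Real.exp (-(Rs:ℝ))) with hx8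
  have hx0 : 0 < x8 := Real.exp_pos _
  have i5 : IntegrableOn (fun t => wz k T t * gp J (1 - a) (RR Rs) (II y) t) (Set.Ioi 0) :=
    iwgp hBL hRs hδ (by rw [abs_le]; constructor <;> linarith)
  have j1 : IntegrableOn ((Gd J Rs y ∩ {t | Sr J (II y) t ≤ v + K}).indicator
      (fun t => Real.exp (2 * a * K) * ft J y (-a) k T t)) (Set.Ioi 0) :=
    ((ft_int hBL hδ (-a)).const_mul _).indicator (hm.inter hms)
  have j2 : IntegrableOn (fun t => x8 * (Real.exp (-K) + a) * (wz k T t * gp J (1 - a) (RR Rs) (II y) t))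
      (Set.Ioi 0) := i5.const_mul _
  have j3 : IntegrableOn ((Set.Ioi (0:ℝ) \ Gd J Rs y).indicator
      (fun t => x8 * (om k (k / T) t * (Xz t ^ 4 * gp J (-a) (RR Rs) (II y) t)))) (Set.Ioi 0) :=
    (i3.const_mul _).indicator (measurableSet_Ioi.diff hm)
  have h1 : ∫ t in Set.Ioi (0:ℝ), om k (k / T) t * f t ≤ ∫ t in Set.Ioi (0:ℝ),
      ((Gd J Rs y ∩ {t | Sr J (II y) t ≤ v + K}).indicator (fun t => Real.exp (2 * a * K) * ft J y (-a) k T t) t +
      x8 * (Real.exp (-K) + a) * (wz k T t * gp J (1 - a) (RR Rs) (II y) t) +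
      (Set.Ioi (0:ℝ) \ Gd J Rs y).indicator
        (fun t => x8 * (om k (k / T) t * (Xz t ^ 4 * gp J (-a) (RR Rs) (II y) t))) t) := by
    refine setIntegral_mono_on hfi ((j1.add j2).add j3) measurableSet_Ioi fun t ht => ?_
    have ho := om_nn k hδ (le_of_lt ht)
    have hX := Xz_nonneg t
    have hgp := gp_nonneg J (1 - a) (RR Rs) (II y) t
    have hE := Real.exp_pos (-K)
    rw [ewz]
    by_cases hG : t ∈ Gd J Rs y
    · have hn : t ∉ Set.Ioi (0:ℝ) \ Gd J Rs y := fun h => h.2 hG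
      rw [Set.indicator_of_notMem hn, add_zero]
      have h2 := mul_le_mul_of_nonneg_left (pt_minus_good hRs (K := K) ha0 ha hK hG.2 hX (hf t ht)) ho
      refine h2.trans ?_
      have h3 : 0 ≤ x8 * a * (om k (k / T) t * (Xz t ^ 2 * gp J (1 - a) (RR Rs) (II y) t)) := by positivity
      by_cases hs : Sr J (II y) t ≤ v + K
      · rw [if_pos hs, Set.indicator_of_mem (show t ∈ Gd J Rs y ∩ {t | Sr J (II y) t ≤ v + K} from ⟨hG, hs⟩)]
        unfold ft
        nlinarith
      · rw [if_neg hs, Set.indicator_of_notMem (fun h => hs h.2)]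
        nlinarith
    · have hn : t ∈ Set.Ioi (0:ℝ) \ Gd J Rs y := ⟨ht, hG⟩
      rw [Set.indicator_of_mem hn, Set.indicator_of_notMem (fun h => hG h.1), zero_add]
      have h2 := mul_le_mul_of_nonneg_left (pt_minus_all (J := J) (y := y) hRs ha0 ha t hX (hf t ht)) ho
      refine h2.trans ?_
      have h3 : 0 ≤ x8 * Real.exp (-K) * (om k (k / T) t * (Xz t ^ 2 * gp J (1 - a) (RR Rs) (II y) t)) := by
        positivity
      nlinarith
  refine h1.trans ?_
  have j12 : IntegrableOn (fun t => (Gd J Rs y ∩ {t | Sr J (II y) t ≤ v + K}).indicator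
      (fun t => Real.exp (2 * a * K) * ft J y (-a) k T t) t +
      x8 * (Real.exp (-K) + a) * (wz k T t * gp J (1 - a) (RR Rs) (II y) t)) (Set.Ioi 0) := j1.add j2
  rw [integral_add j12 j3, integral_add j1 j2, integral_const_mul,
    setIntegral_indicator (hm.inter hms), setIntegral_indicator (measurableSet_Ioi.diff hm),
    Set.inter_eq_right.mpr (fun t ht => Gd_sub ht.1 : Gd J Rs y ∩ {t | Sr J (II y) t ≤ v + K} ⊆ Set.Ioi 0),
    Set.inter_eq_right.mpr (fun t ht => ht.1 : Set.Ioi (0:ℝ) \ Gd J Rs y ⊆ Set.Ioi 0),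
    integral_const_mul, integral_const_mul]
  linarith

/-- above four, integrated -/
theorem int_plus (hBL : BL c y J) (hRs : 1 ≤ Rs) (hδ : 0 < (k:ℝ) / T) {a K v : ℝ} (ha0 : 0 ≤ a) (ha : a ≤ 1 / 16)
    (hK : 0 ≤ K)
    {f : ℝ → ℝ} (hfi : IntegrableOn (fun t => om k (k / T) t * f t) (Set.Ioi 0))
    (hf : ∀ t, 0 < t → (if Real.exp v < Xz t then Xz t ^ (4 + 2 * a) else 0) ≤ f t) :
    Real.exp (-(2 * a * K)) * (∫ t in Gd J Rs y ∩ {t | v + K < Sr J (II y) t}, ft J y a k T t) ≤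
      (∫ t in Set.Ioi (0:ℝ), om k (k / T) t * f t) +
      Real.exp (8 * Real.exp (-(Rs:ℝ))) * Real.exp (-K) *
        (∫ t in Set.Ioi (0:ℝ), wz k T t * gp J (1 + a) (RR Rs) (II y) t) := by
  have hm : MeasurableSet (Gd J Rs y) := Gd_meas hBL
  have hms := meas_S' hBL (v + K)
  set x8 := Real.exp (8 * Real.exp (-(Rs:ℝ))) with hx8
  have hx0 : 0 < x8 := Real.exp_pos _
  have i5 : IntegrableOn (fun t => wz k T t * gp J (1 + a) (RR Rs) (II y) t) (Set.Ioi 0) :=
    iwgp hBL hRs hδ (by rw [abs_le]; constructor <;> linarith)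
  have j1 : IntegrableOn ((Gd J Rs y ∩ {t | v + K < Sr J (II y) t}).indicator
      (fun t => Real.exp (-(2 * a * K)) * ft J y a k T t)) (Set.Ioi 0) :=
    ((ft_int hBL hδ a).const_mul _).indicator (hm.inter hms)
  have j2 : IntegrableOn (fun t => x8 * Real.exp (-K) * (wz k T t * gp J (1 + a) (RR Rs) (II y) t))
      (Set.Ioi 0) := i5.const_mul _
  have h1 : ∫ t in Set.Ioi (0:ℝ), (Gd J Rs y ∩ {t | v + K < Sr J (II y) t}).indicator
      (fun t => Real.exp (-(2 * a * K)) * ft J y a k T t) t ≤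
      ∫ t in Set.Ioi (0:ℝ), (om k (k / T) t * f t +
        x8 * Real.exp (-K) * (wz k T t * gp J (1 + a) (RR Rs) (II y) t)) := by
    refine setIntegral_mono_on j1 (hfi.add j2) measurableSet_Ioi fun t ht => ?_
    have ho := om_nn k hδ (le_of_lt ht)
    have hX := Xz_nonneg t
    have hgp := gp_nonneg J (1 + a) (RR Rs) (II y) t
    have hE := Real.exp_pos (-K)
    have hf0 : 0 ≤ f t := by
      refine le_trans ?_ (hf t ht)
      split_ifs
      · positivity
      · exact le_rfl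
    rw [ewz]
    by_cases hG : t ∈ Gd J Rs y ∩ {t | v + K < Sr J (II y) t}
    · rw [Set.indicator_of_mem hG]
      have h2 := mul_le_mul_of_nonneg_left (pt_plus_good hRs (K := K) ha0 ha hK hG.1.2 hX (hf t ht)) ho
      rw [if_pos (show v + K < Sr J (II y) t from hG.2)] at h2
      unfold ft
      nlinarith
    · rw [Set.indicator_of_notMem hG]
      positivity
  rw [integral_add hfi j2, integral_const_mul,
    setIntegral_indicator (hm.inter hms),
    Set.inter_eq_right.mpr (fun t ht => Gd_sub ht.1 : Gd J Rs y ∩ {t | v + K < Sr J (II y) t} ⊆ Set.Ioi 0),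
    integral_const_mul] at h1
  exact h1

end

end Pool.Agent.K6.H29
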