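import Pool.Agent.TH298.N4_WIN

set_option autoImplicit false

/-!
The tilted fourth moment measure on the set where all the blocks of the prime sum are of moderate size.
-/

namespace Pool.Agent.K6.H29

open Finset Filter Topology MeasureTheory
open Pool.Agent.W184.NZ Pool.Agent.TH806 Pool.Agent.TH806.N4
open Pool.Agent.H306R2.SM (om cl Yf)
open Pool.Agent.H262R4.TM (Rng Ck)

noncomputable section

/-- the good set -/
def Gd (J Rs : ℕ) (y : ℝ) : Set ℝ :=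
  {t | 0 < t ∧ ∀ i < J, ‖PI (II y i) (1 / 2 + t * Complex.I)‖ ≤ RR Rs i}

/-- the tilted density -/
def ft (J : ℕ) (y a : ℝ) (k : ℕ) (T t : ℝ) : ℝ :=
  om k (k / T) t * (Xz t ^ 4 * Real.exp (2 * a * Sr J (II y) t))

/-- the tilted mass of the good set -/
def GM (J Rs : ℕ) (y a : ℝ) (k : ℕ) (T : ℝ) : ℝ := ∫ t in Gd J Rs y, ft J y a k T t

variable {c y T : ℝ} {J k Rs : ℕ}

lemma PI_cont (hBL : BL c y J) (i : ℕ) : Continuous fun t : ℝ => PI (II y i) (1 / 2 + t * Complex.I) := by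
  unfold PI
  refine continuous_finsetSum _ fun p hp => ?_
  have hp0 : (p:ℂ) ≠ 0 := by exact_mod_cast (hBL.pr i p hp).ne_zero
  exact Continuous.const_cpow (by fun_prop) (Or.inl hp0)

lemma Sr_cont (hBL : BL c y J) : Continuous (Sr J (II y)) := by
  unfold Sr
  exact continuous_finsetSum _ fun i _ => Complex.continuous_re.comp (PI_cont hBL i)

lemma Sr_bdd (hBL : BL c y J) : ∃ B : ℝ, 0 ≤ B ∧ ∀ t, |Sr J (II y) t| ≤ B := by
  refine ⟨∑ i ∈ range J, ∑ p ∈ II y i, (1:ℝ), by positivity, fun t => ?_⟩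
  unfold Sr
  refine (abs_sum_le_sum_abs _ _).trans (sum_le_sum fun i _ => ?_)
  refine (Complex.abs_re_le_norm _).trans ?_
  unfold PI
  refine (norm_sum_le _ _).trans (sum_le_sum fun p hp => ?_)
  have hp := hBL.pr i p hp
  rw [Complex.norm_natCast_cpow_of_pos hp.pos]
  have e : (-(1 / 2 + (t:ℂ) * Complex.I)).re = -(1 / 2) := by simp
  rw [e]
  exact Real.rpow_le_one_of_one_le_of_nonpos (by exact_mod_cast hp.one_le) (by norm_num)

lemma Gd_meas (hBL : BL c y J) : MeasurableSet (Gd J Rs y) := by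
  have e : Gd J Rs y = Set.Ioi 0 ∩ ⋂ i ∈ range J, {t : ℝ | ‖PI (II y i) (1 / 2 + t * Complex.I)‖ ≤ RR Rs i} := by
    ext t
    simp [Gd]
  rw [e]
  refine measurableSet_Ioi.inter (Finset.measurableSet_biInter _ fun i _ => ?_)
  exact (PI_cont hBL i).norm.measurable measurableSet_Iic

lemma Gd_sub : Gd J Rs y ⊆ Set.Ioi 0 := fun _ ht => ht.1

lemma ft_nn (hδ : 0 < (k:ℝ) / T) (a : ℝ) {t : ℝ} (ht : 0 < t) : 0 ≤ ft J y a k T t := by
  have := om_nn k hδ ht.le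
  have := Xz_nonneg t
  unfold ft
  positivity

lemma ft_int (hBL : BL c y J) (hδ : 0 < (k:ℝ) / T) (a : ℝ) : IntegrableOn (ft J y a k T) (Set.Ioi 0) := by
  obtain ⟨B, hB, hS⟩ := Sr_bdd hBL
  refine om_poly_int hδ ((Xz_cont.pow 4).mul (Real.continuous_exp.comp (continuous_const.mul (Sr_cont hBL))))
    (C := 24 ^ 5 * Real.exp (2 * |a| * B)) 10 fun t ht => ?_
  have h0 := Xz_nonneg t
  rw [abs_of_nonneg (by positivity)]
  have h1 : Xz t ^ 4 ≤ 24 ^ 5 * (1 + t) ^ 10 := by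
    have := Pool.Agent.TH298.N4_WIN.Xz_pow_le5 (β := 4) (by norm_num) (by norm_num) ht
    rwa [show (4:ℝ) = ((4:ℕ):ℝ) by norm_num, Real.rpow_natCast] at this
  have h2 : Real.exp (2 * a * Sr J (II y) t) ≤ Real.exp (2 * |a| * B) := by
    apply Real.exp_le_exp.mpr
    have h3 : a * Sr J (II y) t ≤ |a| * B := by
      refine (le_abs_self _).trans ?_
      rw [abs_mul]
      exact mul_le_mul_of_nonneg_left (hS t) (abs_nonneg a)
    linarith
  calc Xz t ^ 4 * Real.exp (2 * a * Sr J (II y) t) ≤ (24 ^ 5 * (1 + t) ^ 10) * Real.exp (2 * |a| * B) := by gcongr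
    _ = _ := by ring

lemma ft_intG (hBL : BL c y J) (hδ : 0 < (k:ℝ) / T) (a : ℝ) : IntegrableOn (ft J y a k T) (Gd J Rs y) :=
  (ft_int hBL hδ a).mono_set Gd_sub

/-- upper bound for the tilted mass -/
lemma gm_up (hBL : BL c y J) (hRs : 1 ≤ Rs) (hδ : 0 < (k:ℝ) / T) {a : ℝ} (ha : |a| ≤ 1 / 16)
    (i3 : IntegrableOn (fun t => om k (k / T) t * (Xz t ^ 4 * gp J a (RR Rs) (II y) t)) (Set.Ioi 0)) :
    GM J Rs y a k T ≤ Real.exp (8 * Real.exp (-(Rs:ℝ))) *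
      ∫ t in Gd J Rs y, om k (k / T) t * (Xz t ^ 4 * gp J a (RR Rs) (II y) t) := by
  unfold GM
  rw [← integral_const_mul]
  refine setIntegral_mono_on (ft_intG hBL hδ a) ((i3.mono_set Gd_sub).const_mul _) (Gd_meas hBL) fun t ht => ?_
  have h1 := good_low hRs (b := a) (by linarith) ht.2
  have h2 : 0 ≤ om k (k / T) t * Xz t ^ 4 := by
    have := om_nn k hδ ht.1.le
    have := Xz_nonneg t
    positivity
  have h3 := mul_le_mul_of_nonneg_left h1 h2
  unfold ft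
  calc _ = om k (k / T) t * Xz t ^ 4 * Real.exp (2 * a * Sr J (II y) t) := by ring
    _ ≤ _ := h3
    _ = _ := by ring

lemma gm_up' (hBL : BL c y J) (hRs : 1 ≤ Rs) (hδ : 0 < (k:ℝ) / T) {a : ℝ} (ha : |a| ≤ 1 / 16)
    (i3 : IntegrableOn (fun t => om k (k / T) t * (Xz t ^ 4 * gp J a (RR Rs) (II y) t)) (Set.Ioi 0)) :
    GM J Rs y a k T ≤ Real.exp (8 * Real.exp (-(Rs:ℝ))) *
      ∫ t in Set.Ioi (0:ℝ), om k (k / T) t * (Xz t ^ 4 * gp J a (RR Rs) (II y) t) := by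
  refine (gm_up hBL hRs hδ ha i3).trans (mul_le_mul_of_nonneg_left ?_ (Real.exp_pos _).le)
  refine setIntegral_mono_set i3 ?_ (Eventually.of_forall Gd_sub)
  filter_upwards [ae_restrict_mem measurableSet_Ioi] with t ht
  have := om_nn k hδ (le_of_lt ht)
  have := Xz_nonneg t
  have := gp_nonneg J a (RR Rs) (II y) t
  show 0 ≤ _
  positivity

/-- lower bound for the tilted mass -/
lemma gm_low (hBL : BL c y J) (hRs : 1 ≤ Rs) (hδ : 0 < (k:ℝ) / T) {a : ℝ} (ha : |a| ≤ 1 / 16)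
    (i1 : IntegrableOn (fun t => om k (k / T) t * (Xz t ^ 4 * gq l0 J a (RR Rs) (II y) t)) (Set.Ioi 0))
    (i2 : IntegrableOn (fun t => om k (k / T) t * (Xz t ^ 4 * gq (l1e Rs) J a (RR Rs) (II y) t)) (Set.Ioi 0)) :
    2 * (∫ t in Set.Ioi (0:ℝ), om k (k / T) t * (Xz t ^ 4 * gq l0 J a (RR Rs) (II y) t)) -
      (∫ t in Set.Ioi (0:ℝ), om k (k / T) t * (Xz t ^ 4 * gq (l1e Rs) J a (RR Rs) (II y) t)) ≤
    Real.exp (4 * Real.exp (-(Rs:ℝ))) * GM J Rs y a k T := by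
  unfold GM
  rw [← integral_const_mul, ← integral_const_mul, ← integral_sub (i1.const_mul 2) i2]
  have hm : MeasurableSet (Gd J Rs y) := Gd_meas hBL
  have e1 : ∫ t in Gd J Rs y, Real.exp (4 * Real.exp (-(Rs:ℝ))) * ft J y a k T t =
      ∫ t in Set.Ioi (0:ℝ), (Gd J Rs y).indicator (fun t => Real.exp (4 * Real.exp (-(Rs:ℝ))) * ft J y a k T t) t := by
    rw [setIntegral_indicator hm, Set.inter_eq_right.mpr Gd_sub]
  rw [e1]
  refine setIntegral_mono_on ((i1.const_mul 2).sub i2) (((ft_int hBL hδ a).const_mul _).indicator hm)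
    measurableSet_Ioi fun t ht => ?_
  have h2 : 0 ≤ om k (k / T) t * Xz t ^ 4 := by
    have := om_nn k hδ (le_of_lt ht)
    have := Xz_nonneg t
    positivity
  have e2 : 2 * (om k (k / T) t * (Xz t ^ 4 * gq l0 J a (RR Rs) (II y) t)) -
      om k (k / T) t * (Xz t ^ 4 * gq (l1e Rs) J a (RR Rs) (II y) t) =
      om k (k / T) t * Xz t ^ 4 * (2 * gq l0 J a (RR Rs) (II y) t - gq (l1e Rs) J a (RR Rs) (II y) t) := by ring
  rw [e2]
  rcases bad_or_good (J := J) (I := II y) hRs ha t with h | ⟨hg, h⟩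
  · refine (mul_nonpos_of_nonneg_of_nonpos h2 h).trans ?_
    by_cases hG : t ∈ Gd J Rs y
    · rw [Set.indicator_of_mem hG]
      exact mul_nonneg (Real.exp_pos _).le (ft_nn hδ a ht)
    · rw [Set.indicator_of_notMem hG]
  · have hG : t ∈ Gd J Rs y := ⟨ht, hg⟩
    rw [Set.indicator_of_mem hG]
    have h3 := mul_le_mul_of_nonneg_left (h.trans (good_up ha hg)) h2
    refine h3.trans (le_of_eq ?_)
    unfold ft
    ring

/-- the bad set has little mass -/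
lemma bad_low (hBL : BL c y J) (hRs : 1 ≤ Rs) (hδ : 0 < (k:ℝ) / T) {a : ℝ} (ha : |a| ≤ 1 / 16)
    (i3 : IntegrableOn (fun t => om k (k / T) t * (Xz t ^ 4 * gp J a (RR Rs) (II y) t)) (Set.Ioi 0)) :
    Real.exp (8 * Real.exp (-(Rs:ℝ))) *
      ∫ t in Set.Ioi (0:ℝ) \ Gd J Rs y, om k (k / T) t * (Xz t ^ 4 * gp J a (RR Rs) (II y) t) ≤
    Real.exp (8 * Real.exp (-(Rs:ℝ))) *
      (∫ t in Set.Ioi (0:ℝ), om k (k / T) t * (Xz t ^ 4 * gp J a (RR Rs) (II y) t)) - GM J Rs y a k T := by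
  have h1 := gm_up hBL hRs hδ ha i3
  have h2 := integral_inter_add_sdiff₀ (Gd_meas (Rs := Rs) hBL).nullMeasurableSet i3
  rw [Set.inter_eq_right.mpr Gd_sub] at h2
  rw [← h2, mul_add]
  linarith

end

end Pool.Agent.K6.H29
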