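import Mathlib

set_option autoImplicit false

/-!
Arithmetic for the windows.
-/

namespace Pool.Agent.K6.H29

noncomputable section

lemma arg_up {q B a x κ : ℝ} (h1 : B * a ≤ κ) (h2 : B * x ≤ κ) : q + B * (a + x) ≤ q + 2 * κ := by
  rw [mul_add]; linarith

lemma arg_low {q B a x κ : ℝ} (h1 : B * a ≤ κ) (h2 : B * x ≤ κ) : q + -(2 * κ) ≤ q - B * (a + x) := by
  rw [mul_add]; linarith

lemma exp_two {κ : ℝ} (hκ : 0 < κ) (hκ1 : κ ≤ 1 / 200) : Real.exp κ ≤ 1 + 2 * κ := by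
  have h5 := Real.exp_bound' (x := κ) hκ.le (by linarith) (n := 2) (by norm_num)
  norm_num [Finset.sum_range_succ, Nat.factorial] at h5
  nlinarith

lemma exp_low {κ : ℝ} : 1 - κ ≤ Real.exp (-κ) := by
  have := Real.add_one_le_exp (-κ); linarith

lemma law_num {P Q G ε1 M : ℝ} (h1 : P ≤ Q) (h2 : Q - M * G ≤ ε1 * M) : P ≤ (G + ε1) * M := by
  have : (G + ε1) * M = M * G + ε1 * M := by ring
  rw [this]; linarith

lemma abs_quad4 {a : ℝ} (h0 : 0 ≤ a) (h1 : a ≤ 1 / 16) : |4 * (-a) + (-a) ^ 2| ≤ 5 * a ∧ |4 * a + a ^ 2| ≤ 5 * a := by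
  constructor <;> rw [abs_le] <;> constructor <;> nlinarith

lemma fac_up {G ε1 ε M F : ℝ} (hF : F ≤ (G + 21 * ε1) * M) (hM : 0 ≤ M) (h : 21 * ε1 ≤ ε) : F ≤ (G + ε) * M :=
  hF.trans (mul_le_mul_of_nonneg_right (by linarith) hM)

lemma fac_low {G ε1 ε M F : ℝ} (hF : (1 - G - 21 * ε1) * M ≤ F) (hM : 0 ≤ M) (h : 21 * ε1 ≤ ε) :
    (1 - G - ε) * M ≤ F :=
  le_trans (mul_le_mul_of_nonneg_right (by linarith) hM) hF

lemma sqrt_add_le' {a b : ℝ} (ha : 0 ≤ a) (hb : 0 ≤ b) : Real.sqrt (a + b) ≤ Real.sqrt a + Real.sqrt b := by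
  rw [Real.sqrt_le_iff]
  refine ⟨by positivity, ?_⟩
  have h1 := Real.sq_sqrt ha
  have h2 := Real.sq_sqrt hb
  have h3 : 0 ≤ Real.sqrt a * Real.sqrt b := by positivity
  nlinarith

/-- the size of the tilted mass -/
lemma gm_num {M0 κ G I1 I2 I3 x4 x8 : ℝ} (hκ : 0 < κ) (hκ1 : κ ≤ 1 / 200) (hM : 0 ≤ M0) (hx4 : x4 ≤ Real.exp κ)
    (hx8 : x8 ≤ Real.exp κ) (hx8' : 0 ≤ x8) (hG : 0 ≤ G)
    (h1 : |I1 - M0| ≤ 7 * κ * M0) (h2 : |I2 - M0| ≤ 7 * κ * M0) (h3 : I3 ≤ M0 * (1 + 7 * κ))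
    (hl : 2 * I1 - I2 ≤ x4 * G) (hu : G ≤ x8 * I3) (hI3 : 0 ≤ I3) : |G - M0| ≤ 23 * κ * M0 := by
  have he : Real.exp κ ≤ 1 + 2 * κ := by
    have h5 := Real.exp_bound' (x := κ) hκ.le (by linarith) (n := 2) (by norm_num)
    norm_num [Finset.sum_range_succ, Nat.factorial] at h5
    nlinarith
  have a1 := (abs_le.mp h1).1
  have a2 := (abs_le.mp h2).2
  have b1 : (1 - 21 * κ) * M0 ≤ (1 + 2 * κ) * G := by
    calc (1 - 21 * κ) * M0 ≤ 2 * I1 - I2 := by linarith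
      _ ≤ x4 * G := hl
      _ ≤ (1 + 2 * κ) * G := mul_le_mul_of_nonneg_right (hx4.trans he) hG
  have b2 : G ≤ (1 + 2 * κ) * (M0 * (1 + 7 * κ)) := by
    calc G ≤ x8 * I3 := hu
      _ ≤ (1 + 2 * κ) * I3 := mul_le_mul_of_nonneg_right (hx8.trans he) hI3
      _ ≤ _ := mul_le_mul_of_nonneg_left h3 (by positivity)
  have hκM : 0 ≤ κ * M0 := by positivity
  have hκκM : κ * (κ * M0) ≤ 1 / 200 * (κ * M0) := mul_le_mul_of_nonneg_right hκ1 hκM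
  rw [abs_le]
  constructor
  · have b3 : (1 - 23 * κ) * M0 * (1 + 2 * κ) ≤ (1 + 2 * κ) * G := by nlinarith
    have b4 : (1 - 23 * κ) * M0 ≤ G := by
      have : 0 < 1 + 2 * κ := by positivity
      rw [mul_comm] at b3
      exact le_of_mul_le_mul_left b3 this
    linarith
  · nlinarith

lemma num_minus {F e1 P1 x8 eK a C5 I5 I3 G M0 M κ ε1 Φ Φ' C5' : ℝ} (hκ : 0 < κ) (hκ1 : κ ≤ 1 / 200)
    (hκε : 32 * κ ≤ ε1) (hε1 : ε1 ≤ 1) (hM0 : 0 ≤ M0) (he1 : e1 ≤ 1 + 2 * κ) (he10 : 0 ≤ e1)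
    (hP : P1 ≤ (Φ' + ε1) * M0) (hΦ : Φ' ≤ Φ + ε1) (hΦ0 : 0 ≤ Φ) (hΦ1 : Φ ≤ 1) (hΦ0' : 0 ≤ Φ')
    (hx8 : x8 ≤ 1 + 2 * κ) (hx80 : 0 ≤ x8) (heK : eK * C5 ≤ ε1) (heK0 : 0 ≤ eK) (ha : 0 ≤ a) (haC : a * C5 ≤ κ)
    (hI5 : I5 ≤ C5 * M0) (hI3 : I3 ≤ M0 * (1 + 7 * κ)) (hG : |G - M0| ≤ 23 * κ * M0) (hC5 : C5' = C5)
    (hF : F ≤ e1 * P1 + x8 * (eK + a) * I5 + (x8 * I3 - G)) (hMM : M0 ≤ (1 + 2 * κ) * M) (hM : 0 ≤ M) :
    F ≤ (Φ + 21 * ε1) * M := by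
  have hε0 : 0 < ε1 := by linarith
  have c1 : e1 * P1 ≤ (1 + 2 * κ) * ((Φ' + ε1) * M0) := by
    calc e1 * P1 ≤ e1 * ((Φ' + ε1) * M0) := mul_le_mul_of_nonneg_left hP he10
      _ ≤ _ := mul_le_mul_of_nonneg_right he1 (by positivity)
  have c2 : (Φ' + ε1) * M0 ≤ (Φ + 2 * ε1) * M0 := mul_le_mul_of_nonneg_right (by linarith) hM0
  have c3 : x8 * (eK + a) * I5 ≤ (1 + 2 * κ) * ((ε1 + κ) * M0) := by
    calc x8 * (eK + a) * I5 ≤ x8 * (eK + a) * (C5 * M0) := mul_le_mul_of_nonneg_left hI5 (by positivity)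
      _ = x8 * ((eK * C5 + a * C5) * M0) := by ring
      _ ≤ x8 * ((ε1 + κ) * M0) := by
          refine mul_le_mul_of_nonneg_left (mul_le_mul_of_nonneg_right (by linarith) hM0) hx80
      _ ≤ _ := mul_le_mul_of_nonneg_right hx8 (by positivity)
  have c4 : x8 * I3 ≤ (1 + 2 * κ) * (M0 * (1 + 7 * κ)) := by
    calc x8 * I3 ≤ x8 * (M0 * (1 + 7 * κ)) := mul_le_mul_of_nonneg_left hI3 hx80
      _ ≤ _ := mul_le_mul_of_nonneg_right hx8 (by positivity)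
  have c5 := (abs_le.mp hG).1
  have hκ2 : κ * κ ≤ κ / 200 := by nlinarith
  have c6 : F ≤ (Φ + 5 * ε1) * M0 := by
    have d1 : (1 + 2 * κ) * ((Φ + 2 * ε1) * M0) + (1 + 2 * κ) * ((ε1 + κ) * M0) +
        ((1 + 2 * κ) * (M0 * (1 + 7 * κ)) - (1 - 23 * κ) * M0) ≤ (Φ + 5 * ε1) * M0 := by
      have d2 : (1 + 2 * κ) * (Φ + 2 * ε1) + (1 + 2 * κ) * (ε1 + κ) + ((1 + 2 * κ) * (1 + 7 * κ) - (1 - 23 * κ)) ≤
          Φ + 5 * ε1 := by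
        have p1 : κ * Φ ≤ κ := by nlinarith
        have p2 : κ * ε1 ≤ κ := by nlinarith
        nlinarith
      have := mul_le_mul_of_nonneg_right d2 hM0
      linarith
    have d3 : (1 + 2 * κ) * ((Φ' + ε1) * M0) ≤ (1 + 2 * κ) * ((Φ + 2 * ε1) * M0) :=
      mul_le_mul_of_nonneg_left c2 (by positivity)
    linarith
  calc F ≤ (Φ + 5 * ε1) * M0 := c6
    _ ≤ (Φ + 5 * ε1) * ((1 + 2 * κ) * M) := mul_le_mul_of_nonneg_left hMM (by positivity)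
    _ = ((Φ + 5 * ε1) * (1 + 2 * κ)) * M := by ring
    _ ≤ _ := by
        refine mul_le_mul_of_nonneg_right ?_ hM
        have p1 : κ * Φ ≤ κ := by nlinarith
        have p2 : κ * ε1 ≤ κ := by nlinarith
        nlinarith

lemma num_plus {F e1 P1 P2 x8 eK C5 I5 G M0 M κ ε1 Φ Φ' : ℝ} (hκ : 0 < κ) (hκ1 : κ ≤ 1 / 200)
    (hκε : 32 * κ ≤ ε1) (hε1 : ε1 ≤ 1) (hM0 : 0 ≤ M0) (he1 : 1 - κ ≤ e1) (he10 : 0 ≤ e1)
    (hP : P1 ≤ (Φ' + ε1) * M0) (hPP : G = P1 + P2) (hP2 : 0 ≤ P2) (hΦ : Φ' ≤ Φ + ε1) (hΦ0 : 0 ≤ Φ) (hΦ1 : Φ ≤ 1)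
    (hx8 : x8 ≤ 1 + 2 * κ) (hx80 : 0 ≤ x8) (heK : eK * C5 ≤ ε1) (heK0 : 0 ≤ eK)
    (hI5 : I5 ≤ C5 * M0) (hG : |G - M0| ≤ 23 * κ * M0)
    (hF : e1 * P2 ≤ F + x8 * eK * I5) (hMM : (1 - κ) * M ≤ M0) (hM : 0 ≤ M) (hF0 : 0 ≤ F) :
    (1 - Φ - 21 * ε1) * M ≤ F := by
  have hε0 : 0 < ε1 := by linarith
  rcases le_total (1 - Φ - 21 * ε1) 0 with h | h
  · exact (mul_nonpos_of_nonpos_of_nonneg h hM).trans hF0
  · have c5 := (abs_le.mp hG).1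
    have c2 : (Φ' + ε1) * M0 ≤ (Φ + 2 * ε1) * M0 := mul_le_mul_of_nonneg_right (by linarith) hM0
    have c3 : x8 * eK * I5 ≤ (1 + 2 * κ) * (ε1 * M0) := by
      calc x8 * eK * I5 ≤ x8 * eK * (C5 * M0) := mul_le_mul_of_nonneg_left hI5 (by positivity)
        _ = x8 * ((eK * C5) * M0) := by ring
        _ ≤ x8 * (ε1 * M0) := by
            refine mul_le_mul_of_nonneg_left (mul_le_mul_of_nonneg_right (by linarith) hM0) hx80
        _ ≤ _ := mul_le_mul_of_nonneg_right hx8 (by positivity)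
    have c6 : (1 - 23 * κ - Φ - 2 * ε1) * M0 ≤ P2 := by nlinarith
    have c7 : (1 - κ) * P2 ≤ e1 * P2 := mul_le_mul_of_nonneg_right he1 hP2
    have c8 : (1 - κ) * ((1 - 23 * κ - Φ - 2 * ε1) * M0) ≤ (1 - κ) * P2 :=
      mul_le_mul_of_nonneg_left c6 (by linarith)
    have p1 : 0 ≤ κ * Φ := by positivity
    have p2 : κ * ε1 ≤ κ := by nlinarith
    have p3 : 0 ≤ κ * ε1 := by positivity
    have c9 : (1 - Φ - 6 * ε1) * M0 ≤ F := by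
      have d1 : (1 - Φ - 6 * ε1) * M0 ≤ (1 - κ) * ((1 - 23 * κ - Φ - 2 * ε1) * M0) - (1 + 2 * κ) * (ε1 * M0) := by
        have d2 : 1 - Φ - 6 * ε1 ≤ (1 - κ) * (1 - 23 * κ - Φ - 2 * ε1) - (1 + 2 * κ) * ε1 := by
          nlinarith [mul_pos hκ hκ]
        have := mul_le_mul_of_nonneg_right d2 hM0
        linarith
      linarith
    calc (1 - Φ - 21 * ε1) * M ≤ (1 - Φ - 6 * ε1) * ((1 - κ) * M) := by
          rw [← mul_assoc]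
          refine mul_le_mul_of_nonneg_right ?_ hM
          nlinarith
      _ ≤ (1 - Φ - 6 * ε1) * M0 := mul_le_mul_of_nonneg_left hMM (by linarith)
      _ ≤ F := c9

/-- the position of the level -/
lemma lev_pos {L V D u d C0 K σ a LL v : ℝ} (hLL : 0 ≤ LL) (hV0 : 0 ≤ V) (hVL : |V - LL| ≤ D)
    (hσ : σ = Real.sqrt (V / 2)) (ha : |a| ≤ 1) (hd : 0 < d)
    (hbig : (Real.log C0 + K + 3 * D + |u| * Real.sqrt D) / d ≤ σ)
    (hv : v = Real.log C0 + (2 + a) * LL + u * Real.sqrt (1 / 2 * LL)) (hL : L = L) :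
    v + K ≤ (2 + a) * V + (u + d) * σ := by
  have hD : 0 ≤ D := (abs_nonneg _).trans hVL
  obtain ⟨v1, v2⟩ := abs_le.mp hVL
  obtain ⟨a1, a2⟩ := abs_le.mp ha
  rw [div_le_iff₀ hd] at hbig
  have h1 : (2 + a) * (LL - V) ≤ 3 * D := by
    have : (2 + a) * (LL - V) ≤ (2 + a) * D := mul_le_mul_of_nonneg_left (by linarith) (by linarith)
    nlinarith
  have h2 : u * Real.sqrt (1 / 2 * LL) ≤ u * σ + |u| * Real.sqrt D := by
    have s1 : Real.sqrt (1 / 2 * LL) ≤ σ + Real.sqrt D := by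
      rw [hσ]
      refine (Real.sqrt_le_sqrt (show 1 / 2 * LL ≤ V / 2 + D by linarith)).trans
        (sqrt_add_le' (by linarith) hD)
    have s2 : σ ≤ Real.sqrt (1 / 2 * LL) + Real.sqrt D := by
      rw [hσ]
      refine (Real.sqrt_le_sqrt (show V / 2 ≤ 1 / 2 * LL + D by linarith)).trans
        (sqrt_add_le' (by linarith) hD)
    have s3 : |Real.sqrt (1 / 2 * LL) - σ| ≤ Real.sqrt D := by rw [abs_le]; constructor <;> linarith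
    have s4 : u * (Real.sqrt (1 / 2 * LL) - σ) ≤ |u| * Real.sqrt D := by
      refine (le_abs_self _).trans ?_
      rw [abs_mul]
      exact mul_le_mul_of_nonneg_left s3 (abs_nonneg u)
    linarith
  rw [hv]
  nlinarith

end

end Pool.Agent.K6.H29
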