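import Pool.Agent.K6.H29.Core
import Pool.Agent.K6.H29.WinN

set_option autoImplicit false

/-!
The truncated moments near exponent four in the windows.
-/

namespace Pool.Agent.K6.H29

open Finset Filter Topology MeasureTheory ProbabilityTheory
open Pool.Agent.W184.NZ Pool.Agent.TH806 Pool.Agent.TH806.N4
open Pool.Agent.H306R2.SM (om cl Yf)
open Pool.Agent.H262R4.TM (Rng Ck)

noncomputable section

/-- the level `(log T)^(β/2) exp (u √(½ log log T))` -/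
def lev (T β u : ℝ) : ℝ :=
  Real.log T ^ (β / 2) * Real.exp (u * Real.sqrt (1 / 2 * Real.log (Real.log T)))

/-- the truncated moments in the windows -/
def P_WG : Prop := ∀ ε u C0 : ℝ, 0 < ε → 1 ≤ C0 → ∃ δ : ℝ, 0 < δ ∧ δ ≤ 1 / 40 ∧ ∀ᶠ T : ℝ in atTop,
  ∀ κ : ℕ, Rng T κ →
  (∀ β : ℝ, 4 - δ ≤ β → β ≤ 4 → ∀ f : ℝ → ℝ, IntegrableOn (fun t => om κ (κ / T) t * f t) (Set.Ioi 0) →
    (∀ t, 0 < t → f t ≤ if Xz t ≤ C0 * lev T β u then Xz t ^ β else 0) →
    ∫ t in Set.Ioi (0:ℝ), om κ (κ / T) t * f t ≤ (Ga u + ε) * (Real.log T ^ (β ^ 2 / 4 - 4) * W 4 κ T)) ∧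
  (∀ β : ℝ, 4 ≤ β → β ≤ 4 + δ → ∀ f : ℝ → ℝ, IntegrableOn (fun t => om κ (κ / T) t * f t) (Set.Ioi 0) →
    (∀ t, 0 < t → (if C0 * lev T β u < Xz t then Xz t ^ β else 0) ≤ f t) →
    (1 - Ga u - ε) * (Real.log T ^ (β ^ 2 / 4 - 4) * W 4 κ T) ≤ ∫ t in Set.Ioi (0:ℝ), om κ (κ / T) t * f t)

/-- the choice of the range -/
lemma a0_ex5 {κ B C5 D K : ℝ} (hκ : 0 < κ) (hB : 0 ≤ B) (h5 : 0 ≤ C5) (hD : 0 ≤ D) (hK : 0 ≤ K) :
    ∃ a0 : ℝ, 0 < a0 ∧ a0 ≤ 1 / 80 ∧ ∀ a : ℝ, 0 ≤ a → a ≤ 2 * a0 → B * a ≤ κ ∧ a * C5 ≤ κ ∧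
      5 * a * D ≤ κ ∧ 2 * a * K ≤ κ := by
  have hdd : 0 < 2 * (B + C5 + 5 * D + 2 * K + 1) := by positivity
  refine ⟨min (1 / 80) (κ / (2 * (B + C5 + 5 * D + 2 * K + 1))), lt_min (by norm_num) (by positivity),
    min_le_left _ _, fun a ha0 ha => ?_⟩
  have h2 : a * (B + C5 + 5 * D + 2 * K + 1) ≤ κ := by
    have h1 : a / 2 ≤ κ / (2 * (B + C5 + 5 * D + 2 * K + 1)) := by
      have := min_le_right (1 / 80) (κ / (2 * (B + C5 + 5 * D + 2 * K + 1)))
      linarith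
    rw [le_div_iff₀ hdd] at h1
    linarith
  have p1 : 0 ≤ a * B := by positivity
  have p3 : 0 ≤ a * C5 := by positivity
  have p4 : 0 ≤ a * D := by positivity
  have p5 : 0 ≤ a * K := by positivity
  refine ⟨by nlinarith, by nlinarith, by nlinarith, by nlinarith⟩

theorem t_WG (hT4 : P_T4) (hW2 : P_W2) (hT2 : P_T2) (hW4 : P_W4) : P_WG := by
  intro ε u C0 hε hC0
  obtain ⟨ε1, hε1, hε11, hε1ε⟩ : ∃ ε1 : ℝ, 0 < ε1 ∧ ε1 ≤ 1 ∧ 21 * ε1 ≤ ε :=
    ⟨min 1 (ε / 21), lt_min one_pos (by positivity), min_le_left _ _, by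
      have := min_le_right 1 (ε / 21); linarith⟩
  -- the Gaussian distribution function
  obtain ⟨d, hd, hd'⟩ := Pool.Agent.R313.cdf_right (gaussianReal 0 1) u ε1 hε1
  change Ga (u + d) ≤ Ga u + ε1 at hd'
  obtain ⟨κ0, A, hκ0, hA, hQ⟩ := mgf_cdf (u + d) ε1 hε1
  obtain ⟨κ, hκ, hκ1, hκε, hκκ⟩ : ∃ κ : ℝ, 0 < κ ∧ κ ≤ 1 / 200 ∧ 32 * κ ≤ ε1 ∧
      23 * κ * Real.exp (A ^ 2 / 2) ≤ κ0 := by
    have hp : 0 < 23 * Real.exp (A ^ 2 / 2) := by positivity
    refine ⟨min (1 / 200) (min (ε1 / 32) (κ0 / (23 * Real.exp (A ^ 2 / 2)))), by positivity, min_le_left _ _, ?_, ?_⟩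
    · have := (min_le_right (1 / 200) (min (ε1 / 32) (κ0 / (23 * Real.exp (A ^ 2 / 2))))).trans (min_le_left _ _)
      linarith
    · have := (min_le_right (1 / 200) (min (ε1 / 32) (κ0 / (23 * Real.exp (A ^ 2 / 2))))).trans (min_le_right _ _)
      rw [le_div_iff₀ hp] at this
      linarith
  obtain ⟨c, hc0, hrange⟩ := ranges
  obtain ⟨c4, C4', hc4, _, hW4⟩ := hW4
  obtain ⟨B, hB, R0, hR0, hW2⟩ := hW2 c hc0
  obtain ⟨η1, hη1, _, hT4⟩ := hT4
  obtain ⟨C1, hC1, R1, hR1, hT4⟩ := hT4 c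
  obtain ⟨η2, hη2, _, hT2⟩ := hT2
  obtain ⟨C2, hC2, hT2⟩ := hT2 c
  -- the parameter of the truncation
  obtain ⟨Rs, hRs, hRs0, hRs1, hRsκ⟩ : ∃ Rs : ℕ, 1 ≤ Rs ∧ R0 ≤ Rs ∧ R1 ≤ Rs ∧
      (12 + B) * Real.exp (-(Rs:ℝ)) ≤ κ := by
    have h1 : Tendsto (fun n : ℕ => (12 + B) * Real.exp (-(n:ℝ))) atTop (𝓝 ((12 + B) * 0)) :=
      (Real.tendsto_exp_neg_atTop_nhds_zero.comp tendsto_natCast_atTop_atTop).const_mul (12 + B)
    rw [mul_zero] at h1
    have h2 := (h1.eventually_le_const hκ).and (eventually_ge_atTop (max 1 (max R0 R1)))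
    obtain ⟨n, hn, hn2⟩ := h2.exists
    exact ⟨n, (le_max_left _ _).trans hn2, ((le_max_left _ _).trans (le_max_right _ _)).trans hn2,
      ((le_max_right _ _).trans (le_max_right _ _)).trans hn2, hn⟩
  have hx0 : 0 < Real.exp (-(Rs:ℝ)) := Real.exp_pos _
  have h12 : 12 * Real.exp (-(Rs:ℝ)) ≤ κ := by nlinarith [mul_pos hB hx0]
  have hBx : B * Real.exp (-(Rs:ℝ)) ≤ κ := by nlinarith [mul_pos hB hx0]
  have hT4 := hT4 Rs hRs1
  have hT2 := hT2 Rs hRs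
  -- the exponent of `y`
  obtain ⟨η, hη, hη_a, hη_b'⟩ := eta_ex (q := min (min η1 η2) (κ * c4)) (C := C1) (R := (Rs:ℝ))
    (lt_min (lt_min hη1 hη2) (by positivity)) hC1.le (Nat.cast_nonneg _)
  have hη_1 : 320 * ((Rs:ℝ) + 1) * η ≤ η1 := hη_a.trans ((min_le_left _ _).trans (min_le_left _ _))
  have hη_2 : 320 * ((Rs:ℝ) + 1) * η ≤ η2 :=
    hη_a.trans ((min_le_left _ _).trans (min_le_right _ _))
  have hη_b : C1 * η ≤ κ * c4 := by
    have h1 := hη_b'.trans (min_le_right _ _)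
    have h2 : 0 < C1 * η := mul_pos hC1 hη
    have h3 : (0:ℝ) ≤ Rs := Nat.cast_nonneg _
    nlinarith [mul_nonneg h3 h2.le]
  set D := c + |Real.log η| with hD
  have hD0 : 0 ≤ D := by positivity
  set C5 := C2 * Real.exp (3 * D) / c4 with hC5
  have hC50 : 0 < C5 := by positivity
  -- the parameter `K`
  obtain ⟨K, hK0, hKC⟩ : ∃ K : ℝ, 0 ≤ K ∧ Real.exp (-K) * C5 ≤ ε1 := by
    have h1 : Tendsto (fun K : ℝ => Real.exp (-K) * C5) atTop (𝓝 (0 * C5)) :=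
      Real.tendsto_exp_neg_atTop_nhds_zero.mul_const C5
    rw [zero_mul] at h1
    obtain ⟨K, h2, h3⟩ := ((h1.eventually_le_const hε1).and (eventually_ge_atTop 0)).exists
    exact ⟨K, h3, h2⟩
  obtain ⟨a0, ha0, ha080, ha0s⟩ := a0_ex5 (κ := κ) (B := B) (C5 := C5) (D := D) (K := K) hκ hB.le
    hC50.le hD0 hK0
  set N0 := max (A / (2 * a0)) ((Real.log C0 + K + 3 * D + |u| * Real.sqrt D) / d) with hN0
  refine ⟨2 * a0, by positivity, by linarith, ?_⟩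
  have hyT : ∀ᶠ T : ℝ in atTop, 144 ≤ Real.exp (η * Real.log T) :=
    (Real.tendsto_exp_atTop.comp (Real.tendsto_log_atTop.const_mul_atTop hη)).eventually_ge_atTop 144
  have hLLT : Tendsto (fun T : ℝ => Real.log (Real.log T)) atTop atTop :=
    Real.tendsto_log_atTop.comp Real.tendsto_log_atTop
  clear hη_a hη_b'
  filter_upwards [hT4, hT2, hW4, hyT, eventually_ge_atTop (1:ℝ), Real.tendsto_log_atTop.eventually_ge_atTop 1,
    hLLT.eventually_ge_atTop (2 * N0 ^ 2 + D + 1)]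
    with T hT4 hT2 hW4 hyT hT1 hL1 hLLb k hk
  have hT0 : 0 < T := by linarith
  have hT4 := hT4 k hk
  have hT2 := hT2 k hk
  have hW4' := (hW4 k hk).1
  set L := Real.log T with hLd
  have hL0 : 0 < L := by linarith
  set y := Real.exp (η * L) with hyd
  have hly : Real.log y = η * L := Real.log_exp _
  obtain ⟨J, hRg, _, hend, hVV⟩ := hrange y hyT
  have hBL : BL c y J := ⟨hc0, hyT, hRg, hend, hVV⟩
  have hk1 : 1 ≤ k := by
    have := hk.1
    have h2 : (0:ℝ) < k := lt_of_lt_of_le (by positivity) this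
    exact_mod_cast h2
  have hk0 : (0:ℝ) < k := by exact_mod_cast hk1
  have hδ : 0 < (k:ℝ) / T := by positivity
  set V := ∑ i ∈ range J, vI (II y i) with hV
  have hVL : |V - Real.log L| ≤ D := by
    have e1 : Real.log (Real.log y) = Real.log η + Real.log L := by
      rw [hly, Real.log_mul hη.ne' hL0.ne']
    rw [e1] at hVV
    have e2 : V - Real.log L = (V - (Real.log η + Real.log L)) + Real.log η := by ring
    rw [e2]
    exact (abs_add_le _ _).trans (add_le_add hVV le_rfl)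
  have hyg : ∀ q : ℝ, 320 * ((Rs:ℝ) + 1) * η ≤ q → 320 * ((Rs:ℝ) + 1) * Real.log y ≤ q * L := by
    intro q hq
    calc 320 * ((Rs:ℝ) + 1) * Real.log y = (320 * ((Rs:ℝ) + 1) * η) * L := by rw [hly]; ring
      _ ≤ _ := mul_le_mul_of_nonneg_right hq hL0.le
  have hy1 := hyg η1 hη_1
  have hy2 := hyg η2 hη_2
  have hW0 : 0 < W 4 k T := lt_of_lt_of_le (by positivity) hW4'
  -- the size of `V`
  have hVb : 2 * N0 ^ 2 + 1 ≤ V := by linarith [(abs_le.mp hVL).1]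
  have hV0 : 0 < V := by have := sq_nonneg N0; linarith
  obtain ⟨σ, hσ⟩ : ∃ σ : ℝ, σ = Real.sqrt (V / 2) := ⟨_, rfl⟩
  have hσ0 : 0 < σ := by rw [hσ]; exact Real.sqrt_pos.mpr (by linarith)
  have hN0pos : 0 < N0 := lt_of_lt_of_le (by positivity) (le_max_left _ _)
  have hσN : N0 ≤ σ := by
    rw [hσ]
    apply Real.le_sqrt_of_sq_le
    linarith
  have hσA : A / (2 * σ) ≤ a0 := by
    have h1 : A / (2 * a0) ≤ σ := (le_max_left _ _).trans hσN
    rw [div_le_iff₀ (by positivity)] at h1 ⊢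
    linarith
  -- the size of the second moment term
  have heV : Real.exp (3 * V) ≤ L ^ 3 * Real.exp (3 * D) := by
    have h1 := (abs_le.mp hVL).2
    calc Real.exp (3 * V) ≤ Real.exp (3 * Real.log L + 3 * D) := Real.exp_le_exp.mpr (by linarith)
      _ = L ^ 3 * Real.exp (3 * D) := by
        rw [Real.exp_add]
        congr 1
        rw [show 3 * Real.log L = ((3:ℕ):ℝ) * Real.log L by norm_num, Real.exp_nat_mul, Real.exp_log hL0]
  have hsec : ∀ b : ℝ, C2 * L * Real.exp ((3 + 4 * b + b ^ 2) * V) ≤ C5 * (W 4 k T * EV J y b) := by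
    intro b
    have e0 : EV J y b = Real.exp ((4 * b + b ^ 2) * V) := by unfold EV; rw [← hV]
    rw [e0]
    have hb := Real.exp_pos ((4 * b + b ^ 2) * V)
    calc C2 * L * Real.exp ((3 + 4 * b + b ^ 2) * V) =
          C2 * L * (Real.exp (3 * V) * Real.exp ((4 * b + b ^ 2) * V)) := by
          rw [← Real.exp_add]; congr 2; ring
      _ ≤ C2 * L * ((L ^ 3 * Real.exp (3 * D)) * Real.exp ((4 * b + b ^ 2) * V)) := by gcongr
      _ = C2 * Real.exp (3 * D) / c4 * ((c4 * L ^ 4) * Real.exp ((4 * b + b ^ 2) * V)) := by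
          field_simp
      _ ≤ _ := by rw [hC5]; gcongr
  have herr : ∀ E : ℝ, 0 ≤ E → C1 * Real.log y * L ^ 3 * E ≤ κ * (W 4 k T * E) := by
    intro E hE
    calc C1 * Real.log y * L ^ 3 * E = (C1 * η) * L ^ 4 * E := by rw [hly]; ring
      _ ≤ (κ * c4) * L ^ 4 * E := by gcongr
      _ = κ * ((c4 * L ^ 4) * E) := by ring
      _ ≤ _ := by gcongr
  have hlamP : ∀ b : ℝ, |b| ≤ 1 / 16 → B * |b| ≤ κ →
      lam w2 (GP J b (RR Rs) (II y)) ≤ EV J y b * Real.exp (2 * κ) := by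
    intro b hb hBb
    have h1 := (hW2 J Rs (II y) (bb y) (RR Rs) b hRg hRs0 (RR_ge Rs) hb).1.2
    refine h1.trans ?_
    unfold EV
    rw [← Real.exp_add]
    exact Real.exp_le_exp.mpr (arg_up hBb hBx)
  have hlamQ : ∀ (lm : ℕ → ℝ) (b : ℝ), (∀ i, 0 ≤ lm i) → (∀ i, lm i ≤ Real.exp (RR Rs i)) → |b| ≤ 1 / 16 →
      B * |b| ≤ κ →
      lam w2 (GQ lm J b (RR Rs) (II y)) ≤ EV J y b * Real.exp (2 * κ) ∧
      EV J y b * Real.exp (-(2 * κ)) ≤ lam w2 (GQ lm J b (RR Rs) (II y)) := by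
    intro lm b h0 h1 hb hBb
    have h2 := (hW2 J Rs (II y) (bb y) (RR Rs) b hRg hRs0 (RR_ge Rs) hb).2 lm h0 h1
    constructor
    · refine h2.2.trans ?_
      unfold EV
      rw [← Real.exp_add]
      exact Real.exp_le_exp.mpr (arg_up hBb hBx)
    · refine le_trans ?_ h2.1
      unfold EV
      rw [← Real.exp_add]
      exact Real.exp_le_exp.mpr (arg_low hBb hBx)
  have hEV : ∀ b, 0 < EV J y b := fun b => Real.exp_pos _
  have hl0a : ∀ i, (0:ℝ) ≤ l0 i := fun i => le_rfl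
  have hl0b : ∀ i, l0 i ≤ Real.exp (RR Rs i) := fun i => (Real.exp_pos _).le
  have hl1a : ∀ i, (0:ℝ) ≤ l1e Rs i := fun i => (Real.exp_pos _).le
  have hl1b : ∀ i, l1e Rs i ≤ Real.exp (RR Rs i) := fun i => le_rfl
  have hx4κ : Real.exp (4 * Real.exp (-(Rs:ℝ))) ≤ Real.exp κ := Real.exp_le_exp.mpr (by linarith)
  have hx8κ : Real.exp (8 * Real.exp (-(Rs:ℝ))) ≤ Real.exp κ := Real.exp_le_exp.mpr (by linarith)
  have heκ : Real.exp κ ≤ 1 + 2 * κ := exp_two hκ hκ1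
  have heκ' : 1 - κ ≤ Real.exp (-κ) := exp_low
  -- the tilted masses
  have hGP : ∀ b : ℝ, |b| ≤ 2 * a0 →
      IntegrableOn (fun t => om k (k / T) t * (Xz t ^ 4 * gp J b (RR Rs) (II y) t)) (Set.Ioi 0) ∧
      (∫ t in Set.Ioi (0:ℝ), om k (k / T) t * (Xz t ^ 4 * gp J b (RR Rs) (II y) t)) ≤
        (W 4 k T * EV J y b) * (1 + 7 * κ) := by
    intro b hb
    have hb16 : |b| ≤ 1 / 16 := by linarith
    have hBb := (ha0s |b| (abs_nonneg b) hb).1
    obtain ⟨i3, q3⟩ := hT4 y b J (GP J b (RR Rs) (II y)) hBL (Or.inl rfl) hy1 hb16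
    simp_rw [← gp_eq hBL b Rs] at i3 q3
    exact ⟨i3, Pool.Agent.TH298.N4_WIN.mult_err hκ hκ1 (hEV b).le hW0.le (hlamP b hb16 hBb) q3
      (herr _ (hEV b).le)⟩
  have hGM : ∀ b : ℝ, |b| ≤ 2 * a0 → |GM J Rs y b k T - W 4 k T * EV J y b| ≤ 23 * κ * (W 4 k T * EV J y b) := by
    intro b hb
    have hb16 : |b| ≤ 1 / 16 := by linarith
    have hBb := (ha0s |b| (abs_nonneg b) hb).1
    obtain ⟨i3, q3⟩ := hGP b hb
    obtain ⟨i1, q1⟩ := hT4 y b J (GQ l0 J b (RR Rs) (II y)) hBL (Or.inr ⟨l0, hl0a, hl0b, rfl⟩) hy1 hb16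
    obtain ⟨i2, q2⟩ := hT4 y b J (GQ (l1e Rs) J b (RR Rs) (II y)) hBL (Or.inr ⟨l1e Rs, hl1a, hl1b, rfl⟩) hy1 hb16
    simp_rw [← gq_eq hBL l0 b Rs] at i1 q1
    simp_rw [← gq_eq hBL (l1e Rs) b Rs] at i2 q2
    have h1 := hlamQ l0 b hl0a hl0b hb16 hBb
    have h2 := hlamQ (l1e Rs) b hl1a hl1b hb16 hBb
    have q1' := Pool.Agent.TH298.N4_WIN.mult_err2 hκ hκ1 (hEV b).le hW0.le h1.1 h1.2 q1 (herr _ (hEV b).le)
    have q2' := Pool.Agent.TH298.N4_WIN.mult_err2 hκ hκ1 (hEV b).le hW0.le h2.1 h2.2 q2 (herr _ (hEV b).le)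
    have g0 : 0 ≤ GM J Rs y b k T :=
      setIntegral_nonneg (Gd_meas hBL) fun t ht => ft_nn hδ b ht.1
    have g3 : 0 ≤ ∫ t in Set.Ioi (0:ℝ), om k (k / T) t * (Xz t ^ 4 * gp J b (RR Rs) (II y) t) := by
      refine setIntegral_nonneg measurableSet_Ioi fun t ht => ?_
      have := om_nn k hδ (le_of_lt ht)
      have := gp_nonneg J b (RR Rs) (II y) t
      have := Xz_nonneg t
      positivity
    exact gm_num hκ hκ1 (mul_pos hW0 (hEV b)).le hx4κ hx8κ (Real.exp_pos _).le g0 q1' q2' q3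
      (gm_low hBL hRs hδ hb16 i1 i2) (gm_up' hBL hRs hδ hb16 i3) g3
  -- the law of the prime sum
  have hlaw : ∀ (a v : ℝ), |a| ≤ a0 → v = Real.log C0 + (2 + a) * Real.log L + u * Real.sqrt (1 / 2 * Real.log L) →
      ∫ t in Gd J Rs y ∩ {t | Sr J (II y) t ≤ v + K}, ft J y a k T t ≤
        (Ga (u + d) + ε1) * (W 4 k T * EV J y a) := by
    intro a v ha hv
    have h1 := core (Rs := Rs) hBL hδ (a := a) hW0 hV hσ hσ0 (κ1 := 23 * κ) (by positivity) hQ (fun b hb => by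
      apply hGM
      calc |a + b| ≤ |a| + |b| := abs_add_le _ _
        _ ≤ a0 + a0 := add_le_add ha (hb.trans hσA)
        _ = 2 * a0 := by ring) hκκ
    have h2 := (abs_le.mp h1).2
    have h3 : v + K ≤ (2 + a) * V + (u + d) * σ :=
      lev_pos (L := 0) (by linarith [sq_nonneg N0]) hV0.le hVL hσ (by linarith) hd
        ((le_max_right _ _).trans hσN) hv rfl
    have h4 : ∫ t in Gd J Rs y ∩ {t | Sr J (II y) t ≤ v + K}, ft J y a k T t ≤
        ∫ t in Gd J Rs y ∩ {t | Sr J (II y) t ≤ (2 + a) * V + (u + d) * σ}, ft J y a k T t := by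
      refine setIntegral_mono_set ((ft_intG hBL hδ a).mono_set Set.inter_subset_left) ?_ ?_
      · refine (ae_restrict_iff' ((Gd_meas hBL).inter (meas_S hBL _))).mpr (Eventually.of_forall fun t ht => ?_)
        exact ft_nn hδ a ht.1.1
      · refine Eventually.of_forall fun t ht => ⟨ht.1, ?_⟩
        exact le_trans ht.2 h3
    exact law_num h4 h2
  have hlev : ∀ β : ℝ, C0 * lev T β u = Real.exp (Real.log C0 + β / 2 * Real.log L +
      u * Real.sqrt (1 / 2 * Real.log L)) := by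
    intro β
    unfold lev
    rw [← hLd, Real.exp_add, Real.exp_add, Real.exp_log (by linarith), Real.rpow_def_of_pos hL0, mul_comm (Real.log L)]
    ring
  refine ⟨fun β hβ1 hβ2 f hfi hf => ?_, fun β hβ1 hβ2 f hfi hf => ?_⟩
  · -- below four
    obtain ⟨a, hβe⟩ : ∃ a : ℝ, β = 4 - 2 * a := ⟨(4 - β) / 2, by ring⟩
    have ha0' : 0 ≤ a := by linarith
    have haa0 : a ≤ a0 := by linarith
    have ha16 : a ≤ 1 / 16 := by linarith
    have hna : |(-a)| = a := by rw [abs_neg, abs_of_nonneg ha0']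
    obtain ⟨haB, haC5, ha5D, haK⟩ := ha0s a ha0' (by linarith)
    have habs : |4 * (-a) + (-a) ^ 2| ≤ 5 * a := (abs_quad4 ha0' ha16).1
    have hcmp := (Pool.Agent.TH298.N4_WIN.cmp4 (b := 4 * (-a) + (-a) ^ 2) (κ := κ) hL0 hW0.le hVL
      ((mul_le_mul_of_nonneg_right habs hD0).trans ha5D)).1
    have hMe : β ^ 2 / 4 - 4 = 4 * (-a) + (-a) ^ 2 := by rw [hβe]; ring
    rw [← hMe] at hcmp
    have hEe : EV J y (-a) = Real.exp ((β ^ 2 / 4 - 4) * V) := by unfold EV; rw [← hV, hMe]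
    rw [← hEe] at hcmp
    obtain ⟨i3, q3⟩ := hGP (-a) (by rw [hna]; linarith)
    have qG := hGM (-a) (by rw [hna]; linarith)
    have q5 := hT2 y (-a) J hBL hy2 (by rw [hna]; exact ha16)
    rw [← sub_eq_add_neg, ← hV] at q5
    have q5' := q5.trans (hsec (-a))
    obtain ⟨v, hv⟩ : ∃ v : ℝ, v = Real.log C0 + β / 2 * Real.log L + u * Real.sqrt (1 / 2 * Real.log L) := ⟨_, rfl⟩
    have hv' : v = Real.log C0 + (2 + -a) * Real.log L + u * Real.sqrt (1 / 2 * Real.log L) := by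
      rw [hv, hβe]; ring
    have qP := hlaw (-a) v (by rw [hna]; exact haa0) hv'
    have hmain := int_minus (v := v) hBL hRs hδ ha0' ha16 hK0 i3 hfi (fun t ht => by
      have := hf t ht
      rw [hlev β, ← hv] at this
      rwa [← hβe])
    have hL4 : 0 ≤ L ^ (β ^ 2 / 4 - 4) * W 4 k T := by positivity
    have hfin := num_minus (C5 := C5) (C5' := C5) (M := L ^ (β ^ 2 / 4 - 4) * W 4 k T) hκ hκ1 hκε hε11
      (mul_pos hW0 (hEV (-a))).le
      (he1 := by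
        have : Real.exp (2 * a * K) ≤ Real.exp κ := Real.exp_le_exp.mpr haK
        exact this.trans heκ) (Real.exp_pos _).le qP hd' (Ga_nonneg u) (Ga_le_one u) (Ga_nonneg _)
      (hx8κ.trans heκ) (Real.exp_pos _).le hKC (Real.exp_pos _).le ha0' haC5 q5' q3 qG rfl hmain
      (hcmp.trans (mul_le_mul_of_nonneg_right heκ hL4)) hL4
    exact fac_up hfin hL4 hε1ε
  · -- above four
    obtain ⟨a, hβe⟩ : ∃ a : ℝ, β = 4 + 2 * a := ⟨(β - 4) / 2, by ring⟩
    have ha0' : 0 ≤ a := by linarith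
    have haa0 : a ≤ a0 := by linarith
    have ha16 : a ≤ 1 / 16 := by linarith
    have hna : |a| = a := abs_of_nonneg ha0'
    obtain ⟨haB, haC5, ha5D, haK⟩ := ha0s a ha0' (by linarith)
    have habs : |4 * a + a ^ 2| ≤ 5 * a := (abs_quad4 ha0' ha16).2
    have hcmp := (Pool.Agent.TH298.N4_WIN.cmp4 (b := 4 * a + a ^ 2) (κ := κ) hL0 hW0.le hVL
      ((mul_le_mul_of_nonneg_right habs hD0).trans ha5D)).2
    have hMe : β ^ 2 / 4 - 4 = 4 * a + a ^ 2 := by rw [hβe]; ring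
    rw [← hMe] at hcmp
    have hEe : EV J y a = Real.exp ((β ^ 2 / 4 - 4) * V) := by unfold EV; rw [← hV, hMe]
    rw [← hEe] at hcmp
    have qG := hGM a (by rw [hna]; linarith)
    have q5 := hT2 y a J hBL hy2 (by rw [hna]; exact ha16)
    rw [← hV] at q5
    have q5' := q5.trans (hsec a)
    obtain ⟨v, hv⟩ : ∃ v : ℝ, v = Real.log C0 + β / 2 * Real.log L + u * Real.sqrt (1 / 2 * Real.log L) := ⟨_, rfl⟩
    have hv' : v = Real.log C0 + (2 + a) * Real.log L + u * Real.sqrt (1 / 2 * Real.log L) := by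
      rw [hv, hβe]; ring
    have qP := hlaw a v (by rw [hna]; exact haa0) hv'
    have hmain := int_plus (v := v) hBL hRs hδ ha0' ha16 hK0 hfi (fun t ht => by
      have := hf t ht
      rw [hlev β, ← hv] at this
      rwa [← hβe])
    have hL4 : 0 ≤ L ^ (β ^ 2 / 4 - 4) * W 4 k T := by positivity
    have hm : MeasurableSet (Gd J Rs y) := Gd_meas hBL
    have hsplit : GM J Rs y a k T = (∫ t in Gd J Rs y ∩ {t | Sr J (II y) t ≤ v + K}, ft J y a k T t) +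
        ∫ t in Gd J Rs y ∩ {t | v + K < Sr J (II y) t}, ft J y a k T t := by
      unfold GM
      rw [← integral_inter_add_sdiff₀ (meas_S hBL (v + K)).nullMeasurableSet (ft_intG hBL hδ a)]
      congr 3
      ext t
      simp only [Set.mem_sdiff, Set.mem_inter_iff, Set.mem_setOf_eq, not_le]
    have hP2 : 0 ≤ ∫ t in Gd J Rs y ∩ {t | v + K < Sr J (II y) t}, ft J y a k T t :=
      setIntegral_nonneg (hm.inter (meas_S' hBL _)) fun t ht => ft_nn hδ a ht.1.1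
    have hF0 : 0 ≤ ∫ t in Set.Ioi (0:ℝ), om k (k / T) t * f t := by
      refine setIntegral_nonneg measurableSet_Ioi fun t ht => mul_nonneg (om_nn k hδ (le_of_lt ht)) ?_
      refine le_trans ?_ (hf t ht)
      split_ifs
      · exact Real.rpow_nonneg (Xz_nonneg t) _
      · exact le_rfl
    have hfin := num_plus (C5 := C5) (M := L ^ (β ^ 2 / 4 - 4) * W 4 k T) hκ hκ1 hκε hε11
      (mul_pos hW0 (hEV a)).le
      (he1 := by
        have : Real.exp (-κ) ≤ Real.exp (-(2 * a * K)) := Real.exp_le_exp.mpr (by linarith)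
        exact heκ'.trans this) (Real.exp_pos _).le qP hsplit hP2 hd' (Ga_nonneg u) (Ga_le_one u)
      (hx8κ.trans heκ) (Real.exp_pos _).le hKC (Real.exp_pos _).le q5' qG hmain
      ((mul_le_mul_of_nonneg_right heκ' hL4).trans hcmp) hL4 hF0
    exact fac_low hfin hL4 hε1ε

end

end Pool.Agent.K6.H29
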